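import Pool.Agent.H49.TF.Base

/-!
# CALC: second and third derivatives

* `D2_symm`: `second_derivative_symmetric` / `ContDiffAt.isSymmSndFDerivAt` (with `minSmoothness`).
* `D3_symm`: the first two arguments: `D2_symm` for the function `fderiv ℝ u` (vector valued); the last two: `D2 u` is
  symmetric at all points near `y` (`hu.eventually`), so is its derivative (apply `fderiv` to the identity `D2 u z b c = D2 u z c b`).
* `D2_comp`: near `z`: `fderiv (u ∘ χ) x = (fderiv u (χ x)).comp (fderiv χ x)`; differentiate at `z`; the term with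
  `D2 χ` vanishes because `fderiv u (χ z) = 0`.
* `D2_smul`, `D3_smul`, `D2_add_lin`, `D3_add_lin`: clear (`fderiv` of a sum / multiple; the derivative of a linear function is constant).
* `fderiv_D2_apply`: `fun z => D2 u z b c` has derivative `a ↦ D3 u y a b c`.
-/

set_option autoImplicit false

open scoped Topology ContDiff RealInnerProductSpace
open Filter Set

namespace TotFoc

variable {V V' F : Type*} [NormedAddCommGroup V] [NormedSpace ℝ V] [NormedAddCommGroup V']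
  [NormedSpace ℝ V'] [NormedAddCommGroup F] [NormedSpace ℝ F]

theorem D2_symm {u : V → F} {y : V} (hu : ContDiffAt ℝ 2 u y) (a b : V) :
    D2 u y a b = D2 u y b a := by
  have h := hu.isSymmSndFDerivAt (by simp)
  exact h a b

theorem contDiffAt_D1 {u : V → F} {y : V} {n m : ℕ∞ω} (hu : ContDiffAt ℝ n u y) (h : m + 1 ≤ n) :
    ContDiffAt ℝ m (fderiv ℝ u) y :=
  hu.fderiv_right h

theorem contDiffAt_D2 {u : V → F} {y : V} {n m : ℕ∞ω} (hu : ContDiffAt ℝ n u y) (h : m + 2 ≤ n) :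
    ContDiffAt ℝ m (D2 u) y := by
  have h1 : m + 1 + 1 ≤ n := by
    rw [add_assoc, one_add_one_eq_two]
    exact h
  exact contDiffAt_D1 (contDiffAt_D1 hu h1) le_rfl

theorem Calc_diff {u : V → F} {y : V} (hu : ContDiffAt ℝ 2 u y) :
    DifferentiableAt ℝ (fderiv ℝ u) y :=
  (contDiffAt_D1 (m := 1) hu (by norm_num)).differentiableAt one_ne_zero

theorem Calc_diff2 {u : V → F} {y : V} (hu : ContDiffAt ℝ 3 u y) :
    DifferentiableAt ℝ (D2 u) y :=
  (contDiffAt_D2 (m := 1) hu (by norm_num)).differentiableAt one_ne_zero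

theorem D3_symm_left {u : V → F} {y : V} (hu : ContDiffAt ℝ 3 u y) (a b c : V) :
    D3 u y a b c = D3 u y b a c := by
  have h : D2 (fderiv ℝ u) y a b = D2 (fderiv ℝ u) y b a :=
    D2_symm (contDiffAt_D1 (m := 2) hu (by norm_num)) a b
  have h2 : ∀ a b : V, D3 u y a b = D2 (fderiv ℝ u) y a b := fun a b => rfl
  rw [h2 a b, h2 b a, h]

theorem fderiv_D1_apply {u : V → F} {y : V} (hu : ContDiffAt ℝ 2 u y) (a b : V) :
    fderiv ℝ (fun z => fderiv ℝ u z b) y a = D2 u y a b := by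
  have h2 : HasFDerivAt (fun z => fderiv ℝ u z b)
      ((ContinuousLinearMap.apply ℝ F b).comp (fderiv ℝ (fderiv ℝ u) y)) y :=
    (ContinuousLinearMap.apply ℝ F b).hasFDerivAt.comp y (Calc_diff hu).hasFDerivAt
  rw [h2.fderiv]
  rfl

theorem fderiv_D2_apply {u : V → F} {y : V} (hu : ContDiffAt ℝ 3 u y) (a b c : V) :
    fderiv ℝ (fun z => D2 u z b c) y a = D3 u y a b c := by
  have h1 : HasFDerivAt (fun z => D2 u z b)
      ((ContinuousLinearMap.apply ℝ (V →L[ℝ] F) b).comp (fderiv ℝ (D2 u) y)) y :=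
    HasFDerivAt.comp (g := fun A : V →L[ℝ] V →L[ℝ] F => A b) (f := D2 u) y
      (ContinuousLinearMap.apply ℝ (V →L[ℝ] F) b).hasFDerivAt (Calc_diff2 hu).hasFDerivAt
  have h2 : HasFDerivAt (fun z => D2 u z b c)
      ((ContinuousLinearMap.apply ℝ F c).comp
        ((ContinuousLinearMap.apply ℝ (V →L[ℝ] F) b).comp (fderiv ℝ (D2 u) y))) y :=
    (ContinuousLinearMap.apply ℝ F c).hasFDerivAt.comp y h1
  rw [h2.fderiv]
  rfl

theorem D3_symm_right {u : V → F} {y : V} (hu : ContDiffAt ℝ 3 u y) (a b c : V) :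
    D3 u y a b c = D3 u y a c b := by
  rw [← fderiv_D2_apply hu a b c, ← fderiv_D2_apply hu a c b]
  have h : (fun z => D2 u z b c) =ᶠ[𝓝 y] fun z => D2 u z c b := by
    have h1 : ∀ᶠ z in 𝓝 y, ContDiffAt ℝ 3 u z := hu.eventually (by simp)
    filter_upwards [h1] with z hz
    exact D2_symm (hz.of_le (by norm_num)) b c
  rw [h.fderiv_eq]

theorem Calc_diff_nhds {u : V → F} {y : V} (hu : ContDiffAt ℝ 2 u y) :
    ∀ᶠ z in 𝓝 y, DifferentiableAt ℝ u z := by
  have h1 : ∀ᶠ z in 𝓝 y, ContDiffAt ℝ 2 u z := hu.eventually (by simp)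
  exact h1.mono fun z hz => hz.differentiableAt (by norm_num)

theorem D2_comp {u : V → ℝ} {χ : V' → V} {z : V'} (hu : ContDiffAt ℝ 2 u (χ z))
    (hχ : ContDiffAt ℝ 2 χ z) (h0 : fderiv ℝ u (χ z) = 0) (a b : V') :
    D2 (fun x => u (χ x)) z a b = D2 u (χ z) (fderiv ℝ χ z a) (fderiv ℝ χ z b) := by
  have hχd : DifferentiableAt ℝ χ z := hχ.differentiableAt (by norm_num)
  have h1 : (fderiv ℝ fun x => u (χ x)) =ᶠ[𝓝 z]
      fun x => (fderiv ℝ u (χ x)).comp (fderiv ℝ χ x) := by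
    filter_upwards [hχ.continuousAt.tendsto.eventually (Calc_diff_nhds hu),
      Calc_diff_nhds hχ] with x hx1 hx2
    exact (hx1.hasFDerivAt.comp x hx2.hasFDerivAt).fderiv
  have h2 : HasFDerivAt (fun x => fderiv ℝ u (χ x))
      ((fderiv ℝ (fderiv ℝ u) (χ z)).comp (fderiv ℝ χ z)) z :=
    (Calc_diff hu).hasFDerivAt.comp z hχd.hasFDerivAt
  have h3 : HasFDerivAt (fderiv ℝ χ) (fderiv ℝ (fderiv ℝ χ) z) z :=
    (Calc_diff hχ).hasFDerivAt
  have h4 := h2.clm_comp h3
  unfold D2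
  rw [h1.fderiv_eq, h4.fderiv]
  simp [h0]

theorem D2_congr {u v : V → F} {y : V} (h : ∀ᶠ z in 𝓝 y, u z = v z) : D2 u y = D2 v y := by
  have h1 : u =ᶠ[𝓝 y] v := h
  exact (h1.fderiv (𝕜 := ℝ)).fderiv_eq

theorem D3_congr {u v : V → F} {y : V} (h : ∀ᶠ z in 𝓝 y, u z = v z) : D3 u y = D3 v y := by
  have h1 : D2 u =ᶠ[𝓝 y] D2 v := by
    filter_upwards [h.eventually_nhds] with z hz
    exact D2_congr hz
  exact h1.fderiv_eq

theorem Calc_D2_smul (k : ℝ) (u : V → F) : D2 (k • u) = k • D2 u := by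
  have h1 : fderiv ℝ (k • u) = k • fderiv ℝ u := fderiv_const_smul_field k
  have h2 : fderiv ℝ (k • fderiv ℝ u) = k • fderiv ℝ (fderiv ℝ u) :=
    fderiv_const_smul_field (𝕜 := ℝ) (R := ℝ) (f := fderiv ℝ u) k
  funext y
  unfold D2
  rw [h1, h2]

/-- multiples -/
theorem D2_const_mul (k : ℝ) {u : V → ℝ} {y : V} (hu : ContDiffAt ℝ 2 u y) (a b : V) :
    D2 (fun z => k * u z) y a b = k * D2 u y a b := by
  have h : (fun z => k * u z) = k • u := rfl
  rw [h, Calc_D2_smul]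
  rfl

theorem D3_const_mul (k : ℝ) {u : V → ℝ} {y : V} (hu : ContDiffAt ℝ 3 u y) (a b c : V) :
    D3 (fun z => k * u z) y a b c = k * D3 u y a b c := by
  have h : (fun z => k * u z) = k • u := rfl
  have h2 : fderiv ℝ (k • D2 u) = k • fderiv ℝ (D2 u) :=
    fderiv_const_smul_field (𝕜 := ℝ) (R := ℝ) (f := D2 u) k
  unfold D3
  rw [h, Calc_D2_smul, h2]
  rfl

/-- adding an affine function does not change the second and third derivatives -/
theorem D2_add_affine {u : V → ℝ} {y : V} (hu : ContDiffAt ℝ 2 u y) (L : V →L[ℝ] ℝ) (k : ℝ)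
    (a b : V) : D2 (fun z => u z + (L z + k)) y a b = D2 u y a b := by
  have h1 : (fderiv ℝ fun z => u z + (L z + k)) =ᶠ[𝓝 y] fun z => fderiv ℝ u z + L := by
    filter_upwards [Calc_diff_nhds hu] with z hz
    have h2 : HasFDerivAt (fun z => L z + k) L z := L.hasFDerivAt.add_const k
    exact (hz.hasFDerivAt.add h2).fderiv
  unfold D2
  rw [h1.fderiv_eq]
  have h3 : HasFDerivAt (fun z => fderiv ℝ u z + L) (fderiv ℝ (fderiv ℝ u) y) y :=
    (Calc_diff hu).hasFDerivAt.add_const L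
  rw [h3.fderiv]

theorem D3_add_affine {u : V → ℝ} {y : V} (hu : ContDiffAt ℝ 3 u y) (L : V →L[ℝ] ℝ) (k : ℝ)
    (a b c : V) : D3 (fun z => u z + (L z + k)) y a b c = D3 u y a b c := by
  have h1 : D2 (fun z => u z + (L z + k)) =ᶠ[𝓝 y] D2 u := by
    have h2 : ∀ᶠ z in 𝓝 y, ContDiffAt ℝ 3 u z := hu.eventually (by simp)
    filter_upwards [h2] with z hz
    ext a b
    exact D2_add_affine (hz.of_le (by norm_num)) L k a b
  unfold D3
  rw [h1.fderiv_eq]

end TotFoc
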