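import Pool.Agent.H49.TF.Near

/-!
# LCO: functions with vanishing derivative along `X` are locally constant

`φ = gr p T g` is `C^1` near `0`; for `y` near `0` the function `G ∘ φ` has the derivative `L (Dφ(y) Z) = 0` (`HasFDerivWithinAt.comp_hasFDerivAt`-like: `φ z ∈ X` for `z` near `y`; e.g.
`HasFDerivWithinAt.comp` on a neighbourhood `s` of `y` with `MapsTo φ s X`, then `hasFDerivWithinAt` on a neighbourhood is `hasFDerivAt`), because `Dφ(y) Z ∈ tan X (φ y)` (`near_tan`). On a ball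
around `0` the function `G ∘ φ` is therefore constant (`Convex.is_const_of_fderivWithin_eq_zero` or `is_const_of_fderiv_eq_zero` on the ball). Transfer to `X` by `Chart.eventually_iff`.
-/

set_option autoImplicit false

open scoped Topology ContDiff RealInnerProductSpace
open Filter Set

namespace TotFoc

variable {E : Type*} [NormedAddCommGroup E] [InnerProductSpace ℝ E] [FiniteDimensional ℝ E]
  {r : ℕ∞ω} {X : Set E} {F : Type*} [NormedAddCommGroup F] [NormedSpace ℝ F]

theorem loc_const {p : E} {T : Submodule ℝ E} {g : T → E} (h : Chart r X p T g) (h1 : 1 ≤ r)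
    {G : E → F} (hG : ∀ᶠ x in 𝓝 p, x ∈ X → ∃ L : E →L[ℝ] F, HasFDerivWithinAt G L X x ∧
      ∀ v ∈ tan X x, L v = 0) : ∀ᶠ x in 𝓝 p, x ∈ X → G x = G p := by
  have hG' := (h.eventually_iff (fun x => ∃ L : E →L[ℝ] F, HasFDerivWithinAt G L X x ∧
      ∀ v ∈ tan X x, L v = 0)).1 hG
  rw [h.eventually_iff (fun x => G x = G p)]
  have hall : ∀ᶠ y in 𝓝 (0 : T), HasFDerivAt (G ∘ gr p T g) (0 : T →L[ℝ] F) y := by
    filter_upwards [hG', h.near_tan h1, h.near_mem, h.near_cont (n := 1) (by exact_mod_cast h1)]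
      with y ⟨L, hL1, hL2⟩ hy2 hy3 hy4
    have hd : DifferentiableAt ℝ g y := hy4.1.differentiableAt (by norm_num)
    have h2 := hL1.comp_hasFDerivAt y (hasFDerivAt_gr hd) hy3.2
    have h3 : L ∘L (T.subtypeL + fderiv ℝ g y) = 0 := by
      ext Z
      exact hL2 _ ((hy2 _).2 ⟨Z, rfl⟩)
    rwa [h3] at h2
  obtain ⟨ε, hε, hball⟩ := Metric.eventually_nhds_iff_ball.1 hall
  filter_upwards [Metric.ball_mem_nhds (0 : T) hε] with y hy
  have h4 : (G ∘ gr p T g) y = (G ∘ gr p T g) 0 := by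
    refine (convex_ball (0 : T) ε).is_const_of_fderivWithin_eq_zero (𝕜 := ℝ)
      (fun z hz => (hball z hz).differentiableAt.differentiableWithinAt) ?_ hy
      (Metric.mem_ball_self hε)
    intro z hz
    rw [fderivWithin_of_isOpen Metric.isOpen_ball hz]
    exact (hball z hz).fderiv
  have h5 : G (gr p T g y) = G (gr p T g 0) := h4
  rw [h5, h.gr_zero]

/-- `X` is locally connected: every point of `X` has arbitrarily small open neighbourhoods `U` such that any two points of `X ∩ U` can be joined by a curve in `X ∩ U` -/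
theorem Chart.loc_conn {p : E} {T : Submodule ℝ E} {g : T → E} (h : Chart r X p T g) (h1 : 1 ≤ r)
    {O : Set E} (hO : O ∈ 𝓝 p) : ∃ U ⊆ O, IsOpen U ∧ p ∈ U ∧ IsPreconnected (X ∩ U) := by
  have hN0 : {x | x ∈ O ∧ (x ∈ X → gr p T g (T.orthogonalProjectionOnto (x - p)) = x)} ∈ 𝓝 p :=
    Filter.inter_mem hO h.surj
  obtain ⟨N, hN1, hN2, hN3⟩ := mem_nhds_iff.1 hN0
  have hall : ∀ᶠ y in 𝓝 (0 : T), (gr p T g y ∈ X ∧ gr p T g y ∈ N) ∧
      ContinuousAt (gr p T g) y := by
    have h2 : ∀ᶠ y in 𝓝 (0 : T), gr p T g y ∈ N := h.tendsto_gr (hN2.mem_nhds hN3)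
    filter_upwards [h.near_mem, h2, h.near_cont (n := 1) (by exact_mod_cast h1)]
      with y hy1 hy2 hy3
    exact ⟨⟨hy1.1, hy2⟩, hy3.2.continuousAt⟩
  obtain ⟨ε, hε, hball⟩ := Metric.eventually_nhds_iff_ball.1 hall
  have hcont : Continuous fun x : E => T.orthogonalProjectionOnto (x - p) :=
    T.orthogonalProjectionOnto.continuous.comp (continuous_id.sub continuous_const)
  refine ⟨N ∩ {x | T.orthogonalProjectionOnto (x - p) ∈ Metric.ball (0 : T) ε},
    fun x hx => (hN1 hx.1).1, hN2.inter (Metric.isOpen_ball.preimage hcont), ⟨hN3, ?_⟩, ?_⟩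
  · show T.orthogonalProjectionOnto (p - p) ∈ Metric.ball (0 : T) ε
    rw [sub_self, map_zero]
    exact Metric.mem_ball_self hε
  · have himg : X ∩ (N ∩ {x | T.orthogonalProjectionOnto (x - p) ∈ Metric.ball (0 : T) ε}) =
        gr p T g '' Metric.ball (0 : T) ε := by
      ext x
      constructor
      · rintro ⟨hx1, hx2, hx3⟩
        exact ⟨_, hx3, (hN1 hx2).2 hx1⟩
      · rintro ⟨y, hy, rfl⟩
        obtain ⟨⟨h3, h4⟩, -⟩ := hball y hy
        refine ⟨h3, h4, ?_⟩
        show T.orthogonalProjectionOnto (gr p T g y - p) ∈ Metric.ball (0 : T) ε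
        rw [proj_gr h.perp]
        exact hy
    rw [himg]
    exact (convex_ball (0 : T) ε).isPreconnected.image _
      (fun y hy => (hball y hy).2.continuousWithinAt)

end TotFoc
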