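import Pool.Agent.H49.TF.Kappa
import Pool.Agent.H49.TF.LocConst

/-!
# CPX: the connected components of the set of pairs

`comp_nhds`: let `z = (p, q)`, `κ` from `kappa_PP`. By `Chart.loc_conn` there is an open `U ∋ p`, contained in the neighbourhood where `κ` is continuous and `PP X s (κ s)` holds for `s ∈ X`, with `X ∩ U`
preconnected. The image of `X ∩ U` under `s ↦ (s, κ s)` is a preconnected subset of `PX X` containing `z`, so it is in the component (`IsPreconnected.subset_connectedComponentIn`). For `w ∈ PX X` near `z`: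
`w = (w.1, κ w.1)`, `w.1 ∈ X ∩ U`.
`comp_clopen`: let `C` be the component of `z` (`IsPreconnected`). `{w | P w}` and `{w | ¬ P w}` are open relative to `C ⊆ PX X`; `C` is preconnected and `P z`
(`isPreconnected_iff_subset_of_disjoint`, or `IsPreconnected` applied to the open sets `U = ⋃ ...` of points with a neighbourhood...; for instance: `U = interior {x | x ∈ PX X → P x}`,
`V = interior {x | x ∈ PX X → ¬ P x}` are open, `C ⊆ U ∪ V`, `C ∩ (U ∩ V) = ∅`, `z ∈ C ∩ U`, so `C ∩ V = ∅`).
`comp_const`: `P w` is `Γ w = c`; `¬ P` is open because `Γ` is continuous. `comp_locconst`: `P w` is `Γ w = Γ z`.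
`comp_max`: the component is closed in `PX X` (`IsClosed.connectedComponentIn`-like lemma: the component in a closed set is closed; `PX X` is compact: `isCompact_PX`), so compact and nonempty.
-/

set_option autoImplicit false

open scoped Topology ContDiff RealInnerProductSpace
open Filter Set

namespace TotFoc

variable {E : Type*} [NormedAddCommGroup E] [InnerProductSpace ℝ E] [FiniteDimensional ℝ E]
  {r : ℕ∞ω} {X : Set E}

theorem comp_nhds (hr : ∞ ≤ r) (h : IsSub r X) (h1 : TF1 r X) {z : E × E} (hz : z ∈ PX X) :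
    ∀ᶠ w in 𝓝 z, w ∈ PX X → w ∈ connectedComponentIn (PX X) z := by
  have hr1 : 1 ≤ r := by
    refine le_trans ?_ hr
    have : ((1 : ℕ∞) : ℕ∞ω) ≤ ((⊤ : ℕ∞) : ℕ∞ω) := WithTop.coe_le_coe.mpr le_top
    exact this
  obtain ⟨p, q⟩ := z
  have hz' : PP X p q := hz
  obtain ⟨κ, k1, k2, k3, k4⟩ := kappa_PP hr h h1 hz'
  obtain ⟨T, g, hc, -⟩ := h.2 p hz'.1
  obtain ⟨U, hUO, hU, hpU, hconn⟩ := hc.loc_conn hr1 k3
  have himg : IsPreconnected ((fun s => (s, κ s)) '' (X ∩ U)) := by
    refine hconn.image _ ?_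
    intro s hs
    exact (continuousAt_id.prodMk (hUO hs.2).1.continuousAt).continuousWithinAt
  have hsub : (fun s => (s, κ s)) '' (X ∩ U) ⊆ PX X := by
    rintro _ ⟨s, hs, rfl⟩
    exact (hUO hs.2).2.1 hs.1
  have hmem : (p, q) ∈ (fun s => (s, κ s)) '' (X ∩ U) := ⟨p, ⟨hz'.1, hpU⟩, by
    show (p, κ p) = (p, q)
    rw [k2]⟩
  have hsub2 := himg.subset_connectedComponentIn hmem hsub
  have hfst : ∀ᶠ w : E × E in 𝓝 (p, q), w.1 ∈ U :=
    (continuous_fst.tendsto (p, q)).eventually (hU.mem_nhds hpU)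
  filter_upwards [k4, hfst] with w hw1 hw2 hw3
  have hw4 : PP X w.1 w.2 := hw3
  have hw5 := hw1 hw4
  apply hsub2
  refine ⟨w.1, ⟨hw4.1, hw2⟩, ?_⟩
  show (w.1, κ w.1) = w
  rw [← hw5]

theorem comp_clopen {A : Set (E × E)} {z : E × E} (hz : z ∈ A) {P : E × E → Prop} (h0 : P z)
    (ho : ∀ w ∈ connectedComponentIn A z, P w → ∀ᶠ x in 𝓝 w, x ∈ A → P x)
    (hc : ∀ w ∈ connectedComponentIn A z, ¬ P w → ∀ᶠ x in 𝓝 w, x ∈ A → ¬ P x) :
    ∀ w ∈ connectedComponentIn A z, P w := by
  have hpre : IsPreconnected (connectedComponentIn A z) := isPreconnected_connectedComponentIn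
  rw [isPreconnected_iff_subset_of_disjoint] at hpre
  have hzC : z ∈ connectedComponentIn A z := mem_connectedComponentIn hz
  have hCA := connectedComponentIn_subset A z
  have c1 : connectedComponentIn A z ⊆
      interior {x | x ∈ A → P x} ∪ interior {x | x ∈ A → ¬ P x} := by
    intro w hw
    by_cases hP : P w
    · left
      exact mem_interior_iff_mem_nhds.mpr (ho w hw hP)
    · right
      exact mem_interior_iff_mem_nhds.mpr (hc w hw hP)
  have c2 : connectedComponentIn A z ∩
      (interior {x | x ∈ A → P x} ∩ interior {x | x ∈ A → ¬ P x}) = ∅ := by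
    rw [Set.eq_empty_iff_forall_notMem]
    rintro w ⟨hw, hw1, hw2⟩
    exact (interior_subset hw2) (hCA hw) ((interior_subset hw1) (hCA hw))
  rcases hpre (interior {x | x ∈ A → P x}) (interior {x | x ∈ A → ¬ P x}) isOpen_interior
    isOpen_interior c1 c2 with h | h
  · intro w hw
    exact interior_subset (h hw) (hCA hw)
  · exact absurd h0 (interior_subset (h hzC) hz)

theorem comp_const {A : Set (E × E)} {z : E × E} {Γ : E × E → ℝ} (hΓ : Continuous Γ) {c : ℝ}
    {w₀ : E × E} (hw₀ : w₀ ∈ connectedComponentIn A z) (h0 : Γ w₀ = c)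
    (hl : ∀ w ∈ connectedComponentIn A z, Γ w = c → ∀ᶠ x in 𝓝 w, x ∈ A → Γ x = c) :
    ∀ w ∈ connectedComponentIn A z, Γ w = c := by
  have hA : w₀ ∈ A := connectedComponentIn_subset A z hw₀
  rw [connectedComponentIn_eq hw₀] at hl ⊢
  refine comp_clopen hA (P := fun w => Γ w = c) h0 hl ?_
  intro w _ hne
  filter_upwards [hΓ.continuousAt.eventually_ne hne] with x hx _
  exact hx

theorem comp_locconst {A : Set (E × E)} {z : E × E} {α : Type*} {Γ : E × E → α}
    (hl : ∀ w ∈ connectedComponentIn A z, ∀ᶠ x in 𝓝 w, x ∈ A → Γ x = Γ w) :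
    ∀ w ∈ connectedComponentIn A z, Γ w = Γ z := by
  intro w hw
  have hz : z ∈ A := connectedComponentIn_nonempty_iff.mp ⟨w, hw⟩
  refine comp_clopen hz (P := fun w => Γ w = Γ z) rfl ?_ ?_ w hw
  · intro w hw hP
    filter_upwards [hl w hw] with x hx hxA
    rw [hx hxA, hP]
  · intro w hw hP
    filter_upwards [hl w hw] with x hx hxA
    rw [hx hxA]
    exact hP

theorem comp_max {A : Set (E × E)} (hA : IsCompact A) {z : E × E} (hz : z ∈ A)
    {Γ : E × E → ℝ} (hΓ : Continuous Γ) :
    ∃ w ∈ connectedComponentIn A z, ∀ x ∈ connectedComponentIn A z, Γ x ≤ Γ w := by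
  have hzC : z ∈ connectedComponentIn A z := mem_connectedComponentIn hz
  have hcl : IsClosed (connectedComponentIn A z) := by
    rw [← closure_subset_iff_isClosed]
    refine IsPreconnected.subset_connectedComponentIn
      (isPreconnected_connectedComponentIn.closure) (subset_closure hzC) ?_
    exact closure_minimal (connectedComponentIn_subset A z) hA.isClosed
  have hco : IsCompact (connectedComponentIn A z) :=
    hA.of_isClosed_subset hcl (connectedComponentIn_subset A z)
  obtain ⟨w, hw, hmax⟩ := hco.exists_isMaxOn ⟨z, hzC⟩ hΓ.continuousOn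
  exact ⟨w, hw, fun x hx => hmax hx⟩

end TotFoc
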