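import Pool.Agent.H49.TF.Kappa
import Pool.Agent.H49.TF.LocConst

/-!
# DEG: the distance function on the pairs

Write `π = Lᗮ.starProjection` (the orthogonal projection as a map `E →L[ℝ] E`). `Lx X ≤ (tan X s)ᗮ` for `s ∈ X` (`Lx` is an infimum), so `tan X s ≤ (Lx X)ᗮ ≤ Lᗮ`.
`lx_const`: `loc_const` for `G = (Lx X).starProjection`, which vanishes on `tan X s ≤ (Lx X)ᗮ`. `sph_const`: `loc_const` for `‖x - o‖²`, with derivative `2 ⟪x - o, v⟫ = 0`.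
`deriv_G`: `κ` from `kappa_PP`. For `s ∈ X` near `p` the derivative of `‖π (s - κ s)‖²` is `Λ v = 2 ⟪π (s - κ s), π (v - Dκ(s) v)⟫ = 2 ⟪π (s - κ s), v - Dκ(s) v⟫` for `v ∈ tan X s`
(`v`, `Dκ v ∈ tan X (κ s)` are in `Lᗮ`; `π` is self-adjoint) `= 2 ⟪s - κ s, v - Dκ(s) v⟫` (the component of `s - κ s` in `L` is orthogonal to `Lᗮ`) `= 2 ⟪s - κ s, v⟫`, because
`κ s - s ∈ (tan X (κ s))ᗮ` (`PP X s (κ s)`).
`dist_const`: for `s ∈ X` near `p`: `Dn X s (κ s)`, so `⟪s - κ s, v⟫ = 0` for `v ∈ tan X s`: `loc_const` for `s ↦ Gd L s (κ s)`, and `x.2 = κ x.1` for `PP X x.1 x.2` near `(p, q)`.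
`ext_crit`: `s ↦ Gd L s (κ s)` restricted to `X` has a local extremum at `p`; composed with a chart `gr p T g` the derivative at `0` vanishes: `Λ Z = 0` for `Z ∈ T = tan X p`, so
`p - q ∈ (tan X p)ᗮ`, which is `Crit X 1 q p`. `q ∈ X` by `PP X p q`.
-/

set_option autoImplicit false

open scoped Topology ContDiff RealInnerProductSpace
open Filter Set

namespace TotFoc

variable {E : Type*} [NormedAddCommGroup E] [InnerProductSpace ℝ E] [FiniteDimensional ℝ E]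
  {r : ℕ∞ω} {X : Set E}

/-- the squared length of the component orthogonal to `L` of the chord -/
noncomputable def Gd (L : Submodule ℝ E) (p q : E) : ℝ := ‖Lᗮ.starProjection (p - q)‖ ^ 2

theorem lx_le {x : E} (hx : x ∈ X) : Lx X ≤ (tan X x)ᗮ := by
  unfold Lx
  exact iInf₂_le x hx

theorem Gd_eq_zero_iff {L : Submodule ℝ E} {p q : E} : Gd L p q = 0 ↔ p - q ∈ L := by
  unfold Gd
  rw [sq_eq_zero_iff, norm_eq_zero, Submodule.starProjection_apply_eq_zero_iff,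
    Submodule.orthogonal_orthogonal]

theorem Gd_bot {p q : E} : Gd (⊥ : Submodule ℝ E) p q = ‖p - q‖ ^ 2 := by
  unfold Gd
  have h : (⊥ : Submodule ℝ E)ᗮ.starProjection (p - q) = p - q := by
    rw [Submodule.starProjection_eq_self_iff, Submodule.bot_orthogonal_eq_top]
    exact Submodule.mem_top
  rw [h]

theorem continuous_Gd (L : Submodule ℝ E) : Continuous fun x : E × E => Gd L x.1 x.2 := by
  unfold Gd
  fun_prop

private theorem DerG_tan_le {L : Submodule ℝ E} (hL : L ≤ Lx X) {s : E} (hs : s ∈ X) : tan X s ≤ Lᗮ := by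
  intro v hv
  rw [Submodule.mem_orthogonal]
  intro u hu
  have h1 : u ∈ (tan X s)ᗮ := lx_le hs (hL hu)
  rw [real_inner_comm]
  exact (Submodule.mem_orthogonal _ _).1 h1 v hv

theorem lx_const {p : E} {T : Submodule ℝ E} {g : T → E} (h : Chart r X p T g) (h1 : 1 ≤ r) :
    ∀ᶠ s in 𝓝 p, s ∈ X → (Lx X).starProjection s = (Lx X).starProjection p := by
  refine loc_const h h1 (G := fun s => (Lx X).starProjection s) ?_
  refine Filter.Eventually.of_forall fun x hx => ⟨(Lx X).starProjection,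
    (Lx X).starProjection.hasFDerivAt.hasFDerivWithinAt, fun v hv => ?_⟩
  rw [Submodule.starProjection_apply_eq_zero_iff]
  exact DerG_tan_le le_rfl hx hv

theorem sph_const {p : E} {T : Submodule ℝ E} {g : T → E} (h : Chart r X p T g) (h1 : 1 ≤ r)
    {o : E} (hs : Sph X o) : ∀ᶠ s in 𝓝 p, s ∈ X → ‖s - o‖ = ‖p - o‖ := by
  have h2 : ∀ᶠ s in 𝓝 p, s ∈ X → ‖s - o‖ ^ 2 = ‖p - o‖ ^ 2 := by
    refine loc_const h h1 (G := fun s => ‖s - o‖ ^ 2) ?_
    refine Filter.Eventually.of_forall fun x hx => ?_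
    have h3 : HasFDerivAt (fun s : E => s - o) (ContinuousLinearMap.id ℝ E) x :=
      (hasFDerivAt_id x).sub_const o
    have h4 := h3.norm_sq
    refine ⟨_, h4.hasFDerivWithinAt, fun v hv => ?_⟩
    have h5 : ⟪x - o, v⟫ = 0 := (Submodule.mem_orthogonal' _ _).1 (hs x hx) v hv
    show (2 : ℕ) • ⟪x - o, v⟫ = 0
    rw [h5, smul_zero]
  filter_upwards [h2] with s hs2 hsX
  have h3 := hs2 hsX
  exact (sq_eq_sq₀ (norm_nonneg _) (norm_nonneg _)).1 h3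

theorem deriv_G (hr : ∞ ≤ r) (h : IsSub r X) (h1 : TF1 r X) {L : Submodule ℝ E} (hL : L ≤ Lx X)
    {p q : E} (hpq : PP X p q) :
    ∃ κ : E → E, ContinuousAt κ p ∧ κ p = q ∧ (∀ᶠ s in 𝓝 p, s ∈ X → PP X s (κ s)) ∧
      (∀ᶠ x : E × E in 𝓝 (p, q), PP X x.1 x.2 → x.2 = κ x.1) ∧
      ∀ᶠ s in 𝓝 p, s ∈ X → ∃ Λ : E →L[ℝ] ℝ, HasFDerivAt (fun s => Gd L s (κ s)) Λ s ∧
        ∀ v ∈ tan X s, Λ v = 2 * ⟪s - κ s, v⟫ := by
  obtain ⟨κ, k1, k2, k3, k4⟩ := kappa_PP hr h h1 hpq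
  refine ⟨κ, k1, k2, k3.mono fun s hs => hs.2.1, k4, ?_⟩
  filter_upwards [k3] with s hs hsX
  obtain ⟨hd, hPP, htan⟩ := hs
  have hP := hPP hsX
  have e1 : HasFDerivAt (fun s => s - κ s) (ContinuousLinearMap.id ℝ E - fderiv ℝ κ s) s :=
    (hasFDerivAt_id s).sub hd.hasFDerivAt
  have e2 : HasFDerivAt (fun s => Lᗮ.starProjection (s - κ s))
      (Lᗮ.starProjection.comp (ContinuousLinearMap.id ℝ E - fderiv ℝ κ s)) s :=
    (Lᗮ.starProjection.hasFDerivAt).comp s e1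
  have e3 := e2.norm_sq
  refine ⟨_, e3, fun v hv => ?_⟩
  have hw : v - fderiv ℝ κ s v ∈ Lᗮ :=
    Submodule.sub_mem _ (DerG_tan_le hL hsX hv) (DerG_tan_le hL hP.2.1 (htan v))
  have h5 : Lᗮ.starProjection (v - fderiv ℝ κ s v) = v - fderiv ℝ κ s v :=
    Submodule.starProjection_eq_self_iff.2 hw
  have h6 : ⟪Lᗮ.starProjection (s - κ s), v - fderiv ℝ κ s v⟫ = ⟪s - κ s, v - fderiv ℝ κ s v⟫ := by
    rw [Submodule.inner_starProjection_left_eq_right, h5]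
  have h7 : ⟪s - κ s, fderiv ℝ κ s v⟫ = 0 := by
    have h8 := (Submodule.mem_orthogonal' _ _).1 hP.2.2 _ (htan v)
    rw [one_smul] at h8
    have h9 : s - κ s = -(κ s - s) := by abel
    rw [h9, inner_neg_left, h8, neg_zero]
  have h10 : ⟪Lᗮ.starProjection (s - κ s), Lᗮ.starProjection (v - fderiv ℝ κ s v)⟫ = ⟪s - κ s, v⟫ := by
    rw [h5, h6, inner_sub_right, h7, sub_zero]
  rw [← h10]
  show (2 : ℕ) • ⟪Lᗮ.starProjection (s - κ s), Lᗮ.starProjection (v - fderiv ℝ κ s v)⟫ = _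
  rw [two_nsmul, two_mul]

theorem dist_const (hr : ∞ ≤ r) (h : IsSub r X) (h1 : TF1 r X) {L : Submodule ℝ E}
    (hL : L ≤ Lx X) {p q : E} (hpq : PP X p q)
    (hd : ∀ᶠ x : E × E in 𝓝 (p, q), PP X x.1 x.2 → Dn X x.1 x.2) :
    ∀ᶠ x : E × E in 𝓝 (p, q), PP X x.1 x.2 → Gd L x.1 x.2 = Gd L p q := by
  obtain ⟨κ, k1, k2, k3, k4, k5⟩ := deriv_G hr h h1 hL hpq
  obtain ⟨T, g, hc, -⟩ := h.2 p hpq.1
  have hgraph : Tendsto (fun s : E => (s, κ s)) (𝓝 p) (𝓝 (p, q)) := by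
    have : Tendsto κ (𝓝 p) (𝓝 q) := by rw [← k2]; exact k1
    exact tendsto_id.prodMk_nhds this
  have hr1 : (1 : ℕ∞ω) ≤ r := by
    refine le_trans ?_ hr
    have : ((1 : ℕ∞) : ℕ∞ω) ≤ ((⊤ : ℕ∞) : ℕ∞ω) := WithTop.coe_le_coe.mpr le_top
    exact this
  have hconst : ∀ᶠ s in 𝓝 p, s ∈ X → Gd L s (κ s) = Gd L p (κ p) := by
    refine loc_const hc hr1 (G := fun s => Gd L s (κ s)) ?_
    filter_upwards [k3, k5, hgraph.eventually hd] with s h3 h5 h6 hsX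
    obtain ⟨Λ, hΛ1, hΛ2⟩ := h5 hsX
    refine ⟨Λ, hΛ1.hasFDerivWithinAt, fun v hv => ?_⟩
    rw [hΛ2 v hv]
    have h7 := (h6 (h3 hsX)).2.2.2
    have h8 := (Submodule.mem_orthogonal' _ _).1 h7 v hv
    rw [one_smul] at h8
    rw [h8, mul_zero]
  have hfst : Tendsto (Prod.fst : E × E → E) (𝓝 (p, q)) (𝓝 p) := continuous_fst.tendsto _
  filter_upwards [hfst.eventually hconst, k4] with x h5 h6 hP
  have h7 := h6 hP
  rw [h7, h5 hP.1, k2]

theorem ext_crit (hr : ∞ ≤ r) (h : IsSub r X) (h1 : TF1 r X) {L : Submodule ℝ E}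
    (hL : L ≤ Lx X) {p q : E} (hpq : PP X p q)
    (he : (∀ᶠ x : E × E in 𝓝 (p, q), PP X x.1 x.2 → Gd L x.1 x.2 ≤ Gd L p q) ∨
      (∀ᶠ x : E × E in 𝓝 (p, q), PP X x.1 x.2 → Gd L p q ≤ Gd L x.1 x.2)) : Dn X p q := by
  obtain ⟨κ, k1, k2, k3, k4, k5⟩ := deriv_G hr h h1 hL hpq
  obtain ⟨T, g, hc, -⟩ := h.2 p hpq.1
  have hgraph : Tendsto (fun s : E => (s, κ s)) (𝓝 p) (𝓝 (p, q)) := by
    have : Tendsto κ (𝓝 p) (𝓝 q) := by rw [← k2]; exact k1
    exact tendsto_id.prodMk_nhds this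
  have hr1 : (1 : ℕ∞ω) ≤ r := by
    refine le_trans ?_ hr
    have : ((1 : ℕ∞) : ℕ∞ω) ≤ ((⊤ : ℕ∞) : ℕ∞ω) := WithTop.coe_le_coe.mpr le_top
    exact this
  obtain ⟨Λ, hΛ1, hΛ2⟩ := k5.self_of_nhds hpq.1
  have hgr := hc.hasFDerivAt_gr_zero hr1
  have hgr' : HasFDerivAt (fun y : T => Gd L (gr p T g y) (κ (gr p T g y))) (Λ.comp T.subtypeL) 0 := by
    have h2 : HasFDerivAt (fun s => Gd L s (κ s)) Λ (gr p T g 0) := by
      rw [hc.gr_zero]; exact hΛ1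
    exact h2.comp (0 : T) hgr
  have hPPnear : ∀ᶠ y in 𝓝 (0 : T), PP X (gr p T g y) (κ (gr p T g y)) :=
    (hc.eventually_iff (fun s => PP X s (κ s))).1 k3
  have hgraph2 : Tendsto (fun y : T => (gr p T g y, κ (gr p T g y))) (𝓝 0) (𝓝 (p, q)) :=
    hgraph.comp hc.tendsto_gr
  have hzero : Λ.comp T.subtypeL = 0 := by
    rcases he with he | he
    · have hmax : IsLocalMax (fun y : T => Gd L (gr p T g y) (κ (gr p T g y))) 0 := by
        filter_upwards [hgraph2.eventually he, hPPnear] with y h2 h3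
        rw [hc.gr_zero, k2]
        exact h2 h3
      exact hmax.hasFDerivAt_eq_zero hgr'
    · have hmin : IsLocalMin (fun y : T => Gd L (gr p T g y) (κ (gr p T g y))) 0 := by
        filter_upwards [hgraph2.eventually he, hPPnear] with y h2 h3
        rw [hc.gr_zero, k2]
        exact h2 h3
      exact hmin.hasFDerivAt_eq_zero hgr'
  refine ⟨hpq, hpq.2.1, hpq.1, ?_⟩
  rw [one_smul, Submodule.mem_orthogonal']
  intro v hv
  have hvT : v ∈ T := by rwa [hc.tan_eq hr1] at hv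
  have h3 := hΛ2 v hv
  have h4 : Λ v = 0 := by
    have := congrArg (fun A : T →L[ℝ] ℝ => A ⟨v, hvT⟩) hzero
    simpa using this
  rw [h4, k2] at h3
  linarith

end TotFoc
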