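import Pool.Agent.H49.TF.Tbp
import Pool.Agent.H49.TF.DerG
import Pool.Agent.H49.TF.CompPX

/-!
# ALT: an extremal value of the chord length in the good range

Let `C` be the component of `z` in `PX X`, `M = Gd L w₀.1 w₀.2` and `w ∈ C` with `Gd L w.1 w.2 = M`. By `comp_nhds` the points of `PX X` near `w` are in the component of `w`, which is `C`
(`connectedComponentIn_eq`), so `w` is a local extremum of `Gd L` on `PX X` and `Dn X w.1 w.2` by `ext_crit`. Points of `PX X` near `w` are in `C` and have `Gd L ∈ O` (`continuous_Gd`), so `hleaf` gives the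
hypothesis of `tbp` (a point with `Dn` is in `PX X`): `PP → Dn` near `w`. `dist_const`: `Gd L = M` on `PX X` near `w`. `comp_const`: `Gd L = M` on `C`. The first part of the argument gives `Dn` on `C`.
-/

set_option autoImplicit false

open scoped Topology ContDiff RealInnerProductSpace
open Filter Set

namespace TotFoc

variable {E : Type*} [NormedAddCommGroup E] [InnerProductSpace ℝ E] [FiniteDimensional ℝ E]
  {r : ℕ∞ω} {X : Set E}

theorem alt (hr : ∞ ≤ r) (h : IsSub r X) (h1 : TF1 r X) {L : Submodule ℝ E} (hL : L ≤ Lx X)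
    {z : E × E} {O : Set ℝ} (hO : IsOpen O)
    (hleaf : ∀ w ∈ connectedComponentIn (PX X) z, Dn X w.1 w.2 → Gd L w.1 w.2 ∈ O →
      tan X w.1 ≤ Submodule.span ℝ (LeafDir X w.1 w.2))
    {w₀ : E × E} (hw₀ : w₀ ∈ connectedComponentIn (PX X) z) (hO₀ : Gd L w₀.1 w₀.2 ∈ O)
    (hext : (∀ x ∈ connectedComponentIn (PX X) z, Gd L x.1 x.2 ≤ Gd L w₀.1 w₀.2) ∨
      (∀ x ∈ connectedComponentIn (PX X) z, Gd L w₀.1 w₀.2 ≤ Gd L x.1 x.2)) :
    ∀ w ∈ connectedComponentIn (PX X) z, Gd L w.1 w.2 = Gd L w₀.1 w₀.2 ∧ Dn X w.1 w.2 := by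
  have hPX : ∀ w ∈ connectedComponentIn (PX X) z, w ∈ PX X := fun w hw =>
    connectedComponentIn_subset _ _ hw
  have hnear : ∀ w ∈ connectedComponentIn (PX X) z,
      ∀ᶠ x in 𝓝 w, PP X x.1 x.2 → x ∈ connectedComponentIn (PX X) z := by
    intro w hw
    have e := connectedComponentIn_eq hw
    have h2 := comp_nhds hr h h1 (hPX w hw)
    rw [← e] at h2
    exact h2
  have hcrit : ∀ w ∈ connectedComponentIn (PX X) z, Gd L w.1 w.2 = Gd L w₀.1 w₀.2 →
      Dn X w.1 w.2 := by
    intro w hw hM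
    have hpq : PP X w.1 w.2 := hPX w hw
    refine ext_crit hr h h1 hL hpq ?_
    rcases hext with hext | hext
    · left
      filter_upwards [hnear w hw] with x hx hP
      rw [hM]
      exact hext x (hx hP)
    · right
      filter_upwards [hnear w hw] with x hx hP
      rw [hM]
      exact hext x (hx hP)
  have hconst : ∀ w ∈ connectedComponentIn (PX X) z, Gd L w.1 w.2 = Gd L w₀.1 w₀.2 := by
    refine comp_const (Γ := fun x : E × E => Gd L x.1 x.2) (continuous_Gd L) hw₀ rfl ?_
    intro w hw hM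
    have hd := hcrit w hw hM
    have hs : ∀ᶠ x : E × E in 𝓝 (w.1, w.2), Dn X x.1 x.2 →
        tan X x.1 ≤ Submodule.span ℝ (LeafDir X x.1 x.2) := by
      have hO2 : ∀ᶠ x : E × E in 𝓝 (w.1, w.2), Gd L x.1 x.2 ∈ O := by
        refine (continuous_Gd L).continuousAt.eventually (hO.mem_nhds ?_)
        show Gd L w.1 w.2 ∈ O
        rw [show Gd L w.1 w.2 = Gd L w₀.1 w₀.2 from hM]
        exact hO₀
      filter_upwards [hnear w hw, hO2] with x h3 h4 h5
      exact hleaf x (h3 h5.1) h5 h4
    have h6 := dist_const hr h h1 hL hd.1 (tbp hr h h1 hd hs)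
    filter_upwards [h6] with x h7 h8
    exact (h7 h8).trans hM
  exact fun w hw => ⟨hconst w hw, hcrit w hw (hconst w hw)⟩

end TotFoc
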