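import Mathlib

/-!
# Totally focal submanifolds: definitions

`E` is a finite dimensional real inner product space, `r` is a regularity (`∞` or `ω`).
-/

set_option autoImplicit false

open scoped Topology ContDiff RealInnerProductSpace
open Filter Set

namespace TotFoc

variable {E : Type*} [NormedAddCommGroup E] [InnerProductSpace ℝ E] [FiniteDimensional ℝ E]

/-- The graph map `y ↦ p + y + g y` over the linear subspace `T`. -/
def gr (p : E) (T : Submodule ℝ E) (g : T → E) (y : T) : E := p + (y : E) + g y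

/-- Near `p` the set `X` is the graph, over the linear subspace `T` (the tangent space), of the map `g` of class
`C^r` with values in the orthogonal complement of `T` and with `g 0 = 0`, `Dg(0) = 0`. -/
structure Chart (r : ℕ∞ω) (X : Set E) (p : E) (T : Submodule ℝ E) (g : T → E) : Prop where
  smooth : ContDiffAt ℝ r g 0
  perp : ∀ y, g y ∈ Tᗮ
  zero : g 0 = 0
  der : fderiv ℝ g 0 = 0
  mem : ∀ᶠ y in 𝓝 (0 : T), gr p T g y ∈ X
  surj : ∀ᶠ x in 𝓝 p, x ∈ X → gr p T g (T.orthogonalProjectionOnto (x - p)) = x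

/-- Embedded submanifold of class `C^r` all of whose components have positive dimension. -/
def Loc (r : ℕ∞ω) (X : Set E) : Prop := ∀ p ∈ X, ∃ T g, Chart r X p T g ∧ T ≠ ⊥

/-- Compact embedded submanifold of class `C^r` all of whose components have positive dimension. -/
def IsSub (r : ℕ∞ω) (X : Set E) : Prop := IsCompact X ∧ Loc r X

/-- The tangent space at `p`: spanned by the velocities of the curves in `X` through `p`. -/
def tan (X : Set E) (p : E) : Submodule ℝ E :=
  Submodule.span ℝ {v | ∃ γ : ℝ → E, γ 0 = p ∧ HasDerivAt γ v 0 ∧ ∀ᶠ t in 𝓝 (0 : ℝ), γ t ∈ X}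

/-- The test functions `c |x|² / 2 - ⟨a, x⟩`. -/
noncomputable def fn (c : ℝ) (a x : E) : ℝ := c / 2 * ‖x‖ ^ 2 - ⟪a, x⟫

/-- `p` is a critical point of `fn c a` on `X`. -/
def Crit (X : Set E) (c : ℝ) (a p : E) : Prop := p ∈ X ∧ c • p - a ∈ (tan X p)ᗮ

/-- Second derivative. -/
noncomputable def D2 {V F : Type*} [NormedAddCommGroup V] [NormedSpace ℝ V] [NormedAddCommGroup F]
    [NormedSpace ℝ F] (u : V → F) (y : V) : V →L[ℝ] V →L[ℝ] F := fderiv ℝ (fderiv ℝ u) y

/-- Third derivative. -/
noncomputable def D3 {V F : Type*} [NormedAddCommGroup V] [NormedSpace ℝ V] [NormedAddCommGroup F]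
    [NormedSpace ℝ F] (u : V → F) (y : V) : V →L[ℝ] V →L[ℝ] V →L[ℝ] F := fderiv ℝ (D2 u) y

/-- The Hessian at `p` of the restriction of `fn c a` to the graph of `g`, if `v = c p - a`. -/
noncomputable def hs (T : Submodule ℝ E) (g : T → E) (c : ℝ) (v : E) (Z Z' : T) : ℝ :=
  c * ⟪(Z : E), (Z' : E)⟫ + ⟪v, D2 g 0 Z Z'⟫

/-- `fn c a` has a nondegenerate Hessian at `p` (meaningful if `p` is a critical point). -/
def ND (r : ℕ∞ω) (X : Set E) (c : ℝ) (a p : E) : Prop :=
  ∀ T g, Chart r X p T g → ∀ Z : T, (∀ Z' : T, hs T g c (c • p - a) Z Z' = 0) → Z = 0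

/-- Totally focal with respect to the squared distance functions. -/
def TF1 (r : ℕ∞ω) (X : Set E) : Prop :=
  ∀ a p q, Crit X 1 a p → Crit X 1 a q → ND r X 1 a p → ND r X 1 a q

/-- Totally focal with respect to all the test functions. -/
def TFx (r : ℕ∞ω) (X : Set E) : Prop :=
  ∀ c a p q, Crit X c a p → Crit X c a q → ND r X c a p → ND r X c a q

/-- The kernel of the Hessian `hs T g c v`, as a subspace of `E`. -/
noncomputable def kerH (T : Submodule ℝ E) (g : T → E) (c : ℝ) (v : E) : Submodule ℝ E where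
  carrier := {Z | ∃ h : Z ∈ T, ∀ Z' : T, hs T g c v ⟨Z, h⟩ Z' = 0}
  zero_mem' := ⟨T.zero_mem, fun Z' => by
    have h : (⟨0, T.zero_mem⟩ : T) = 0 := rfl
    simp [hs, h]⟩
  add_mem' := by
    rintro Z W ⟨hZ, h1⟩ ⟨hW, h2⟩
    refine ⟨T.add_mem hZ hW, fun Z' => ?_⟩
    have h3 := h1 Z'
    have h4 := h2 Z'
    have h5 : (⟨Z + W, T.add_mem hZ hW⟩ : T) = ⟨Z, hZ⟩ + ⟨W, hW⟩ := rfl
    unfold hs at h3 h4 ⊢
    rw [h5]
    simp only [map_add, _root_.add_apply, inner_add_left, inner_add_right,
      Submodule.coe_add] at h3 h4 ⊢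
    linarith
  smul_mem' := by
    rintro k Z ⟨hZ, h1⟩
    refine ⟨T.smul_mem k hZ, fun Z' => ?_⟩
    have h3 := h1 Z'
    have h5 : (⟨k • Z, T.smul_mem k hZ⟩ : T) = k • ⟨Z, hZ⟩ := rfl
    unfold hs at h3 ⊢
    rw [h5]
    simp only [map_smul, _root_.smul_apply, inner_smul_left, inner_smul_right,
      Submodule.coe_smul, RCLike.conj_to_real] at h3 ⊢
    linear_combination k * h3

/-- The critical set of `fn c a` on `X`. -/
def CrS (X : Set E) (c : ℝ) (a : E) : Set E := {x | Crit X c a x}

/-- The critical points in the degenerate case form a submanifold whose tangent space is the kernel of the Hessian. -/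
def Bott (r : ℕ∞ω) (X : Set E) : Prop :=
  ∀ c a p T g, Crit X c a p → ¬ ND r X c a p → Chart r X p T g →
    ∃ gS, Chart r (CrS X c a) p (kerH T g c (c • p - a)) gS

/-- All totally focal compact submanifolds of `E` of class `C^r` satisfy `Bott`. -/
def BottAll (r : ℕ∞ω) (E : Type*) [NormedAddCommGroup E] [InnerProductSpace ℝ E]
    [FiniteDimensional ℝ E] : Prop := ∀ X : Set E, IsSub r X → TFx r X → Bott r X

/-- `y` is a fold of the function `u` (up to linear terms): the kernel of the second derivative is spanned by one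
vector, on which the third derivative does not vanish. -/
def IsFold {V : Type*} [NormedAddCommGroup V] [NormedSpace ℝ V] (u : V → ℝ) (y : V) : Prop :=
  ∃ e : V, e ≠ 0 ∧ (∀ z, (∀ z', D2 u y z z' = 0) ↔ ∃ s : ℝ, z = s • e) ∧ D3 u y e e e ≠ 0

/-- `q` is a critical point of the squared distance from `p ∈ X`. -/
def PP (X : Set E) (p q : E) : Prop := p ∈ X ∧ Crit X 1 p q

/-- double normals -/
def Dn (X : Set E) (p q : E) : Prop := PP X p q ∧ PP X q p

/-- The set of the pairs `PP`. -/
def PX (X : Set E) : Set (E × E) := {x | PP X x.1 x.2}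

/-- velocities of the curves of double normals -/
def LeafDir (X : Set E) (p q : E) : Set E :=
  {Z | ∃ γ δ : ℝ → E, γ 0 = p ∧ HasDerivAt γ Z 0 ∧ δ 0 = q ∧ ContinuousAt δ 0 ∧
    ∀ᶠ t in 𝓝 (0 : ℝ), Dn X (γ t) (δ t)}

/-- the linear functions which are locally constant on `X` -/
noncomputable def Lx (X : Set E) : Submodule ℝ E := ⨅ p ∈ X, (tan X p)ᗮ

/-- all components of `X` lie in spheres with centre `o` -/
def Sph (X : Set E) (o : E) : Prop := ∀ x ∈ X, x - o ∈ (tan X x)ᗮ

/-- the main statement -/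
def TH (X : Set E) : Prop := ∀ p q, PP X p q → PP X q p ∧ tan X p = tan X q

/-! ### Definitions for the final statement -/

/-- `M` is totally focal: for every `a` the critical points on `M` of the squared distance from `a` are either all
nondegenerate or all degenerate. -/
def TotallyFocal (r : ℕ∞ω) (M : Set E) : Prop :=
  ∀ a : E, (∀ p, Crit M 1 a p → ND r M 1 a p) ∨ (∀ p, Crit M 1 a p → ¬ ND r M 1 a p)

/-- `ξ` is a parallel normal field on `W ⊆ M`: normal, and the derivatives in the tangent directions are tangent. -/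
def IsParallel (M W : Set E) (ξ : E → E) : Prop :=
  ∀ x ∈ W, ξ x ∈ (tan M x)ᗮ ∧ ∃ L : E →L[ℝ] E, HasFDerivWithinAt ξ L M x ∧
    ∀ Z ∈ tan M x, L Z ∈ tan M x

/-- The shape operator at `p` in the direction `v` of the graph of `g`: `⟨A Z, Z'⟩ = ⟨v, D²g(0)(Z, Z')⟩`. -/
noncomputable def shape (T : Submodule ℝ E) (g : T → E) (v : E) : T →ₗ[ℝ] T where
  toFun Z := (InnerProductSpace.toDual ℝ T).symm ((innerSL ℝ v).comp (D2 g 0 Z))
  map_add' Z W := by
    rw [map_add, ContinuousLinearMap.comp_add, map_add]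
  map_smul' k Z := by
    rw [map_smul, ContinuousLinearMap.comp_smul]
    simp

/-- `M` is isoparametric: the normal bundle is flat, and the principal curvatures (the eigenvalues of the shape
operator, with multiplicities) in the direction of a parallel normal field are constant. -/
def Isoparametric (r : ℕ∞ω) (M : Set E) : Prop :=
  (∀ p ∈ M, ∀ v ∈ (tan M p)ᗮ, ∃ (U : Set E) (ξ : E → E), IsOpen U ∧ p ∈ U ∧ ξ p = v ∧
    IsParallel M (M ∩ U) ξ) ∧
  ∀ (U : Set E) (ξ : E → E), IsOpen U → IsPreconnected (M ∩ U) → IsParallel M (M ∩ U) ξ →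
    ∀ x ∈ M ∩ U, ∀ y ∈ M ∩ U, ∀ T g T' g', Chart r M x T g → Chart r M y T' g' →
      (shape T g (ξ x)).charpoly = (shape T' g' (ξ y)).charpoly

end TotFoc
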