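import Pool.Agent.H49.TF.Calc

/-!
# FLD: near a fold every value of the gradient can be moved to a degenerate one along one fixed direction

Proof used here (one implicit function theorem).  Put `v = u (·, μ₁)`.  Solve for `w = (y, t, Z) : V × ℝ × V`, with the
parameters `x = (τ, μ) : V × M`, the system
`fderiv (u (·, μ)) y - ⟪τ + t e, ·⟫ = 0`, `D2 (u (·, μ)) y Z = 0`, `⟪Z, e⟫ - ⟪e, e⟫ = 0`.
The base point is `(τ₁, μ₁)`, `(y₁, 0, e)`.  The derivative in `w` at the base point is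
`(y', t', Z') ↦ (D2 v y₁ y' - t' ⟪e, ·⟫, D3 v y₁ y' e + D2 v y₁ Z', ⟪Z', e⟫)`; it is injective: evaluate the first component
at `e`: `t' ⟪e, e⟫ = D2 v y₁ y' e = D2 v y₁ e y' = 0`, so `t' = 0`, `D2 v y₁ y' = 0`, `y' = s e`; evaluate the second at `e`:
`s D3 v y₁ e e e = 0`, so `s = 0`, `D2 v y₁ Z' = 0`, `Z' = s' e`, `⟪Z', e⟫ = 0`, so `Z' = 0`.  Finite dimension: invertible.
-/

set_option autoImplicit false

open scoped Topology ContDiff RealInnerProductSpace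
open Filter Set

namespace TotFoc

variable {V : Type*} [NormedAddCommGroup V] [InnerProductSpace ℝ V] [FiniteDimensional ℝ V]
  {M : Type*} [NormedAddCommGroup M] [NormedSpace ℝ M] [CompleteSpace M]

/-- partial gradient -/
private noncomputable def FoldCov_g1 (u : V × M → ℝ) (x : V × M) : V →L[ℝ] ℝ :=
  fderiv ℝ (fun y => u (y, x.2)) x.1

/-- partial Hessian -/
private noncomputable def FoldCov_g2 (u : V × M → ℝ) (x : V × M) : V →L[ℝ] V →L[ℝ] ℝ :=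
  D2 (fun y => u (y, x.2)) x.1

omit [FiniteDimensional ℝ V] [CompleteSpace M] in
private theorem FoldCov_cd1 {u : V × M → ℝ} {x₁ : V × M} (hu : ContDiffAt ℝ 4 u x₁) :
    ContDiffAt ℝ 3 (FoldCov_g1 u) x₁ := by
  have h1 : ContDiffAt ℝ 4 (Function.uncurry fun (x : V × M) (z : V) => u (z, x.2)) (x₁, x₁.1) := by
    have h2 : ContDiffAt ℝ 4 (fun q : (V × M) × V => (q.2, q.1.2)) (x₁, x₁.1) := by fun_prop
    exact ContDiffAt.comp (x₁, x₁.1) (g := u) (f := fun q : (V × M) × V => (q.2, q.1.2)) hu h2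
  exact ContDiffAt.fderiv (f := fun (x : V × M) (z : V) => u (z, x.2)) (g := fun x => x.1) h1
    contDiffAt_fst (by norm_num)

omit [FiniteDimensional ℝ V] [CompleteSpace M] in
private theorem FoldCov_cd2 {u : V × M → ℝ} {x₁ : V × M} (hu : ContDiffAt ℝ 4 u x₁) :
    ContDiffAt ℝ 2 (FoldCov_g2 u) x₁ := by
  have h0 := FoldCov_cd1 hu
  have h1 : ContDiffAt ℝ 3 (Function.uncurry fun (x : V × M) (z : V) => FoldCov_g1 u (z, x.2))
      (x₁, x₁.1) := by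
    have h2 : ContDiffAt ℝ 3 (fun q : (V × M) × V => (q.2, q.1.2)) (x₁, x₁.1) := by fun_prop
    exact ContDiffAt.comp (x₁, x₁.1) (g := FoldCov_g1 u)
      (f := fun q : (V × M) × V => (q.2, q.1.2)) h0 h2
  exact ContDiffAt.fderiv (f := fun (x : V × M) (z : V) => FoldCov_g1 u (z, x.2))
    (g := fun x => x.1) h1 contDiffAt_fst (by norm_num)

/-- the system -/
private noncomputable def FoldCov_F (u : V × M → ℝ) (e : V) (p : (V × M) × (V × ℝ × V)) :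
    (V →L[ℝ] ℝ) × (V →L[ℝ] ℝ) × ℝ :=
  (FoldCov_g1 u (p.2.1, p.1.2) - innerSL ℝ (p.1.1 + p.2.2.1 • e),
    FoldCov_g2 u (p.2.1, p.1.2) p.2.2.2, ⟪e, p.2.2.2⟫ - ⟪e, e⟫)

omit [FiniteDimensional ℝ V] [CompleteSpace M] in
private theorem FoldCov_F_cd {u : V × M → ℝ} {y₁ : V} {μ₁ : M} (hu : ContDiffAt ℝ 4 u (y₁, μ₁))
    (e τ₁ : V) : ContDiffAt ℝ 1 (FoldCov_F u e) ((τ₁, μ₁), (y₁, 0, e)) := by
  have hm : ContDiffAt ℝ 1 (fun p : (V × M) × (V × ℝ × V) => (p.2.1, p.1.2))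
      ((τ₁, μ₁), (y₁, 0, e)) := by fun_prop
  have h1 : ContDiffAt ℝ 1 (fun p : (V × M) × (V × ℝ × V) => FoldCov_g1 u (p.2.1, p.1.2))
      ((τ₁, μ₁), (y₁, 0, e)) :=
    ContDiffAt.comp _ (g := FoldCov_g1 u) ((FoldCov_cd1 hu).of_le (by norm_num)) hm
  have h2 : ContDiffAt ℝ 1 (fun p : (V × M) × (V × ℝ × V) => FoldCov_g2 u (p.2.1, p.1.2))
      ((τ₁, μ₁), (y₁, 0, e)) :=
    ContDiffAt.comp _ (g := FoldCov_g2 u) ((FoldCov_cd2 hu).of_le (by norm_num)) hm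
  have h3 : ContDiffAt ℝ 1 (fun p : (V × M) × (V × ℝ × V) => innerSL ℝ (p.1.1 + p.2.2.1 • e))
      ((τ₁, μ₁), (y₁, 0, e)) := by
    refine (innerSL ℝ (E := V)).contDiff.contDiffAt.comp _ ?_
    fun_prop
  have h4 : ContDiffAt ℝ 1 (fun p : (V × M) × (V × ℝ × V) => ⟪e, p.2.2.2⟫ - ⟪e, e⟫)
      ((τ₁, μ₁), (y₁, 0, e)) := by
    have : ContDiff ℝ 1 (fun p : (V × M) × (V × ℝ × V) => innerSL ℝ e p.2.2.2 - ⟪e, e⟫) := by
      fun_prop
    exact this.contDiffAt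
  have h5 : ContDiffAt ℝ 1 (fun p : (V × M) × (V × ℝ × V) => FoldCov_g2 u (p.2.1, p.1.2) p.2.2.2)
      ((τ₁, μ₁), (y₁, 0, e)) := h2.clm_apply (by fun_prop)
  exact (h1.sub h3).prodMk (h5.prodMk h4)

private theorem FoldCov_finrank : Module.finrank ℝ (V →L[ℝ] ℝ) = Module.finrank ℝ V := by
  rw [← (LinearMap.toContinuousLinearMap (𝕜 := ℝ) (E := V) (F' := ℝ)).finrank_eq]
  exact Subspace.dual_finrank_eq

private theorem FoldCov_inv (A : (V × ℝ × V) →L[ℝ] ((V →L[ℝ] ℝ) × (V →L[ℝ] ℝ) × ℝ))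
    (hA : ∀ w, A w = 0 → w = 0) : A.IsInvertible := by
  have hinj : Function.Injective A.toLinearMap := (injective_iff_map_eq_zero A).2 hA
  have hfd : FiniteDimensional ℝ (V →L[ℝ] ℝ) :=
    (LinearMap.toContinuousLinearMap (𝕜 := ℝ) (E := V) (F' := ℝ)).finiteDimensional
  have hdim : Module.finrank ℝ (V × ℝ × V) =
      Module.finrank ℝ ((V →L[ℝ] ℝ) × (V →L[ℝ] ℝ) × ℝ) := by
    simp only [Module.finrank_prod, FoldCov_finrank, Module.finrank_self]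
    ring
  exact ⟨(LinearMap.linearEquivOfInjective A.toLinearMap hinj hdim).toContinuousLinearEquiv, by
    ext w <;> rfl⟩

theorem fold_cover {u : V × M → ℝ} {y₁ : V} {μ₁ : M} (hu : ContDiffAt ℝ 4 u (y₁, μ₁)) {e : V}
    (he : e ≠ 0) (hk : ∀ z, (∀ z', D2 (fun y => u (y, μ₁)) y₁ z z' = 0) ↔ ∃ s : ℝ, z = s • e)
    (h3 : D3 (fun y => u (y, μ₁)) y₁ e e e ≠ 0) {τ₁ : V}
    (hτ : ∀ z, fderiv ℝ (fun y => u (y, μ₁)) y₁ z = ⟪τ₁, z⟫) {U : Set V} (hU : U ∈ 𝓝 y₁) :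
    ∀ᶠ x : V × M in 𝓝 (τ₁, μ₁), ∃ y ∈ U, ∃ t : ℝ,
      (∀ z, fderiv ℝ (fun y => u (y, x.2)) y z = ⟪x.1 + t • e, z⟫) ∧
      ∃ Z, Z ≠ 0 ∧ ∀ z', D2 (fun y => u (y, x.2)) y Z z' = 0 := by
  have hcV : CompleteSpace V := FiniteDimensional.complete ℝ V
  set v : V → ℝ := fun y => u (y, μ₁) with hv
  have hee : ⟪e, e⟫ ≠ 0 := by rwa [Ne, inner_self_eq_zero]
  have hv4 : ContDiffAt ℝ 4 v y₁ :=
    ContDiffAt.comp y₁ (g := u) (f := fun y : V => (y, μ₁)) hu (by fun_prop)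
  have hke : ∀ z', D2 v y₁ e z' = 0 := (hk e).2 ⟨1, by simp⟩
  have hsymm : ∀ a b, D2 v y₁ a b = D2 v y₁ b a := fun a b =>
    D2_symm (hv4.of_le (by norm_num)) a b
  -- the strict derivative
  have hst : HasStrictFDerivAt (FoldCov_F u e) (fderiv ℝ (FoldCov_F u e) ((τ₁, μ₁), (y₁, 0, e)))
      ((τ₁, μ₁), (y₁, 0, e)) := (FoldCov_F_cd hu e τ₁).hasStrictFDerivAt one_ne_zero
  -- the partial derivative
  have hd1 : HasFDerivAt (fderiv ℝ v) (D2 v y₁) y₁ :=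
    ((contDiffAt_D1 (m := 1) hv4 (by norm_num)).differentiableAt one_ne_zero).hasFDerivAt
  have hd2 : HasFDerivAt (D2 v) (D3 v y₁) y₁ :=
    ((contDiffAt_D2 (m := 1) hv4 (by norm_num)).differentiableAt one_ne_zero).hasFDerivAt
  have hpart : HasFDerivAt (fun w : V × ℝ × V => FoldCov_F u e ((τ₁, μ₁), w))
      (fderiv ℝ (FoldCov_F u e) ((τ₁, μ₁), (y₁, 0, e)) ∘L
        ContinuousLinearMap.inr ℝ (V × M) (V × ℝ × V)) (y₁, 0, e) :=
    hst.hasFDerivAt.comp (y₁, 0, e) (hasFDerivAt_prodMk_right (τ₁, μ₁) (y₁, (0 : ℝ), e))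
  have c1 : HasFDerivAt (fun w : V × ℝ × V => fderiv ℝ v w.1)
      ((D2 v y₁).comp (ContinuousLinearMap.fst ℝ V (ℝ × V))) (y₁, 0, e) :=
    HasFDerivAt.comp (y₁, (0 : ℝ), e) (g := fderiv ℝ v) (f := Prod.fst) hd1 hasFDerivAt_fst
  have c2 : HasFDerivAt (fun w : V × ℝ × V => innerSL ℝ (τ₁ + w.2.1 • e))
      ((innerSL ℝ (E := V)).comp ((((ContinuousLinearMap.fst ℝ ℝ V).comp
        (ContinuousLinearMap.snd ℝ V (ℝ × V))).smulRight e))) (y₁, 0, e) := by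
    have h1 : HasFDerivAt (fun w : V × ℝ × V => τ₁ + w.2.1 • e)
        ((((ContinuousLinearMap.fst ℝ ℝ V).comp
        (ContinuousLinearMap.snd ℝ V (ℝ × V))).smulRight e)) (y₁, 0, e) :=
      (((((ContinuousLinearMap.fst ℝ ℝ V).comp
        (ContinuousLinearMap.snd ℝ V (ℝ × V))).smulRight e)).hasFDerivAt).const_add τ₁
    exact ((innerSL ℝ (E := V)).hasFDerivAt).comp (y₁, (0 : ℝ), e) h1
  have c30 : HasFDerivAt (fun w : V × ℝ × V => D2 v w.1)
      ((D3 v y₁).comp (ContinuousLinearMap.fst ℝ V (ℝ × V))) (y₁, 0, e) := by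
    have hf : HasFDerivAt (fun w : V × ℝ × V => w.1) (ContinuousLinearMap.fst ℝ V (ℝ × V))
      (y₁, 0, e) := (ContinuousLinearMap.fst ℝ V (ℝ × V)).hasFDerivAt
    exact HasFDerivAt.comp (f := fun w : V × ℝ × V => w.1) (g := D2 v) (g' := D3 v y₁)
      (f' := ContinuousLinearMap.fst ℝ V (ℝ × V)) (y₁, 0, e) hd2 hf
  have c31 : HasFDerivAt (fun w : V × ℝ × V => w.2.2)
      ((ContinuousLinearMap.snd ℝ ℝ V).comp (ContinuousLinearMap.snd ℝ V (ℝ × V))) (y₁, 0, e) :=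
    ((ContinuousLinearMap.snd ℝ ℝ V).comp (ContinuousLinearMap.snd ℝ V (ℝ × V))).hasFDerivAt
  have c3 := c30.clm_apply c31
  have c4 : HasFDerivAt (fun w : V × ℝ × V => ⟪e, w.2.2⟫ - ⟪e, e⟫)
      ((innerSL ℝ e).comp ((ContinuousLinearMap.snd ℝ ℝ V).comp
        (ContinuousLinearMap.snd ℝ V (ℝ × V)))) (y₁, 0, e) :=
    (((innerSL ℝ e).comp ((ContinuousLinearMap.snd ℝ ℝ V).comp
        (ContinuousLinearMap.snd ℝ V (ℝ × V)))).hasFDerivAt).sub_const _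
  have hex := (c1.sub c2).prodMk (c3.prodMk c4)
  have huniq := hpart.unique hex
  have hinv : (fderiv ℝ (FoldCov_F u e) ((τ₁, μ₁), (y₁, 0, e)) ∘L
        ContinuousLinearMap.inr ℝ (V × M) (V × ℝ × V)).IsInvertible := by
    rw [huniq]
    refine FoldCov_inv _ ?_
    rintro ⟨y', t', Z'⟩ hw
    have e1 : D2 v y₁ y' - innerSL ℝ (t' • e) = 0 := congrArg Prod.fst hw
    have e2 : D2 v y₁ Z' + D3 v y₁ y' e = 0 := congrArg (fun q => q.2.1) hw
    have e3 : ⟪e, Z'⟫ = 0 := congrArg (fun q => q.2.2) hw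
    have f1 : ∀ z, D2 v y₁ y' z = t' * ⟪e, z⟫ := by
      intro z
      have := congrArg (fun L : V →L[ℝ] ℝ => L z) e1
      simp only [_root_.sub_apply, innerSL_apply_apply, inner_smul_left, _root_.zero_apply] at this
      have h5 : (starRingEnd ℝ) t' = t' := rfl
      rw [h5] at this
      linarith
    have ht : t' = 0 := by
      have h5 := f1 e
      rw [hsymm, hke] at h5
      rcases mul_eq_zero.1 h5.symm with h6 | h6
      · exact h6
      · exact absurd h6 hee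
    obtain ⟨s, hs⟩ := (hk y').1 (fun z => by rw [f1 z, ht, zero_mul])
    have hs0 : s = 0 := by
      have h5 := congrArg (fun L : V →L[ℝ] ℝ => L e) e2
      simp only [_root_.add_apply, _root_.zero_apply] at h5
      rw [hsymm, hke, zero_add, hs, map_smul] at h5
      simp only [_root_.smul_apply, smul_eq_mul] at h5
      rcases mul_eq_zero.1 h5 with h6 | h6
      · exact h6
      · exact absurd h6 h3
    have hy' : y' = 0 := by rw [hs, hs0, zero_smul]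
    have hZ : Z' = 0 := by
      rw [hy', map_zero] at e2
      simp only [_root_.zero_apply, add_zero] at e2
      obtain ⟨s', hs'⟩ := (hk Z').1 (fun z => by rw [e2]; rfl)
      rw [hs', inner_smul_right] at e3
      rcases mul_eq_zero.1 e3 with h6 | h6
      · rw [hs', h6, zero_smul]
      · exact absurd h6 hee
    rw [hy', ht, hZ]
    rfl
  -- the value at the base point
  have hbase : FoldCov_F u e ((τ₁, μ₁), (y₁, 0, e)) = 0 := by
    have h1 : FoldCov_g1 u (y₁, μ₁) - innerSL ℝ (τ₁ + (0 : ℝ) • e) = 0 := by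
      ext z
      simp only [_root_.sub_apply, innerSL_apply_apply, zero_smul, add_zero, _root_.zero_apply]
      have := hτ z
      show fderiv ℝ v y₁ z - ⟪τ₁, z⟫ = 0
      rw [this, sub_self]
    have h2 : FoldCov_g2 u (y₁, μ₁) e = 0 := by
      ext z
      exact hke z
    show ((FoldCov_g1 u (y₁, μ₁) - innerSL ℝ (τ₁ + (0 : ℝ) • e), FoldCov_g2 u (y₁, μ₁) e,
      ⟪e, e⟫ - ⟪e, e⟫) : (V →L[ℝ] ℝ) × (V →L[ℝ] ℝ) × ℝ) = 0
    rw [h1, h2, sub_self]
    rfl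
  have hev := hst.eventually_apply_implicitFunctionOfProdDomain hinv
  have htend := hst.tendsto_implicitFunctionOfProdDomain hinv
  set ψ := hst.implicitFunctionOfProdDomain hinv with hψ
  have hfst : Tendsto (fun x => (ψ x).1) (𝓝 (τ₁, μ₁)) (𝓝 y₁) :=
    (continuous_fst.tendsto (y₁, (0 : ℝ), e)).comp htend
  filter_upwards [hev, hfst hU] with x hx hxU
  rw [hbase] at hx
  have e1 : FoldCov_g1 u ((ψ x).1, x.2) - innerSL ℝ (x.1 + (ψ x).2.1 • e) = 0 :=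
    congrArg Prod.fst hx
  have e2 : FoldCov_g2 u ((ψ x).1, x.2) (ψ x).2.2 = 0 := congrArg (fun q => q.2.1) hx
  have e3 : ⟪e, (ψ x).2.2⟫ - ⟪e, e⟫ = 0 := congrArg (fun q => q.2.2) hx
  refine ⟨(ψ x).1, hxU, (ψ x).2.1, ?_, (ψ x).2.2, ?_, ?_⟩
  · intro z
    have := congrArg (fun L : V →L[ℝ] ℝ => L z) e1
    simp only [_root_.sub_apply, innerSL_apply_apply, _root_.zero_apply] at this
    exact sub_eq_zero.1 this
  · intro h0
    rw [h0, inner_zero_right, zero_sub, neg_eq_zero] at e3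
    exact hee e3
  · intro z'
    exact congrArg (fun L : V →L[ℝ] ℝ => L z') e2

end TotFoc
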