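import Pool.Agent.H49.TF.NfB
import Pool.Agent.H49.TF.FoldCov

/-!
# NOF: there are no folds

Let `φ = gr p T g` and let `y₀` be near `0` (such that `g` is `C^4` near `y₀`, and `crit_near`, `nd_near` hold near `y₀`: `Filter.Eventually.eventually_nhds`). Suppose `c ≠ 0`, `Crit X c a (φ y₀)` and `IsFold (fn c a ∘ φ) y₀`.
Scaling: `fn c a = c * fn 1 (c⁻¹ • a)`, so we may assume `c = 1` (`crit_scale`, `D2_const_mul`, `D3_const_mul`).
Let `e ∈ T`, `e ≠ 0`, be the vector of `IsFold`. `fold_cover` with `V = T`, `M = E`, `u (y, a) = fn 1 a (φ y)` at `(y₀, a)`, `τ₁ = 0` (`crit_near`), `U` = a neighbourhood of `y₀` in which `crit_near` and `nd_near` hold. With `τ = 0`: for all `a'` near `a` there are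
`y ∈ U`, `t` with `D(fn 1 a' ∘ φ)(y) z = ⟪t • e, z⟫` and a vector `Z ≠ 0` with `D2 (fn 1 a' ∘ φ) y Z z' = 0` for all `z'`. Let `a'' = a' + t • e`. `⟪t • e, φ y⟫ = ⟪t • e, p⟫ + ⟪t • e, y⟫` because `e ∈ T`, `g y ∈ Tᗮ`; so `fn 1 a'' ∘ φ` is
`fn 1 a' ∘ φ` minus an affine function (`D2_add_affine`): `y` is a critical point of it, and `Z` is in the kernel of the second derivative. So `Crit X 1 a'' (φ y)` and `¬ ND r X 1 a'' (φ y)`.
`X` is compact, nonempty: let `x` be a nearest point of `X` to `a''`. It is critical (`nearest`), and degenerate by `TF1` (otherwise `φ y` would be nondegenerate). So `a''` is in the set `B` of `bad_null`.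
Let `F = (ℝ ∙ (e : E))ᗮ`, `L` the orthogonal projection `E → F`, `μ = MeasureTheory.Measure.addHaar` (`borel` measurable space on `F`); `finrank F + 1 = finrank E`. `L a'' = L a'`. So `L '' B` contains `L '' N` for a neighbourhood `N` of `a`; `L` is an open map (surjective), so `L '' N` contains
a nonempty open set and has positive measure: contradiction to `bad_null`.
-/

set_option autoImplicit false

open scoped Topology ContDiff RealInnerProductSpace
open Filter Set MeasureTheory

namespace TotFoc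

variable {E : Type*} [NormedAddCommGroup E] [InnerProductSpace ℝ E] [FiniteDimensional ℝ E]
  {r : ℕ∞ω} {X : Set E} {p : E} {T : Submodule ℝ E} {g : T → E}

omit [FiniteDimensional ℝ E] in
/-- folds do not change under multiples and addition of affine functions -/
theorem isFold_affine {V : Type*} [NormedAddCommGroup V] [NormedSpace ℝ V] {u : V → ℝ} {y : V}
    (hu : ContDiffAt ℝ 3 u y) {k : ℝ} (hk : k ≠ 0) (l : V →L[ℝ] ℝ) (m : ℝ) {w : V → ℝ}
    (hw : ∀ z, w z = k * u z + (l z + m)) : IsFold w y ↔ IsFold u y := by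
  have hw' : w = fun z => k * u z + (l z + m) := funext hw
  have hu2 : ContDiffAt ℝ 2 u y := hu.of_le (by norm_num)
  have hk3 : ContDiffAt ℝ 3 (fun z => k * u z) y := contDiffAt_const.mul hu
  have hk2 : ContDiffAt ℝ 2 (fun z => k * u z) y := contDiffAt_const.mul hu2
  have e2 : ∀ a b, D2 w y a b = k * D2 u y a b := by
    intro a b
    rw [hw', D2_add_affine hk2 l m a b, D2_const_mul k hu2]
  have e3 : ∀ a b c, D3 w y a b c = k * D3 u y a b c := by
    intro a b c
    rw [hw', D3_add_affine hk3 l m a b c, D3_const_mul k hu]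
  unfold IsFold
  simp only [e2, e3, mul_eq_zero, hk, false_or, ne_eq]

/-- the projection of `E` to a hyperplane covers neighbourhoods -/
theorem NOF_image_nhds {F : Submodule ℝ E} {b : E} {B : Set E}
    (h : ∀ᶠ a in 𝓝 b, ∃ a'' ∈ B, F.orthogonalProjectionOnto a'' = F.orthogonalProjectionOnto a) :
    F.orthogonalProjectionOnto '' B ∈ 𝓝 (F.orthogonalProjectionOnto b) := by
  have ht : Tendsto (fun f : F => b + ((f - F.orthogonalProjectionOnto b : F) : E))
      (𝓝 (F.orthogonalProjectionOnto b)) (𝓝 b) := by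
    have h1 : Continuous (fun f : F => b + ((f - F.orthogonalProjectionOnto b : F) : E)) :=
      continuous_const.add (continuous_subtype_val.comp (continuous_id.sub continuous_const))
    have h2 := h1.tendsto (F.orthogonalProjectionOnto b)
    simpa using h2
  filter_upwards [ht.eventually h] with f hf
  obtain ⟨a'', ha, he⟩ := hf
  refine ⟨a'', ha, ?_⟩
  rw [he, map_add, Submodule.orthogonalProjectionOnto_mem_subspace_eq_self]
  abel

theorem noFold (hr : ∞ ≤ r) (hX : IsSub r X) (h1 : TF1 r X) (h : Chart r X p T g) :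
    ∀ᶠ y in 𝓝 (0 : T), ∀ (c : ℝ) (a : E), c ≠ 0 → Crit X c a (gr p T g y) →
      ¬ IsFold (fun y => fn c a (gr p T g y)) y := by
  have hr1 : 1 ≤ r := le_trans ENat.LEInfty.out hr
  have hr2 : 2 ≤ r := le_trans ENat.LEInfty.out hr
  have hr3 : 3 ≤ r := le_trans ENat.LEInfty.out hr
  have hr4 : ((4 : ℕ) : ℕ∞ω) ≤ r := le_trans (by exact_mod_cast (ENat.LEInfty.out : (4 : ℕ∞ω) ≤ ∞)) hr
  have hgood := ((h.crit_near hr1).and (h.nd_near hr2 hX.2)).and (h.near_cont (n := 4) hr4)
  filter_upwards [hgood.eventually_nhds] with y₀ hy₀ c a hc hcrit hfold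
  obtain ⟨⟨hcn, hnd⟩, hcont⟩ := hy₀.self_of_nhds
  have hcont4 : ContDiffAt ℝ 4 (gr p T g) y₀ := by exact_mod_cast hcont.2
  have hg4 : ContDiffAt ℝ 4 g y₀ := by exact_mod_cast hcont.1
  -- scaling
  set b : E := c⁻¹ • a with hb
  have hcb : c • b = a := by rw [hb, smul_smul, mul_inv_cancel₀ hc, one_smul]
  have hcrit1 : Crit X 1 b (gr p T g y₀) := by
    rw [← crit_scale hc, mul_one, hcb]; exact hcrit
  have hfold1 : IsFold (fun y => fn 1 b (gr p T g y)) y₀ := by
    rw [← isFold_affine (k := c) ((Hess_contDiffAt 1 b hg4).of_le (by norm_num)) hc 0 0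
      (w := fun y => fn c a (gr p T g y)) (fun z => by
        rw [← hcb]
        simp only [fn, real_inner_smul_left, _root_.zero_apply]
        ring)]
    exact hfold
  obtain ⟨e, he, hk, h3⟩ := hfold1
  -- the neighbourhood
  set U : Set T := {y | ((∀ (c : ℝ) (a : E),
      Crit X c a (gr p T g y) ↔ fderiv ℝ (fun y => fn c a (gr p T g y)) y = 0) ∧
      (∀ (c : ℝ) (a : E), Crit X c a (gr p T g y) → (ND r X c a (gr p T g y) ↔
        ∀ Z : T, (∀ Z' : T, D2 (fun y => fn c a (gr p T g y)) y Z Z' = 0) → Z = 0))) ∧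
      ContDiffAt ℝ (4 : ℕ) g y ∧ ContDiffAt ℝ (4 : ℕ) (gr p T g) y} with hU
  have hUn : U ∈ 𝓝 y₀ := hy₀
  -- the family
  have hu : ContDiffAt ℝ 4 (fun q : T × E => fn 1 q.2 (gr p T g q.1)) (y₀, b) := by
    have h4 : ContDiffAt ℝ 4 (fun q : T × E => gr p T g q.1) (y₀, b) :=
      ContDiffAt.comp (f := fun q : T × E => q.1) (g := gr p T g) (y₀, b) hcont4 contDiffAt_fst
    unfold fn
    exact (contDiffAt_const.mul (h4.norm_sq ℝ)).sub (contDiffAt_snd.inner ℝ h4)
  have hcover := fold_cover (V := T) (M := E) (u := fun q : T × E => fn 1 q.2 (gr p T g q.1))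
    (y₁ := y₀) (μ₁ := b) hu he hk h3 (τ₁ := 0) (fun z => by
      rw [(hcn 1 b).1 hcrit1, inner_zero_left]
      rfl) hUn
  have htend : Tendsto (fun a' : E => ((0 : T), a')) (𝓝 b) (𝓝 ((0 : T), b)) :=
    (continuous_const.prodMk continuous_id).continuousAt
  have hcover2 := htend.eventually hcover
  set F : Submodule ℝ E := (ℝ ∙ (e : E))ᗮ with hF
  -- the bad centres
  set B : Set E := {a | ∃ x ∈ X, (∀ y ∈ X, ‖x - a‖ ≤ ‖y - a‖) ∧ ¬ ND r X 1 a x} with hB
  have hev : ∀ᶠ a' in 𝓝 b, ∃ a'' ∈ B,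
      F.orthogonalProjectionOnto a'' = F.orthogonalProjectionOnto a' := by
    filter_upwards [hcover2] with a' ha'
    obtain ⟨y, hyU, t, ht, Z, hZ0, hZ⟩ := ha'
    obtain ⟨⟨hcn', hnd'⟩, hcont'⟩ := hyU
    have hg4' : ContDiffAt ℝ 4 g y := by exact_mod_cast hcont'.1
    have hsm : ContDiffAt ℝ 4 (fun y => fn 1 a' (gr p T g y)) y := Hess_contDiffAt 1 a' hg4'
    set l : T →L[ℝ] ℝ := (-t) • innerSL ℝ e with hl
    have hfun : (fun y => fn 1 (a' + t • (e : E)) (gr p T g y))
        = fun y => fn 1 a' (gr p T g y) + (l y + -(t * ⟪(e : E), p⟫)) := by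
      funext x
      have hort : ⟪(e : E), g x⟫ = 0 :=
        (Submodule.mem_orthogonal T (g x)).1 (h.perp x) e e.2
      simp only [fn, hl, inner_add_left, real_inner_smul_left, _root_.smul_apply,
        innerSL_apply_apply, smul_eq_mul]
      have h5 : ⟪(e : E), gr p T g x⟫ = ⟪(e : E), p⟫ + ⟪e, x⟫ := by
        unfold gr
        rw [inner_add_right, inner_add_right, hort, add_zero, Submodule.coe_inner]
      rw [h5]
      ring
    have hder : fderiv ℝ (fun y => fn 1 (a' + t • (e : E)) (gr p T g y)) y = 0 := by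
      rw [hfun]
      have h6 : HasFDerivAt (fun y => fn 1 a' (gr p T g y) + (l y + -(t * ⟪(e : E), p⟫)))
          (fderiv ℝ (fun y => fn 1 a' (gr p T g y)) y + l) y :=
        (hsm.differentiableAt (by norm_num)).hasFDerivAt.add (l.hasFDerivAt.add_const _)
      rw [h6.fderiv]
      ext z
      have h7 := ht z
      simp only [zero_add, real_inner_smul_left] at h7
      simp only [_root_.add_apply, hl, _root_.smul_apply, innerSL_apply_apply, smul_eq_mul,
        _root_.zero_apply, h7]
      ring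
    have hcr : Crit X 1 (a' + t • (e : E)) (gr p T g y) := (hcn' 1 _).2 hder
    have hnnd : ¬ ND r X 1 (a' + t • (e : E)) (gr p T g y) := by
      intro hcon
      apply hZ0
      apply (hnd' 1 _ hcr).1 hcon Z
      intro Z'
      rw [hfun, D2_add_affine (hsm.of_le (by norm_num))]
      exact hZ Z'
    -- a nearest point
    obtain ⟨x, hx, hxmin⟩ := hX.1.exists_isMinOn ⟨_, hcr.1⟩
      (f := fun x => ‖x - (a' + t • (e : E))‖) (by fun_prop)
    have hxmin' : ∀ y ∈ X, ‖x - (a' + t • (e : E))‖ ≤ ‖y - (a' + t • (e : E))‖ :=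
      fun y hy => hxmin hy
    obtain ⟨T', g', hch, -⟩ := hX.2 x hx
    obtain ⟨hxcr, -⟩ := nearest hx hch hr3 hxmin'
    refine ⟨a' + t • (e : E), ⟨x, hx, hxmin', ?_⟩, ?_⟩
    · intro hcon
      exact hnnd (h1 _ _ _ hxcr hcr hcon)
    · have h9 : F.orthogonalProjectionOnto (e : E) = 0 :=
        Submodule.orthogonalProjectionOnto_orthogonalComplement_singleton_eq_zero (𝕜 := ℝ) (e : E)
      rw [map_add, map_smul, h9, smul_zero, add_zero]
  -- measure
  letI : MeasurableSpace F := borel F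
  haveI : BorelSpace F := ⟨rfl⟩
  have heE : (e : E) ≠ 0 := fun h0 => he (Subtype.ext h0)
  have hdim : Module.finrank ℝ F + 1 = Module.finrank ℝ E := by
    have h8 := Submodule.finrank_add_finrank_orthogonal (ℝ ∙ (e : E))
    rw [finrank_span_singleton heE, ← hF] at h8
    omega
  have hnull := bad_null hr hX (MeasureTheory.Measure.addHaar : Measure F) hdim
    F.orthogonalProjectionOnto
  have hpos := MeasureTheory.Measure.measure_pos_of_mem_nhds
    (MeasureTheory.Measure.addHaar : Measure F) (NOF_image_nhds hev)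
  rw [hnull] at hpos
  exact lt_irrefl _ hpos

end TotFoc
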