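import Pool.Agent.H49.TF.Calc

/-!
# RED: reduction to a subspace (Lyapunov-Schmidt)

Write `ŷ y = y + θ y`, `F y = u (ŷ y)`, `Ẑ = Z + Dθ(y) Z`. For `y` near `y₀`:
(a) `DF(y) Z = Du(ŷ) Ẑ = Du(ŷ) Z` because `Dθ(y) Z ∈ Kᗮ` (derivative of a function with values in `Kᗮ`) and `hc`.
(b) differentiate (a) in the direction `Z`: `D²F(y) Z Z' = D²u(ŷ) Ẑ Z'`; differentiate `hc`: `D²u(ŷ) Ẑ w = 0` for all `w ∈ Kᗮ`.
(c) differentiate (b) once more, at `y₀` in the direction `e ∈ K`: `D³F(e, e, e) = D³u(ê, ê, e) + D²u(D²θ(e, e), e)` and for `w ∈ Kᗮ`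
`0 = D³u(ê, ê, w) + D²u(D²θ(e, e), w)`. With `w = Dθ(y₀) e`: adding, `D³F(e, e, e) = D³u(ê, ê, ê) + D²u(D²θ(e, e), ê)`, and
`D²u(D²θ(e, e), ê) = 0` by (b) (`D²θ(e, e) ∈ Kᗮ`, symmetry). So `D³F(e, e, e) = D³u(ê, ê, ê)`.
(d) Kernels: if `D²u(ŷ₀) z z' = 0` for all `z'`, write `z = Z + w`, `Z ∈ K`, `w ∈ Kᗮ`; `z - Ẑ ∈ Kᗮ` and `D²u(z - Ẑ, w') = 0` for `w' ∈ Kᗮ`, so
`z = Ẑ` by `hi`, and `D²F(y₀) Z Z' = D²u(Ẑ, Z') = 0` for all `Z'`. Conversely if `D²F(y₀) Z Z' = 0` for all `Z' ∈ K` then `D²u(Ẑ, ·) = 0`.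
So the kernel of `D²u(ŷ₀)` is `{Ẑ | Z ∈ ker D²F(y₀)}`: this gives the last two statements (`Z ↦ Ẑ` is linear and injective).
-/

set_option autoImplicit false

open scoped Topology ContDiff RealInnerProductSpace
open Filter Set

namespace TotFoc

variable {V : Type*} [NormedAddCommGroup V] [InnerProductSpace ℝ V] [FiniteDimensional ℝ V]

omit [FiniteDimensional ℝ V] in
theorem Red_perp (K : Submodule ℝ V) (f : K → V) (hf : ∀ y, f y ∈ Kᗮ) (y Z : K) :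
    fderiv ℝ f y Z ∈ Kᗮ := by
  by_cases hd : DifferentiableAt ℝ f y
  · rw [Submodule.mem_orthogonal]
    intro k hk
    have h1 : (fun x : K => (innerSL ℝ k) (f x)) = fun _ => (0 : ℝ) := by
      funext x
      exact (Submodule.mem_orthogonal K (f x)).1 (hf x) k hk
    have h2 : HasFDerivAt (fun x : K => (innerSL ℝ k) (f x))
        ((innerSL ℝ k).comp (fderiv ℝ f y)) y :=
      (innerSL ℝ k).hasFDerivAt.comp y hd.hasFDerivAt
    rw [h1] at h2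
    have h3 := h2.unique (hasFDerivAt_const (0 : ℝ) y)
    have h4 := congrArg (fun L : K →L[ℝ] ℝ => L Z) h3
    simpa using h4
  · rw [fderiv_zero_of_not_differentiableAt hd]
    simp

omit [FiniteDimensional ℝ V] in
/-- the derivative of the graph map -/
theorem Red_psi (K : Submodule ℝ V) {θ : K → V} {y : K} (hd : DifferentiableAt ℝ θ y) :
    HasFDerivAt (fun y : K => (y : V) + θ y) (K.subtypeL + fderiv ℝ θ y) y :=
  K.subtypeL.hasFDerivAt.add hd.hasFDerivAt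

omit [FiniteDimensional ℝ V] in
theorem Red_evd (K : Submodule ℝ V) {θ : K → V} {y₀ : K} (hθ : ContDiffAt ℝ 3 θ y₀) :
    ∀ᶠ y in 𝓝 y₀, DifferentiableAt ℝ θ y := by
  have := hθ.eventually (by simp)
  filter_upwards [this] with y hy
  exact hy.differentiableAt (by norm_num)

omit [FiniteDimensional ℝ V] in
theorem Red_cont (K : Submodule ℝ V) {θ : K → V} {y₀ : K} (hθ : ContDiffAt ℝ 3 θ y₀) :
    ContinuousAt (fun y : K => (y : V) + θ y) y₀ :=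
  (K.subtypeL.continuous.continuousAt).add hθ.continuousAt

theorem Red_evu (K : Submodule ℝ V) {u : V → ℝ} {θ : K → V} {y₀ : K}
    (hu : ContDiffAt ℝ 4 u ((y₀ : V) + θ y₀)) (hθ : ContDiffAt ℝ 3 θ y₀) :
    ∀ᶠ y : K in 𝓝 y₀, ContDiffAt ℝ 4 u ((y : V) + θ y) :=
  (Red_cont K hθ).eventually (hu.eventually (by simp))

theorem Red_D1 (K : Submodule ℝ V) {u : V → ℝ} {θ : K → V} {y₀ : K}
    (hu : ContDiffAt ℝ 4 u ((y₀ : V) + θ y₀)) (hθ : ContDiffAt ℝ 3 θ y₀)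
    (hp : ∀ y, θ y ∈ Kᗮ)
    (hc : ∀ᶠ y : K in 𝓝 y₀, ∀ w ∈ Kᗮ, fderiv ℝ u ((y : V) + θ y) w = 0) :
    ∀ᶠ y : K in 𝓝 y₀, ∀ Z : K,
      fderiv ℝ (fun y : K => u ((y : V) + θ y)) y Z = fderiv ℝ u ((y : V) + θ y) Z := by
  filter_upwards [hc, Red_evd K hθ, Red_evu K hu hθ] with y hy hd hu' Z
  have h1 : HasFDerivAt (fun y : K => u ((y : V) + θ y))
      ((fderiv ℝ u ((y : V) + θ y)).comp (K.subtypeL + fderiv ℝ θ y)) y :=
    (hu'.differentiableAt (by norm_num)).hasFDerivAt.comp y (Red_psi K hd)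
  rw [h1.fderiv]
  simp only [ContinuousLinearMap.comp_apply, _root_.add_apply, map_add]
  rw [hy _ (Red_perp K θ hp y Z), add_zero]
  rfl

/-- derivative of `y ↦ Du(y + θ y) v` -/
theorem Red_hD1 (K : Submodule ℝ V) {u : V → ℝ} {θ : K → V} {y : K}
    (hu : ContDiffAt ℝ 4 u ((y : V) + θ y)) (hd : DifferentiableAt ℝ θ y) (v : V) (Z : K) :
    fderiv ℝ (fun y : K => fderiv ℝ u ((y : V) + θ y) v) y Z
      = D2 u ((y : V) + θ y) ((Z : V) + fderiv ℝ θ y Z) v := by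
  have h0 : ContDiffAt ℝ 3 (fderiv ℝ u) ((y : V) + θ y) := contDiffAt_D1 hu (by norm_num)
  have h1 : HasFDerivAt (fun y : K => fderiv ℝ u ((y : V) + θ y))
      ((D2 u ((y : V) + θ y)).comp (K.subtypeL + fderiv ℝ θ y)) y :=
    (h0.differentiableAt (by norm_num)).hasFDerivAt.comp y (Red_psi K hd)
  have h2 := h1.clm_apply (hasFDerivAt_const v y)
  rw [h2.fderiv]
  simp

theorem Red_D2 (K : Submodule ℝ V) {u : V → ℝ} {θ : K → V} {y₀ : K}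
    (hu : ContDiffAt ℝ 4 u ((y₀ : V) + θ y₀)) (hθ : ContDiffAt ℝ 3 θ y₀)
    (hp : ∀ y, θ y ∈ Kᗮ)
    (hc : ∀ᶠ y : K in 𝓝 y₀, ∀ w ∈ Kᗮ, fderiv ℝ u ((y : V) + θ y) w = 0) :
    (∀ᶠ y : K in 𝓝 y₀, ∀ Z Z' : K,
      D2 (fun y : K => u ((y : V) + θ y)) y Z Z'
        = D2 u ((y : V) + θ y) ((Z : V) + fderiv ℝ θ y Z) Z') ∧
    (∀ᶠ y : K in 𝓝 y₀, ∀ Z : K, ∀ w ∈ Kᗮ,
      D2 u ((y : V) + θ y) ((Z : V) + fderiv ℝ θ y Z) w = 0) := by
  constructor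
  · filter_upwards [(Red_D1 K hu hθ hp hc).eventually_nhds, Red_evd K hθ, Red_evu K hu hθ,
      hθ.eventually (by simp)] with y hy hd hu' hθ' Z Z'
    have hF : ContDiffAt ℝ 2 (fun y : K => u ((y : V) + θ y)) y := by
      have hψ : ContDiffAt ℝ 2 (fun y : K => (y : V) + θ y) y :=
        (K.subtypeL.contDiff.contDiffAt).add (hθ'.of_le (by norm_num))
      exact ContDiffAt.comp y (hu'.of_le (by norm_num)) hψ
    rw [← fderiv_D1_apply hF, ← Red_hD1 K hu' hd]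
    apply congrArg (fun L : K →L[ℝ] ℝ => L Z)
    apply Filter.EventuallyEq.fderiv_eq
    filter_upwards [hy] with y' hy'
    exact hy' Z'
  · filter_upwards [hc.eventually_nhds, Red_evd K hθ, Red_evu K hu hθ] with y hy hd hu' Z w hw
    rw [← Red_hD1 K hu' hd]
    have h1 : (fun y : K => fderiv ℝ u ((y : V) + θ y) w) =ᶠ[𝓝 y] fun _ => (0 : ℝ) := by
      filter_upwards [hy] with y' hy'
      exact hy' w hw
    rw [h1.fderiv_eq]
    simp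

/-- derivative of `y ↦ D²u(y + θ y) Ẑ v` -/
theorem Red_hD2 (K : Submodule ℝ V) {u : V → ℝ} {θ : K → V} {y : K}
    (hu : ContDiffAt ℝ 4 u ((y : V) + θ y)) (hθ : ContDiffAt ℝ 3 θ y) (v : V) (Z Z' : K) :
    fderiv ℝ (fun y : K => D2 u ((y : V) + θ y) ((Z' : V) + fderiv ℝ θ y Z') v) y Z
      = D3 u ((y : V) + θ y) ((Z : V) + fderiv ℝ θ y Z) ((Z' : V) + fderiv ℝ θ y Z') v
        + D2 u ((y : V) + θ y) (D2 θ y Z Z') v := by
  have hd : DifferentiableAt ℝ θ y := hθ.differentiableAt (by norm_num)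
  have h0 : ContDiffAt ℝ 2 (D2 u) ((y : V) + θ y) := contDiffAt_D2 hu (by norm_num)
  have h01 : HasFDerivAt (D2 u) (D3 u ((y : V) + θ y)) ((y : V) + θ y) :=
    (h0.differentiableAt (by norm_num)).hasFDerivAt
  have h1 : HasFDerivAt (fun y : K => D2 u ((y : V) + θ y))
      ((D3 u ((y : V) + θ y)).comp (K.subtypeL + fderiv ℝ θ y)) y :=
    HasFDerivAt.comp (g := D2 u) y h01 (Red_psi K hd)
  have h2 : HasFDerivAt (fun y : K => fderiv ℝ θ y) (D2 θ y) y := by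
    have : ContDiffAt ℝ 2 (fderiv ℝ θ) y := contDiffAt_D1 hθ (by norm_num)
    exact (this.differentiableAt (by norm_num)).hasFDerivAt
  have h3 : HasFDerivAt (fun y : K => (Z' : V) + fderiv ℝ θ y Z') ((D2 θ y).flip Z') y := by
    have := (h2.clm_apply (hasFDerivAt_const Z' y)).const_add (Z' : V)
    simpa using this
  have h4 := (h1.clm_apply h3)
  have h5 := h4.clm_apply (hasFDerivAt_const v y)
  rw [h5.fderiv]
  simp only [ContinuousLinearMap.comp_zero, zero_add, ContinuousLinearMap.flip_apply,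
    _root_.add_apply, ContinuousLinearMap.comp_apply]
  rw [add_comm]
  rfl

theorem Red_D3 (K : Submodule ℝ V) {u : V → ℝ} {θ : K → V} {y₀ : K}
    (hu : ContDiffAt ℝ 4 u ((y₀ : V) + θ y₀)) (hθ : ContDiffAt ℝ 3 θ y₀)
    (hp : ∀ y, θ y ∈ Kᗮ)
    (hc : ∀ᶠ y : K in 𝓝 y₀, ∀ w ∈ Kᗮ, fderiv ℝ u ((y : V) + θ y) w = 0) (e : K) :
    D3 (fun y : K => u ((y : V) + θ y)) y₀ e e e
      = D3 u ((y₀ : V) + θ y₀) ((e : V) + fderiv ℝ θ y₀ e) ((e : V) + fderiv ℝ θ y₀ e)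
        ((e : V) + fderiv ℝ θ y₀ e) := by
  have hF : ContDiffAt ℝ 3 (fun y : K => u ((y : V) + θ y)) y₀ := by
    have hψ : ContDiffAt ℝ 3 (fun y : K => (y : V) + θ y) y₀ :=
      (K.subtypeL.contDiff.contDiffAt).add hθ
    exact ContDiffAt.comp y₀ (hu.of_le (by norm_num)) hψ
  obtain ⟨hb, hw⟩ := Red_D2 K hu hθ hp hc
  have h1 : D3 (fun y : K => u ((y : V) + θ y)) y₀ e e e
      = D3 u ((y₀ : V) + θ y₀) ((e : V) + fderiv ℝ θ y₀ e) ((e : V) + fderiv ℝ θ y₀ e) e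
        + D2 u ((y₀ : V) + θ y₀) (D2 θ y₀ e e) e := by
    rw [← fderiv_D2_apply hF, ← Red_hD2 K hu hθ]
    apply congrArg (fun L : K →L[ℝ] ℝ => L e)
    apply Filter.EventuallyEq.fderiv_eq
    filter_upwards [hb] with y' hy'
    exact hy' e e
  have hwK : fderiv ℝ θ y₀ e ∈ Kᗮ := Red_perp K θ hp y₀ e
  have h2 : 0 = D3 u ((y₀ : V) + θ y₀) ((e : V) + fderiv ℝ θ y₀ e) ((e : V) + fderiv ℝ θ y₀ e)
        (fderiv ℝ θ y₀ e)
        + D2 u ((y₀ : V) + θ y₀) (D2 θ y₀ e e) (fderiv ℝ θ y₀ e) := by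
    rw [← Red_hD2 K hu hθ]
    have h3 : (fun y : K => D2 u ((y : V) + θ y) ((e : V) + fderiv ℝ θ y e) (fderiv ℝ θ y₀ e))
        =ᶠ[𝓝 y₀] fun _ => (0 : ℝ) := by
      filter_upwards [hw] with y' hy'
      exact hy' e _ hwK
    rw [h3.fderiv_eq]
    simp
  have h2mem : D2 θ y₀ e e ∈ Kᗮ := by
    rw [← fderiv_D1_apply (hθ.of_le (by norm_num))]
    exact Red_perp K (fun y => fderiv ℝ θ y e) (fun y => Red_perp K θ hp y e) y₀ e
  have h4 : D2 u ((y₀ : V) + θ y₀) (D2 θ y₀ e e) ((e : V) + fderiv ℝ θ y₀ e) = 0 := by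
    rw [D2_symm (hu.of_le (by norm_num))]
    exact hw.self_of_nhds e _ h2mem
  rw [map_add] at h4
  rw [h1, map_add (D3 u ((y₀ : V) + θ y₀) ((e : V) + fderiv ℝ θ y₀ e)
    ((e : V) + fderiv ℝ θ y₀ e)) (e : V) (fderiv ℝ θ y₀ e)]
  linarith

theorem red (K : Submodule ℝ V) {u : V → ℝ} {θ : K → V} {y₀ : K}
    (hu : ContDiffAt ℝ 4 u ((y₀ : V) + θ y₀)) (hθ : ContDiffAt ℝ 3 θ y₀)
    (hp : ∀ y, θ y ∈ Kᗮ)
    (hc : ∀ᶠ y : K in 𝓝 y₀, ∀ w ∈ Kᗮ, fderiv ℝ u ((y : V) + θ y) w = 0)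
    (hi : ∀ w ∈ Kᗮ, (∀ w' ∈ Kᗮ, D2 u ((y₀ : V) + θ y₀) w w' = 0) → w = 0) :
    (∀ Z : K, fderiv ℝ (fun y : K => u ((y : V) + θ y)) y₀ Z = fderiv ℝ u ((y₀ : V) + θ y₀) Z) ∧
    (∀ Z Z' : K, D2 (fun y : K => u ((y : V) + θ y)) y₀ Z Z' =
      D2 u ((y₀ : V) + θ y₀) ((Z : V) + fderiv ℝ θ y₀ Z) Z') ∧
    (IsFold (fun y : K => u ((y : V) + θ y)) y₀ → IsFold u ((y₀ : V) + θ y₀)) ∧
    ((∀ Z : K, (∀ Z' : K, D2 (fun y : K => u ((y : V) + θ y)) y₀ Z Z' = 0) → Z = 0) →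
      ∀ z, (∀ z', D2 u ((y₀ : V) + θ y₀) z z' = 0) → z = 0) := by
  set F : K → ℝ := fun y : K => u ((y : V) + θ y) with hF
  have hb := Red_D2 K hu hθ hp hc
  have hb0 := hb.1.self_of_nhds
  have hw0 := hb.2.self_of_nhds
  have hker : ∀ z, (∀ z', D2 u ((y₀ : V) + θ y₀) z z' = 0) →
      ∃ Z : K, z = (Z : V) + fderiv ℝ θ y₀ Z ∧ ∀ Z', D2 F y₀ Z Z' = 0 := by
    intro z hz
    obtain ⟨Z, hZ, w, hw, rfl⟩ := Submodule.exists_add_mem_mem_orthogonal (K := K) z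
    refine ⟨⟨Z, hZ⟩, ?_, ?_⟩
    · have h1 : Z + w - (((⟨Z, hZ⟩ : K) : V) + fderiv ℝ θ y₀ ⟨Z, hZ⟩) = 0 := by
        apply hi
        · have : Z + w - (((⟨Z, hZ⟩ : K) : V) + fderiv ℝ θ y₀ ⟨Z, hZ⟩)
              = w - fderiv ℝ θ y₀ ⟨Z, hZ⟩ := by
            simp
          rw [this]
          exact Kᗮ.sub_mem hw (Red_perp K θ hp y₀ _)
        · intro w' hw'
          rw [map_sub, _root_.sub_apply, hz w', hw0 ⟨Z, hZ⟩ w' hw', sub_zero]
      exact sub_eq_zero.1 h1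
    · intro Z'
      have h1 : Z + w = ((⟨Z, hZ⟩ : K) : V) + fderiv ℝ θ y₀ ⟨Z, hZ⟩ := by
        have h1 : Z + w - (((⟨Z, hZ⟩ : K) : V) + fderiv ℝ θ y₀ ⟨Z, hZ⟩) = 0 := by
          apply hi
          · have : Z + w - (((⟨Z, hZ⟩ : K) : V) + fderiv ℝ θ y₀ ⟨Z, hZ⟩)
                = w - fderiv ℝ θ y₀ ⟨Z, hZ⟩ := by
              simp
            rw [this]
            exact Kᗮ.sub_mem hw (Red_perp K θ hp y₀ _)
          · intro w' hw'
            rw [map_sub, _root_.sub_apply, hz w', hw0 ⟨Z, hZ⟩ w' hw', sub_zero]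
        exact sub_eq_zero.1 h1
      rw [hb0 ⟨Z, hZ⟩ Z', ← h1]
      exact hz Z'
  refine ⟨?_, hb0, ?_, ?_⟩
  · intro Z
    have := (Red_D1 K hu hθ hp hc).self_of_nhds
    exact this Z
  · rintro ⟨e, he, hke, h3⟩
    refine ⟨(e : V) + fderiv ℝ θ y₀ e, ?_, ?_, ?_⟩
    · intro h0
      apply he
      have hmem : (e : V) ∈ K ⊓ Kᗮ := by
        refine ⟨e.2, ?_⟩
        have : (e : V) = -(fderiv ℝ θ y₀ e) := eq_neg_of_add_eq_zero_left h0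
        rw [this]
        exact Kᗮ.neg_mem (Red_perp K θ hp y₀ e)
      rw [Submodule.inf_orthogonal_eq_bot] at hmem
      exact Subtype.ext ((Submodule.mem_bot ℝ).1 hmem)
    · intro z
      constructor
      · intro hz
        obtain ⟨Z, hZ, hZ'⟩ := hker z hz
        obtain ⟨s, hs⟩ := (hke Z).1 hZ'
        refine ⟨s, ?_⟩
        rw [hZ, hs, map_smul, Submodule.coe_smul, smul_add]
      · rintro ⟨s, rfl⟩ z'
        obtain ⟨Z', hZ', w', hw', rfl⟩ := Submodule.exists_add_mem_mem_orthogonal (K := K) z'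
        have h1 : D2 F y₀ e ⟨Z', hZ'⟩ = 0 := (hke e).2 ⟨1, by simp⟩ _
        rw [hb0 e ⟨Z', hZ'⟩] at h1
        rw [map_smul, _root_.smul_apply, map_add, hw0 e w' hw', h1]
        simp
    · rw [← Red_D3 K hu hθ hp hc e]
      exact h3
  · intro hnd z hz
    obtain ⟨Z, hZ, hZ'⟩ := hker z hz
    have : Z = 0 := hnd Z hZ'
    rw [hZ, this]
    simp

end TotFoc
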