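import Pool.Agent.H49.TF.Core
import Pool.Agent.H49.TF.Red
import Pool.Agent.H49.TF.NoFold

/-!
# BOF: the reduced function is constant

Write `φ = gr p T g`, `v = c • p - a ∈ Tᗮ` (`Chart.crit_iff`), `u_s y = uf p T g c a (y, s) = fn (c - s) (a - s • p) (φ y)`, `F (y, s) = u_s (y + θ (y, s))` on `K × ℝ`.
`(c - s) • p - (a - s • p) = v`, so `u_s` is critical at `0` and by `Chart.hs_eq`: `D2 u_s 0 A B = hs T g (c - s) v A B = hs T g c v A B - s ⟪A, B⟫`.
Apply `red` to `u_s`, `θ (·, s)` at `y₀ = y` for `(y, s)` near `(0, 0)`: `u` is analytic near `(0, 0)`, `θ` too; `hc` is `he` (`eventually_nhds`); `hi` at `(0, 0)`: if `w ∈ Kᗮ` and `D2 u_0 0 w w' = 0` for `w' ∈ Kᗮ`, then (symmetry, `hK`) `hs T g c v w Z' = 0` for all `Z'`,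
so `w ∈ K ∩ Kᗮ`, `w = 0`; near `(0, 0)` by continuity (the form `D2 u_s (y + θ (y, s))` restricted to `Kᗮ` is continuous in `(y, s)`, nondegenerate at `(0, 0)`: invertible operators are open / compactness of the sphere for the function `‖B w‖`).
`core` for `F`: analytic. `h1`: `red` (1) at `0`. `h2`: `red` (2): `D2 (F (·, 0)) 0 Z Z' = hs T g c v (Z + 0) Z' = 0` (`hd`, `hK`). `hs`: for `s` near `0`, `θ (0, s) = 0` and `D2 (F (·, s)) 0 Z Z' = D2 u_s 0 (Z + D_yθ Z) Z' = hs T g c v (Z + D_yθ Z) Z' - s ⟪Z + D_yθ Z, Z'⟫ = -s ⟪Z, Z'⟫`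
(`Z' ∈ K` and symmetry; `D_yθ Z ∈ Kᗮ`). So the derivative in `s` is `-⟪Z, Z'⟫`.
`nf`: if `s ≠ 0` and `IsFold (F (·, s)) y`, `(y, s)` near `(0, 0)`, then `IsFold u_s ŷ`, `ŷ = y + θ (y, s)`, by `red` (3). Let `c' = c - s` (`≠ 0`: if `c ≠ 0` because `s` is small, if `c = 0` because `s ≠ 0`), `τ ∈ T` the gradient of `u_s` at `ŷ`, `a' = a - s • p + τ`.
`fn c' a' (φ y') = u_s y' - ⟪τ, φ y'⟫ = u_s y' - ⟪τ, y'⟫ - ⟪τ, p⟫`: critical at `ŷ` (`Chart.crit_near`), and a fold (`isFold_affine`): contradiction to `noFold` (`ŷ` is near `0`).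
So `F (y, 0) = F (0, 0)` for `y` near `0`, `D(F (·, 0))(y) = 0` for `y` near `0`; by `red` (1) `D u_0 (ŷ) Z = 0` for `Z ∈ K`, and by `he` for `w ∈ Kᗮ`; `u_0 = fn c a ∘ φ` (`c - 0 = c`, `a - 0 • p = a`).
-/

set_option autoImplicit false

open scoped Topology ContDiff RealInnerProductSpace
open Filter Set

namespace TotFoc

variable {E : Type*} [NormedAddCommGroup E] [InnerProductSpace ℝ E] [FiniteDimensional ℝ E]
  {X : Set E}

/-- the family `fn c a x - s ‖x - p‖² / 2` (up to a constant) in the chart -/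
noncomputable def uf (p : E) (T : Submodule ℝ E) (g : T → E) (c : ℝ) (a : E) (x : T × ℝ) : ℝ :=
  fn (c - x.2) (a - x.2 • p) (gr p T g x.1)

private theorem BottF_cd {p : E} {T : Submodule ℝ E} {g : T → E} (c : ℝ) (a : E) {y : T}
    (hg : ContDiffAt ℝ ω g y) (s : ℝ) : ContDiffAt ℝ ω (uf p T g c a) (y, s) := by
  have h1 : ContDiffAt ℝ ω (fun x : T × ℝ => gr p T g x.1) (y, s) :=
    ContDiffAt.comp (y, s) (g := gr p T g) (f := Prod.fst) (Hess_contDiffAt_gr hg) contDiffAt_fst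
  have h2 : ContDiffAt ℝ ω (fun x : T × ℝ => x.2) (y, s) := contDiffAt_snd
  have h3 : ContDiffAt ℝ ω (fun x : T × ℝ => (c - x.2) / 2) (y, s) :=
    (contDiffAt_const.sub h2).div_const 2
  have h4 : ContDiffAt ℝ ω (fun x : T × ℝ => a - x.2 • p) (y, s) :=
    contDiffAt_const.sub (h2.smul contDiffAt_const)
  exact (h3.mul (h1.norm_sq ℝ)).sub (h4.inner ℝ h1)

private theorem BottF_slice {p : E} {T : Submodule ℝ E} {g : T → E} (c : ℝ) (a : E) {y : T}
    (hg : ContDiffAt ℝ ω g y) (s : ℝ) : ContDiffAt ℝ ω (fun y => uf p T g c a (y, s)) y :=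
  ContDiffAt.comp y (g := uf p T g c a) (f := fun y : T => (y, s)) (BottF_cd c a hg s)
    (contDiffAt_id.prodMk contDiffAt_const)

private theorem BottF_hess {p : E} {T : Submodule ℝ E} {g : T → E}
    (h : Chart ω X p T g) (c : ℝ) (a : E) (s : ℝ) (Z Z' : T) :
    D2 (fun y => uf p T g c a (y, s)) 0 Z Z' = hs T g c (c • p - a) Z Z' - s * ⟪Z, Z'⟫ := by
  have h1 := h.hs_eq le_top (c - s) (a - s • p) Z Z'
  have h2 : (c - s) • p - (a - s • p) = c • p - a := by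
    rw [sub_smul]; abel
  rw [h2] at h1
  have h3 : D2 (fun y => uf p T g c a (y, s)) 0 Z Z' =
      D2 (fun y => fn (c - s) (a - s • p) (gr p T g y)) 0 Z Z' := rfl
  rw [h3, h1]
  unfold hs
  have h4 : ⟪Z, Z'⟫ = ⟪(Z : E), (Z' : E)⟫ := rfl
  rw [h4]
  ring

private theorem BottF_grad {p : E} {T : Submodule ℝ E} {g : T → E}
    (h : Chart ω X p T g) {c : ℝ} {a : E} (hc : Crit X c a p) (s : ℝ) :
    fderiv ℝ (fun y => uf p T g c a (y, s)) 0 = 0 := by
  have hd : DifferentiableAt ℝ g 0 := h.smooth.differentiableAt (by simp)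
  ext Z
  have h1 := fderiv_fn_gr (p := p) (c - s) (a - s • p) hd Z
  have h2 : (c - s) • gr p T g 0 - (a - s • p) = c • p - a := by
    rw [h.gr_zero, sub_smul]; abel
  rw [h2, h.der] at h1
  have h3 : c • p - a ∈ Tᗮ := (h.crit_iff le_top).1 hc
  have h4 : ⟪c • p - a, (Z : E)⟫ = 0 := (Submodule.mem_orthogonal' _ _).1 h3 Z Z.2
  change fderiv ℝ (fun y => fn (c - s) (a - s • p) (gr p T g y)) 0 Z = 0
  rw [h1]
  simp [h4]

set_option maxSynthPendingDepth 3 in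
/-- nondegeneracy on a subspace is an open condition -/
private theorem BottF_nd {P V : Type*} [TopologicalSpace P] [NormedAddCommGroup V]
    [InnerProductSpace ℝ V] [FiniteDimensional ℝ V] (W : Submodule ℝ V)
    (B : P → V →L[ℝ] V →L[ℝ] ℝ) {x₀ : P} (hB : ContinuousAt B x₀)
    (h0 : ∀ w ∈ W, (∀ w' ∈ W, B x₀ w w' = 0) → w = 0) :
    ∀ᶠ x in 𝓝 x₀, ∀ w ∈ W, (∀ w' ∈ W, B x w w' = 0) → w = 0 := by
  let A : W →ₗ[ℝ] (W →L[ℝ] ℝ) :=
    { toFun := fun w => (B x₀ w).comp W.subtypeL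
      map_add' := fun w w' => by ext z; simp
      map_smul' := fun k w => by ext z; simp }
  have hA : LinearMap.ker A = ⊥ := by
    rw [LinearMap.ker_eq_bot']
    intro w hw
    apply Subtype.ext
    refine h0 w w.2 fun w' hw' => ?_
    exact congrArg (fun f : W →L[ℝ] ℝ => f ⟨w', hw'⟩) hw
  obtain ⟨C, hC0, hC⟩ := LinearMap.exists_antilipschitzWith (𝕜 := ℝ) (E := W) (F := W →L[ℝ] ℝ) A hA
  have hC0' : (0 : ℝ) < C := by exact_mod_cast hC0
  have hnear : ∀ᶠ x in 𝓝 x₀, ‖B x - B x₀‖ < (C : ℝ)⁻¹ := by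
    have := ((Metric.tendsto_nhds (α := V →L[ℝ] V →L[ℝ] ℝ)).1 hB) (C : ℝ)⁻¹ (by positivity)
    filter_upwards [this] with x hx
    rwa [dist_eq_norm] at hx
  filter_upwards [hnear] with x hx w hw hw0
  have h1 : ‖(⟨w, hw⟩ : W)‖ ≤ C * ‖A ⟨w, hw⟩‖ := by
    have := hC.le_mul_dist ⟨w, hw⟩ 0
    simpa [dist_eq_norm] using this
  have h2 : ‖A ⟨w, hw⟩‖ ≤ ‖B x - B x₀‖ * ‖w‖ := by
    refine ContinuousLinearMap.opNorm_le_bound _ (by positivity) fun z => ?_
    have h3 : A ⟨w, hw⟩ z = -((B x - B x₀) w (z : V)) := by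
      have h4 := hw0 z z.2
      show B x₀ w z = -((B x - B x₀) w (z : V))
      rw [_root_.sub_apply, _root_.sub_apply, h4]
      ring
    rw [h3, norm_neg]
    exact (B x - B x₀).le_opNorm₂ w z
  have h5 : ‖(⟨w, hw⟩ : W)‖ = ‖w‖ := rfl
  rw [h5] at h1
  by_contra hne
  have hpos : 0 < ‖w‖ := norm_pos_iff.2 hne
  have h6 : (C : ℝ) * (‖B x - B x₀‖ * ‖w‖) < ‖w‖ := by
    have h7 : (C : ℝ) * ‖B x - B x₀‖ < 1 := by
      calc (C : ℝ) * ‖B x - B x₀‖ < C * (C : ℝ)⁻¹ := mul_lt_mul_of_pos_left hx hC0'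
        _ = 1 := mul_inv_cancel₀ hC0'.ne'
    calc (C : ℝ) * (‖B x - B x₀‖ * ‖w‖) = (C * ‖B x - B x₀‖) * ‖w‖ := by ring
      _ < 1 * ‖w‖ := mul_lt_mul_of_pos_right h7 hpos
      _ = ‖w‖ := one_mul _
  have h8 := mul_le_mul_of_nonneg_left h2 hC0'.le
  linarith

set_option maxSynthPendingDepth 3 in
theorem bottF (hX : IsSub ω X) (h1 : TF1 ω X) {p : E} {T : Submodule ℝ E} {g : T → E}
    (h : Chart ω X p T g) {c : ℝ} {a : E} (hc : Crit X c a p) {K : Submodule ℝ T}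
    (hK : ∀ Z, Z ∈ K ↔ ∀ Z', hs T g c (c • p - a) Z Z' = 0) {θ : K × ℝ → T}
    (hθ : ContDiffAt ℝ ω θ (0, 0)) (h0 : ∀ᶠ s in 𝓝 (0 : ℝ), θ (0, s) = 0) (hp : ∀ x, θ x ∈ Kᗮ)
    (hd : fderiv ℝ (fun y => θ (y, 0)) 0 = 0)
    (he : ∀ᶠ x : K × ℝ in 𝓝 (0, 0), ∀ w ∈ Kᗮ,
      fderiv ℝ (fun y => uf p T g c a (y, x.2)) ((x.1 : T) + θ x) w = 0) :
    ∀ᶠ y : K in 𝓝 0, fderiv ℝ (fun y => fn c a (gr p T g y)) ((y : T) + θ (y, 0)) = 0 := by
  have hθ0 : θ (0, 0) = 0 := h0.self_of_nhds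
  have hU : ContDiffAt ℝ ω (uf p T g c a) ((0 : T), (0 : ℝ)) := BottF_cd c a h.smooth 0
  -- the point `ŷ`
  have hhat : Tendsto (fun x : K × ℝ => (x.1 : T) + θ x) (𝓝 (0, 0)) (𝓝 0) := by
    have h2 : ContinuousAt (fun x : K × ℝ => (x.1 : T) + θ x) (0, 0) := by
      refine ContinuousAt.add ?_ hθ.continuousAt
      exact (continuous_subtype_val.comp continuous_fst).continuousAt
    have h3 := h2.tendsto
    simpa [hθ0] using h3
  have hhat2 : Tendsto (fun x : K × ℝ => ((x.1 : T) + θ x, x.2)) (𝓝 (0, 0)) (𝓝 ((0 : T), (0 : ℝ))) :=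
    hhat.prodMk_nhds (continuous_snd.tendsto _)
  have hg_ev : ∀ᶠ y in 𝓝 (0 : T), ContDiffAt ℝ ω g y := h.smooth.eventually (by simp)
  have hθ_ev : ∀ᶠ x : K × ℝ in 𝓝 (0, 0), ContDiffAt ℝ ω θ x := hθ.eventually (by simp)
  -- nondegeneracy on `Kᗮ`
  have hG2 : ContinuousAt (fun x : T × ℝ => D2 (fun y => uf p T g c a (y, x.2)) x.1)
      ((0 : T), (0 : ℝ)) := (Core_slice (Core_slice hU)).continuousAt
  have hsymm0 : ∀ Z Z' : T, hs T g c (c • p - a) Z Z' = hs T g c (c • p - a) Z' Z :=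
    fun Z Z' => h.hs_symm le_top c _ Z Z'
  have hQ0 : ∀ Z Z' : T, D2 (fun y => uf p T g c a (y, (0 : ℝ))) 0 Z Z' =
      hs T g c (c • p - a) Z Z' := by
    intro Z Z'
    rw [BottF_hess h c a 0 Z Z']
    ring
  have hnd : ∀ᶠ x : K × ℝ in 𝓝 (0, 0), ∀ w ∈ Kᗮ, (∀ w' ∈ Kᗮ,
      D2 (fun y => uf p T g c a (y, x.2)) ((x.1 : T) + θ x) w w' = 0) → w = 0 := by
    have hB : ContinuousAt (fun x : K × ℝ => D2 (fun y => uf p T g c a (y, x.2))
        ((x.1 : T) + θ x)) (0, 0) := by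
      have h2 : Tendsto (fun x : K × ℝ => D2 (fun y => uf p T g c a (y, x.2))
          ((x.1 : T) + θ x)) (𝓝 (0, 0)) (𝓝 (D2 (fun y => uf p T g c a (y, (0 : ℝ))) 0)) :=
        hG2.tendsto.comp hhat2
      have h3 : D2 (fun y => uf p T g c a (y, ((0 : K), (0 : ℝ)).2))
          ((((0 : K), (0 : ℝ)).1 : T) + θ ((0 : K), (0 : ℝ))) =
          D2 (fun y => uf p T g c a (y, (0 : ℝ))) 0 := by
        rw [hθ0]
        simp
      rw [← h3] at h2
      exact h2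
    refine BottF_nd Kᗮ (fun x : K × ℝ => D2 (fun y => uf p T g c a (y, x.2)) ((x.1 : T) + θ x)) hB ?_
    intro w hw hw0
    have e1 : D2 (fun y => uf p T g c a (y, ((0 : K), (0 : ℝ)).2))
          ((((0 : K), (0 : ℝ)).1 : T) + θ ((0 : K), (0 : ℝ))) =
          D2 (fun y => uf p T g c a (y, (0 : ℝ))) 0 := by
        rw [hθ0]
        simp
    have hwK : w ∈ K := by
      rw [hK]
      intro Z'
      obtain ⟨k, hk, w', hw', rfl⟩ := Submodule.exists_add_mem_mem_orthogonal (K := K) Z'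
      rw [← hQ0, map_add, hQ0, hQ0, hsymm0 w k, (hK k).1 hk w, zero_add, ← hQ0]
      exact (congrArg (fun D : T →L[ℝ] T →L[ℝ] ℝ => D w w') e1.symm).trans (hw0 w' hw')
    have e3 : ⟪w, w⟫ = 0 := (Submodule.mem_orthogonal K w).1 hw w hwK
    exact inner_self_eq_zero.1 e3
  -- the reduction
  have hred : ∀ᶠ x : K × ℝ in 𝓝 (0, 0),
      (∀ Z : K, fderiv ℝ (fun y : K => uf p T g c a ((y : T) + θ (y, x.2), x.2)) x.1 Z =
        fderiv ℝ (fun y => uf p T g c a (y, x.2)) ((x.1 : T) + θ x) Z) ∧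
      (∀ Z Z' : K, D2 (fun y : K => uf p T g c a ((y : T) + θ (y, x.2), x.2)) x.1 Z Z' =
        D2 (fun y => uf p T g c a (y, x.2)) ((x.1 : T) + θ x)
          ((Z : T) + fderiv ℝ (fun y => θ (y, x.2)) x.1 Z) Z') ∧
      (IsFold (fun y : K => uf p T g c a ((y : T) + θ (y, x.2), x.2)) x.1 →
        IsFold (fun y => uf p T g c a (y, x.2)) ((x.1 : T) + θ x)) := by
    filter_upwards [hhat.eventually hg_ev, hθ_ev, he.eventually_nhds, hnd] with x e1 e2 e3 e4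
    have hslice : Tendsto (fun y : K => (y, x.2)) (𝓝 x.1) (𝓝 x) := by
      have : Continuous (fun y : K => (y, x.2)) := by fun_prop
      exact this.tendsto x.1
    have r := red K (u := fun y => uf p T g c a (y, x.2)) (θ := fun y => θ (y, x.2)) (y₀ := x.1)
      ((BottF_slice c a e1 x.2).of_le le_top)
      ((ContDiffAt.comp x.1 (g := θ) (f := fun y : K => (y, x.2)) e2
        (contDiffAt_id.prodMk contDiffAt_const)).of_le le_top)
      (fun y => hp _) (hslice.eventually e3) e4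
    exact ⟨r.1, r.2.1, r.2.2.1⟩
  -- the reduced function
  have hF : ContDiffAt ℝ ω (fun x : K × ℝ => uf p T g c a ((x.1 : T) + θ x, x.2)) (0, 0) := by
    have e1 : ContDiffAt ℝ ω (fun x : K × ℝ => ((x.1 : T) + θ x, x.2)) (0, 0) := by
      refine ContDiffAt.prodMk (ContDiffAt.add ?_ hθ) contDiffAt_snd
      exact (K.subtypeL.contDiff.contDiffAt).comp ((0 : K), (0 : ℝ)) contDiffAt_fst
    have e2 : ContDiffAt ℝ ω (uf p T g c a)
        ((fun x : K × ℝ => ((x.1 : T) + θ x, x.2)) ((0 : K), (0 : ℝ))) := by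
      have e3 : (fun x : K × ℝ => ((x.1 : T) + θ x, x.2)) ((0 : K), (0 : ℝ)) =
          ((0 : T), (0 : ℝ)) := by
        simp [hθ0]
      rw [e3]
      exact hU
    exact ContDiffAt.comp ((0 : K), (0 : ℝ)) e2 e1
  have hs0 : Tendsto (fun s : ℝ => ((0 : K), s)) (𝓝 0) (𝓝 (0, 0)) := by
    have : Continuous (fun s : ℝ => ((0 : K), s)) := by fun_prop
    exact this.tendsto 0
  have hy0 : Tendsto (fun y : K => (y, (0 : ℝ))) (𝓝 0) (𝓝 (0, 0)) := by
    have : Continuous (fun y : K => (y, (0 : ℝ))) := by fun_prop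
    exact this.tendsto 0
  have hr0 := hred.self_of_nhds
  have c1 : fderiv ℝ (fun y : K => uf p T g c a ((y : T) + θ (y, 0), 0)) 0 = 0 := by
    ext Z
    have e1 := hr0.1 Z
    have e2 : (((0 : K), (0 : ℝ)).1 : T) + θ ((0 : K), (0 : ℝ)) = 0 := by simp [hθ0]
    rw [e2] at e1
    have e3 := BottF_grad h hc 0
    rw [e3] at e1
    exact e1
  have c2 : D2 (fun y : K => uf p T g c a ((y : T) + θ (y, 0), 0)) 0 = 0 := by
    ext Z Z'
    have e1 := hr0.2.1 Z Z'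
    have e2 : (((0 : K), (0 : ℝ)).1 : T) + θ ((0 : K), (0 : ℝ)) = 0 := by simp [hθ0]
    rw [e2] at e1
    have e4 : (Z : T) + fderiv ℝ (fun y => θ (y, ((0 : K), (0 : ℝ)).2)) ((0 : K), (0 : ℝ)).1 Z = Z := by
      have : fderiv ℝ (fun y => θ (y, ((0 : K), (0 : ℝ)).2)) ((0 : K), (0 : ℝ)).1 = 0 := hd
      rw [this]
      simp
    rw [e4] at e1
    have e5 := hQ0 (Z : T) (Z' : T)
    rw [(hK (Z : T)).1 Z.2 (Z' : T)] at e5
    exact e1.trans e5
  have c3 : ∀ Z Z' : K, HasDerivAt (fun s : ℝ =>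
      D2 (fun y : K => uf p T g c a ((y : T) + θ (y, s), s)) 0 Z Z') (-⟪Z, Z'⟫) 0 := by
    intro Z Z'
    have e1 : (fun s : ℝ => D2 (fun y : K => uf p T g c a ((y : T) + θ (y, s), s)) 0 Z Z') =ᶠ[𝓝 0]
        fun s => s * (-⟪Z, Z'⟫) := by
      filter_upwards [hs0.eventually hred, h0] with s e1 e2
      have e3 := e1.2.1 Z Z'
      have e4 : (((0 : K), s).1 : T) + θ ((0 : K), s) = 0 := by
        rw [e2]; simp
      rw [e4] at e3
      have e5 : fderiv ℝ (fun y => θ (y, s)) 0 Z ∈ Kᗮ := Red_perp K (fun y => θ (y, s)) (fun y => hp _) 0 Z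
      have e6 := BottF_hess h c a s ((Z : T) + fderiv ℝ (fun y => θ (y, s)) 0 Z) (Z' : T)
      rw [hsymm0, (hK (Z' : T)).1 Z'.2, inner_add_left,
        (Submodule.mem_orthogonal' K _).1 e5 Z' Z'.2, add_zero, zero_sub] at e6
      rw [mul_neg]
      exact e3.trans e6
    have e7 : HasDerivAt (fun s : ℝ => s * (-⟪Z, Z'⟫)) (-⟪Z, Z'⟫) 0 := by
      have := (hasDerivAt_id' (0 : ℝ)).mul_const (-⟪Z, Z'⟫)
      rwa [one_mul] at this
    exact e7.congr_of_eventuallyEq e1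
  have hcne : ∀ᶠ x : K × ℝ in 𝓝 (0, 0), x.2 ≠ 0 → c - x.2 ≠ 0 := by
    by_cases hc0 : c = 0
    · refine Filter.Eventually.of_forall fun x hx => ?_
      rw [hc0, zero_sub]
      exact neg_ne_zero.2 hx
    · have e1 : ContinuousAt (fun x : K × ℝ => c - x.2) (0, 0) := by fun_prop
      have e2 := e1.eventually_ne (by simpa using hc0 : c - ((0 : K), (0 : ℝ)).2 ≠ 0)
      exact e2.mono fun x hx _ => hx
  have c4 : ∀ᶠ x : K × ℝ in 𝓝 (0, 0), x.2 ≠ 0 →
      ¬ IsFold (fun y : K => uf p T g c a ((y : T) + θ (y, x.2), x.2)) x.1 := by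
    filter_upwards [hred, hcne, hhat.eventually hg_ev, hhat.eventually (noFold le_top hX h1 h),
      hhat.eventually (h.crit_near le_top)] with x e1 e2 e3 e4 e5 hx0 hfold
    have e6 := e1.2.2 hfold
    have e7 := e2 hx0
    set y' : T := (x.1 : T) + θ x with hy'
    set s : ℝ := x.2 with hs
    set u : T → ℝ := fun y => uf p T g c a (y, s) with hu
    have hucd : ContDiffAt ℝ ω u y' := BottF_slice c a e3 s
    set τ : T := (InnerProductSpace.toDual ℝ T).symm (fderiv ℝ u y') with hτ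
    have hτ1 : ∀ z : T, ⟪τ, z⟫ = fderiv ℝ u y' z := fun z => by
      rw [hτ, InnerProductSpace.toDual_symm_apply]
    have hw : ∀ z : T, fn (c - s) (a - s • p + (τ : E)) (gr p T g z) =
        1 * u z + ((-(innerSL ℝ τ)) z + -⟪(τ : E), p⟫) := by
      intro z
      have f1 : ⟪(τ : E), gr p T g z⟫ = ⟪(τ : E), p⟫ + ⟪τ, z⟫ := by
        unfold gr
        rw [inner_add_right, inner_add_right, (Submodule.mem_orthogonal T _).1 (h.perp z) τ τ.2, add_zero]
        rfl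
      have f2 : (-(innerSL ℝ τ)) z = -⟪τ, z⟫ := rfl
      rw [f2]
      show fn (c - s) (a - s • p + (τ : E)) (gr p T g z) =
        1 * fn (c - s) (a - s • p) (gr p T g z) + (-⟪τ, z⟫ + -⟪(τ : E), p⟫)
      unfold fn
      rw [inner_add_left, f1]
      ring
    have hfold' : IsFold (fun z => fn (c - s) (a - s • p + (τ : E)) (gr p T g z)) y' :=
      (isFold_affine (hucd.of_le le_top) one_ne_zero (-(innerSL ℝ τ)) (-⟪(τ : E), p⟫) hw).2 e6
    have hcrit : Crit X (c - s) (a - s • p + (τ : E)) (gr p T g y') := by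
      rw [e5]
      have f3 : (fun z => fn (c - s) (a - s • p + (τ : E)) (gr p T g z)) =
          fun z => 1 * u z + ((-(innerSL ℝ τ)) z + -⟪(τ : E), p⟫) := funext hw
      rw [f3]
      have f4 : HasFDerivAt u (fderiv ℝ u y') y' := (hucd.differentiableAt (by simp)).hasFDerivAt
      have f5 : HasFDerivAt (fun z => (-(innerSL ℝ τ)) z + -⟪(τ : E), p⟫) (-(innerSL ℝ τ)) y' :=
        (-(innerSL ℝ τ)).hasFDerivAt.add_const _
      have f6 : HasFDerivAt (fun z => 1 * u z + ((-(innerSL ℝ τ)) z + -⟪(τ : E), p⟫))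
          ((1 : ℝ) • fderiv ℝ u y' + -(innerSL ℝ τ)) y' := (f4.const_mul 1).add f5
      rw [f6.fderiv]
      ext z
      have f7 := hτ1 z
      simp only [one_smul, _root_.add_apply, _root_.neg_apply, innerSL_apply_apply, f7, _root_.zero_apply]
      ring
    exact e4 (c - s) (a - s • p + (τ : E)) e7 hcrit hfold'
  have hcore := core (F := fun x : K × ℝ => uf p T g c a ((x.1 : T) + θ x, x.2)) hF c1 c2 c3 c4
  filter_upwards [hcore.eventually_nhds, hy0.eventually hred, hy0.eventually he] with y e1 e2 e3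
  have e4 : fderiv ℝ (fun y : K => uf p T g c a ((y : T) + θ (y, 0), 0)) y = 0 := by
    have f1 : (fun y : K => uf p T g c a ((y : T) + θ (y, 0), 0)) =ᶠ[𝓝 y]
        fun _ => uf p T g c a (((0 : K) : T) + θ (0, 0), 0) := e1
    rw [f1.fderiv_eq]
    simp
  have e5 : ∀ z : T, fderiv ℝ (fun y => uf p T g c a (y, (0 : ℝ))) ((y : T) + θ (y, 0)) z = 0 := by
    intro z
    obtain ⟨k, hk, w, hw, rfl⟩ := Submodule.exists_add_mem_mem_orthogonal (K := K) z
    have f1 := e2.1 ⟨k, hk⟩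
    have f2 : fderiv ℝ (fun y : K => uf p T g c a ((y : T) + θ (y, (y, (0 : ℝ)).2), (y, (0 : ℝ)).2))
        (y, (0 : ℝ)).1 ⟨k, hk⟩ = 0 := congrArg (fun D : K →L[ℝ] ℝ => D ⟨k, hk⟩) e4
    have f3 := f1.symm.trans f2
    rw [map_add, e3 w hw, add_zero]
    exact f3
  have e6 : (fun y => uf p T g c a (y, (0 : ℝ))) = fun y => fn c a (gr p T g y) := by
    funext y
    show fn (c - 0) (a - (0 : ℝ) • p) (gr p T g y) = _
    rw [sub_zero, zero_smul, sub_zero]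
  rw [← e6]
  ext z
  exact e5 z

end TotFoc
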