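import Pool.Agent.H49.TF.Calc

/-!
# SPL: splitting off the nondegenerate directions

Let `G ((y, μ), w) = (fderiv ℝ (u (·, μ)) (y + w))` restricted to `Kᗮ`, for `y ∈ K`, `w ∈ Kᗮ` (as types), with values in `Kᗮ →L[ℝ] ℝ`. It is `C^r` at `((0, μ₀), 0)` (`ContDiffAt.fderiv` with `r + 1 ≤ r`, true for `∞` and `ω`; `∞ ≤ r` means `r = ∞` or `r = ω`). The derivative in
`w` at the base point is `w ↦ D2 (u (·, μ₀)) 0 w` restricted to `Kᗮ`, injective by `hi`, so an isomorphism (`finrank` of `Kᗮ →L[ℝ] ℝ` is that of `Kᗮ`). `ContDiffAt.implicitFunction`: `w(y, μ)` of class `C^r`; `w(0, μ₀) = 0` because `G = 0` there (`h1`). Put `θ x = w(x) : V`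
(coerced from `Kᗮ`, so `θ x ∈ Kᗮ` everywhere). The equation holds near `(0, μ₀)` (first eventual statement) and the solution is unique near `((0, μ₀), 0)`: if `x = (z, μ)` is near `(0, μ₀)`, write `z = y + w`, `y = K`-component, `w = Kᗮ`-component (second eventual statement).
`Dθ(·, μ₀)(0) = 0`: differentiate `fderiv (u (·, μ₀)) (y + θ (y, μ₀)) w = 0` in `y` at `0` in the direction `Z ∈ K`: `D2 (u (·, μ₀)) 0 (Z + Dθ Z) w = 0` for `w ∈ Kᗮ`; `D2 … Z w = 0` by `hK`; so `D2 … (Dθ Z) w = 0` for all `w ∈ Kᗮ`, `Dθ Z ∈ Kᗮ`, so `Dθ Z = 0` by `hi`.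
-/

set_option autoImplicit false

open scoped Topology ContDiff RealInnerProductSpace
open Filter Set

namespace TotFoc

variable {V : Type*} [NormedAddCommGroup V] [InnerProductSpace ℝ V] [FiniteDimensional ℝ V]
  {M : Type*} [NormedAddCommGroup M] [NormedSpace ℝ M] [CompleteSpace M]

theorem Split_succ {r : ℕ∞ω} (hr : ∞ ≤ r) : r + 1 ≤ r := by
  induction r with
  | top => simp
  | coe n =>
    have h : (⊤ : ℕ∞) ≤ n := by exact_mod_cast hr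
    have h2 : n = ⊤ := top_le_iff.mp h
    subst h2
    exact_mod_cast le_top

/-- restriction of linear forms to `Kᗮ` -/
noncomputable def Split_res (K : Submodule ℝ V) : (V →L[ℝ] ℝ) →L[ℝ] (Kᗮ →L[ℝ] ℝ) :=
  (ContinuousLinearMap.compL ℝ Kᗮ V ℝ).flip Kᗮ.subtypeL

/-- the equation to be solved -/
noncomputable def Split_G (K : Submodule ℝ V) (u : V × M → ℝ) (v : (K × M) × Kᗮ) : Kᗮ →L[ℝ] ℝ :=
  Split_res K (fderiv ℝ (fun y => u (y, v.1.2)) ((v.1.1 : V) + (v.2 : V)))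

omit [FiniteDimensional ℝ V] [CompleteSpace M] in
theorem Split_G_smooth {r : ℕ∞ω} (hr : ∞ ≤ r) (K : Submodule ℝ V) {u : V × M → ℝ} {μ₀ : M}
    (hu : ContDiffAt ℝ r u (0, μ₀)) : ContDiffAt ℝ r (Split_G K u) ((0, μ₀), 0) := by
  have h1 : ContDiffAt ℝ r (Function.uncurry fun (v : (K × M) × Kᗮ) (y : V) => u (y, v.1.2))
      (((0, μ₀), 0), (((0 : K) : V) + ((0 : Kᗮ) : V))) := by
    have h2 : ContDiffAt ℝ r (fun p : ((K × M) × Kᗮ) × V => ((p.2, p.1.1.2) : V × M))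
        (((0, μ₀), 0), (((0 : K) : V) + ((0 : Kᗮ) : V))) := by fun_prop
    refine ContDiffAt.comp (g := u) _ ?_ h2
    simpa using hu
  have h3 : ContDiffAt ℝ r (fun v : (K × M) × Kᗮ => (v.1.1 : V) + (v.2 : V)) ((0, μ₀), 0) := by
    have h4 : ContDiff ℝ r (fun v : (K × M) × Kᗮ => K.subtypeL v.1.1 + Kᗮ.subtypeL v.2) := by
      fun_prop
    exact h4.contDiffAt
  have h5 := ContDiffAt.fderiv (x₀ := (((0, μ₀), 0) : (K × M) × Kᗮ)) h1 h3 (Split_succ hr)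
  have h6 : ContDiff ℝ r (fun l : V →L[ℝ] ℝ => Split_res K l) :=
    ContinuousLinearMap.contDiff (𝕜 := ℝ) (E := V →L[ℝ] ℝ) (F := Kᗮ →L[ℝ] ℝ) (Split_res K)
  exact ContDiffAt.comp (g := fun l : V →L[ℝ] ℝ => Split_res K l) _ h6.contDiffAt h5

theorem Split_inv {r : ℕ∞ω} (hr : ∞ ≤ r) (K : Submodule ℝ V) {u : V × M → ℝ} {μ₀ : M}
    (hu : ContDiffAt ℝ r u (0, μ₀))
    (hi : ∀ w ∈ Kᗮ, (∀ w' ∈ Kᗮ, D2 (fun y => u (y, μ₀)) 0 w w' = 0) → w = 0) :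
    (fderiv ℝ (Split_G K u) ((0, μ₀), 0) ∘L .inr ℝ (K × M) Kᗮ).IsInvertible ∧
    ∀ Z : K, ∀ w : Kᗮ, (fderiv ℝ (Split_G K u) ((0, μ₀), 0)) ((Z, 0), 0) w =
      D2 (fun y => u (y, μ₀)) 0 Z w := by
  have hr0 : r ≠ 0 := by
    rintro rfl
    simp at hr
  have hr2 : (2 : ℕ∞ω) ≤ r := by
    have h : (((2 : ℕ) : ℕ∞) : ℕ∞ω) ≤ ((⊤ : ℕ∞) : ℕ∞ω) := WithTop.coe_le_coe.mpr le_top
    exact le_trans h hr
  have hG : HasFDerivAt (Split_G K u) (fderiv ℝ (Split_G K u) ((0, μ₀), 0)) ((0, μ₀), 0) :=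
    ((Split_G_smooth hr K hu).differentiableAt hr0).hasFDerivAt
  have hu0 : ContDiffAt ℝ 2 (fun y => u (y, μ₀)) 0 := by
    have h2 : ContDiffAt ℝ r (fun y : V => ((y, μ₀) : V × M)) 0 := by fun_prop
    exact (ContDiffAt.comp (0 : V) hu h2).of_le hr2
  have hd : HasFDerivAt (fderiv ℝ (fun y => u (y, μ₀))) (D2 (fun y => u (y, μ₀)) 0) 0 :=
    (Calc_diff hu0).hasFDerivAt
  have hk : HasFDerivAt (fun v : K × Kᗮ => Split_G K u ((v.1, μ₀), v.2))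
      ((Split_res K).comp ((D2 (fun y => u (y, μ₀)) 0).comp
        (K.subtypeL.coprod Kᗮ.subtypeL))) 0 := by
    have h1 : HasFDerivAt (fun v : K × Kᗮ => (v.1 : V) + (v.2 : V))
        (K.subtypeL.coprod Kᗮ.subtypeL) 0 := (K.subtypeL.coprod Kᗮ.subtypeL).hasFDerivAt
    have h2 : HasFDerivAt (fun v : K × Kᗮ => fderiv ℝ (fun y => u (y, μ₀)) ((v.1 : V) + (v.2 : V)))
        ((D2 (fun y => u (y, μ₀)) 0).comp (K.subtypeL.coprod Kᗮ.subtypeL)) 0 := by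
      refine HasFDerivAt.comp (0 : K × Kᗮ) ?_ h1
      simpa using hd
    have h6 : HasFDerivAt (fun l : V →L[ℝ] ℝ => Split_res K l) (Split_res K)
        (fderiv ℝ (fun y => u (y, μ₀)) (((0 : K × Kᗮ).1 : V) + ((0 : K × Kᗮ).2 : V))) :=
      ContinuousLinearMap.hasFDerivAt (𝕜 := ℝ) (E := V →L[ℝ] ℝ) (F := Kᗮ →L[ℝ] ℝ) (Split_res K)
    exact HasFDerivAt.comp (g := fun l : V →L[ℝ] ℝ => Split_res K l) (0 : K × Kᗮ) h6 h2
  have hi2 : HasFDerivAt (fun v : K × Kᗮ => (((v.1, μ₀), v.2) : (K × M) × Kᗮ))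
      (((ContinuousLinearMap.fst ℝ K Kᗮ).prod (0 : K × Kᗮ →L[ℝ] M)).prod (.snd ℝ K Kᗮ)) 0 :=
    HasFDerivAt.prodMk (HasFDerivAt.prodMk hasFDerivAt_fst (hasFDerivAt_const μ₀ _)) hasFDerivAt_snd
  have hk2 : HasFDerivAt (fun v : K × Kᗮ => Split_G K u ((v.1, μ₀), v.2))
      ((fderiv ℝ (Split_G K u) ((0, μ₀), 0)).comp
        (((ContinuousLinearMap.fst ℝ K Kᗮ).prod (0 : K × Kᗮ →L[ℝ] M)).prod (.snd ℝ K Kᗮ))) 0 :=
    HasFDerivAt.comp (g := Split_G K u) (f := fun v : K × Kᗮ => (((v.1, μ₀), v.2) : (K × M) × Kᗮ))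
      (0 : K × Kᗮ) hG hi2
  have hkey := hk.unique hk2
  have hkey2 : ∀ (Z : K) (w w' : Kᗮ), (fderiv ℝ (Split_G K u) ((0, μ₀), 0)) ((Z, 0), w) w' =
      D2 (fun y => u (y, μ₀)) 0 ((Z : V) + (w : V)) w' := by
    intro Z w w'
    have h := congrArg (fun l : K × Kᗮ →L[ℝ] (Kᗮ →L[ℝ] ℝ) => l (Z, w) w') hkey
    exact h.symm
  refine ⟨?_, fun Z w => ?_⟩
  · set A := fderiv ℝ (Split_G K u) ((0, μ₀), 0) ∘L .inr ℝ (K × M) Kᗮ with hA
    have hA2 : ∀ w w' : Kᗮ, A w w' = D2 (fun y => u (y, μ₀)) 0 (w : V) w' := by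
      intro w w'
      have h := hkey2 0 w w'
      rw [Submodule.coe_zero, zero_add] at h
      exact h
    have hinj : Function.Injective (A : Kᗮ →ₗ[ℝ] (Kᗮ →L[ℝ] ℝ)) := by
      rw [← LinearMap.ker_eq_bot, LinearMap.ker_eq_bot']
      intro w hw
      have h : (w : V) = 0 := by
        refine hi w w.2 fun w' hw' => ?_
        rw [← hA2 w ⟨w', hw'⟩]
        have hw2 : A w = 0 := hw
        rw [hw2]
        rfl
      exact_mod_cast h
    have hdim : Module.finrank ℝ Kᗮ = Module.finrank ℝ (Kᗮ →L[ℝ] ℝ) := by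
      have h1 : Module.finrank ℝ (Kᗮ →ₗ[ℝ] ℝ) = Module.finrank ℝ (Kᗮ →L[ℝ] ℝ) :=
        (LinearMap.toContinuousLinearMap : (Kᗮ →ₗ[ℝ] ℝ) ≃ₗ[ℝ] (Kᗮ →L[ℝ] ℝ)).finrank_eq
      have h2 : Module.finrank ℝ (Kᗮ →ₗ[ℝ] ℝ) = Module.finrank ℝ Kᗮ :=
        Subspace.dual_finrank_eq
      rw [← h1, h2]
    let e := LinearMap.linearEquivOfInjective (A : Kᗮ →ₗ[ℝ] (Kᗮ →L[ℝ] ℝ)) hinj hdim
    refine ⟨e.toContinuousLinearEquiv, ?_⟩
    ext w w'
    rfl
  · have h := hkey2 Z 0 w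
    rw [Submodule.coe_zero, add_zero] at h
    exact h

theorem split {r : ℕ∞ω} (hr : ∞ ≤ r) (K : Submodule ℝ V) {u : V × M → ℝ} {μ₀ : M}
    (hu : ContDiffAt ℝ r u (0, μ₀)) (h1 : fderiv ℝ (fun y => u (y, μ₀)) 0 = 0)
    (hK : ∀ z ∈ K, ∀ z', D2 (fun y => u (y, μ₀)) 0 z z' = 0)
    (hi : ∀ w ∈ Kᗮ, (∀ w' ∈ Kᗮ, D2 (fun y => u (y, μ₀)) 0 w w' = 0) → w = 0) :
    ∃ θ : K × M → V, ContDiffAt ℝ r θ (0, μ₀) ∧ θ (0, μ₀) = 0 ∧ (∀ x, θ x ∈ Kᗮ) ∧
      fderiv ℝ (fun y => θ (y, μ₀)) 0 = 0 ∧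
      (∀ᶠ x : K × M in 𝓝 (0, μ₀), ∀ w ∈ Kᗮ,
        fderiv ℝ (fun y => u (y, x.2)) ((x.1 : V) + θ x) w = 0) ∧
      (∀ᶠ x : V × M in 𝓝 (0, μ₀), (∀ w ∈ Kᗮ, fderiv ℝ (fun y => u (y, x.2)) x.1 w = 0) →
        x.1 = (K.orthogonalProjectionOnto x.1 : V) + θ (K.orthogonalProjectionOnto x.1, x.2)) := by
  have hr0 : r ≠ 0 := by
    rintro rfl
    simp at hr
  have hG := Split_G_smooth hr K hu
  obtain ⟨hinv, hZ⟩ := Split_inv hr K hu hi
  set ψ := hG.implicitFunction hr0 hinv with hψ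
  have hG0 : Split_G K u ((0, μ₀), 0) = 0 := by
    ext w
    have h : Split_G K u ((0, μ₀), 0) w = fderiv ℝ (fun y => u (y, μ₀)) (((0 : K) : V) +
      ((0 : Kᗮ) : V)) w := rfl
    rw [h, Submodule.coe_zero, Submodule.coe_zero, add_zero, h1]
    rfl
  have hψ0 : ψ (0, μ₀) = 0 := hG.implicitFunction_apply_self hr0 hinv
  have hψs : ContDiffAt ℝ r ψ (0, μ₀) := hG.contDiffAt_implicitFunction hr0 hinv
  refine ⟨fun x => (ψ x : V), Kᗮ.subtypeL.contDiff.contDiffAt.comp _ hψs, ?_, fun x => (ψ x).2,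
    ?_, ?_, ?_⟩
  · show ((ψ (0, μ₀) : Kᗮ) : V) = 0
    rw [hψ0]
    rfl
  · have hd := (hG.hasStrictFDerivAt_implicitFunction hr0 hinv).hasFDerivAt
    have h2 : HasFDerivAt (fun y : K => ((y, μ₀) : K × M))
        ((ContinuousLinearMap.id ℝ K).prod 0) 0 :=
      HasFDerivAt.prodMk (hasFDerivAt_id _) (hasFDerivAt_const μ₀ _)
    have h3 : HasFDerivAt (fun y : K => ψ (y, μ₀)) _ 0 := HasFDerivAt.comp (0 : K) hd h2
    have h4 : HasFDerivAt (fun y : K => (ψ (y, μ₀) : V)) _ 0 :=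
      Kᗮ.subtypeL.hasFDerivAt.comp (0 : K) h3
    rw [h4.fderiv]
    ext Z
    have h5 : (fderiv ℝ (Split_G K u) ((0, μ₀), 0)) ((Z, 0), 0) = 0 := by
      ext w
      rw [hZ Z w, hK Z Z.2]
      rfl
    simp only [ContinuousLinearMap.coe_comp, Function.comp_apply, ContinuousLinearMap.neg_comp,
      ContinuousLinearMap.prod_apply, ContinuousLinearMap.inl_apply, neg_apply,
      ContinuousLinearMap.id_apply, zero_apply, h5, map_zero, neg_zero]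
  · have h2 := hG.eventually_apply_implicitFunction hr0 hinv
    filter_upwards [h2] with x hx w hw
    have h3 : Split_G K u (x, ψ x) = 0 := by
      rw [← hG0]
      exact hx
    have h4 := congrArg (fun l : Kᗮ →L[ℝ] ℝ => l ⟨w, hw⟩) h3
    exact h4
  · have h2 := hG.eventually_apply_eq_iff_implicitFunction hr0 hinv
    have h3 : Tendsto (fun x : V × M => (((K.orthogonalProjectionOnto x.1, x.2),
        Kᗮ.orthogonalProjectionOnto x.1) : (K × M) × Kᗮ)) (𝓝 (0, μ₀)) (𝓝 ((0, μ₀), 0)) := by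
      have h4 : Continuous (fun x : V × M => (((K.orthogonalProjectionOnto x.1, x.2),
        Kᗮ.orthogonalProjectionOnto x.1) : (K × M) × Kᗮ)) := by fun_prop
      have h5 := h4.tendsto (0, μ₀)
      simpa using h5
    filter_upwards [h3.eventually h2] with x hx hw
    have hsum : (K.orthogonalProjectionOnto x.1 : V) + (Kᗮ.orthogonalProjectionOnto x.1 : V)
        = x.1 := by
      rw [Submodule.orthogonalProjectionOnto_orthogonal]
      simp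
    have h6 : Split_G K u ((K.orthogonalProjectionOnto x.1, x.2),
        Kᗮ.orthogonalProjectionOnto x.1) = Split_G K u ((0, μ₀), 0) := by
      rw [hG0]
      ext w
      have h7 : Split_G K u ((K.orthogonalProjectionOnto x.1, x.2),
        Kᗮ.orthogonalProjectionOnto x.1) w = fderiv ℝ (fun y => u (y, x.2))
          ((K.orthogonalProjectionOnto x.1 : V) + (Kᗮ.orthogonalProjectionOnto x.1 : V)) w := rfl
      rw [h7, hsum]
      exact hw w w.2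
    have h8 := hx.mp h6
    have h9 : ψ (K.orthogonalProjectionOnto x.1, x.2) = Kᗮ.orthogonalProjectionOnto x.1 := h8
    show x.1 = (K.orthogonalProjectionOnto x.1 : V) +
      (ψ (K.orthogonalProjectionOnto x.1, x.2) : V)
    rw [h9, hsum]

end TotFoc
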