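import Pool.Agent.H49.TF.BottF
import Pool.Agent.H49.TF.Split

/-!
# BOT: analytic totally focal submanifolds satisfy `Bott`

Let `c`, `a`, `p`, `T`, `g` be given, `N = kerH T g c (c • p - a) ≤ T` (`kerH_le`), `K = N.comap T.subtype : Submodule ℝ T`; `mem_kerH` is `hK` of `bottF`. `split` with `V = T`, `M = ℝ`, `μ₀ = 0`, `u = uf p T g c a` (analytic at `(0, 0)`): `h1`: `Chart.crit_near` at `0` or `Chart.crit_iff` and `fderiv_fn_gr`;
`hK`: `Chart.hs_eq`; `hi`: as in `BottF` (if `w ∈ Kᗮ` and `D2 … w w' = 0` for `w' ∈ Kᗮ`, then by symmetry and `hK` for all `w'`, so `w ∈ K ∩ Kᗮ`). Get `θ`. `θ (0, s) = 0` for `s` near `0`: `(c - s) • p - (a - s • p) = c • p - a ∈ Tᗮ`, so `fderiv (uf … (·, s)) 0 = 0`, and uniqueness at `(0, s)`.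
`bottF`: `D(fn c a ∘ φ)(y + θ (y, 0)) = 0` for `y ∈ K` near `0`; `φ = gr p T g`.
Let `ι : N → K` be the linear isometric isomorphism `z ↦ ⟨⟨z, _⟩, _⟩` and `gS z = (θ (ι z, 0) : E) + g (ι z + θ (ι z, 0))`. Chart of `CrS X c a` at `p`: `smooth`: composition of analytic maps. `perp`: `θ (ι z, 0) ∈ Kᗮ` in `T`, so orthogonal to `N` in `E`; `g _ ∈ Tᗮ ≤ Nᗮ`. `zero`: `θ (0, 0) = 0`, `g 0 = 0`.
`der`: `Dθ(·, 0)(0) = 0`, `Dg(0) = 0`, chain rule. `mem`: `gr p N gS z = p + z + gS z = φ (ι z + θ (ι z, 0))`, which is a critical point by `Chart.crit_near`. `surj`: let `x` be near `p`, `Crit X c a x`; `x = φ y`, `y = Pr_T (x - p)` small, `D(fn c a ∘ φ)(y) = 0` (`Chart.crit_near`, transferred by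
`Chart.eventually_iff` or continuity of `Pr`); `uf … (·, 0) = fn c a ∘ φ`; uniqueness in `split` at `(y, 0)`: `y = k + θ (k, 0)`, `k = Pr_K y`. So `x = φ (k + θ (k, 0)) = gr p N gS (ι⁻¹ k)`, and `Pr_N (x - p) = ι⁻¹ k` by `proj_gr`.
-/

set_option autoImplicit false

open scoped Topology ContDiff RealInnerProductSpace
open Filter Set

namespace TotFoc

variable {E : Type*} [NormedAddCommGroup E] [InnerProductSpace ℝ E] [FiniteDimensional ℝ E]
  {X : Set E}

section

variable {p : E} {T : Submodule ℝ E} {g : T → E}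

private theorem BottT_kerH_le (c : ℝ) (v : E) : kerH T g c v ≤ T := fun _ hZ => hZ.1

private theorem BottT_memK (c : ℝ) (v : E) (Z : T) :
    Z ∈ (kerH T g c v).comap T.subtype ↔ ∀ Z' : T, hs T g c v Z Z' = 0 := by
  constructor
  · intro h
    obtain ⟨_, h2⟩ := (Submodule.mem_comap.1 h : (T.subtype Z) ∈ kerH T g c v)
    exact h2
  · intro h
    rw [Submodule.mem_comap]
    exact ⟨Z.2, h⟩

private theorem BottT_two_le : (2 : ℕ∞ω) ≤ ω := le_top

private theorem BottT_one_le : (1 : ℕ∞ω) ≤ ω := le_top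

private theorem BottT_uf_eq (c : ℝ) (a : E) (s : ℝ) :
    (fun y => uf p T g c a (y, s)) = fun y => fn (c - s) (a - s • p) (gr p T g y) := rfl

private theorem BottT_uf_zero (c : ℝ) (a : E) :
    (fun y => uf p T g c a (y, 0)) = fun y => fn c a (gr p T g y) := by
  funext y
  unfold uf
  simp only [sub_zero, zero_smul]

private theorem BottT_uf_cd (h : Chart ω X p T g) (c : ℝ) (a : E) :
    ContDiffAt ℝ ω (uf p T g c a) (0, 0) := by
  have h1 : ContDiffAt ℝ ω (fun x : T × ℝ => gr p T g x.1) (0, 0) :=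
    ContDiffAt.comp ((0 : T), (0 : ℝ)) (g := gr p T g) (f := Prod.fst) h.contDiffAt_gr
      contDiffAt_fst
  have h2 : ContDiffAt ℝ ω (fun x : T × ℝ => ‖gr p T g x.1‖ ^ 2) (0, 0) := h1.norm_sq ℝ
  have h3 : ContDiffAt ℝ ω (fun x : T × ℝ => (c - x.2) / 2) (0, 0) := by fun_prop
  have h4 : ContDiffAt ℝ ω (fun x : T × ℝ => a - x.2 • p) (0, 0) := by fun_prop
  exact (h3.mul h2).sub (h4.inner ℝ h1)

private theorem BottT_grad (h : Chart ω X p T g) {c : ℝ} {a : E} (hc : Crit X c a p) (s : ℝ) :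
    fderiv ℝ (fun y => uf p T g c a (y, s)) 0 = 0 := by
  rw [BottT_uf_eq]
  have hd : DifferentiableAt ℝ g 0 := Tan_diff h BottT_one_le
  ext Z
  rw [fderiv_fn_gr _ _ hd Z, h.gr_zero, h.der]
  have h1 := (h.crit_iff BottT_one_le).1 hc
  have h2 : (c - s) • p - (a - s • p) = c • p - a := by
    rw [sub_smul]
    abel
  rw [h2]
  simp only [_root_.zero_apply, add_zero]
  exact (Submodule.mem_orthogonal' T _).1 h1 Z Z.2

private theorem BottT_D2 (h : Chart ω X p T g) (c : ℝ) (a : E) (Z Z' : T) :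
    D2 (fun y => uf p T g c a (y, 0)) 0 Z Z' = hs T g c (c • p - a) Z Z' := by
  rw [BottT_uf_zero]
  exact h.hs_eq BottT_two_le c a Z Z'

private theorem BottT_inj (h : Chart ω X p T g) (c : ℝ) (a : E) (w : T)
    (hw : w ∈ ((kerH T g c (c • p - a)).comap T.subtype)ᗮ)
    (hw' : ∀ w' ∈ ((kerH T g c (c • p - a)).comap T.subtype)ᗮ,
      D2 (fun y => uf p T g c a (y, 0)) 0 w w' = 0) : w = 0 := by
  set K := (kerH T g c (c • p - a)).comap T.subtype with hK
  have h1 : w ∈ K := by
    rw [hK, BottT_memK]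
    intro Z'
    have h2 : Z' = (K.orthogonalProjectionOnto Z' : T) + (Z' - (K.orthogonalProjectionOnto Z' : T)) := by
      abel
    have h3 : Z' - (K.orthogonalProjectionOnto Z' : T) ∈ Kᗮ :=
      Submodule.sub_starProjection_mem_orthogonal Z'
    have h4 : hs T g c (c • p - a) w (K.orthogonalProjectionOnto Z' : T) = 0 := by
      rw [h.hs_symm BottT_two_le]
      exact (BottT_memK c (c • p - a) _).1 (K.orthogonalProjectionOnto Z').2 w
    have h5 : hs T g c (c • p - a) w (Z' - (K.orthogonalProjectionOnto Z' : T)) = 0 := by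
      rw [← BottT_D2 h]
      exact hw' _ h3
    rw [h2]
    have h6 : ∀ A B : T, hs T g c (c • p - a) w (A + B) =
        hs T g c (c • p - a) w A + hs T g c (c • p - a) w B := by
      intro A B
      unfold hs
      rw [map_add, inner_add_right, Submodule.coe_add, inner_add_right]
      ring
    rw [h6, h4, h5, add_zero]
  have h2 := (Submodule.mem_orthogonal K w).1 hw w h1
  exact inner_self_eq_zero.1 h2

end

theorem bott (hX : IsSub ω X) (h1 : TF1 ω X) : Bott ω X := by
  intro c a p T g hc _ h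
  set v := c • p - a with hv
  set N := kerH T g c v with hN
  have hNT : N ≤ T := BottT_kerH_le c v
  set K : Submodule ℝ T := N.comap T.subtype with hKdef
  have hKmem : ∀ Z, Z ∈ K ↔ ∀ Z', hs T g c v Z Z' = 0 := BottT_memK c v
  obtain ⟨θ, hθ, hθ0, hθp, hθd, e1, e2⟩ := split (r := ω) le_top K (u := uf p T g c a) (μ₀ := 0)
    (BottT_uf_cd h c a) (BottT_grad h hc 0)
    (fun z hz z' => by
      rw [BottT_D2 h]
      exact (hKmem z).1 hz z')
    (fun w hw hw' => BottT_inj h c a w hw hw')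
  have h0 : ∀ᶠ s in 𝓝 (0 : ℝ), θ (0, s) = 0 := by
    have hc1 : Tendsto (fun s : ℝ => ((0 : T), s)) (𝓝 0) (𝓝 (0, 0)) := by
      have : Continuous (fun s : ℝ => ((0 : T), s)) := by fun_prop
      exact this.tendsto 0
    filter_upwards [hc1.eventually e2] with s hs
    have h2 := hs (fun w _ => by
      rw [BottT_grad h hc s]
      rfl)
    simp only [map_zero, Submodule.coe_zero, zero_add] at h2
    exact h2.symm
  have hbF := bottF hX h1 h hc hKmem hθ h0 hθp hθd e1
  -- the isomorphism of `N` and `K`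
  let ι0 : N →ₗ[ℝ] K := (Submodule.inclusion hNT).codRestrict K (fun z => by
    rw [hKdef, Submodule.mem_comap]
    exact z.2)
  let ι : N →L[ℝ] K := LinearMap.toContinuousLinearMap ι0
  have hι : ∀ z : N, (((ι z : K) : T) : E) = z := fun z => rfl
  set Θ : N → T := fun z => θ (ι z, 0) with hΘ
  set y' : N → T := fun z => (ι z : T) + Θ z with hy'
  have hΘ0 : Θ 0 = 0 := by
    rw [hΘ]
    simp only [map_zero]
    exact hθ0
  have hy'0 : y' 0 = 0 := by
    rw [hy']
    simp only [map_zero, Submodule.coe_zero, zero_add]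
    exact hΘ0
  have hθι : ContDiffAt ℝ ω (fun y : K => θ (y, 0)) 0 :=
    ContDiffAt.comp (0 : K) (g := θ) (f := fun y : K => (y, (0:ℝ))) hθ (by fun_prop)
  have hΘc : ContDiffAt ℝ ω Θ 0 := by
    have h2 : ContDiffAt ℝ ω (fun y : K => θ (y, 0)) (ι 0) := by rw [map_zero]; exact hθι
    exact ContDiffAt.comp (0 : N) (g := fun y : K => θ (y, 0)) (f := ι) h2
      ι.contDiff.contDiffAt
  have hιT : ContDiffAt ℝ ω (fun z : N => ((ι z : K) : T)) 0 :=
    (K.subtypeL.comp ι).contDiff.contDiffAt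
  have hy'c : ContDiffAt ℝ ω y' 0 := hιT.add hΘc
  have hgy' : ContDiffAt ℝ ω (fun z => g (y' z)) 0 := by
    have h2 : ContDiffAt ℝ ω g (y' 0) := by rw [hy'0]; exact h.smooth
    exact ContDiffAt.comp (0 : N) (g := g) (f := y') h2 hy'c
  have hgr : ∀ z : N, gr p N (fun z => ((Θ z : T) : E) + g (y' z)) z = gr p T g (y' z) := by
    intro z
    unfold gr
    have h2 : ((y' z : T) : E) = (z : E) + (Θ z : E) := by
      rw [hy']
      simp only [Submodule.coe_add]
      rw [hι]
    rw [h2]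
    abel
  have hy't : Tendsto y' (𝓝 0) (𝓝 0) := by
    have := hy'c.continuousAt.tendsto
    rwa [hy'0] at this
  have hcrit : ∀ᶠ y in 𝓝 (0 : T), (Crit X c a (gr p T g y) ↔
      fderiv ℝ (fun y => fn c a (gr p T g y)) y = 0) := by
    filter_upwards [h.crit_near BottT_one_le] with y hy
    exact hy c a
  have hperp : ∀ z : N, ((Θ z : T) : E) + g (y' z) ∈ Nᗮ := by
    intro z
    rw [Submodule.mem_orthogonal]
    intro n hn
    rw [inner_add_right]
    have h2 : ⟪n, ((Θ z : T) : E)⟫ = 0 := by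
      have h3 := (Submodule.mem_orthogonal K (Θ z)).1 (hθp _) ⟨n, hNT hn⟩ (by
        rw [hKdef, Submodule.mem_comap]
        exact hn)
      exact h3
    have h4 : ⟪n, g (y' z)⟫ = 0 := (Submodule.mem_orthogonal T _).1 (h.perp _) n (hNT hn)
    rw [h2, h4, add_zero]
  refine ⟨fun z => ((Θ z : T) : E) + g (y' z), ?_⟩
  refine ⟨?_, hperp, ?_, ?_, ?_, ?_⟩
  · have h2 : ContDiffAt ℝ ω (fun z => ((Θ z : T) : E)) 0 :=
      ContDiffAt.comp (0 : N) (g := T.subtypeL) (f := Θ) T.subtypeL.contDiff.contDiffAt hΘc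
    exact h2.add hgy'
  · rw [hΘ0, hy'0, h.zero]
    simp
  · have d1 : HasFDerivAt (fun y : K => θ (y, 0)) (0 : K →L[ℝ] T) 0 := by
      have := (hθι.differentiableAt (by simp)).hasFDerivAt
      rwa [hθd] at this
    have d2 : HasFDerivAt Θ (0 : N →L[ℝ] T) 0 := by
      have d3 : HasFDerivAt (fun y : K => θ (y, 0)) (0 : K →L[ℝ] T) (ι 0) := by
        rw [map_zero]; exact d1
      have d4 := HasFDerivAt.comp (0 : N) (g := fun y : K => θ (y, 0)) (f := ι) d3 ι.hasFDerivAt
      rw [ContinuousLinearMap.zero_comp] at d4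
      exact d4
    have d3 : HasFDerivAt (fun z => ((Θ z : T) : E)) (0 : N →L[ℝ] E) 0 := by
      have d4 := HasFDerivAt.comp (0 : N) (g := T.subtypeL) (f := Θ) T.subtypeL.hasFDerivAt d2
      rw [ContinuousLinearMap.comp_zero] at d4
      exact d4
    have d5 : HasFDerivAt y' ((K.subtypeL.comp ι) + 0) 0 :=
      (K.subtypeL.comp ι).hasFDerivAt.add d2
    have d6 : HasFDerivAt (fun z => g (y' z)) (0 : N →L[ℝ] E) 0 := by
      have d7 : HasFDerivAt g (0 : T →L[ℝ] E) (y' 0) := by
        rw [hy'0]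
        have := (Tan_diff h BottT_one_le).hasFDerivAt
        rwa [h.der] at this
      have d8 := HasFDerivAt.comp (0 : N) (g := g) (f := y') d7 d5
      rw [ContinuousLinearMap.zero_comp] at d8
      exact d8
    have d9 := d3.add d6
    rw [add_zero] at d9
    exact d9.fderiv
  · have hιt : Tendsto ι (𝓝 0) (𝓝 0) := by
      have := ι.continuous.tendsto 0
      rwa [map_zero] at this
    filter_upwards [hιt.eventually hbF, hy't.eventually hcrit] with z g1 g2
    rw [hgr z]
    exact g2.2 g1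
  · have hPr : Tendsto (fun x : E => T.orthogonalProjectionOnto (x - p)) (𝓝 p) (𝓝 0) := by
      have h2 : ContinuousAt (fun x : E => T.orthogonalProjectionOnto (x - p)) p := by fun_prop
      have h3 := h2.tendsto
      rwa [sub_self, map_zero] at h3
    have hPr2 : Tendsto (fun y : T => (y, (0:ℝ))) (𝓝 0) (𝓝 (0, 0)) := by
      have : Continuous (fun y : T => (y, (0:ℝ))) := by fun_prop
      exact this.tendsto 0
    filter_upwards [hPr.eventually hcrit, hPr.eventually (hPr2.eventually e2), h.surj]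
      with x g1 g2 g3 hx
    have hxX : x ∈ X := hx.1
    have g4 := g3 hxX
    set y := T.orthogonalProjectionOnto (x - p) with hy
    have hcx : Crit X c a (gr p T g y) := by
      rw [g4]
      exact hx
    have g5 := g1.1 hcx
    have g6 := g2 (fun w _ => by
      rw [BottT_uf_zero, g5]
      rfl)
    set k := K.orthogonalProjectionOnto y with hk
    have hkN : ((k : T) : E) ∈ N := Submodule.mem_comap.1 k.2
    let z' : N := ⟨((k : T) : E), hkN⟩
    have hιz : ι z' = k := by
      apply Subtype.ext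
      apply Subtype.ext
      rfl
    have hyz : y' z' = y := by
      rw [hy', hΘ]
      simp only
      rw [hιz]
      exact g6.symm
    have hgx : gr p N (fun z => ((Θ z : T) : E) + g (y' z)) z' = x := by
      rw [hgr z', hyz, g4]
    have hpz : N.orthogonalProjectionOnto (x - p) = z' := by
      rw [← hgx]
      exact proj_gr hperp z'
    rw [hpz]
    exact hgx

theorem bottAll : BottAll ω E := fun _ h1 h2 => bott h1 h2.tf1

end TotFoc
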