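import Mathlib

/-!
# PEN: a simple zero of a pencil persists

For `σ` near `α` and small `t` write `H = H t σ`; `H Z Z ≤ (α / 2 - σ + ε') ‖Z‖² ≤ -α / 8 ‖Z‖²` for `Z ⊥ Y`. So there is a unique `e = Y + z`, `z ⊥ Y`, with
`H e Z = 0` for all `Z ⊥ Y` (Lax-Milgram / linear algebra on `(ℝ ∙ Y)ᗮ`); `H Y Z` is small there (limit `(α - σ) ⟪Y, Z⟫ = 0`), so `‖z‖ ≤ ε'' `. `e` is continuous in `σ`.
`h σ = H t σ e e = H t σ e Y` is continuous in `σ` and close to `α - σ`: positive at `σ = α - δ`, negative at `σ = α + δ` (`δ` small, then `t` small). Let `h σ = 0`: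
then `H e z' = 0` for all `z'`. If `H z z' = 0` for all `z'`, subtract the multiple of `e` with the same `Y`-component: `w = z - ⟪Y, z⟫ e ⊥ Y`,
`H w w = 0`, so `w = 0`. (Alternatively avoid the continuity of `e` in `σ`: `h` is determined by `h σ = sup` ... or use the implicit formula
`h σ = H Y Y - H Y (G⁻¹ ...)`; the continuity of `e` follows from uniqueness and the uniform bound: `‖e σ - e σ'‖ * α / 8 ≤ ‖H σ - H σ'‖ * ‖e σ'‖`.)
-/

set_option autoImplicit false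

open scoped Topology ContDiff RealInnerProductSpace
open Filter Set

namespace TotFoc

variable {K : Type*} [NormedAddCommGroup K] [InnerProductSpace ℝ K] [FiniteDimensional ℝ K]

/-- the vector of the affine hyperplane orthogonal to `Yᗮ` for a form negative definite on `Yᗮ` -/
theorem Pencil_exists {Y : K} (hY : ‖Y‖ = 1) {c : ℝ} (hc : 0 < c) (H : K →L[ℝ] K →L[ℝ] ℝ)
    (hneg : ∀ Z, ⟪Y, Z⟫ = 0 → H Z Z ≤ -c * ‖Z‖ ^ 2) :
    ∃ e : K, ⟪Y, e⟫ = 1 ∧ ∀ Z, ⟪Y, Z⟫ = 0 → H e Z = 0 := by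
  set V : Submodule ℝ K := (ℝ ∙ Y)ᗮ with hV
  have hmem : ∀ Z : K, Z ∈ V ↔ ⟪Y, Z⟫ = 0 := by
    intro Z
    rw [hV, Submodule.mem_orthogonal_singleton_iff_inner_right]
  let L : V →ₗ[ℝ] Module.Dual ℝ V :=
    { toFun := fun z => ((H (z : K)).toLinearMap).comp V.subtype
      map_add' := by
        intro x y
        ext Z
        simp
      map_smul' := by
        intro a x
        ext Z
        simp }
  have hL : ∀ z Z : V, L z Z = H (z : K) (Z : K) := fun z Z => rfl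
  have hinj : Function.Injective L := by
    rw [injective_iff_map_eq_zero]
    intro z hz
    have h1 : H (z : K) (z : K) = 0 := by rw [← hL z z, hz]; rfl
    have h2 := hneg z ((hmem _).mp z.2)
    rw [h1] at h2
    have h3 : ‖(z : K)‖ ^ 2 ≤ 0 := by nlinarith [sq_nonneg ‖(z : K)‖]
    have h4 : ‖(z : K)‖ = 0 := by nlinarith [norm_nonneg (z : K)]
    exact Subtype.ext (norm_eq_zero.mp h4)
  have hsurj : Function.Surjective L :=
    (LinearMap.injective_iff_surjective_of_finrank_eq_finrank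
      (Subspace.dual_finrank_eq (K := ℝ) (V := V)).symm).mp hinj
  obtain ⟨z, hz⟩ := hsurj (-(((H Y).toLinearMap).comp V.subtype))
  refine ⟨Y + z, ?_, ?_⟩
  · rw [inner_add_right, real_inner_self_eq_norm_sq, hY, (hmem _).mp z.2]; norm_num
  · intro Z hZ
    have h1 : L z ⟨Z, (hmem Z).mpr hZ⟩ = -(H Y Z) := by rw [hz]; rfl
    rw [hL] at h1
    rw [map_add, add_apply, h1]
    ring

theorem pencil {Y : K} (hY : ‖Y‖ = 1) {α : ℝ} (hα : 0 < α) {B : K →L[ℝ] K →L[ℝ] ℝ}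
    (hBY : ∀ Z, B Y Z = α * ⟪Y, Z⟫) (hBZ : ∀ Z, ⟪Y, Z⟫ = 0 → B Z Z ≤ α / 2 * ‖Z‖ ^ 2)
    {H : ℝ → ℝ → K →L[ℝ] K →L[ℝ] ℝ}
    (hHs : ∀ᶠ t in 𝓝[>] (0 : ℝ), ∀ σ ∈ Icc (3 * α / 4) (5 * α / 4), ∀ Z Z',
      H t σ Z Z' = H t σ Z' Z)
    (hHc : ∀ᶠ t in 𝓝[>] (0 : ℝ), ContinuousOn (H t) (Icc (3 * α / 4) (5 * α / 4)))
    (hlim : ∀ ε > 0, ∀ᶠ t in 𝓝[>] (0 : ℝ), ∀ σ ∈ Icc (3 * α / 4) (5 * α / 4), ∀ Z Z',
      |H t σ Z Z' - (B Z Z' - σ * ⟪Z, Z'⟫)| ≤ ε * ‖Z‖ * ‖Z'‖) {ε : ℝ} (hε : 0 < ε) :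
    ∀ᶠ t in 𝓝[>] (0 : ℝ), ∃ σ ∈ Icc (3 * α / 4) (5 * α / 4), |σ - α| ≤ ε ∧ ∃ e,
      ‖e - Y‖ ≤ ε ∧ e ≠ 0 ∧ ∀ z, (∀ z', H t σ z z' = 0) ↔ ∃ s : ℝ, z = s • e := by
  -- constants
  set δ := min ε (α / 4) with hδ
  have hδ0 : 0 < δ := by positivity
  have hδε : δ ≤ ε := min_le_left _ _
  have hδα : δ ≤ α / 4 := min_le_right _ _
  set η := min (α / 8) (min (δ / 4) (ε * α / 8)) with hη
  have hη0 : 0 < η := by positivity
  have hη1 : η ≤ α / 8 := min_le_left _ _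
  have hη2 : η ≤ δ / 4 := (min_le_right _ _).trans (min_le_left _ _)
  have hη3 : η ≤ ε * α / 8 := (min_le_right _ _).trans (min_le_right _ _)
  filter_upwards [hHs, hHc, hlim η hη0] with t hs hcont hl
  have hYY : ⟪Y, Y⟫ = 1 := by rw [real_inner_self_eq_norm_sq, hY]; norm_num
  -- negativity on the orthogonal complement
  have hneg : ∀ σ ∈ Icc (3 * α / 4) (5 * α / 4), ∀ Z, ⟪Y, Z⟫ = 0 →
      H t σ Z Z ≤ -(α / 8) * ‖Z‖ ^ 2 := by
    intro σ hσ Z hZ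
    have h1 := (abs_le.mp (hl σ hσ Z Z)).2
    have h2 := hBZ Z hZ
    rw [real_inner_self_eq_norm_sq] at h1
    have h3 : 0 ≤ ‖Z‖ ^ 2 := sq_nonneg _
    have h4 : 3 * α / 4 * ‖Z‖ ^ 2 ≤ σ * ‖Z‖ ^ 2 := mul_le_mul_of_nonneg_right hσ.1 h3
    have h5 : η * ‖Z‖ * ‖Z‖ ≤ α / 8 * ‖Z‖ ^ 2 := by
      rw [mul_assoc, ← sq]
      exact mul_le_mul_of_nonneg_right hη1 h3
    nlinarith
  have hex : ∀ σ ∈ Icc (3 * α / 4) (5 * α / 4), ∃ e : K, ⟪Y, e⟫ = 1 ∧
      ∀ Z, ⟪Y, Z⟫ = 0 → H t σ e Z = 0 := fun σ hσ =>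
    Pencil_exists hY (by positivity) (H t σ) (hneg σ hσ)
  choose! e he1 he2 using hex
  -- size of `e - Y`
  have hsmall : ∀ σ ∈ Icc (3 * α / 4) (5 * α / 4), ‖e σ - Y‖ ≤ 8 * η / α := by
    intro σ hσ
    have h0 : ⟪Y, e σ - Y⟫ = 0 := by rw [inner_sub_right, he1 σ hσ, hYY, sub_self]
    have h1 := hneg σ hσ _ h0
    have h2 : H t σ (e σ - Y) (e σ - Y) = -(H t σ Y (e σ - Y)) := by
      have := he2 σ hσ _ h0
      rw [map_sub (H t σ), sub_apply, this]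
      ring
    have h3 := (abs_le.mp (hl σ hσ Y (e σ - Y))).2
    rw [hBY, h0, hY] at h3
    rw [h2] at h1
    have h4 : α / 8 * ‖e σ - Y‖ ^ 2 ≤ η * ‖e σ - Y‖ := by linarith
    rcases eq_or_lt_of_le (norm_nonneg (e σ - Y)) with h5 | h5
    · rw [← h5]; positivity
    · have h6 : α / 8 * ‖e σ - Y‖ ≤ η := by
        have : (α / 8 * ‖e σ - Y‖) * ‖e σ - Y‖ ≤ η * ‖e σ - Y‖ := by
          calc _ = α / 8 * ‖e σ - Y‖ ^ 2 := by ring
            _ ≤ _ := h4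
        exact le_of_mul_le_mul_right this h5
      rw [le_div_iff₀ hα]
      linarith
  have hηα : 8 * η / α ≤ 1 := by
    rw [div_le_iff₀ hα]; linarith
  -- continuity of `e`
  have hecont : ContinuousOn e (Icc (3 * α / 4) (5 * α / 4)) := by
    intro σ' hσ'
    have hd : ∀ σ ∈ Icc (3 * α / 4) (5 * α / 4),
        ‖e σ - e σ'‖ ≤ 8 / α * (‖H t σ - H t σ'‖ * ‖e σ'‖) := by
      intro σ hσ
      have h0 : ⟪Y, e σ - e σ'⟫ = 0 := by rw [inner_sub_right, he1 σ hσ, he1 σ' hσ', sub_self]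
      have h1 := hneg σ hσ _ h0
      have h2 : H t σ (e σ - e σ') (e σ - e σ')
          = -((H t σ - H t σ') (e σ') (e σ - e σ')) := by
        have k1 := he2 σ hσ _ h0
        have k2 := he2 σ' hσ' _ h0
        rw [map_sub (H t σ), sub_apply, k1,
          sub_apply, sub_apply, k2]
        ring
      have h3 : |(H t σ - H t σ') (e σ') (e σ - e σ')|
          ≤ ‖H t σ - H t σ'‖ * ‖e σ'‖ * ‖e σ - e σ'‖ := by
        have := (H t σ - H t σ').le_opNorm₂ (e σ') (e σ - e σ')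
        rwa [Real.norm_eq_abs] at this
      have h4 := (abs_le.mp h3).2
      rw [h2] at h1
      rcases eq_or_lt_of_le (norm_nonneg (e σ - e σ')) with h5 | h5
      · rw [← h5]; positivity
      · have h6 : α / 8 * ‖e σ - e σ'‖ ≤ ‖H t σ - H t σ'‖ * ‖e σ'‖ := by
          have : (α / 8 * ‖e σ - e σ'‖) * ‖e σ - e σ'‖
              ≤ (‖H t σ - H t σ'‖ * ‖e σ'‖) * ‖e σ - e σ'‖ := by
            calc _ = α / 8 * ‖e σ - e σ'‖ ^ 2 := by ring
              _ ≤ _ := by linarith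
          exact le_of_mul_le_mul_right this h5
        calc ‖e σ - e σ'‖ = 8 / α * (α / 8 * ‖e σ - e σ'‖) := by field_simp
          _ ≤ _ := mul_le_mul_of_nonneg_left h6 (by positivity)
    have hlim0 : Tendsto (fun σ => 8 / α * (‖H t σ - H t σ'‖ * ‖e σ'‖))
        (𝓝[Icc (3 * α / 4) (5 * α / 4)] σ') (𝓝 0) := by
      have h1 : Tendsto (H t) (𝓝[Icc (3 * α / 4) (5 * α / 4)] σ') (𝓝 (H t σ')) := hcont σ' hσ'
      have h2 : Tendsto (fun σ => ‖H t σ - H t σ'‖) (𝓝[Icc (3 * α / 4) (5 * α / 4)] σ')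
          (𝓝 0) := (tendsto_iff_norm_sub_tendsto_zero (E := K →L[ℝ] K →L[ℝ] ℝ)).mp h1
      have h3 := (h2.mul_const ‖e σ'‖).const_mul (8 / α)
      simpa using h3
    have : Tendsto e (𝓝[Icc (3 * α / 4) (5 * α / 4)] σ') (𝓝 (e σ')) := by
      rw [tendsto_iff_norm_sub_tendsto_zero]
      refine squeeze_zero' (Eventually.of_forall fun σ => norm_nonneg _) ?_ hlim0
      filter_upwards [self_mem_nhdsWithin] with σ hσ
      exact hd σ hσ
    exact this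
  set h : ℝ → ℝ := fun σ => H t σ (e σ) Y with hh
  have hhc : ContinuousOn h (Icc (3 * α / 4) (5 * α / 4)) :=
    (hcont.clm_apply hecont).clm_apply continuousOn_const
  have hsub : Icc (α - δ) (α + δ) ⊆ Icc (3 * α / 4) (5 * α / 4) :=
    Icc_subset_Icc (by linarith) (by linarith)
  have hval : ∀ σ ∈ Icc (3 * α / 4) (5 * α / 4), |h σ - (α - σ)| ≤ 2 * η := by
    intro σ hσ
    have h0 : ⟪Y, e σ - Y⟫ = 0 := by rw [inner_sub_right, he1 σ hσ, hYY, sub_self]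
    have h1 := hl σ hσ Y Y
    rw [hBY, hYY, hY] at h1
    have h2 := hl σ hσ Y (e σ - Y)
    rw [hBY, h0, hY] at h2
    have h3 : h σ = H t σ Y Y + H t σ Y (e σ - Y) := by
      rw [hh]
      simp only
      rw [hs σ hσ (e σ) Y, ← map_add]
      congr 1
      abel
    have h4 : ‖e σ - Y‖ ≤ 1 := (hsmall σ hσ).trans hηα
    have h5 : η * 1 * ‖e σ - Y‖ ≤ η := by nlinarith
    obtain ⟨a1, a2⟩ := abs_le.mp h1
    obtain ⟨b1, b2⟩ := abs_le.mp h2
    rw [h3, abs_le]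
    constructor <;> linarith
  have hpos : 0 ≤ h (α - δ) := by
    have := (abs_le.mp (hval (α - δ) (hsub ⟨le_rfl, by linarith⟩))).1
    linarith
  have hneg' : h (α + δ) ≤ 0 := by
    have := (abs_le.mp (hval (α + δ) (hsub ⟨by linarith, le_rfl⟩))).2
    linarith
  obtain ⟨σ, hσ, hσ0⟩ := intermediate_value_Icc' (by linarith : α - δ ≤ α + δ)
    (hhc.mono hsub) ⟨hneg', hpos⟩
  have hσI := hsub hσ
  have hker : ∀ z', H t σ (e σ) z' = 0 := by
    intro z'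
    have h1 : ⟪Y, z' - ⟪Y, z'⟫ • Y⟫ = 0 := by
      rw [inner_sub_right, inner_smul_right, hYY]; ring
    have h2 := he2 σ hσI _ h1
    have h3 : H t σ (e σ) Y = 0 := hσ0
    rw [map_sub, map_smul, h3, smul_zero, sub_zero] at h2
    exact h2
  refine ⟨σ, hσI, ?_, e σ, ?_, ?_, ?_⟩
  · rw [abs_le]
    constructor
    · linarith [hσ.1]
    · linarith [hσ.2]
  · refine (hsmall σ hσI).trans ?_
    rw [div_le_iff₀ hα]
    linarith
  · intro h0
    have := he1 σ hσI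
    rw [h0, inner_zero_right] at this
    exact one_ne_zero this.symm
  · intro z
    constructor
    · intro hz
      refine ⟨⟪Y, z⟫, ?_⟩
      set w := z - ⟪Y, z⟫ • e σ with hw
      have h1 : ⟪Y, w⟫ = 0 := by
        rw [hw, inner_sub_right, inner_smul_right, he1 σ hσI]; ring
      have h2 : H t σ w w = 0 := by
        have : H t σ w = H t σ z - ⟪Y, z⟫ • H t σ (e σ) := by rw [hw, map_sub, map_smul]
        rw [this, sub_apply, smul_apply, hz w, hker w]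
        simp
      have h3 := hneg σ hσI w h1
      rw [h2] at h3
      have h4 : ‖w‖ ^ 2 ≤ 0 := by nlinarith [sq_nonneg ‖w‖]
      have h5 : ‖w‖ = 0 := by nlinarith [norm_nonneg w]
      exact sub_eq_zero.mp (norm_eq_zero.mp h5)
    · rintro ⟨s, rfl⟩ z'
      rw [map_smul, smul_apply, hker z', smul_zero]

end TotFoc
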