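import Pool.Agent.H49.TF.Lead
import Pool.Agent.H49.TF.Pencil

/-!
# COR: without folds a reduced function is constant

Suppose not and take `l, s, Y, α, B, C` from `lead` for `F₀ y = F (y, 0)`. `B` is symmetric (limit of symmetric forms, `D2_symm`). Put
`H t σ = (s * (t ^ (l - 2))⁻¹) • D2 (fun y => F (y, s * σ * t ^ (l - 2))) (t • Y)`.
`G (y, σ') = D2 (fun y => F (y, σ')) y` is `C^∞` at `(0, 0)` (`ContDiffAt.fderiv` twice). `∂G/∂σ'` at `(0, 0)` is `-⟪·, ·⟫` by `hs`, so by continuity of the derivative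
and the mean value inequality `‖G (y, σ') - G (y, 0) + σ' ⟪·, ·⟫‖ ≤ η |σ'|` for `(y, σ')` in a neighbourhood depending on `η > 0`. With `σ' = s σ t ^ (l - 2)`, `s² = 1`:
`|H t σ Z Z' - (s (t ^ (l-2))⁻¹ D2 F₀ (t Y) Z Z' - σ ⟪Z, Z'⟫)| ≤ η |σ| ‖Z‖ ‖Z'‖`: with the limit of `lead` this is `hlim` of `pencil`. Continuity and symmetry of
`H t` are clear for small `t`. `pencil` gives for small `t` a number `σ` near `α` and `e` near `Y` with kernel `ℝ e` of `D2 (F (·, σ')) (t Y)`, `σ' = s σ t ^ (l - 2) ≠ 0`.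
`D3 (F (·, σ')) (t Y) e e e = D3 F₀ (t Y) e e e + O(σ')`; divided by `t ^ (l - 3)` it tends to `C Y Y Y ≠ 0` as `t → 0` (choose `ε` small in `pencil`;
`σ' / t ^ (l - 3) = s σ t → 0`; the third derivative is locally Lipschitz in `σ'`). So `D3 (F (·, σ')) (t Y) e e e ≠ 0` for small `t > 0`, and `(t Y, σ')` is close to
`(0, 0)`: a fold, contradiction to `nf`.
-/

set_option autoImplicit false

open scoped Topology ContDiff RealInnerProductSpace
open Filter Set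

namespace TotFoc

variable {K : Type*} [NormedAddCommGroup K] [InnerProductSpace ℝ K] [FiniteDimensional ℝ K]

/-- the slice derivative of an analytic function is analytic -/
theorem Core_slice {N : Type*} [NormedAddCommGroup N] [NormedSpace ℝ N] {Φ : K × ℝ → N}
    (hΦ : ContDiffAt ℝ ω Φ (0, 0)) :
    ContDiffAt ℝ ω (fun x : K × ℝ => fderiv ℝ (fun y => Φ (y, x.2)) x.1) (0, 0) := by
  have h1 : ContDiffAt ℝ ω (Function.uncurry fun (x : K × ℝ) (y : K) => Φ (y, x.2))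
      (((0 : K), (0 : ℝ)), ((0 : K), (0 : ℝ)).1) := by
    have h2 : (Function.uncurry fun (x : K × ℝ) (y : K) => Φ (y, x.2)) =
        Φ ∘ fun z : (K × ℝ) × K => (z.2, z.1.2) := by
      funext z
      rfl
    rw [h2]
    exact ContDiffAt.comp _ hΦ (contDiffAt_snd.prodMk contDiffAt_fst.snd)
  exact ContDiffAt.fderiv h1 contDiffAt_fst le_top

/-- points of the curves used below are close to the origin -/
theorem Core_small {P : K × ℝ → Prop} (h : ∀ᶠ x in 𝓝 ((0 : K), (0 : ℝ)), P x) {Y : K}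
    (hY : ‖Y‖ = 1) {s : ℝ} (hs : s = 1 ∨ s = -1) {l : ℕ} (hl : 3 ≤ l) (A : ℝ) :
    ∀ᶠ t in 𝓝[>] (0 : ℝ), ∀ σ : ℝ, |σ| ≤ A → P (t • Y, s * σ * t ^ (l - 2)) := by
  obtain ⟨δ, hδ, hball⟩ := Metric.eventually_nhds_iff_ball.1 h
  have h1 : ∀ᶠ t in 𝓝[>] (0 : ℝ), t < δ :=
    nhdsWithin_le_nhds (gt_mem_nhds hδ)
  have h2 : ∀ᶠ t in 𝓝[>] (0 : ℝ), A * t ^ (l - 2) < δ := by
    have h3 : ContinuousAt (fun t : ℝ => A * t ^ (l - 2)) 0 := by fun_prop
    have h4 : ∀ᶠ t in 𝓝 (0 : ℝ), A * t ^ (l - 2) < δ := by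
      refine h3.eventually (gt_mem_nhds ?_)
      have h5 : A * (0 : ℝ) ^ (l - 2) = 0 := by
        rw [zero_pow (by omega), mul_zero]
      exact h5.trans_lt hδ
    exact nhdsWithin_le_nhds h4
  filter_upwards [h1, h2, self_mem_nhdsWithin] with t h1 h2 h3 σ hσ
  apply hball
  have ht : (0 : ℝ) < t := h3
  have hs' : |s| = 1 := by rcases hs with h | h <;> simp [h]
  rw [Metric.mem_ball, Prod.dist_eq, max_lt_iff]
  constructor
  · simp only [dist_zero_right, norm_smul, hY, mul_one, Real.norm_eq_abs, abs_of_pos ht]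
    exact h1
  · simp only [dist_zero_right, Real.norm_eq_abs, abs_mul, hs', one_mul, abs_pow, abs_of_pos ht]
    exact (mul_le_mul_of_nonneg_right hσ (by positivity)).trans_lt h2

set_option maxSynthPendingDepth 3 in
theorem core {F : K × ℝ → ℝ} (hF : ContDiffAt ℝ ω F (0, 0))
    (h1 : fderiv ℝ (fun y => F (y, 0)) 0 = 0) (h2 : D2 (fun y => F (y, 0)) 0 = 0)
    (hs : ∀ Z Z', HasDerivAt (fun s : ℝ => D2 (fun y => F (y, s)) 0 Z Z') (-⟪Z, Z'⟫) 0)
    (nf : ∀ᶠ x : K × ℝ in 𝓝 (0, 0), x.2 ≠ 0 → ¬ IsFold (fun y => F (y, x.2)) x.1) :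
    ∀ᶠ y in 𝓝 (0 : K), F (y, 0) = F (0, 0) := by
  by_contra hne
  have hF0 : ContDiffAt ℝ ω (fun y => F (y, 0)) 0 :=
    ContDiffAt.comp (0 : K) (g := F) hF (contDiffAt_id.prodMk contDiffAt_const)
  obtain ⟨l, s, Y, α, B, C, hl, hs1, hY, hα, hBY, hBZ, hC, limB, limC⟩ := lead hF0 h1 h2 hne
  have hsabs : |s| = 1 := by rcases hs1 with h | h <;> simp [h]
  have hs0 : s ≠ 0 := by
    intro h
    rw [h] at hsabs
    simp at hsabs
  have hss : s * s = 1 := by rcases hs1 with h | h <;> simp [h]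
  set G2 : K × ℝ → K →L[ℝ] K →L[ℝ] ℝ := fun x => D2 (fun y => F (y, x.2)) x.1 with hG2
  set G3 : K × ℝ → K →L[ℝ] K →L[ℝ] K →L[ℝ] ℝ := fun x => D3 (fun y => F (y, x.2)) x.1 with hG3
  have sm1 : ContDiffAt ℝ ω (fun x : K × ℝ => fderiv ℝ (fun y => F (y, x.2)) x.1) (0, 0) :=
    Core_slice hF
  have sm2 : ContDiffAt ℝ ω G2 (0, 0) := Core_slice sm1
  have sm3 : ContDiffAt ℝ ω G3 (0, 0) := Core_slice sm2
  -- the derivative of `G2` in the second variable
  set T : K →L[ℝ] K →L[ℝ] ℝ := fderiv ℝ G2 (0, 0) (0, 1) with hT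
  have hTZ : ∀ Z Z', T Z Z' = -⟪Z, Z'⟫ := by
    intro Z Z'
    have d1 : HasFDerivAt G2 (fderiv ℝ G2 (0, 0)) ((0 : K), (0 : ℝ)) :=
      (sm2.differentiableAt (by simp)).hasFDerivAt
    have d2 : HasDerivAt (fun r : ℝ => ((0 : K), r)) ((0 : K), (1 : ℝ)) 0 :=
      (hasDerivAt_const (0 : ℝ) (0 : K)).prodMk (hasDerivAt_id (0 : ℝ))
    have d3 : HasDerivAt (fun r : ℝ => G2 (0, r)) T 0 := by
      have := HasFDerivAt.comp_hasDerivAt (l := G2) (f := fun r : ℝ => ((0 : K), r)) (0 : ℝ) d1 d2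
      exact this
    have d4 : HasDerivAt (fun r : ℝ => G2 (0, r) Z) (T Z) 0 := by
      have := d3.clm_apply (hasDerivAt_const (0 : ℝ) Z)
      simpa using this
    have d5 : HasDerivAt (fun r : ℝ => G2 (0, r) Z Z') (T Z Z') 0 := by
      have := d4.clm_apply (hasDerivAt_const (0 : ℝ) Z')
      simpa using this
    exact d5.unique (hs Z Z')
  have hest : ∀ η > 0, ∀ᶠ x in 𝓝 ((0 : K), (0 : ℝ)),
      ‖G2 x - G2 (x.1, 0) - x.2 • T‖ ≤ η * |x.2| := by
    intro η hη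
    have d1 := (sm2.hasStrictFDerivAt (by simp)).isLittleO.def hη
    have d2 : Tendsto (fun x : K × ℝ => (x, (x.1, (0 : ℝ)))) (𝓝 ((0 : K), (0 : ℝ)))
        (𝓝 (((0 : K), (0 : ℝ)), ((0 : K), (0 : ℝ)))) := by
      have : Continuous (fun x : K × ℝ => (x, (x.1, (0 : ℝ)))) := by fun_prop
      exact this.tendsto _
    filter_upwards [d2.eventually d1] with x hx
    have e1 : x - (x.1, (0 : ℝ)) = x.2 • ((0 : K), (1 : ℝ)) := by
      ext <;> simp
    rw [e1, map_smul, norm_smul] at hx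
    have e2 : ‖((0 : K), (1 : ℝ))‖ = 1 := by simp [Prod.norm_def]
    rw [e2, mul_one, Real.norm_eq_abs] at hx
    exact hx
  have Aσ : ∀ σ ∈ Icc (3 * α / 4) (5 * α / 4), |σ| ≤ 5 * α / 4 := by
    intro σ hσ
    rw [abs_of_nonneg (by linarith [hσ.1])]
    exact hσ.2
  set H : ℝ → ℝ → K →L[ℝ] K →L[ℝ] ℝ :=
    fun t σ => (s * (t ^ (l - 2))⁻¹) • G2 (t • Y, s * σ * t ^ (l - 2)) with hH
  have hHs : ∀ᶠ t in 𝓝[>] (0 : ℝ), ∀ σ ∈ Icc (3 * α / 4) (5 * α / 4), ∀ Z Z',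
      H t σ Z Z' = H t σ Z' Z := by
    filter_upwards [Core_small (hF.eventually (by simp)) hY hs1 hl (5 * α / 4)] with t ht σ hσ Z Z'
    have e1 : ContDiffAt ℝ ω (fun y => F (y, s * σ * t ^ (l - 2))) (t • Y) :=
      ContDiffAt.comp (t • Y) (g := F) (ht σ (Aσ σ hσ)) (contDiffAt_id.prodMk contDiffAt_const)
    have e2 := D2_symm (e1.of_le le_top) Z Z'
    simp only [hH, hG2, _root_.smul_apply]
    rw [e2]
  have hHc : ∀ᶠ t in 𝓝[>] (0 : ℝ), ContinuousOn (H t) (Icc (3 * α / 4) (5 * α / 4)) := by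
    have e0 : ∀ᶠ x in 𝓝 ((0 : K), (0 : ℝ)), ContinuousAt G2 x :=
      (sm2.eventually (by simp)).mono fun x hx => hx.continuousAt
    filter_upwards [Core_small e0 hY hs1 hl (5 * α / 4)] with t ht σ hσ
    have e1 := ht σ (Aσ σ hσ)
    have e2 : ContinuousAt (fun σ : ℝ => G2 (t • Y, s * σ * t ^ (l - 2))) σ :=
      ContinuousAt.comp (g := G2) e1 (by fun_prop)
    exact (e2.const_smul (s * (t ^ (l - 2))⁻¹)).continuousWithinAt
  have hlim : ∀ ε > 0, ∀ᶠ t in 𝓝[>] (0 : ℝ), ∀ σ ∈ Icc (3 * α / 4) (5 * α / 4), ∀ Z Z',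
      |H t σ Z Z' - (B Z Z' - σ * ⟪Z, Z'⟫)| ≤ ε * ‖Z‖ * ‖Z'‖ := by
    intro ε hε
    have e1 := Core_small (hest (2 * ε / (5 * α)) (by positivity)) hY hs1 hl (5 * α / 4)
    have e2 := ((Metric.tendsto_nhds (α := K →L[ℝ] K →L[ℝ] ℝ)).1 limB) (ε / 2) (by linarith)
    filter_upwards [e1, e2, self_mem_nhdsWithin] with t h1 h2 h3 σ hσ Z Z'
    have ht : (0 : ℝ) < t := h3
    have hq : 0 < t ^ (l - 2) := by positivity
    have e3 := h1 σ (Aσ σ hσ)
    have hσ0 : 0 < σ := by linarith [hσ.1]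
    set q := t ^ (l - 2) with hqdef
    have e4 : H t σ - (B + σ • T) = (s * q⁻¹) • (G2 (t • Y, s * σ * q) - G2 (t • Y, 0)
        - (s * σ * q) • T) + ((s * q⁻¹) • G2 (t • Y, 0) - B) := by
      simp only [hH]
      rw [← hqdef, smul_sub, smul_sub, smul_smul]
      have : s * q⁻¹ * (s * σ * q) = σ := by
        have : s * q⁻¹ * (s * σ * q) = (s * s) * σ * (q⁻¹ * q) := by ring
        rw [this, hss, inv_mul_cancel₀ hq.ne']
        ring
      rw [this]
      abel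
    have e5 : ‖H t σ - (B + σ • T)‖ ≤ ε := by
      rw [e4]
      refine (norm_add_le _ _).trans ?_
      have e6 : ‖(s * q⁻¹) • (G2 (t • Y, s * σ * q) - G2 (t • Y, 0) - (s * σ * q) • T)‖ ≤
          ε / 2 := by
        rw [norm_smul, Real.norm_eq_abs, abs_mul, hsabs, one_mul, abs_of_pos (inv_pos.2 hq)]
        rw [abs_mul, abs_mul, hsabs, one_mul, abs_of_pos hσ0, abs_of_pos hq] at e3
        calc q⁻¹ * ‖G2 (t • Y, s * σ * q) - G2 (t • Y, 0) - (s * σ * q) • T‖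
            ≤ q⁻¹ * (2 * ε / (5 * α) * (σ * q)) :=
              mul_le_mul_of_nonneg_left e3 (inv_pos.2 hq).le
          _ = 2 * ε / (5 * α) * σ := by field_simp
          _ ≤ 2 * ε / (5 * α) * (5 * α / 4) :=
              mul_le_mul_of_nonneg_left hσ.2 (by positivity)
          _ = ε / 2 := by field_simp; ring
      have e7 : ‖(s * q⁻¹) • G2 (t • Y, 0) - B‖ < ε / 2 := by
        rw [dist_eq_norm] at h2
        exact h2
      linarith
    have e8 : H t σ Z Z' - (B Z Z' - σ * ⟪Z, Z'⟫) = (H t σ - (B + σ • T)) Z Z' := by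
      simp only [_root_.sub_apply, _root_.add_apply, _root_.smul_apply, smul_eq_mul, hTZ]
      ring
    rw [e8, ← Real.norm_eq_abs]
    refine (ContinuousLinearMap.le_opNorm₂ _ Z Z').trans ?_
    gcongr
  -- the third derivative
  have hΨ : Continuous fun x : (K →L[ℝ] K →L[ℝ] K →L[ℝ] ℝ) × K => x.1 x.2 x.2 x.2 := by
    fun_prop
  obtain ⟨ε₂, hε₂, hball⟩ := Metric.eventually_nhds_iff_ball.1
    (hΨ.continuousAt (x := (C, Y)) |>.eventually_ne hC)
  obtain ⟨M, V, hV, hLip⟩ := (sm3.of_le (m := 1) le_top).exists_lipschitzOnWith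
  have p1 := pencil hY hα hBY hBZ hHs hHc hlim (half_pos hε₂)
  have p2 := Core_small nf hY hs1 hl (5 * α / 4)
  have p3 := Core_small hV hY hs1 hl (5 * α / 4)
  have p4 := ((Metric.tendsto_nhds (α := K →L[ℝ] K →L[ℝ] K →L[ℝ] ℝ)).1 limC) (ε₂ / 2) (by linarith)
  have p5 : ∀ᶠ t in 𝓝[>] (0 : ℝ), (M : ℝ) * (5 * α / 4) * t < ε₂ / 2 := by
    have h3 : ContinuousAt (fun t : ℝ => (M : ℝ) * (5 * α / 4) * t) 0 := by fun_prop
    have h4 : ∀ᶠ t in 𝓝 (0 : ℝ), (M : ℝ) * (5 * α / 4) * t < ε₂ / 2 := by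
      refine h3.eventually (gt_mem_nhds ?_)
      simp only [mul_zero]
      linarith
    exact nhdsWithin_le_nhds h4
  obtain ⟨t, ⟨σ, hσ, -, e, heY, he0, hker⟩, ht2, ht3, ht4, ht5, ht6⟩ :=
    (p1.and (p2.and (p3.and (p4.and (p5.and self_mem_nhdsWithin))))).exists
  have ht : (0 : ℝ) < t := ht6
  have hq : 0 < t ^ (l - 2) := by positivity
  have hσ0 : 0 < σ := by linarith [hσ.1]
  have hne' : s * σ * t ^ (l - 2) ≠ 0 := mul_ne_zero (mul_ne_zero hs0 hσ0.ne') hq.ne'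
  refine ht2 σ (Aσ σ hσ) hne' ⟨e, he0, fun z => ?_, ?_⟩
  · rw [← hker z]
    have hc : s * (t ^ (l - 2))⁻¹ ≠ 0 := mul_ne_zero hs0 (inv_ne_zero hq.ne')
    constructor
    · intro h z'
      have := h z'
      simp only [hH, hG2, _root_.smul_apply, smul_eq_mul]
      rw [this, mul_zero]
    · intro h z'
      have := h z'
      simp only [hH, hG2, _root_.smul_apply, smul_eq_mul] at this
      rcases mul_eq_zero.1 this with h3 | h3
      · exact absurd h3 hc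
      · exact h3
  · have hr : 0 < t ^ (l - 3) := by positivity
    set r := t ^ (l - 3) with hrdef
    have hqr : t ^ (l - 2) = r * t := by
      rw [hrdef, ← pow_succ]
      congr 1
      omega
    have m1 : (t • Y, s * σ * t ^ (l - 2)) ∈ V := ht3 σ (Aσ σ hσ)
    have m2 : (t • Y, (0 : ℝ)) ∈ V := by
      have := ht3 0 (by rw [abs_zero]; positivity)
      rwa [mul_zero, zero_mul] at this
    have n1 : ‖G3 (t • Y, s * σ * t ^ (l - 2)) - G3 (t • Y, 0)‖ ≤ M * (σ * (r * t)) := by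
      have := hLip.norm_sub_le m1 m2
      refine this.trans (le_of_eq ?_)
      congr 1
      rw [Prod.norm_def]
      simp only [Prod.fst_sub, Prod.snd_sub, sub_self, sub_zero, norm_zero, Real.norm_eq_abs]
      rw [max_eq_right (abs_nonneg _), abs_mul, abs_mul, hsabs, one_mul, abs_of_pos hσ0,
        abs_of_pos hq, hqr]
    have n2 : ‖r⁻¹ • G3 (t • Y, s * σ * t ^ (l - 2)) - C‖ < ε₂ := by
      have e9 : r⁻¹ • G3 (t • Y, s * σ * t ^ (l - 2)) - C =
          r⁻¹ • (G3 (t • Y, s * σ * t ^ (l - 2)) - G3 (t • Y, 0)) +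
          (r⁻¹ • G3 (t • Y, 0) - C) := by
        rw [smul_sub]
        abel
      rw [e9]
      refine (norm_add_le _ _).trans_lt ?_
      have n3 : ‖r⁻¹ • (G3 (t • Y, s * σ * t ^ (l - 2)) - G3 (t • Y, 0))‖ < ε₂ / 2 := by
        rw [norm_smul, Real.norm_eq_abs, abs_of_pos (inv_pos.2 hr)]
        calc r⁻¹ * ‖G3 (t • Y, s * σ * t ^ (l - 2)) - G3 (t • Y, 0)‖
            ≤ r⁻¹ * (M * (σ * (r * t))) := mul_le_mul_of_nonneg_left n1 (inv_pos.2 hr).le
          _ = M * σ * t := by field_simp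
          _ ≤ M * (5 * α / 4) * t := by
              have : (0 : ℝ) ≤ M := M.2
              have := hσ.2
              gcongr
          _ < ε₂ / 2 := ht5
      have n4 : ‖r⁻¹ • G3 (t • Y, 0) - C‖ < ε₂ / 2 := by
        rw [dist_eq_norm] at ht4
        exact ht4
      linarith
    have n5 : (r⁻¹ • G3 (t • Y, s * σ * t ^ (l - 2)), e) ∈ Metric.ball (C, Y) ε₂ := by
      rw [Metric.mem_ball, Prod.dist_eq, max_lt_iff]
      constructor
      · simp only [dist_eq_norm]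
        exact n2
      · simp only [dist_eq_norm]
        linarith
    have n6 := hball _ n5
    intro hcon
    apply n6
    change (r⁻¹ • G3 (t • Y, s * σ * t ^ (l - 2))) e e e = 0
    simp only [_root_.smul_apply, smul_eq_mul]
    have : G3 (t • Y, s * σ * t ^ (l - 2)) e e e = 0 := hcon
    rw [this, mul_zero]

end TotFoc
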