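import Pool.Agent.H49.TF.Calc

/-!
# MIN3: derivatives at a local minimum

Consider `f t = u (y + t • e)`, `f' 0 = D1`, `f'' 0 = D2 u y e e`, `f''' 0 = D3 u y e e e` (or use Taylor's formula in one
variable for `f`). `fderiv = 0` is `IsLocalMin.fderiv_eq_zero`. `f t - f 0 = t² / 2 * f'' 0 + o(t²)` gives `f'' 0 ≥ 0`. If
`f' 0 = f'' 0 = 0`, then `f t - f 0 = t³ / 6 * f''' 0 + o(t³) ≥ 0` for `t` of both signs gives `f''' 0 = 0`.
(One variable: integrate three times, or `taylor_mean_remainder_lagrange`, or l'Hôpital / little-o: if `f''` has derivative `c > 0` at `0` and `f'' 0 = 0`,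
then `f'' < 0` on `(-δ, 0)`, so `f'` is strictly decreasing there, `f' > 0` on `(-δ, 0)` as `f' 0 = 0`, so `f` is strictly increasing on
`(-δ, 0]` and `f t < f 0` there: contradiction; `c < 0` is similar. This monotonicity proof also works for `f''`.)
-/

set_option autoImplicit false

open scoped Topology ContDiff RealInnerProductSpace
open Filter Set

namespace TotFoc

variable {V : Type*} [NormedAddCommGroup V] [NormedSpace ℝ V]

/-- negativity on the right of `0` -/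
theorem Min3_neg_right {f1 : ℝ → ℝ} {c : ℝ} (h0 : f1 0 = 0) (h : HasDerivAt f1 c 0) (hc : c < 0) :
    ∀ᶠ t in 𝓝 (0 : ℝ), 0 < t → f1 t < 0 := by
  have h1 := hasDerivAt_iff_tendsto_slope.1 h
  have h2 := h1.eventually_lt_const hc
  rw [eventually_nhdsWithin_iff] at h2
  filter_upwards [h2] with t ht htp
  have h3 := ht (ne_of_gt htp)
  rw [slope_def_field, h0, sub_zero, sub_zero, div_neg_iff] at h3
  rcases h3 with h3 | h3
  · linarith [h3.2]
  · exact h3.1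

theorem Min3_neg_left {f1 : ℝ → ℝ} {c : ℝ} (h0 : f1 0 = 0) (h : HasDerivAt f1 c 0) (hc : 0 < c) :
    ∀ᶠ t in 𝓝 (0 : ℝ), t < 0 → f1 t < 0 := by
  have h1 := hasDerivAt_iff_tendsto_slope.1 h
  have h2 := h1.eventually_const_lt hc
  rw [eventually_nhdsWithin_iff] at h2
  filter_upwards [h2] with t ht htp
  have h3 := ht (ne_of_lt htp)
  rw [slope_def_field, h0, sub_zero, sub_zero, div_pos_iff] at h3
  rcases h3 with h3 | h3
  · linarith [h3.2]
  · exact h3.1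

theorem Min3_A {f f1 : ℝ → ℝ} {c : ℝ} (hf : ∀ᶠ t in 𝓝 (0 : ℝ), HasDerivAt f (f1 t) t)
    (h0 : f1 0 = 0) (h : HasDerivAt f1 c 0) (hm : ∀ᶠ t in 𝓝 (0 : ℝ), f 0 ≤ f t) : 0 ≤ c := by
  by_contra hc
  have hc' : c < 0 := not_le.1 hc
  have h1 := (hf.and (hm.and (Min3_neg_right h0 h hc')))
  obtain ⟨δ, hδ, h2⟩ := Metric.eventually_nhds_iff.1 h1
  have key : ∀ t, |t| < δ → HasDerivAt f (f1 t) t ∧ f 0 ≤ f t ∧ (0 < t → f1 t < 0) := by
    intro t ht
    exact h2 (by rw [Real.dist_eq, sub_zero]; exact ht)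
  have hδ2 : 0 < δ / 2 := by linarith
  obtain ⟨s, hs, hs2⟩ := exists_hasDerivAt_eq_slope f f1 hδ2
    (fun x hx => (key x (by rw [abs_of_nonneg hx.1]; linarith [hx.2])).1.continuousAt.continuousWithinAt)
    (fun x hx => (key x (by rw [abs_of_pos hx.1]; linarith [hx.2])).1)
  have h3 := (key s (by rw [abs_of_pos hs.1]; linarith [hs.2])).2.2 hs.1
  have h4 := (key (δ / 2) (by rw [abs_of_pos hδ2]; linarith)).2.1
  have h5 : 0 ≤ (f (δ / 2) - f 0) / (δ / 2 - 0) := div_nonneg (by linarith) (by linarith)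
  linarith

theorem Min3_B {f f1 f2 : ℝ → ℝ} {c : ℝ} (hf : ∀ᶠ t in 𝓝 (0 : ℝ), HasDerivAt f (f1 t) t)
    (hf1 : ∀ᶠ t in 𝓝 (0 : ℝ), HasDerivAt f1 (f2 t) t)
    (h0 : f1 0 = 0) (h02 : f2 0 = 0) (h : HasDerivAt f2 c 0)
    (hm : ∀ᶠ t in 𝓝 (0 : ℝ), f 0 ≤ f t) : c ≤ 0 := by
  by_contra hc
  have hc' : 0 < c := not_le.1 hc
  have h1 := (hf.and (hm.and (hf1.and (Min3_neg_left h02 h hc'))))
  obtain ⟨δ, hδ, h2⟩ := Metric.eventually_nhds_iff.1 h1
  have key : ∀ t, |t| < δ → HasDerivAt f (f1 t) t ∧ f 0 ≤ f t ∧ HasDerivAt f1 (f2 t) t ∧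
      (t < 0 → f2 t < 0) := by
    intro t ht
    exact h2 (by rw [Real.dist_eq, sub_zero]; exact ht)
  have hpos : ∀ t, -δ < t → t < 0 → 0 < f1 t := by
    intro t ht ht0
    obtain ⟨s, hs, hs2⟩ := exists_hasDerivAt_eq_slope f1 f2 ht0
      (fun x hx => (key x (by rw [abs_of_nonpos hx.2]; linarith [hx.1])).2.2.1.continuousAt.continuousWithinAt)
      (fun x hx => (key x (by rw [abs_of_neg hx.2]; linarith [hx.1])).2.2.1)
    have h3 := (key s (by rw [abs_of_neg hs.2]; linarith [hs.1])).2.2.2 hs.2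
    rw [hs2, h0] at h3
    by_contra h4
    have h5 : 0 ≤ (0 - f1 t) / (0 - t) := div_nonneg (by linarith [not_lt.1 h4]) (by linarith)
    linarith
  have hδ2 : -(δ / 2) < 0 := by linarith
  obtain ⟨s, hs, hs2⟩ := exists_hasDerivAt_eq_slope f f1 hδ2
    (fun x hx => (key x (by rw [abs_of_nonpos hx.2]; linarith [hx.1])).1.continuousAt.continuousWithinAt)
    (fun x hx => (key x (by rw [abs_of_neg hx.2]; linarith [hx.1])).1)
  have h3 := hpos s (by linarith [hs.1]) hs.2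
  have h4 := (key (-(δ / 2)) (by rw [abs_of_neg hδ2]; linarith)).2.1
  rw [hs2] at h3
  have h5 : (f 0 - f (-(δ / 2))) / (0 - -(δ / 2)) ≤ 0 :=
    div_nonpos_of_nonpos_of_nonneg (by linarith) (by linarith)
  linarith

theorem Min3_comp_neg {f : ℝ → ℝ} {a t : ℝ} (h : HasDerivAt f a (-t)) :
    HasDerivAt (fun t => f (-t)) (-a) t := by
  have h1 := h.comp t (hasDerivAt_neg t)
  rw [mul_neg_one] at h1
  exact h1

theorem Min3_C {f f1 f2 : ℝ → ℝ} {c : ℝ} (hf : ∀ᶠ t in 𝓝 (0 : ℝ), HasDerivAt f (f1 t) t)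
    (hf1 : ∀ᶠ t in 𝓝 (0 : ℝ), HasDerivAt f1 (f2 t) t)
    (h0 : f1 0 = 0) (h02 : f2 0 = 0) (h : HasDerivAt f2 c 0)
    (hm : ∀ᶠ t in 𝓝 (0 : ℝ), f 0 ≤ f t) : c = 0 := by
  apply le_antisymm (Min3_B hf hf1 h0 h02 h hm)
  have hneg : Tendsto (fun t : ℝ => -t) (𝓝 0) (𝓝 0) := by
    have := (continuous_neg (G := ℝ)).tendsto 0
    rwa [neg_zero] at this
  have h1 : ∀ᶠ t in 𝓝 (0 : ℝ), HasDerivAt (fun t => f (-t)) (-f1 (-t)) t := by
    filter_upwards [hneg.eventually hf] with t ht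
    exact Min3_comp_neg ht
  have h2 : ∀ᶠ t in 𝓝 (0 : ℝ), HasDerivAt (fun t => -f1 (-t)) (f2 (-t)) t := by
    filter_upwards [hneg.eventually hf1] with t ht
    have := (Min3_comp_neg ht).neg
    rwa [neg_neg] at this
  have h3 : HasDerivAt (fun t => f2 (-t)) (-c) 0 := by
    have h4 : HasDerivAt f2 c (-0) := by rwa [neg_zero]
    exact Min3_comp_neg h4
  have h5 := Min3_B h1 h2 (by rw [neg_zero, h0, neg_zero]) (by rw [neg_zero, h02]) h3
    (by
      filter_upwards [hneg.eventually hm] with t ht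
      rwa [neg_zero])
  linarith

theorem min3 {u : V → ℝ} {y : V} (hu : ContDiffAt ℝ 3 u y) (hm : IsLocalMin u y) :
    fderiv ℝ u y = 0 ∧ (∀ Z, 0 ≤ D2 u y Z Z) ∧
      ∀ e, (∀ z', D2 u y e z' = 0) → D3 u y e e e = 0 := by
  have hd0 : fderiv ℝ u y = 0 := hm.fderiv_eq_zero
  have hpath : ∀ e : V, ∀ t : ℝ, HasDerivAt (fun t : ℝ => y + t • e) e t := by
    intro e t
    have h1 : HasDerivAt (fun t : ℝ => t • e) ((1 : ℝ) • e) t := (hasDerivAt_id t).smul_const e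
    rw [one_smul] at h1
    exact h1.const_add y
  have htend : ∀ e : V, Tendsto (fun t : ℝ => y + t • e) (𝓝 0) (𝓝 y) := by
    intro e
    have h1 := (hpath e 0).continuousAt.tendsto
    simpa using h1
  have hy0 : ∀ e : V, y + (0 : ℝ) • e = y := fun e => by simp
  have hev : ∀ e : V, ∀ᶠ t : ℝ in 𝓝 0, ContDiffAt ℝ 3 u (y + t • e) := by
    intro e
    exact (htend e).eventually (hu.eventually (by simp))
  have hF : ∀ e : V, ∀ᶠ t : ℝ in 𝓝 0,
      HasDerivAt (fun t : ℝ => u (y + t • e)) (fderiv ℝ u (y + t • e) e) t := by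
    intro e
    filter_upwards [hev e] with t ht
    have h1 := (ht.differentiableAt (by norm_num)).hasFDerivAt
    exact h1.comp_hasDerivAt t (hpath e t)
  have hF1 : ∀ e : V, ∀ᶠ t : ℝ in 𝓝 0,
      HasDerivAt (fun t : ℝ => fderiv ℝ u (y + t • e) e) (D2 u (y + t • e) e e) t := by
    intro e
    filter_upwards [hev e] with t ht
    have h2 : ContDiffAt ℝ 2 u (y + t • e) := ht.of_le (by norm_num)
    have h3 : HasFDerivAt (fun z => fderiv ℝ u z e)
        ((ContinuousLinearMap.apply ℝ ℝ e).comp (fderiv ℝ (fderiv ℝ u) (y + t • e))) (y + t • e) :=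
      (ContinuousLinearMap.apply ℝ ℝ e).hasFDerivAt.comp _ (Calc_diff h2).hasFDerivAt
    exact h3.comp_hasDerivAt t (hpath e t)
  have hF2 : ∀ e : V, HasDerivAt (fun t : ℝ => D2 u (y + t • e) e e) (D3 u y e e e) 0 := by
    intro e
    have h1 : HasFDerivAt (fun z => D2 u z e)
        ((ContinuousLinearMap.apply ℝ (V →L[ℝ] ℝ) e).comp (fderiv ℝ (D2 u) y)) y :=
      HasFDerivAt.comp (g := fun A : V →L[ℝ] V →L[ℝ] ℝ => A e) (f := D2 u) y
        (ContinuousLinearMap.apply ℝ (V →L[ℝ] ℝ) e).hasFDerivAt (Calc_diff2 hu).hasFDerivAt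
    have h2 : HasFDerivAt (fun z => D2 u z e e)
        ((ContinuousLinearMap.apply ℝ ℝ e).comp
          ((ContinuousLinearMap.apply ℝ (V →L[ℝ] ℝ) e).comp (fderiv ℝ (D2 u) y))) y :=
      (ContinuousLinearMap.apply ℝ ℝ e).hasFDerivAt.comp y h1
    rw [← hy0 e] at h2
    have h3 := h2.comp_hasDerivAt (0 : ℝ) (hpath e 0)
    rw [hy0 e] at h3
    exact h3
  have hmin : ∀ e : V, ∀ᶠ t : ℝ in 𝓝 0, u (y + (0 : ℝ) • e) ≤ u (y + t • e) := by
    intro e
    have h1 := (htend e).eventually hm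
    filter_upwards [h1] with t ht
    rw [hy0 e]
    exact ht
  have hz : ∀ e : V, fderiv ℝ u (y + (0 : ℝ) • e) e = 0 := by
    intro e
    rw [hy0 e, hd0]
    rfl
  refine ⟨hd0, fun Z => ?_, fun e he => ?_⟩
  · have h1 := (hF1 Z).self_of_nhds
    have h2 := Min3_A (hF Z) (hz Z) h1 (hmin Z)
    rwa [hy0 Z] at h2
  · exact Min3_C (hF e) (hF1 e) (hz e) (by rw [hy0 e]; exact he e) (hF2 e) (hmin e)

end TotFoc
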