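import Pool.Agent.H49.TF.Hess
import Pool.Agent.H49.TF.Min3

/-!
# CRN: the critical sets are closed; scaling; basic facts about `PP`

`isClosed_crit`: let `(c₀, a₀, x₀)` be in the closure. `x₀ ∈ X` (`X` is closed). Take a chart `(T, g)` at `x₀`. Points `(c, a, x)` of the set near `(c₀, a₀, x₀)` have `x = gr x₀ T g y`,
`y = Pr (x - x₀)`, and `⟪c • x - a, Z + Dg(y) Z⟫ = 0` for all `Z` (`crit_near` / `near_orth` transferred by `surj` and continuity of `Pr`); `Dg` is continuous at `0` (`r ≥ 1`), so the expression is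
continuous in `(c, a, x)` at `(c₀, a₀, x₀)`; the limit is `⟪c₀ • x₀ - a₀, Z⟫ = 0`.
`isCompact_CrS`, `isCompact_PX`: closed subsets of `X`, `X ×ˢ X`.
`crit_scale`: `(k c) • p - k • a = k • (c • p - a)`; `nd_scale`: `hs T g (k c) (k v) = k * hs T g c v`.
`crit_self`: `1 • p - p = 0`. `nd_self`: `hs T g 1 0 Z Z' = ⟪Z, Z'⟫`. `nd_of_PP`: `TF1` with the points `p`, `q`.
`nearest`: `x` is a minimum of `fn 1 a` on `X` (`fn 1 a x = ‖x - a‖² / 2 - ‖a‖² / 2`), so `0` is a local minimum of `fn 1 a ∘ gr x T g`: first derivative `0` (`crit_near` at `y = 0`), second derivative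
`≥ 0` (`min3` or `Calc`; `Chart.hs_eq`). `farthest`: the same with signs changed.
-/

set_option autoImplicit false

open scoped Topology ContDiff RealInnerProductSpace
open Filter Set

namespace TotFoc

variable {E : Type*} [NormedAddCommGroup E] [InnerProductSpace ℝ E] [FiniteDimensional ℝ E]
  {r : ℕ∞ω} {X : Set E}

theorem isClosed_crit (h : IsSub r X) (h1 : 1 ≤ r) :
    IsClosed {x : ℝ × E × E | Crit X x.1 x.2.1 x.2.2} := by
  rw [← isOpen_compl_iff, isOpen_iff_mem_nhds]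
  rintro ⟨c₀, a₀, p₀⟩ hx
  have hcl : IsClosed X := h.1.isClosed
  have hproj : Tendsto (fun x : ℝ × E × E => x.2.2) (𝓝 (c₀, a₀, p₀)) (𝓝 p₀) :=
    (continuous_snd.comp continuous_snd).continuousAt
  by_cases hp : p₀ ∈ X
  · obtain ⟨T, g, hc, -⟩ := h.2 p₀ hp
    have hno : c₀ • p₀ - a₀ ∉ Tᗮ := by
      intro h2
      apply hx
      change Crit X c₀ a₀ p₀
      exact (hc.crit_iff h1).2 h2
    rw [Submodule.mem_orthogonal'] at hno
    push Not at hno
    obtain ⟨Z, hZT, hZ⟩ := hno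
    have hP : ∀ᶠ x in 𝓝 p₀, x ∈ X → ∀ v : E, v ∈ (tan X x)ᗮ →
        ⟪v, ((⟨Z, hZT⟩ : T) : E) + fderiv ℝ g (T.orthogonalProjectionOnto (x - p₀)) ⟨Z, hZT⟩⟫ = 0 := by
      rw [hc.eventually_iff (fun x => ∀ v : E, v ∈ (tan X x)ᗮ →
        ⟪v, ((⟨Z, hZT⟩ : T) : E) + fderiv ℝ g (T.orthogonalProjectionOnto (x - p₀)) ⟨Z, hZT⟩⟫ = 0)]
      filter_upwards [hc.near_orth h1] with y hy v hv
      rw [proj_gr hc.perp y]
      exact (hy v).1 hv ⟨Z, hZT⟩
    have hcontD : ContinuousAt (fderiv ℝ g) 0 := by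
      have h3 : ContDiffAt ℝ 0 (fderiv ℝ g) 0 := contDiffAt_D1 hc.smooth (by simpa using h1)
      exact h3.continuousAt
    have hPr : ContinuousAt (fun x : ℝ × E × E => T.orthogonalProjectionOnto (x.2.2 - p₀))
        (c₀, a₀, p₀) :=
      (T.orthogonalProjectionOnto.continuous.comp
        ((continuous_snd.comp continuous_snd).sub continuous_const)).continuousAt
    have hPr0 : T.orthogonalProjectionOnto (p₀ - p₀) = 0 := by rw [sub_self, map_zero]
    have hcont : ContinuousAt (fun x : ℝ × E × E => ⟪x.1 • x.2.2 - x.2.1,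
        ((⟨Z, hZT⟩ : T) : E) + fderiv ℝ g (T.orthogonalProjectionOnto (x.2.2 - p₀)) ⟨Z, hZT⟩⟫)
        (c₀, a₀, p₀) := by
      have h4 : ContinuousAt (fun x : ℝ × E × E =>
          fderiv ℝ g (T.orthogonalProjectionOnto (x.2.2 - p₀))) (c₀, a₀, p₀) := by
        apply ContinuousAt.comp (g := fderiv ℝ g)
          (f := fun x : ℝ × E × E => T.orthogonalProjectionOnto (x.2.2 - p₀)) _ hPr
        change ContinuousAt (fderiv ℝ g) (T.orthogonalProjectionOnto (p₀ - p₀))
        rw [hPr0]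
        exact hcontD
      have h5 : ContinuousAt (fun x : ℝ × E × E => x.1 • x.2.2 - x.2.1) (c₀, a₀, p₀) :=
        ((continuous_fst.smul (continuous_snd.comp continuous_snd)).sub
          (continuous_fst.comp continuous_snd)).continuousAt
      exact h5.inner (continuousAt_const.add (h4.clm_apply continuousAt_const))
    have hval : ⟪c₀ • p₀ - a₀,
        ((⟨Z, hZT⟩ : T) : E) + fderiv ℝ g (T.orthogonalProjectionOnto (p₀ - p₀)) ⟨Z, hZT⟩⟫ ≠ 0 := by
      rw [hPr0, hc.der]
      simpa using hZ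
    have hne := hcont.eventually_ne hval
    filter_upwards [hne, hproj.eventually hP] with x hx1 hx2 hx3
    exact hx1 (hx2 hx3.1 _ hx3.2)
  · filter_upwards [hproj.eventually (hcl.isOpen_compl.mem_nhds hp)] with x hx1 hx2
    exact hx1 hx2.1

theorem isCompact_CrS (h : IsSub r X) (h1 : 1 ≤ r) (c : ℝ) (a : E) : IsCompact (CrS X c a) := by
  have hcl : IsClosed (CrS X c a) := by
    have h2 : Continuous (fun x : E => ((c, a, x) : ℝ × E × E)) := by fun_prop
    exact (isClosed_crit h h1).preimage h2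
  exact h.1.of_isClosed_subset hcl (fun x hx => hx.1)

theorem isCompact_PX (h : IsSub r X) (h1 : 1 ≤ r) : IsCompact (PX X) := by
  have hcl : IsClosed (PX X) := by
    have h2 : Continuous (fun x : E × E => ((1, x.1, x.2) : ℝ × E × E)) := by fun_prop
    have h3 := (isClosed_crit h h1).preimage h2
    have h4 : IsClosed {x : E × E | x.1 ∈ X} := h.1.isClosed.preimage continuous_fst
    exact h4.inter h3
  exact (h.1.prod h.1).of_isClosed_subset hcl (fun x hx => ⟨hx.1, hx.2.1⟩)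

theorem crit_scale {k : ℝ} (hk : k ≠ 0) {c : ℝ} {a p : E} :
    Crit X (k * c) (k • a) p ↔ Crit X c a p := by
  unfold Crit
  have h1 : (k * c) • p - k • a = k • (c • p - a) := by rw [smul_sub, smul_smul]
  rw [h1, Submodule.smul_mem_iff _ hk]

theorem CritNear_hs (T : Submodule ℝ E) (g : T → E) (k c : ℝ) (a p : E) (Z Z' : T) :
    hs T g (k * c) ((k * c) • p - k • a) Z Z' = k * hs T g c (c • p - a) Z Z' := by
  have h1 : (k * c) • p - k • a = k • (c • p - a) := by rw [smul_sub, smul_smul]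
  unfold hs
  rw [h1, real_inner_smul_left]
  ring

theorem nd_scale {k : ℝ} (hk : k ≠ 0) {c : ℝ} {a p : E} :
    ND r X (k * c) (k • a) p ↔ ND r X c a p := by
  unfold ND
  simp only [CritNear_hs, mul_eq_zero, hk, false_or]

theorem crit_self {p : E} (hp : p ∈ X) : Crit X 1 p p := by
  refine ⟨hp, ?_⟩
  rw [one_smul, sub_self]
  exact Submodule.zero_mem _

theorem nd_self (p : E) : ND r X 1 p p := by
  intro T g _ Z hZ
  have h1 := hZ Z
  unfold hs at h1
  rw [one_smul, sub_self, inner_zero_left, add_zero, one_mul] at h1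
  have h2 : (Z : E) = 0 := inner_self_eq_zero.1 h1
  exact Subtype.ext h2

theorem nd_of_PP (h1 : TF1 r X) {p q : E} (h : PP X p q) : ND r X 1 p q :=
  h1 p p q (crit_self h.1) h.2 (nd_self p)

theorem TFx.tf1 (h : TFx r X) : TF1 r X := fun a p q => h 1 a p q

/-- the scaled version of `TF1` -/
theorem tf_ne_zero (h : TF1 r X) {c : ℝ} (hc : c ≠ 0) {a p q : E} (hp : Crit X c a p)
    (hq : Crit X c a q) (hn : ND r X c a p) : ND r X c a q := by
  have h1 : c * 1 = c := mul_one c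
  have h2 : c • (c⁻¹ • a) = a := by rw [smul_smul, mul_inv_cancel₀ hc, one_smul]
  have hp' : Crit X 1 (c⁻¹ • a) p := by rw [← crit_scale hc, h1, h2]; exact hp
  have hq' : Crit X 1 (c⁻¹ • a) q := by rw [← crit_scale hc, h1, h2]; exact hq
  have hn' : ND r X 1 (c⁻¹ • a) p := by rw [← nd_scale hc, h1, h2]; exact hn
  have h3 := h _ p q hp' hq' hn'
  rw [← nd_scale hc, h1, h2] at h3
  exact h3

theorem CritNear_fn (a z : E) : fn 1 a z = (‖z - a‖ ^ 2 - ‖a‖ ^ 2) / 2 := by
  unfold fn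
  rw [norm_sub_sq_real, real_inner_comm]
  ring

theorem CritNear_smooth {a x : E} {T : Submodule ℝ E} {g : T → E} (h : Chart r X x T g)
    (h3 : 3 ≤ r) : ContDiffAt ℝ 3 (fun y => fn 1 a (gr x T g y)) 0 := by
  have h4 : ContDiffAt ℝ 3 (gr x T g) 0 := h.contDiffAt_gr.of_le h3
  exact ContDiffAt.comp (g := fn 1 a) (f := gr x T g) 0 (contDiff_fn 1 a).contDiffAt h4

theorem nearest {a x : E} (hx : x ∈ X) {T : Submodule ℝ E} {g : T → E} (h : Chart r X x T g)
    (h3 : 3 ≤ r) (hm : ∀ y ∈ X, ‖x - a‖ ≤ ‖y - a‖) :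
    Crit X 1 a x ∧ ∀ Z : T, 0 ≤ hs T g 1 ((1 : ℝ) • x - a) Z Z := by
  have h1 : 1 ≤ r := le_trans (by norm_num) h3
  have h2 : 2 ≤ r := le_trans (by norm_num) h3
  have hmin : IsLocalMin (fun y => fn 1 a (gr x T g y)) 0 := by
    filter_upwards [h.mem] with y hy
    simp only [h.gr_zero, CritNear_fn]
    have h4 := hm _ hy
    have h5 := norm_nonneg (x - a)
    nlinarith
  obtain ⟨k1, k2, -⟩ := min3 (CritNear_smooth h h3) hmin
  constructor
  · have h6 := (h.crit_near h1).self_of_nhds 1 a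
    rw [h.gr_zero] at h6
    exact h6.2 k1
  · intro Z
    rw [← h.hs_eq h2]
    exact k2 Z

theorem farthest {a x : E} (hx : x ∈ X) {T : Submodule ℝ E} {g : T → E} (h : Chart r X x T g)
    (h3 : 3 ≤ r) (hm : ∀ y ∈ X, ‖y - a‖ ≤ ‖x - a‖) :
    Crit X 1 a x ∧ ∀ Z : T, hs T g 1 ((1 : ℝ) • x - a) Z Z ≤ 0 := by
  have h1 : 1 ≤ r := le_trans (by norm_num) h3
  have h2 : 2 ≤ r := le_trans (by norm_num) h3
  have hsm := CritNear_smooth (a := a) h h3
  have hmax : IsLocalMax (fun y => fn 1 a (gr x T g y)) 0 := by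
    filter_upwards [h.mem] with y hy
    simp only [h.gr_zero, CritNear_fn]
    have h4 := hm _ hy
    have h5 := norm_nonneg (gr x T g y - a)
    nlinarith
  have hmin : IsLocalMin (fun y => (-1) * fn 1 a (gr x T g y)) 0 := by
    filter_upwards [hmax] with y hy
    linarith
  obtain ⟨-, k2, -⟩ := min3 (contDiffAt_const.mul hsm) hmin
  constructor
  · have h6 := (h.crit_near h1).self_of_nhds 1 a
    rw [h.gr_zero] at h6
    exact h6.2 hmax.fderiv_eq_zero
  · intro Z
    rw [← h.hs_eq h2]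
    have h7 := k2 Z
    rw [D2_const_mul (-1) (hsm.of_le (by norm_num))] at h7
    linarith

end TotFoc
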