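import Pool.Agent.H49.TF.Th
import Pool.Agent.H49.TF.BottT
import Pool.Agent.H49.TF.End.EJ
import Pool.Agent.H49.TF.Hgt.Tfx

/-!
# Compact analytic totally focal submanifolds are isoparametric
-/

set_option autoImplicit false

open scoped Topology ContDiff RealInnerProductSpace
open Filter Set

namespace TotFoc

variable {E : Type*} [NormedAddCommGroup E] [InnerProductSpace ℝ E] [FiniteDimensional ℝ E]

theorem TotallyFocal.tf1 {r : ℕ∞ω} {M : Set E} (h : TotallyFocal r M) : TF1 r M := by
  intro a p q hp hq hn
  rcases h a with h1 | h1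
  · exact h1 q hq
  · exact absurd hn (h1 p hp)

theorem compact_isoparametric {M : Set E} (hM : IsSub ω M) (hc : IsPreconnected M)
    (h : TotallyFocal ω M) : Isoparametric ω M := by
  have h1 := h.tf1
  have hr : (∞ : ℕ∞ω) ≤ ω := le_top
  exact iso hr hM hc h1 (th hr bottAll M hM (tfx_of_tf1 hM hc h1))

end TotFoc
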