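import Pool.Agent.H49.TF.Near

/-!
# HES: critical points and Hessians in charts

`fn c a x = c / 2 * ‖x‖ ^ 2 - ⟪a, x⟫` has the derivative `v ↦ ⟪c • x - a, v⟫`.
`fderiv_fn_gr`: chain rule. `D2_fn_gr`: differentiate `⟪c • φ y - a, Z' + Dg(y) Z'⟫` in the direction `Z` (`fderiv_D1_apply`).
`hs_eq`: `y = 0`, `g 0 = 0`, `Dg(0) = 0`.
`crit_near`: `near_mem`, `near_orth`, `fderiv_fn_gr`.
`hess_near`: `near_chart`: near `y`: `fn c a (φ z) = (fn c a ∘ φ') (χ z)`, `φ' = gr x T' g'`, `x = φ y`, `χ z = T'.orthogonalProjectionOnto (φ z - x)`, `χ y = 0`. The derivative of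
`fn c a ∘ φ'` at `0` vanishes (`Crit`, `Chart.crit_iff`), so `D2_comp` and `hs_eq` at `x` give the formula (`Dχ(y) Z` = `Z + Dg(y) Z` as an element of `T'`).
`nd_near`: `hess_near`, `Chart.nd_iff` for a chart at `x` (from `Loc`), and `Z ↦ Z + Dg(y) Z` is a bijection `T → T'` (`near_chart`).
-/

set_option autoImplicit false

open scoped Topology ContDiff RealInnerProductSpace
open Filter Set

namespace TotFoc

variable {E : Type*} [NormedAddCommGroup E] [InnerProductSpace ℝ E] [FiniteDimensional ℝ E]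
  {r : ℕ∞ω} {X : Set E} {p : E} {T : Submodule ℝ E} {g : T → E}

theorem contDiff_fn (c : ℝ) (a : E) {n : ℕ∞ω} : ContDiff ℝ n (fn c a) := by
  unfold fn
  exact (contDiff_const.mul (contDiff_norm_sq ℝ)).sub (contDiff_const.inner ℝ contDiff_id)

theorem hasFDerivAt_fn (c : ℝ) (a x : E) : HasFDerivAt (fn c a) (innerSL ℝ (c • x - a)) x := by
  have h1 : HasFDerivAt (fun x : E => ‖x‖ ^ 2) (2 • innerSL ℝ x) x :=
    (hasStrictFDerivAt_norm_sq x).hasFDerivAt
  have h2 : HasFDerivAt (fun x : E => ⟪a, x⟫) (innerSL ℝ a) x := (innerSL ℝ a).hasFDerivAt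
  have h3 := (h1.const_mul (c / 2)).sub h2
  have h4 : (c / 2) • (2 • innerSL ℝ x) - innerSL ℝ a = innerSL ℝ (c • x - a) := by
    rw [map_sub, map_smul, two_nsmul, smul_add, ← add_smul, add_halves]
  rw [h4] at h3
  exact h3

theorem Hess_hasFDerivAt (c : ℝ) (a : E) {y : T} (h : DifferentiableAt ℝ g y) :
    HasFDerivAt (fun y => fn c a (gr p T g y))
      ((innerSL ℝ (c • gr p T g y - a)).comp (T.subtypeL + fderiv ℝ g y)) y :=
  (hasFDerivAt_fn c a (gr p T g y)).comp y (hasFDerivAt_gr h)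

theorem fderiv_fn_gr (c : ℝ) (a : E) {y : T} (h : DifferentiableAt ℝ g y) (Z : T) :
    fderiv ℝ (fun y => fn c a (gr p T g y)) y Z =
      ⟪c • gr p T g y - a, (Z : E) + fderiv ℝ g y Z⟫ := by
  rw [(Hess_hasFDerivAt c a h).fderiv]
  rfl

theorem Hess_contDiffAt_gr {y : T} {n : ℕ∞ω} (h : ContDiffAt ℝ n g y) :
    ContDiffAt ℝ n (gr p T g) y := by
  unfold gr
  exact (contDiffAt_const.add T.subtypeL.contDiff.contDiffAt).add h

theorem Hess_contDiffAt (c : ℝ) (a : E) {y : T} {n : ℕ∞ω} (h : ContDiffAt ℝ n g y) :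
    ContDiffAt ℝ n (fun y => fn c a (gr p T g y)) y :=
  (contDiff_fn c a).contDiffAt.comp y (Hess_contDiffAt_gr h)

theorem D2_fn_gr (c : ℝ) (a : E) {y : T} (h : ContDiffAt ℝ 2 g y) (Z Z' : T) :
    D2 (fun y => fn c a (gr p T g y)) y Z Z' =
      c * ⟪(Z : E) + fderiv ℝ g y Z, (Z' : E) + fderiv ℝ g y Z'⟫ +
        ⟪c • gr p T g y - a, D2 g y Z Z'⟫ := by
  rw [← fderiv_D1_apply (Hess_contDiffAt c a h) Z Z']
  have h1 : (fun z => fderiv ℝ (fun y => fn c a (gr p T g y)) z Z') =ᶠ[𝓝 y]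
      fun z => ⟪c • gr p T g z - a, (Z' : E) + fderiv ℝ g z Z'⟫ := by
    filter_upwards [Calc_diff_nhds h] with z hz
    exact fderiv_fn_gr c a hz Z'
  have hd : DifferentiableAt ℝ g y := h.differentiableAt (by norm_num)
  have h2 : HasFDerivAt (fun z => c • gr p T g z - a) (c • (T.subtypeL + fderiv ℝ g y)) y :=
    ((hasFDerivAt_gr hd).const_smul c).sub_const a
  have h3 : HasFDerivAt (fun z => fderiv ℝ g z Z')
      ((ContinuousLinearMap.apply ℝ E Z').comp (fderiv ℝ (fderiv ℝ g) y)) y :=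
    (ContinuousLinearMap.apply ℝ E Z').hasFDerivAt.comp y (Calc_diff h).hasFDerivAt
  have h4 : HasFDerivAt (fun z => (Z' : E) + fderiv ℝ g z Z')
      ((ContinuousLinearMap.apply ℝ E Z').comp (fderiv ℝ (fderiv ℝ g) y)) y :=
    h3.const_add _
  have h5 := h2.inner ℝ h4
  rw [h1.fderiv_eq, h5.fderiv]
  simp only [ContinuousLinearMap.comp_apply, fderivInnerCLM_apply,
    ContinuousLinearMap.prod_apply, _root_.smul_apply, _root_.add_apply,
    ContinuousLinearMap.apply_apply, inner_smul_left, RCLike.conj_to_real]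
  have e1 : (T.subtypeL Z : E) = (Z : E) := rfl
  have e2 : fderiv ℝ (fderiv ℝ g) y Z Z' = D2 g y Z Z' := rfl
  rw [e1, e2]
  ring

theorem Chart.hs_eq (h : Chart r X p T g) (h2 : 2 ≤ r) (c : ℝ) (a : E) (Z Z' : T) :
    D2 (fun y => fn c a (gr p T g y)) 0 Z Z' = hs T g c (c • p - a) Z Z' := by
  rw [D2_fn_gr c a (h.smooth.of_le h2), h.der, h.gr_zero]
  simp [hs]

theorem Chart.crit_near (h : Chart r X p T g) (h1 : 1 ≤ r) : ∀ᶠ y in 𝓝 (0 : T), ∀ (c : ℝ) (a : E),
    Crit X c a (gr p T g y) ↔ fderiv ℝ (fun y => fn c a (gr p T g y)) y = 0 := by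
  filter_upwards [h.near_mem, h.near_orth h1, h.near_cont (n := 1) (by exact_mod_cast h1)]
    with y hy1 hy2 hy3 c a
  have hd : DifferentiableAt ℝ g y := hy3.1.differentiableAt (by norm_num)
  unfold Crit
  rw [hy2]
  constructor
  · rintro ⟨-, h3⟩
    ext Z
    rw [fderiv_fn_gr c a hd Z, h3 Z]
    rfl
  · intro h3
    refine ⟨hy1.1, fun Z => ?_⟩
    rw [← fderiv_fn_gr c a hd Z, h3]
    rfl

theorem Hess_one_le (h2 : 2 ≤ r) : 1 ≤ r := le_trans (by norm_num) h2

/-- the transfer to another chart, at a fixed point -/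
theorem Hess_transfer {T' : Submodule ℝ E} {g' : T' → E} {y : T} (h2 : 2 ≤ r)
    (hg : ContDiffAt ℝ 2 g y) (h' : Chart r X (gr p T g y) T' g')
    (hev : ∀ᶠ z in 𝓝 y, gr p T g z = gr (gr p T g y) T' g'
        (T'.orthogonalProjectionOnto (gr p T g z - gr p T g y)))
    (c : ℝ) (a : E) (hc : Crit X c a (gr p T g y)) (Z Z' : T) (W W' : T')
    (hW : (W : E) = Z + fderiv ℝ g y Z) (hW' : (W' : E) = Z' + fderiv ℝ g y Z') :
    D2 (fun y => fn c a (gr p T g y)) y Z Z' = hs T' g' c (c • gr p T g y - a) W W' := by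
  set x := gr p T g y with hx
  have h1 := Hess_one_le h2
  have hd : DifferentiableAt ℝ g y := hg.differentiableAt (by norm_num)
  have e1 : D2 (fun y => fn c a (gr p T g y)) y =
      D2 (fun z => fn c a (gr x T' g' (T'.orthogonalProjectionOnto (gr p T g z - x)))) y := by
    apply D2_congr
    filter_upwards [hev] with z hz
    rw [← hz]
  have hχ0 : T'.orthogonalProjectionOnto (gr p T g y - x) = 0 := by
    rw [← hx, sub_self, map_zero]
  have hχc : ContDiffAt ℝ 2 (fun z => T'.orthogonalProjectionOnto (gr p T g z - x)) y :=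
    T'.orthogonalProjectionOnto.contDiff.contDiffAt.comp y
      ((Hess_contDiffAt_gr hg).sub contDiffAt_const)
  have hχd : HasFDerivAt (fun z => T'.orthogonalProjectionOnto (gr p T g z - x))
      (T'.orthogonalProjectionOnto.comp (T.subtypeL + fderiv ℝ g y)) y :=
    T'.orthogonalProjectionOnto.hasFDerivAt.comp y ((hasFDerivAt_gr hd).sub_const x)
  have hg' : ContDiffAt ℝ 2 g' 0 := h'.smooth.of_le h2
  have hd' : DifferentiableAt ℝ g' 0 := hg'.differentiableAt (by norm_num)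
  have h0 : fderiv ℝ (fun w => fn c a (gr x T' g' w)) 0 = 0 := by
    ext w
    rw [fderiv_fn_gr c a hd' w, h'.der, h'.gr_zero]
    have h3 := (h'.crit_iff h1).1 hc
    have h4 := Submodule.inner_left_of_mem_orthogonal w.2 h3
    simpa using h4
  have hu : ContDiffAt ℝ 2 (fun w => fn c a (gr x T' g' w))
      (T'.orthogonalProjectionOnto (gr p T g y - x)) := by
    rw [hχ0]
    exact Hess_contDiffAt c a hg'
  have h0' : fderiv ℝ (fun w => fn c a (gr x T' g' w))
      (T'.orthogonalProjectionOnto (gr p T g y - x)) = 0 := by rw [hχ0]; exact h0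
  have e2 := D2_comp (u := fun w => fn c a (gr x T' g' w))
    (χ := fun z => T'.orthogonalProjectionOnto (gr p T g z - x)) (z := y) hu hχc h0' Z Z'
  have hproj : ∀ (Z : T) (W : T'), (W : E) = Z + fderiv ℝ g y Z →
      fderiv ℝ (fun z => T'.orthogonalProjectionOnto (gr p T g z - x)) y Z = W := by
    intro Z W hW
    rw [hχd.fderiv]
    have h5 : (T'.orthogonalProjectionOnto.comp (T.subtypeL + fderiv ℝ g y)) Z =
        T'.orthogonalProjectionOnto ((Z : E) + fderiv ℝ g y Z) := rfl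
    rw [h5, ← hW]
    exact Submodule.orthogonalProjectionOnto_mem_subspace_eq_self W
  rw [e1, e2, hχ0, hproj Z W hW, hproj Z' W' hW', h'.hs_eq h2]

theorem Chart.hess_near (h : Chart r X p T g) (h2 : 2 ≤ r) : ∀ᶠ y in 𝓝 (0 : T),
    ∀ (T' : Submodule ℝ E) (g' : T' → E), Chart r X (gr p T g y) T' g' →
      ∀ (c : ℝ) (a : E), Crit X c a (gr p T g y) →
        ∀ (Z Z' : T) (W W' : T'), (W : E) = Z + fderiv ℝ g y Z → (W' : E) = Z' + fderiv ℝ g y Z' →
          D2 (fun y => fn c a (gr p T g y)) y Z Z' =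
            hs T' g' c (c • gr p T g y - a) W W' := by
  filter_upwards [h.near_chart (Hess_one_le h2), h.near_cont (n := 2) (by exact_mod_cast h2)]
    with y hy1 hy2 T' g' h' c a hc Z Z' W W' hW hW'
  obtain ⟨-, -, -, hev⟩ := hy1 T' g' h'
  exact Hess_transfer h2 hy2.1 h' hev c a hc Z Z' W W' hW hW'

theorem Chart.nd_near (h : Chart r X p T g) (h2 : 2 ≤ r) (hX : Loc r X) : ∀ᶠ y in 𝓝 (0 : T),
    ∀ (c : ℝ) (a : E), Crit X c a (gr p T g y) → (ND r X c a (gr p T g y) ↔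
      ∀ Z : T, (∀ Z' : T, D2 (fun y => fn c a (gr p T g y)) y Z Z' = 0) → Z = 0) := by
  filter_upwards [h.near_chart (Hess_one_le h2), h.near_cont (n := 2) (by exact_mod_cast h2)]
    with y hy1 hy2 c a hc
  obtain ⟨T', g', h', -⟩ := hX _ hc.1
  obtain ⟨hA, hB, hC, hev⟩ := hy1 T' g' h'
  have key : ∀ (Z Z' : T) (W W' : T'), (W : E) = Z + fderiv ℝ g y Z →
      (W' : E) = Z' + fderiv ℝ g y Z' →
      D2 (fun y => fn c a (gr p T g y)) y Z Z' = hs T' g' c (c • gr p T g y - a) W W' :=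
    fun Z Z' W W' hW hW' => Hess_transfer h2 hy2.1 h' hev c a hc Z Z' W W' hW hW'
  rw [h'.nd_iff (Hess_one_le h2)]
  constructor
  · intro hnd Z hZ
    have h3 : (⟨Z + fderiv ℝ g y Z, hA Z⟩ : T') = 0 := by
      apply hnd
      intro W'
      obtain ⟨Z', hZ'⟩ := hB W' W'.2
      rw [← key Z Z' ⟨Z + fderiv ℝ g y Z, hA Z⟩ W' rfl hZ']
      exact hZ Z'
    apply hC
    exact congrArg Subtype.val h3
  · intro hnd W hW
    obtain ⟨Z, hZ⟩ := hB W W.2
    have h3 : Z = 0 := by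
      apply hnd
      intro Z'
      rw [key Z Z' W ⟨Z' + fderiv ℝ g y Z', hA Z'⟩ hZ rfl]
      exact hW _
    apply Subtype.ext
    rw [hZ, h3]
    simp

end TotFoc
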