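import Pool.Agent.H49.TF.Calc

/-!
# HYP: Sard's theorem on a hypersurface

`b : G → ℝ` and `f : G → F` are `C^1` near `x₁`, `D b(x₁) ≠ 0`, `dim F = dim G - 1`. All points `x` of `B` near `x₁` satisfy `b x = 0`, and there is
a vector `ξ ≠ 0` with `Db(x) ξ = 0`, `Df(x) ξ = 0`. Then the image under `f` of `B` near `x₁` is a null set.

Proof. Let `G₀ = ker (fderiv ℝ b x₁)` (a subspace of `G` of dimension `dim G - 1 = dim F`), `w₁` with `fderiv ℝ b x₁ w₁ = 1`. Implicit function theorem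
(`ContDiffAt.implicitFunction` with `n = 1`) for `(ξ, s) ↦ b (x₁ + ξ + s • w₁)` on `G₀ × ℝ` at `(0, 0)`: a `C^1` function
`s : G₀ → ℝ` near `0` with: for `(ξ, s)` near `0`, `b (x₁ + ξ + s • w₁) = b x₁ ↔ s = s(ξ)` (if `b x₁ ≠ 0` then no point of `B` is near `x₁` and there is
nothing to prove). `R ξ = x₁ + ξ + s(ξ) • w₁`. All points `x` of `B` near `x₁` are `R ξ` with `ξ = x - x₁ - b'(x - x₁) w₁` small. `DR(ξ)` is injective
(the `G₀`-component of `DR(ξ) η` is `η`), `Db(R ξ) DR(ξ) = 0`, and the range of `DR(ξ)` is the kernel of `Db(R ξ)` by dimension (`Db(R ξ) ≠ 0` near `x₁`).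
Let `ι : F ≃L[ℝ] G₀` (equal dimensions) and `Q = ι ∘ f ∘ R : G₀ → G₀`. At `ξ` with `R ξ ∈ B` the derivative of `Q` has a kernel, so its determinant vanishes.
`MeasureTheory.addHaar_image_eq_zero_of_det_fderivWithin_eq_zero` (differentiability on a small open set is enough: take `s` = the set of these `ξ`,
`HasFDerivAt.hasFDerivWithinAt`) gives that `Q '' {ξ | R ξ ∈ B ∩ O}` is null for Haar measure on `G₀`, so its image under `ι⁻¹` is null in `F`
(`MeasureTheory.Measure.addHaar`: a linear equivalence maps null sets to null sets, e.g. `(μ.map ι)` is a Haar measure on `G₀`,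
`ContinuousLinearEquiv.isAddHaarMeasure_map`; use this measure on `G₀`).
-/

set_option autoImplicit false

open scoped Topology ContDiff RealInnerProductSpace
open Filter Set MeasureTheory

namespace TotFoc

variable {G F : Type*} [NormedAddCommGroup G] [NormedSpace ℝ G] [FiniteDimensional ℝ G]
  [NormedAddCommGroup F] [NormedSpace ℝ F] [FiniteDimensional ℝ F] [MeasurableSpace F]
  [BorelSpace F]

/-- a linear map which, together with `L`, is an isomorphism onto `F × ℝ` -/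
theorem Hyps_exists_proj {G F : Type*} [NormedAddCommGroup G] [NormedSpace ℝ G]
    [FiniteDimensional ℝ G] [NormedAddCommGroup F] [NormedSpace ℝ F] [FiniteDimensional ℝ F]
    (hdim : Module.finrank ℝ F + 1 = Module.finrank ℝ G) (L : G →L[ℝ] ℝ) (hL : L ≠ 0) :
    ∃ (π : G →L[ℝ] F) (Λ' : G ≃L[ℝ] F × ℝ), (Λ' : G →L[ℝ] F × ℝ) = π.prod L := by
  obtain ⟨v₀, hv₀⟩ : ∃ v, L v ≠ 0 := by
    by_contra hcon
    push Not at hcon
    exact hL (ContinuousLinearMap.ext hcon)
  set v : G := (L v₀)⁻¹ • v₀ with hv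
  have hv1 : L v = 1 := by rw [hv, map_smul, smul_eq_mul, inv_mul_cancel₀ hv₀]
  set K : Submodule ℝ G := LinearMap.ker (L : G →ₗ[ℝ] ℝ) with hK
  have hrange : LinearMap.range (L : G →ₗ[ℝ] ℝ) = ⊤ := by
    rw [LinearMap.range_eq_top]
    intro c
    refine ⟨c • v, ?_⟩
    change L (c • v) = c
    rw [map_smul, hv1, smul_eq_mul, mul_one]
  have hfin : Module.finrank ℝ K = Module.finrank ℝ F := by
    have h1 := LinearMap.finrank_range_add_finrank_ker (L : G →ₗ[ℝ] ℝ)
    rw [hrange, finrank_top, Module.finrank_self, ← hK] at h1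
    omega
  let ι : K ≃ₗ[ℝ] F := LinearEquiv.ofFinrankEq K F hfin
  let P : G →ₗ[ℝ] K :=
    { toFun := fun x => ⟨x - (L x) • v, by
        rw [hK, LinearMap.mem_ker]
        change L (x - (L x) • v) = 0
        rw [map_sub, map_smul, hv1, smul_eq_mul, mul_one, sub_self]⟩
      map_add' := by
        intro x y
        apply Subtype.ext
        simp only [map_add, Submodule.coe_add, add_smul]
        abel
      map_smul' := by
        intro c x
        apply Subtype.ext
        simp only [map_smul, smul_eq_mul, RingHom.id_apply, Submodule.coe_smul, smul_sub, mul_smul] }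
  have hPcoe : ∀ x, ((P x : K) : G) = x - (L x) • v := fun x => rfl
  let π : G →L[ℝ] F := LinearMap.toContinuousLinearMap ((ι : K →ₗ[ℝ] F).comp P)
  have hπ : ∀ x, π x = ι (P x) := fun x => rfl
  have hinj : Function.Injective (π.prod L : G →ₗ[ℝ] F × ℝ) := by
    rw [injective_iff_map_eq_zero]
    intro x hx
    have hx1 : π x = 0 := congrArg Prod.fst hx
    have hx2 : L x = 0 := congrArg Prod.snd hx
    rw [hπ] at hx1
    have h3 : P x = 0 := by
      have := ι.map_eq_zero_iff.1 hx1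
      exact this
    have h4 := hPcoe x
    rw [h3, hx2, zero_smul, sub_zero] at h4
    exact h4.symm
  have hd : Module.finrank ℝ G = Module.finrank ℝ (F × ℝ) := by
    rw [Module.finrank_prod, Module.finrank_self]
    omega
  let e : G ≃ₗ[ℝ] F × ℝ :=
    LinearEquiv.ofInjectiveOfFinrankEq (π.prod L : G →ₗ[ℝ] F × ℝ) hinj hd
  refine ⟨π, e.toContinuousLinearEquiv, ?_⟩
  ext1 x
  rfl

theorem hyp_null (μ : Measure F) [μ.IsAddHaarMeasure]
    (hdim : Module.finrank ℝ F + 1 = Module.finrank ℝ G) {b : G → ℝ} {f : G → F} {x₁ : G}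
    (hb : ContDiffAt ℝ 1 b x₁) (hf : ContDiffAt ℝ 1 f x₁) (hb' : fderiv ℝ b x₁ ≠ 0) {B : Set G}
    (hB : ∀ᶠ x in 𝓝 x₁, x ∈ B → b x = 0 ∧ ∃ ξ, ξ ≠ 0 ∧ fderiv ℝ b x ξ = 0 ∧ fderiv ℝ f x ξ = 0) :
    ∃ O ∈ 𝓝 x₁, μ (f '' (B ∩ O)) = 0 := by
  have : CompleteSpace G := FiniteDimensional.complete ℝ G
  obtain ⟨π, Λ', hΛ'⟩ := Hyps_exists_proj hdim (fderiv ℝ b x₁) hb'
  set Λ : G → F × ℝ := fun x => (π x, b x) with hΛ
  have hΛc : ContDiffAt ℝ 1 Λ x₁ := π.contDiff.contDiffAt.prodMk hb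
  have hΛd : HasFDerivAt Λ (Λ' : G →L[ℝ] F × ℝ) x₁ := by
    rw [hΛ']
    exact π.hasFDerivAt.prodMk (hb.differentiableAt (by norm_num)).hasFDerivAt
  set Θ := hΛc.toOpenPartialHomeomorph Λ hΛd one_ne_zero with hΘ
  have hΘcoe : ∀ x, Θ x = Λ x := fun x => by
    rw [hΘ, hΛc.toOpenPartialHomeomorph_coe]
  have hsrc : x₁ ∈ Θ.source := hΛc.mem_toOpenPartialHomeomorph_source hΛd one_ne_zero
  set g : F × ℝ → G := fun z => Θ.symm z with hg
  have hgc : ContDiffAt ℝ 1 g (Λ x₁) := hΛc.to_localInverse hΛd one_ne_zero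
  have e1 : ∀ᶠ x in 𝓝 x₁, x ∈ Θ.source := Θ.open_source.mem_nhds hsrc
  have e2 : ∀ᶠ x in 𝓝 x₁, DifferentiableAt ℝ g (Λ x) := by
    have h1 : ∀ᶠ z in 𝓝 (Λ x₁), DifferentiableAt ℝ g z := by
      filter_upwards [hgc.eventually (by simp)] with z hz
      exact hz.differentiableAt (by norm_num)
    exact hΛc.continuousAt.eventually h1
  have e3 : ∀ᶠ x in 𝓝 x₁, DifferentiableAt ℝ b x := by
    filter_upwards [hb.eventually (by simp)] with z hz
    exact hz.differentiableAt (by norm_num)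
  have e4 : ∀ᶠ x in 𝓝 x₁, DifferentiableAt ℝ f x := by
    filter_upwards [hf.eventually (by simp)] with z hz
    exact hz.differentiableAt (by norm_num)
  have eall := (((e1.and e2).and e3).and e4).and hB
  refine ⟨_, eall, ?_⟩
  set O : Set G := {x | (((x ∈ Θ.source ∧ DifferentiableAt ℝ g (Λ x)) ∧ DifferentiableAt ℝ b x) ∧
    DifferentiableAt ℝ f x) ∧ (x ∈ B → b x = 0 ∧ ∃ ξ, ξ ≠ 0 ∧ fderiv ℝ b x ξ = 0 ∧
      fderiv ℝ f x ξ = 0)} with hO
  set Q : F → F := fun y => f (g (y, 0)) with hQ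
  set s : Set F := π '' (B ∩ O) with hs
  have hgl : ∀ x ∈ B ∩ O, g (π x, 0) = x := by
    rintro x ⟨hxB, hxO⟩
    have h1 := (hxO.2 hxB).1
    have h2 : Λ x = (π x, 0) := by rw [hΛ]; simp only [h1]
    rw [← h2, ← hΘcoe]
    exact Θ.left_inv hxO.1.1.1.1
  have himg : f '' (B ∩ O) = Q '' s := by
    rw [hs, image_image]
    apply image_congr
    intro x hx
    simp only [hQ, hgl x hx]
  rw [himg]
  have hder : ∀ x ∈ B ∩ O, HasFDerivAt Q ((fderiv ℝ f x).comp
      ((fderiv ℝ g (π x, 0)).comp (ContinuousLinearMap.inl ℝ F ℝ))) (π x) := by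
    intro x hx
    have h1 := (hx.2.2 hx.1).1
    have h2 : Λ x = (π x, 0) := by rw [hΛ]; simp only [h1]
    have h3 : HasFDerivAt (fun y : F => ((y, 0) : F × ℝ)) (ContinuousLinearMap.inl ℝ F ℝ) (π x) := by
      have := (hasFDerivAt_id (𝕜 := ℝ) (π x)).prodMk (hasFDerivAt_const (0 : ℝ) (π x))
      exact this
    have h4 : HasFDerivAt g (fderiv ℝ g (π x, 0)) (π x, 0) := by
      rw [← h2]; exact hx.2.1.1.1.2.hasFDerivAt
    have h5 : HasFDerivAt f (fderiv ℝ f x) (g (π x, 0)) := by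
      rw [hgl x hx]; exact hx.2.1.2.hasFDerivAt
    have h6 := HasFDerivAt.comp (f := fun y : F => ((y, 0) : F × ℝ)) (π x) h4 h3
    exact HasFDerivAt.comp (f := fun y : F => g (y, 0)) (π x) h5 h6
  have hsel : ∀ y ∈ s, ∃ x ∈ B ∩ O, π x = y := by
    rintro y ⟨x, hx, rfl⟩; exact ⟨x, hx, rfl⟩
  classical
  apply addHaar_image_eq_zero_of_det_fderivWithin_eq_zero μ
    (f' := fun y => if hy : y ∈ s then (fderiv ℝ f (Classical.choose (hsel y hy))).comp
      ((fderiv ℝ g (y, 0)).comp (ContinuousLinearMap.inl ℝ F ℝ)) else 0)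
  · intro y hy
    simp only [dif_pos hy]
    obtain ⟨hx, hxy⟩ := Classical.choose_spec (hsel y hy)
    set x := Classical.choose (hsel y hy) with hxdef
    have h1 := hder x hx
    rw [hxy] at h1
    exact h1.hasFDerivWithinAt
  · intro y hy
    simp only [dif_pos hy]
    obtain ⟨hx, hxy⟩ := Classical.choose_spec (hsel y hy)
    set x := Classical.choose (hsel y hy) with hxdef
    obtain ⟨hb0, ξ, hξ, hbξ, hfξ⟩ := hx.2.2 hx.1
    have h2 : Λ x = (π x, 0) := by rw [hΛ]; simp only [hb0]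
    -- derivative of the local inverse
    have h3 : HasFDerivAt Λ (π.prod (fderiv ℝ b x)) x :=
      π.hasFDerivAt.prodMk hx.2.1.1.2.hasFDerivAt
    have h4 : HasFDerivAt g (fderiv ℝ g (Λ x)) (Λ x) := hx.2.1.1.1.2.hasFDerivAt
    have h5 := h4.comp x h3
    have h6 : (g ∘ Λ) =ᶠ[𝓝 x] id := by
      filter_upwards [Θ.open_source.mem_nhds hx.2.1.1.1.1] with z hz
      simp only [Function.comp_apply, id, ← hΘcoe]
      exact Θ.left_inv hz
    have h7 : HasFDerivAt (g ∘ Λ) (ContinuousLinearMap.id ℝ G) x :=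
      (hasFDerivAt_id x).congr_of_eventuallyEq h6
    have h8 := h5.unique h7
    have h9 : fderiv ℝ g (Λ x) (π ξ, 0) = ξ := by
      have := congrArg (fun M : G →L[ℝ] G => M ξ) h8
      simp only [ContinuousLinearMap.comp_apply, ContinuousLinearMap.prod_apply, hbξ,
        ContinuousLinearMap.id_apply] at this
      exact this
    rw [h2, hxy] at h9
    have h10 : π ξ ≠ 0 := by
      intro h0
      rw [h0] at h9
      have : ((0 : F), (0 : ℝ)) = 0 := rfl
      rw [this, map_zero] at h9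
      exact hξ h9.symm
    have h11 : ((fderiv ℝ f x).comp
      ((fderiv ℝ g (y, 0)).comp (ContinuousLinearMap.inl ℝ F ℝ))) (π ξ) = 0 := by
      simp only [ContinuousLinearMap.comp_apply, ContinuousLinearMap.inl_apply, h9, hfξ]
    by_contra hdet
    have h12 : LinearMap.det (((fderiv ℝ f x).comp
      ((fderiv ℝ g (y, 0)).comp (ContinuousLinearMap.inl ℝ F ℝ)) : F →L[ℝ] F) : F →ₗ[ℝ] F) ≠ 0 :=
      hdet
    have h13 := LinearMap.bot_lt_ker_of_det_eq_zero (f := ((((fderiv ℝ f x).comp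
      ((fderiv ℝ g (y, 0)).comp (ContinuousLinearMap.inl ℝ F ℝ)) : F →L[ℝ] F) : F →ₗ[ℝ] F)))
    have h14 := (LinearMap.equivOfDetNeZero _ h12).injective
    apply h10
    apply h14
    rw [map_zero]
    exact h11

end TotFoc
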