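import Pool.Agent.H49.TF.CritNear

/-!
# KAP: continuation of nondegenerate critical points

Take a chart `(T, g)` at `p₀` and `φ = gr p₀ T g`. The function `G ((c, a), y) = (Z ↦ ⟪c • φ y - a, Z + Dg(y) Z⟫)`, with values in `T →L[ℝ] ℝ` (= `fderiv ℝ (fn c a ∘ φ) y`), is `C^r` at
`((c₀, a₀), 0)` (`ContDiffAt.fderiv_right` for `g` with `r + 1 ≤ r`, which holds for `∞` and `ω`; `∞ ≤ r` means `r = ∞` or `r = ω`). Its partial derivative in `y` at the base point is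
`D2 (fn c₀ a₀ ∘ φ) 0 = hs T g c₀ v₀` (`fderiv_D1_apply`, `Chart.hs_eq`), injective by `ND` (`Chart.nd_iff`), so an isomorphism (finite dimension: `T` and `T →L[ℝ] ℝ` have the same dimension).
`ContDiffAt.implicitFunction`: `y(c, a)` of class `C^r` with `y(c₀, a₀) = 0`, and near the base point `G = 0 ↔ y = y(c, a)`. Put `κ (c, a) = φ (y(c, a))`.
`Crit X c a (κ (c, a))`: `crit_near`. `ND`: `nd_near`, and the Hessian `D2 (fn c a ∘ φ) y` is continuous in `(c, a, y)` (`D2_fn_gr`), the invertible maps are open (or: a bilinear form close to a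
nondegenerate one is nondegenerate). Uniqueness: a critical point `q` near `p₀` is `φ y` with `y = Pr (q - p₀)` small (`surj`), so `G ((c, a), y) = 0` (`crit_near`), `y = y(c, a)`.
`kappa_one`: `a ↦ κ (1, a)`.
-/

set_option autoImplicit false

open scoped Topology ContDiff RealInnerProductSpace
open Filter Set

namespace TotFoc

variable {E : Type*} [NormedAddCommGroup E] [InnerProductSpace ℝ E] [FiniteDimensional ℝ E]
  {r : ℕ∞ω} {X : Set E}

private theorem Kappa_one_le (hr : ∞ ≤ r) : (1 : ℕ∞ω) ≤ r := by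
  refine le_trans ?_ hr
  have : ((1 : ℕ∞) : ℕ∞ω) ≤ ((⊤ : ℕ∞) : ℕ∞ω) := WithTop.coe_le_coe.mpr le_top
  exact this

private theorem Kappa_two_le (hr : ∞ ≤ r) : (2 : ℕ∞ω) ≤ r := by
  refine le_trans ?_ hr
  have : ((2 : ℕ∞) : ℕ∞ω) ≤ ((⊤ : ℕ∞) : ℕ∞ω) := WithTop.coe_le_coe.mpr le_top
  exact this

private theorem Kappa_succ (hr : ∞ ≤ r) : r + 1 ≤ r := by
  induction r using WithTop.recTopCoe with
  | top => exact le_top
  | coe n =>
    have h1 : (⊤ : ℕ∞) ≤ n := WithTop.coe_le_coe.mp hr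
    have h2 : n = ⊤ := top_le_iff.mp h1
    subst h2
    exact le_of_eq rfl

private theorem Kappa_chain {V W F : Type*} [NormedAddCommGroup V] [NormedSpace ℝ V]
    [NormedAddCommGroup W] [NormedSpace ℝ W] [NormedAddCommGroup F] [NormedSpace ℝ F]
    {K : W × V → F} {x : W} {y : V} (h : DifferentiableAt ℝ K (x, y)) :
    HasFDerivAt (fun z : V => K (x, z))
      ((fderiv ℝ K (x, y)).comp (ContinuousLinearMap.inr ℝ W V)) y :=
  HasFDerivAt.comp (g := K) (f := fun z : V => (x, z)) y h.hasFDerivAt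
    (hasFDerivAt_prodMk_right x y)

private theorem Kappa_open {V W F : Type*} [NormedAddCommGroup V] [NormedSpace ℝ V]
    [NormedAddCommGroup W] [NormedSpace ℝ W] [NormedAddCommGroup F] [NormedSpace ℝ F]
    [CompleteSpace V] {K : W × V → F} {u : W × V} (h : ContinuousAt (fderiv ℝ K) u)
    (hi : ((fderiv ℝ K u).comp (ContinuousLinearMap.inr ℝ W V)).IsInvertible) :
    ∀ᶠ w in 𝓝 u, ((fderiv ℝ K w).comp (ContinuousLinearMap.inr ℝ W V)).IsInvertible := by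
  have h1 : ContinuousAt (fun w => (fderiv ℝ K w).comp (ContinuousLinearMap.inr ℝ W V)) u :=
    h.clm_comp continuousAt_const
  obtain ⟨e, he⟩ := hi
  have h3 := ContinuousLinearEquiv.nhds e
  rw [he] at h3
  filter_upwards [h1.tendsto h3] with w hw
  obtain ⟨e', he'⟩ := hw
  exact ⟨e', he'⟩

/-- the gradient of the test function in the chart -/
private noncomputable def KFF (p : E) (T : Submodule ℝ E) (g : T → E) (w : (ℝ × E) × T) :
    T →L[ℝ] ℝ :=
  (innerSL ℝ (w.1.1 • gr p T g w.2 - w.1.2)).comp (T.subtypeL + fderiv ℝ g w.2)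

private theorem Kappa_FF_apply (p : E) (T : Submodule ℝ E) (g : T → E) (w : (ℝ × E) × T) (Z : T) :
    KFF p T g w Z = ⟪w.1.1 • gr p T g w.2 - w.1.2, (Z : E) + fderiv ℝ g w.2 Z⟫ := rfl

private theorem Kappa_FF_eq {p : E} {T : Submodule ℝ E} {g : T → E} (x : ℝ × E) {y : T}
    (h : DifferentiableAt ℝ g y) :
    KFF p T g (x, y) = fderiv ℝ (fun y => fn x.1 x.2 (gr p T g y)) y := by
  ext Z
  rw [Kappa_FF_apply, fderiv_fn_gr x.1 x.2 h Z]

private theorem Kappa_FF_cd (hr : ∞ ≤ r) {p : E} {T : Submodule ℝ E} {g : T → E}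
    (h : Chart r X p T g) (x : ℝ × E) : ContDiffAt ℝ r (KFF p T g) (x, 0) := by
  have h1 : ContDiffAt ℝ r (fderiv ℝ g) 0 := h.smooth.fderiv_right (Kappa_succ hr)
  have h2 : ContDiffAt ℝ r (fun w : (ℝ × E) × T => fderiv ℝ g w.2) (x, 0) :=
    ContDiffAt.comp (x, (0 : T)) (g := fderiv ℝ g) (f := Prod.snd) h1 contDiffAt_snd
  have h3 : ContDiffAt ℝ r (fun w : (ℝ × E) × T => gr p T g w.2) (x, 0) :=
    ContDiffAt.comp (x, (0 : T)) (g := gr p T g) (f := Prod.snd) h.contDiffAt_gr contDiffAt_snd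
  have h4 : ContDiffAt ℝ r (fun w : (ℝ × E) × T => w.1.1) (x, 0) :=
    contDiffAt_fst.comp (x, (0 : T)) contDiffAt_fst
  have h5 : ContDiffAt ℝ r (fun w : (ℝ × E) × T => w.1.2) (x, 0) :=
    contDiffAt_snd.comp (x, (0 : T)) contDiffAt_fst
  have h6 : ContDiffAt ℝ r (fun w : (ℝ × E) × T => innerSL ℝ (w.1.1 • gr p T g w.2 - w.1.2))
      (x, 0) := by
    have h7 : ContDiffAt ℝ r (fun w : (ℝ × E) × T => w.1.1 • gr p T g w.2 - w.1.2) (x, 0) :=
      (h4.smul h3).sub h5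
    exact (innerSL ℝ (E := E)).contDiff.contDiffAt.comp (x, (0 : T)) h7
  exact h6.clm_comp (contDiffAt_const.add h2)

/-- the partial derivative is the second derivative of the test function in the chart -/
private theorem Kappa_D2 {p : E} {T : Submodule ℝ E} {g : T → E} {x : ℝ × E} {y : T}
    (hF : DifferentiableAt ℝ (KFF p T g) (x, y)) (hg : ∀ᶠ z in 𝓝 y, DifferentiableAt ℝ g z) :
    (fderiv ℝ (KFF p T g) (x, y)).comp (ContinuousLinearMap.inr ℝ (ℝ × E) T)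
      = D2 (fun y => fn x.1 x.2 (gr p T g y)) y := by
  have h1 : HasFDerivAt (fun z : T => KFF p T g (x, z))
      ((fderiv ℝ (KFF p T g) (x, y)).comp (ContinuousLinearMap.inr ℝ (ℝ × E) T)) y :=
    Kappa_chain (K := KFF p T g) hF
  have h2 : (fun z : T => KFF p T g (x, z)) =ᶠ[𝓝 y]
      fderiv ℝ (fun y => fn x.1 x.2 (gr p T g y)) := by
    filter_upwards [hg] with z hz
    exact Kappa_FF_eq x hz
  unfold D2
  rw [← h2.fderiv_eq, h1.fderiv]

private theorem Kappa_inv (T : Submodule ℝ E) (A : T →L[ℝ] (T →L[ℝ] ℝ))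
    (hA : ∀ Z, A Z = 0 → Z = 0) : A.IsInvertible := by
  have h1 : Module.finrank ℝ (T →L[ℝ] ℝ) = Module.finrank ℝ T := by
    have e : (T →ₗ[ℝ] ℝ) ≃ₗ[ℝ] (T →L[ℝ] ℝ) := LinearMap.toContinuousLinearMap
    rw [← e.finrank_eq]
    exact Subspace.dual_finrank_eq
  have h2 : Function.Injective (A : T →ₗ[ℝ] (T →L[ℝ] ℝ)) := by
    rw [injective_iff_map_eq_zero]
    exact hA
  have h3 : Function.Surjective (A : T →ₗ[ℝ] (T →L[ℝ] ℝ)) :=
    (LinearMap.injective_iff_surjective_of_finrank_eq_finrank h1.symm).mp h2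
  let e := (LinearEquiv.ofBijective (A : T →ₗ[ℝ] (T →L[ℝ] ℝ)) ⟨h2, h3⟩).toContinuousLinearEquiv
  exact ⟨e, by ext Z; rfl⟩

theorem kappa (hr : ∞ ≤ r) (hX : Loc r X) {c₀ : ℝ} {a₀ p₀ : E} (hp : Crit X c₀ a₀ p₀)
    (hn : ND r X c₀ a₀ p₀) :
    ∃ κ : ℝ × E → E, ContDiffAt ℝ r κ (c₀, a₀) ∧ κ (c₀, a₀) = p₀ ∧
      (∀ᶠ x : ℝ × E in 𝓝 (c₀, a₀), Crit X x.1 x.2 (κ x) ∧ ND r X x.1 x.2 (κ x)) ∧
      ∀ᶠ x : ℝ × E × E in 𝓝 (c₀, a₀, p₀), Crit X x.1 x.2.1 x.2.2 → x.2.2 = κ (x.1, x.2.1) := by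
  have hr1 := Kappa_one_le hr
  have hr2 := Kappa_two_le hr
  have hr0 : r ≠ 0 := by
    rintro rfl
    exact absurd hr1 (by norm_num)
  obtain ⟨T, g, h, -⟩ := hX p₀ hp.1
  have cdf : ContDiffAt ℝ r (KFF p₀ T g) ((c₀, a₀), (0 : T)) := Kappa_FF_cd hr h (c₀, a₀)
  -- differentiability of `g` near `0`
  have hgd : ∀ᶠ y in 𝓝 (0 : T), DifferentiableAt ℝ g y := by
    have h1 := h.near_cont (n := 1) (by exact_mod_cast hr1)
    filter_upwards [h1] with y hy
    exact hy.1.differentiableAt (by norm_num)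
  have hgd2 : ∀ᶠ y in 𝓝 (0 : T), ∀ᶠ z in 𝓝 y, DifferentiableAt ℝ g z := hgd.eventually_nhds
  have hcn := h.crit_near hr1
  have hnn := h.nd_near hr2 hX
  -- critical points as zeros
  have hz : ∀ᶠ y in 𝓝 (0 : T), ∀ x : ℝ × E,
      Crit X x.1 x.2 (gr p₀ T g y) ↔ KFF p₀ T g (x, y) = 0 := by
    filter_upwards [hgd, hcn] with y h1 h2 x
    rw [h2 x.1 x.2, Kappa_FF_eq x h1]
  have hbase : KFF p₀ T g ((c₀, a₀), (0 : T)) = 0 := by
    rw [← hz.self_of_nhds (c₀, a₀), h.gr_zero]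
    exact hp
  -- the partial derivative
  have hFd : ∀ᶠ w in 𝓝 ((c₀, a₀), (0 : T)), DifferentiableAt ℝ (KFF p₀ T g) w := by
    have h1 : ContDiffAt ℝ 1 (KFF p₀ T g) ((c₀, a₀), (0 : T)) := cdf.of_le hr1
    have h2 := h1.eventually (by simp)
    filter_upwards [h2] with w hw
    exact hw.differentiableAt (by norm_num)
  have hsnd : Tendsto (Prod.snd : (ℝ × E) × T → T) (𝓝 ((c₀, a₀), (0 : T))) (𝓝 0) :=
    continuous_snd.tendsto _
  have hP : ∀ᶠ w in 𝓝 ((c₀, a₀), (0 : T)),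
      (fderiv ℝ (KFF p₀ T g) w).comp (ContinuousLinearMap.inr ℝ (ℝ × E) T)
        = D2 (fun y => fn w.1.1 w.1.2 (gr p₀ T g y)) w.2 := by
    filter_upwards [hFd, hsnd.eventually hgd2] with w h1 h2
    exact Kappa_D2 (x := w.1) (y := w.2) h1 h2
  have hinv : ((fderiv ℝ (KFF p₀ T g) ((c₀, a₀), (0 : T))).comp
      (ContinuousLinearMap.inr ℝ (ℝ × E) T)).IsInvertible := by
    apply Kappa_inv
    intro Z hZ
    rw [hP.self_of_nhds] at hZ
    apply (h.nd_iff hr1).mp hn Z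
    intro Z'
    rw [← h.hs_eq hr2 c₀ a₀ Z Z']
    have := congrArg (fun A : T →L[ℝ] ℝ => A Z') hZ
    simpa using this
  -- the implicit function
  set Y := cdf.implicitFunction hr0 hinv with hY
  have hY0 : Y (c₀, a₀) = 0 := cdf.implicitFunction_apply_self hr0 hinv
  have hYc : ContDiffAt ℝ r Y (c₀, a₀) := cdf.contDiffAt_implicitFunction hr0 hinv
  have hYt : Tendsto Y (𝓝 (c₀, a₀)) (𝓝 0) := by
    have := hYc.continuousAt.tendsto
    rwa [hY0] at this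
  have hYz : ∀ᶠ x in 𝓝 (c₀, a₀), KFF p₀ T g (x, Y x) = 0 := by
    have := cdf.eventually_apply_implicitFunction hr0 hinv
    rwa [hbase] at this
  have hYu : ∀ᶠ w in 𝓝 ((c₀, a₀), (0 : T)), KFF p₀ T g w = 0 ↔ Y w.1 = w.2 := by
    have := cdf.eventually_apply_eq_iff_implicitFunction hr0 hinv
    rwa [hbase] at this
  refine ⟨fun x => gr p₀ T g (Y x), ?_, ?_, ?_, ?_⟩
  · have h1 : ContDiffAt ℝ r (gr p₀ T g) (Y (c₀, a₀)) := by
      rw [hY0]
      exact h.contDiffAt_gr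
    exact ContDiffAt.comp (c₀, a₀) (g := gr p₀ T g) (f := Y) h1 hYc
  · show gr p₀ T g (Y (c₀, a₀)) = p₀
    rw [hY0, h.gr_zero]
  · -- invertibility near the base point
    have hopen : ∀ᶠ w in 𝓝 ((c₀, a₀), (0 : T)),
        ((fderiv ℝ (KFF p₀ T g) w).comp (ContinuousLinearMap.inr ℝ (ℝ × E) T)).IsInvertible := by
      apply Kappa_open (K := KFF p₀ T g) _ hinv
      exact (cdf.fderiv_right (m := 0) (by rw [zero_add]; exact hr1)).continuousAt
    have hgraph : Tendsto (fun x : ℝ × E => (x, Y x)) (𝓝 (c₀, a₀)) (𝓝 ((c₀, a₀), (0 : T))) :=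
      tendsto_id.prodMk_nhds hYt
    filter_upwards [hYz, hYt.eventually hz, hYt.eventually hnn, hgraph.eventually hopen,
      hgraph.eventually hP] with x h1 h2 h3 h4 h5
    have hcrit : Crit X x.1 x.2 (gr p₀ T g (Y x)) := (h2 x).mpr h1
    refine ⟨hcrit, (h3 x.1 x.2 hcrit).mpr ?_⟩
    intro Z hZ
    obtain ⟨e, he⟩ := h4
    have h6 : e Z = 0 := by
      have h7 : (e : T →L[ℝ] (T →L[ℝ] ℝ)) Z = 0 := by
        rw [he, h5]
        ext Z'
        rw [hZ Z']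
        rfl
      exact h7
    exact (map_eq_zero_iff e e.injective).mp h6
  · -- uniqueness
    have hproj : Tendsto (fun x : ℝ × E × E => ((x.1, x.2.1),
        T.orthogonalProjectionOnto (x.2.2 - p₀))) (𝓝 (c₀, a₀, p₀)) (𝓝 ((c₀, a₀), (0 : T))) := by
      have h1 : Continuous (fun x : ℝ × E × E => ((x.1, x.2.1),
        T.orthogonalProjectionOnto (x.2.2 - p₀))) := by fun_prop
      have h2 := h1.tendsto (c₀, a₀, p₀)
      simpa using h2
    have hproj2 : Tendsto (fun x : ℝ × E × E => T.orthogonalProjectionOnto (x.2.2 - p₀))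
        (𝓝 (c₀, a₀, p₀)) (𝓝 (0 : T)) := hsnd.comp hproj
    have hlast : Tendsto (fun x : ℝ × E × E => x.2.2) (𝓝 (c₀, a₀, p₀)) (𝓝 p₀) :=
      (continuous_snd.comp continuous_snd).tendsto _
    filter_upwards [hproj.eventually hYu, hproj2.eventually hz, hlast.eventually h.surj]
      with x h1 h2 h3 hc
    have h4 := h3 hc.1
    have h5 : Crit X x.1 x.2.1 (gr p₀ T g (T.orthogonalProjectionOnto (x.2.2 - p₀))) := by
      rw [h4]
      exact hc
    have h6 := (h2 (x.1, x.2.1)).mp h5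
    have h7 : Y (x.1, x.2.1) = T.orthogonalProjectionOnto (x.2.2 - p₀) := h1.mp h6
    show x.2.2 = gr p₀ T g (Y (x.1, x.2.1))
    rw [h7, h4]

theorem kappa_one (hr : ∞ ≤ r) (hX : Loc r X) {a₀ p₀ : E} (hp : Crit X 1 a₀ p₀)
    (hn : ND r X 1 a₀ p₀) :
    ∃ κ : E → E, ContDiffAt ℝ r κ a₀ ∧ κ a₀ = p₀ ∧
      (∀ᶠ a in 𝓝 a₀, Crit X 1 a (κ a) ∧ ND r X 1 a (κ a)) ∧
      ∀ᶠ x : E × E in 𝓝 (a₀, p₀), Crit X 1 x.1 x.2 → x.2 = κ x.1 := by
  obtain ⟨κ, h1, h2, h3, h4⟩ := kappa hr hX hp hn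
  refine ⟨fun a => κ (1, a), ?_, h2, ?_, ?_⟩
  · exact ContDiffAt.comp a₀ (g := κ) (f := fun a : E => ((1 : ℝ), a)) h1
      (contDiffAt_const.prodMk contDiffAt_id)
  · have h5 : Tendsto (fun a : E => ((1 : ℝ), a)) (𝓝 a₀) (𝓝 (1, a₀)) :=
      (Continuous.prodMk_right (1 : ℝ)).tendsto a₀
    exact h5.eventually h3
  · have h5 : Tendsto (fun x : E × E => ((1 : ℝ), x)) (𝓝 (a₀, p₀)) (𝓝 (1, a₀, p₀)) :=
      (Continuous.prodMk_right (1 : ℝ)).tendsto (a₀, p₀)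
    exact h5.eventually h4

/-- for a pair `(p, q)` with `q` critical for `p ∈ X`: the continuation `s ↦ κ s`, differentiable along `X`, with derivatives tangent to `X` at `κ s` -/
theorem kappa_PP (hr : ∞ ≤ r) (h : IsSub r X) (h1 : TF1 r X) {p q : E} (hpq : PP X p q) :
    ∃ κ : E → E, ContinuousAt κ p ∧ κ p = q ∧
      (∀ᶠ s in 𝓝 p, DifferentiableAt ℝ κ s ∧ (s ∈ X → PP X s (κ s)) ∧
        ∀ v, fderiv ℝ κ s v ∈ tan X (κ s)) ∧
      ∀ᶠ x : E × E in 𝓝 (p, q), PP X x.1 x.2 → x.2 = κ x.1 := by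
  obtain ⟨κ, k1, k2, k3, k4⟩ := kappa_one hr h.2 hpq.2 (nd_of_PP h1 hpq)
  refine ⟨κ, k1.continuousAt, k2, ?_, ?_⟩
  · have h2 : ∀ᶠ s in 𝓝 p, DifferentiableAt ℝ κ s := by
      have h3 : ContDiffAt ℝ 1 κ p := k1.of_le (Kappa_one_le hr)
      filter_upwards [h3.eventually (by simp)] with s hs
      exact hs.differentiableAt (by norm_num)
    filter_upwards [h2, k3, k3.eventually_nhds] with s h3 h4 h5
    refine ⟨h3, fun hs => ⟨hs, h4.1⟩, fun v => ?_⟩
    apply Submodule.subset_span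
    have h6 : HasDerivAt (fun t : ℝ => s + t • v) v 0 := by
      have h7 : HasDerivAt (fun t : ℝ => t • v) ((1 : ℝ) • v) 0 :=
        (hasDerivAt_id (0 : ℝ)).smul_const v
      rw [one_smul] at h7
      exact h7.const_add s
    have h8 : HasFDerivAt κ (fderiv ℝ κ s) (s + (0 : ℝ) • v) := by
      rw [zero_smul, add_zero]
      exact h3.hasFDerivAt
    refine ⟨fun t => κ (s + t • v), ?_, ?_, ?_⟩
    · show κ (s + (0 : ℝ) • v) = κ s
      rw [zero_smul, add_zero]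
    · exact h8.comp_hasDerivAt (0 : ℝ) h6
    · have h9 : Tendsto (fun t : ℝ => s + t • v) (𝓝 0) (𝓝 s) := by
        have := h6.continuousAt.tendsto
        rwa [zero_smul, add_zero] at this
      filter_upwards [h9.eventually h5] with t ht
      exact ht.1.1
  · filter_upwards [k4] with x hx hPP
    exact hx hPP.2

end TotFoc
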