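import Pool.Agent.H49.TF.Hess

/-!
# KEN: the nullity at nearby points

For `y` near `0` (`near_chart`, `hess_near`): let `(T', g')` be a chart at `x = gr p T g y`. `J : T → T'`, `J Z = Z + Dg(y) Z`, is a linear bijection (`near_chart`), and by `hess_near`
`D2 (fn c a ∘ gr p T g) y Z Z' = hs T' g' c v (J Z) (J Z')`. So `Z` is in the kernel of `D2 …` iff `hs T' g' c v (J Z) W' = 0` for all `W' ∈ T'` (`J` is surjective), i.e. iff `(J Z : E) ∈ kerH T' g' c v`.
Thus `Z ↦ (J Z : E)` is a linear isomorphism from the kernel onto `kerH T' g' c v` (every element of `kerH` is in `T'`). `LinearEquiv.finrank_eq`.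
-/

set_option autoImplicit false

open scoped Topology ContDiff RealInnerProductSpace
open Filter Set

namespace TotFoc

variable {E : Type*} [NormedAddCommGroup E] [InnerProductSpace ℝ E] [FiniteDimensional ℝ E]
  {r : ℕ∞ω} {X : Set E} {p : E} {T : Submodule ℝ E} {g : T → E}

theorem mem_kerH {c : ℝ} {v : E} {Z : T} : (Z : E) ∈ kerH T g c v ↔
    ∀ Z' : T, hs T g c v Z Z' = 0 :=
  ⟨fun ⟨_, h⟩ => h, fun h => ⟨Z.2, h⟩⟩

theorem kerH_le {c : ℝ} {v : E} : kerH T g c v ≤ T := fun _ h => h.1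

theorem Chart.ker_near (h : Chart r X p T g) (h2 : 2 ≤ r) : ∀ᶠ y in 𝓝 (0 : T),
    ∀ (T' : Submodule ℝ E) (g' : T' → E), Chart r X (gr p T g y) T' g' →
      ∀ (c : ℝ) (a : E), Crit X c a (gr p T g y) →
        Module.finrank ℝ (kerH T' g' c (c • gr p T g y - a)) =
          Module.finrank ℝ (LinearMap.ker
            (D2 (fun y => fn c a (gr p T g y)) y : T →ₗ[ℝ] T →L[ℝ] ℝ)) := by
  have h1 : 1 ≤ r := le_trans (by norm_num) h2
  filter_upwards [h.near_chart h1, h.hess_near h2] with y hy1 hy2 T' g' h' c a hc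
  obtain ⟨a1, a2, a3, -⟩ := hy1 T' g' h'
  have b := hy2 T' g' h' c a hc
  set J : T →ₗ[ℝ] E := ((T.subtypeL + fderiv ℝ g y : T →L[ℝ] E) : T →ₗ[ℝ] E) with hJ
  have hJa : ∀ Z : T, J Z = (Z : E) + fderiv ℝ g y Z := fun Z => rfl
  have hJi : Function.Injective J := by
    rw [injective_iff_map_eq_zero]
    intro Z hZ
    exact a3 Z hZ
  have e : kerH T' g' c (c • gr p T g y - a) = (LinearMap.ker
      (D2 (fun y => fn c a (gr p T g y)) y : T →ₗ[ℝ] T →L[ℝ] ℝ)).map J := by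
    ext w
    rw [Submodule.mem_map]
    constructor
    · rintro ⟨hw, hw2⟩
      obtain ⟨Z, hZ⟩ := a2 w hw
      refine ⟨Z, ?_, hZ.symm⟩
      rw [LinearMap.mem_ker]
      show D2 (fun y => fn c a (gr p T g y)) y Z = 0
      ext Z'
      rw [b Z Z' ⟨w, hw⟩ ⟨_, a1 Z'⟩ hZ rfl, hw2]
      rfl
    · rintro ⟨Z, hZ, rfl⟩
      refine ⟨a1 Z, ?_⟩
      intro W'
      obtain ⟨Z', hZ'⟩ := a2 W' W'.2
      have h3 := b Z Z' ⟨_, a1 Z⟩ W' rfl hZ'
      rw [LinearMap.mem_ker] at hZ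
      have hZ2 : D2 (fun y => fn c a (gr p T g y)) y Z = 0 := hZ
      rw [hZ2] at h3
      exact h3.symm
  rw [e]
  exact (LinearEquiv.finrank_eq (Submodule.equivMapOfInjective J hJi _)).symm

/-- degenerate iff `kerH ≠ ⊥` -/
theorem Chart.nd_iff_kerH (h : Chart r X p T g) (h1 : 1 ≤ r) {c : ℝ} {a : E} :
    ND r X c a p ↔ kerH T g c (c • p - a) = ⊥ := by
  rw [h.nd_iff h1, Submodule.eq_bot_iff]
  constructor
  · rintro hN w ⟨hw, hw2⟩
    have := hN ⟨w, hw⟩ hw2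
    exact congrArg Subtype.val this
  · intro hN Z hZ
    exact Subtype.ext (hN Z (mem_kerH.mpr hZ))

end TotFoc
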