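import Mathlib

/-!
# POL: symmetric multilinear forms

`polar_zero`: induction on `n`: the map `q Y = A (fun _ => Y)` is zero; its derivative at `Y` in the direction `Z` (or: the coefficient of `t` in the
polynomial `A (fun _ => Y + t Z) = 0`) is `∑ i, A (Function.update (fun _ => Y) i Z) = (n + 1) * A (Fin.cons Z fun _ => Y)` by symmetry. So for each `Z` the
symmetric form `A (Fin.cons Z ·)` in `n` variables vanishes on the diagonal, so it is zero.

`sphere_max`: `n ≥ 1` (form in `n + 2` variables; `l = n + 2`). Let `Y` be a unit vector with `A (Y, ..., Y)` maximal on the unit sphere, value `m > 0`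
(compactness). For a unit vector `Z ⊥ Y` let `f θ = A ((cos θ Y + sin θ Z)^l) ≤ f 0`. `f' 0 = l * A (Y^(l-1), Z) = 0`,
`f'' 0 = l (l - 1) A (Y^(l-2), Z, Z) - l * m ≤ 0`. (Instead of `cos` and `sin` one may use homogeneity: `A ((Y + t Z)^l) ≤ m (1 + t²)^(l/2)`, expand to the
first and second order in `t`; `(1 + t²)^(l/2) ≤ (1 + t²)^l` is not enough for the second order, use `cos`, `sin` or `rpow`.) Here `Fin.cons Z (Fin.cons Z' fun _ => Y)`
is the vector `(Z, Z', Y, ..., Y)`. With `l ≥ 3`: `(l - 1) A (Z, Z, Y^(l-2)) ≤ m`, so `A (Z, Z, Y^(l-2)) ≤ m / 2`.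
-/

set_option autoImplicit false

open scoped Topology ContDiff RealInnerProductSpace
open Filter Set

namespace TotFoc

variable {K : Type*} [NormedAddCommGroup K] [InnerProductSpace ℝ K] [FiniteDimensional ℝ K]

/-- symmetric forms -/
def Polar_Sym {n : ℕ} (A : K [×n]→L[ℝ] ℝ) : Prop :=
  ∀ (σ : Equiv.Perm (Fin n)) (v : Fin n → K), A (fun i => v (σ i)) = A v

omit [FiniteDimensional ℝ K] in
theorem Polar_curry {n : ℕ} {A : K [×(n + 1)]→L[ℝ] ℝ} (hs : Polar_Sym A) (Z : K) :
    Polar_Sym (A.curryLeft Z) := by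
  intro σ v
  simp only [ContinuousMultilinearMap.curryLeft_apply]
  have h := hs (Equiv.Perm.decomposeFin.symm (0, σ)) (Fin.cons Z v)
  rw [← h]
  congr 1
  funext i
  refine Fin.cases ?_ (fun j => ?_) i
  · simp
  · simp

omit [FiniteDimensional ℝ K] in
theorem Polar_upd {n : ℕ} {A : K [×(n + 1)]→L[ℝ] ℝ} (hs : Polar_Sym A) (Y Z : K)
    (i : Fin (n + 1)) :
    A (Function.update (fun _ => Y) i Z) = A (Fin.cons Z fun _ => Y) := by
  have h0 : (Fin.cons Z fun _ => Y : Fin (n + 1) → K) = Function.update (fun _ => Y) 0 Z := by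
    funext j
    refine Fin.cases ?_ (fun k => ?_) j
    · simp
    · simp
  rw [h0, ← hs (Equiv.swap 0 i) (Function.update (fun _ => Y) 0 Z)]
  congr 1
  funext j
  simp only [Function.update_apply]
  have : (Equiv.swap 0 i j = 0) ↔ j = i := by
    rw [Equiv.swap_apply_eq_iff, Equiv.swap_apply_left]
  simp only [this]

omit [FiniteDimensional ℝ K] in
theorem Polar_deriv {n : ℕ} {A : K [×(n + 1)]→L[ℝ] ℝ} (hs : Polar_Sym A) {c : ℝ → K} {c' : K}
    {t : ℝ} (hc : HasDerivAt c c' t) :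
    HasDerivAt (fun t => A (fun _ => c t)) (((n : ℝ) + 1) * A (Fin.cons c' fun _ => c t)) t := by
  have h1 : HasDerivAt (fun t => (fun _ => c t : Fin (n + 1) → K)) (fun _ => c') t :=
    hasDerivAt_pi.2 fun _ => hc
  have h2 := (A.hasFDerivAt (fun _ => c t)).comp_hasDerivAt t h1
  have h3 : (A.linearDeriv (fun _ => c t)) (fun _ => c')
      = ((n : ℝ) + 1) * A (Fin.cons c' fun _ => c t) := by
    rw [ContinuousMultilinearMap.linearDeriv_apply]
    simp only [Polar_upd hs]
    simp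
  rw [h3] at h2
  exact h2

omit [FiniteDimensional ℝ K] in
theorem Polar_deriv2 {n : ℕ} {A : K [×(n + 2)]→L[ℝ] ℝ} (hs : Polar_Sym A) {c d : ℝ → K}
    {c' d' : K} {t : ℝ} (hc : HasDerivAt c c' t) (hd : HasDerivAt d d' t) :
    HasDerivAt (fun t => A (Fin.cons (d t) fun _ => c t))
      (A (Fin.cons d' fun _ => c t)
        + ((n : ℝ) + 1) * A (Fin.cons (d t) (Fin.cons c' fun _ => c t))) t := by
  have h1 : HasDerivAt (fun t => (Fin.cons (d t) fun _ => c t : Fin (n + 2) → K))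
      (Fin.cons d' fun _ => c') t := by
    refine hasDerivAt_pi.2 fun i => ?_
    refine Fin.cases ?_ (fun k => ?_) i
    · simpa using hd
    · simpa using hc
  have h2 := (A.hasFDerivAt (Fin.cons (d t) fun _ => c t)).comp_hasDerivAt t h1
  have h3 : (A.linearDeriv (Fin.cons (d t) fun _ => c t)) (Fin.cons d' fun _ => c')
      = (A (Fin.cons d' fun _ => c t)
        + ((n : ℝ) + 1) * A (Fin.cons (d t) (Fin.cons c' fun _ => c t))) := by
    rw [ContinuousMultilinearMap.linearDeriv_apply, Fin.sum_univ_succ]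
    congr 1
    · simp
    · have h4 : ∀ i : Fin (n + 1), A (Function.update (Fin.cons (d t) fun _ => c t : Fin (n + 2) → K)
          i.succ ((Fin.cons d' fun _ => c' : Fin (n + 2) → K) i.succ))
          = A (Fin.cons (d t) (Fin.cons c' fun _ => c t)) := by
        intro i
        rw [Fin.cons_succ, ← Fin.cons_update]
        have := Polar_upd (Polar_curry hs (d t)) (c t) c' i
        simpa only [ContinuousMultilinearMap.curryLeft_apply] using this
      rw [Finset.sum_congr rfl fun i _ => h4 i]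
      simp
  rw [h3] at h2
  exact h2

omit [FiniteDimensional ℝ K] in
theorem Polar_zero' : ∀ {n : ℕ} (A : K [×n]→L[ℝ] ℝ), Polar_Sym A →
    (∀ Y : K, A (fun _ => Y) = 0) → A = 0 := by
  intro n
  induction n with
  | zero =>
    intro A _ h
    ext v
    have := h 0
    have hv : v = fun _ => (0 : K) := Subsingleton.elim _ _
    rw [hv, this]; rfl
  | succ n ih =>
    intro A hs h
    have key : ∀ Z : K, A.curryLeft Z = 0 := by
      intro Z
      refine ih _ (Polar_curry hs Z) fun Y => ?_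
      have hc : HasDerivAt (fun t : ℝ => Y + t • Z) Z 0 := by
        simpa using ((hasDerivAt_id (0 : ℝ)).smul_const Z).const_add Y
      have h1 := Polar_deriv hs hc
      have h2 : (fun t : ℝ => A (fun _ => Y + t • Z)) = fun _ => 0 := by
        funext t; exact h _
      rw [h2] at h1
      have h3 := h1.unique (hasDerivAt_const (0 : ℝ) (0 : ℝ))
      have h4 : ((n : ℝ) + 1) ≠ 0 := by positivity
      rw [ContinuousMultilinearMap.curryLeft_apply]
      have h5 := (mul_eq_zero.1 h3).resolve_left h4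
      simpa using h5
    ext v
    have h1 := congrArg (fun B => B (Fin.tail v)) (key (v 0))
    simp only [ContinuousMultilinearMap.curryLeft_apply, Fin.cons_self_tail] at h1
    simpa using h1

theorem polar_zero {n : ℕ} (A : K [×n]→L[ℝ] ℝ)
    (hs : ∀ (σ : Equiv.Perm (Fin n)) (v : Fin n → K), A (fun i => v (σ i)) = A v)
    (h : ∀ Y : K, A (fun _ => Y) = 0) : A = 0 := Polar_zero' A hs h

/-- second order condition at a maximum -/
theorem Polar_max {f f' : ℝ → ℝ} {f'' : ℝ} (h1 : ∀ t, HasDerivAt f (f' t) t)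
    (h2 : HasDerivAt f' f'' 0) (hm : ∀ t, f t ≤ f 0) : f' 0 = 0 ∧ f'' ≤ 0 := by
  have hmax : IsLocalMax f 0 := Filter.Eventually.of_forall hm
  have h0 : f' 0 = 0 := by
    have := hmax.deriv_eq_zero
    rwa [(h1 0).deriv] at this
  refine ⟨h0, ?_⟩
  by_contra hpos
  push Not at hpos
  have hd : deriv f = f' := funext fun t => (h1 t).deriv
  have hmin : IsLocalMin f 0 := by
    refine isLocalMin_of_deriv_deriv_pos ?_ ?_ (h1 0).continuousAt
    · rw [hd, h2.deriv]; exact hpos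
    · rw [hd, h0]
  have hconst : f =ᶠ[𝓝 0] fun _ => f 0 := by
    filter_upwards [hmin] with t ht
    exact le_antisymm (hm t) ht
  have h3 : deriv f =ᶠ[𝓝 0] deriv (fun _ => f 0) := hconst.deriv
  have h4 := h3.deriv_eq
  rw [hd, h2.deriv] at h4
  simp at h4
  linarith

/-- one direction -/
theorem Polar_dir {n : ℕ} {A : K [×(n + 2)]→L[ℝ] ℝ} (hs : Polar_Sym A) {Y Z : K}
    (hY : ‖Y‖ = 1) (hZ : ‖Z‖ = 1) (hYZ : ⟪Y, Z⟫ = 0)
    (hm : ∀ X : K, ‖X‖ = 1 → A (fun _ => X) ≤ A (fun _ => Y)) :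
    A (Fin.cons Z fun _ => Y) = 0 ∧
      ((n : ℝ) + 1) * A (Fin.cons Z (Fin.cons Z fun _ => Y)) ≤ A (fun _ => Y) := by
  set c : ℝ → K := fun t => Real.cos t • Y + Real.sin t • Z with hcdef
  set c' : ℝ → K := fun t => (-Real.sin t) • Y + Real.cos t • Z with hc'def
  have hc : ∀ t, HasDerivAt c (c' t) t := fun t =>
    ((Real.hasDerivAt_cos t).smul_const Y).add ((Real.hasDerivAt_sin t).smul_const Z)
  have hc' : HasDerivAt c' (-Y) 0 := by
    have h : HasDerivAt c' ((-Real.cos 0) • Y + (-Real.sin 0) • Z) 0 :=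
      ((Real.hasDerivAt_sin 0).neg.smul_const Y).add ((Real.hasDerivAt_cos 0).smul_const Z)
    simpa using h
  have hc0 : c 0 = Y := by simp [hcdef]
  have hc'0 : c' 0 = Z := by simp [hc'def]
  have hnorm : ∀ t, ‖c t‖ = 1 := by
    intro t
    have h : ‖c t‖ ^ 2 = 1 := by
      rw [hcdef]
      simp only
      rw [@norm_add_sq_real, norm_smul, norm_smul, hY, hZ, inner_smul_left, inner_smul_right, hYZ]
      simp only [Real.norm_eq_abs, mul_one, sq_abs, mul_zero, add_zero]
      exact Real.cos_sq_add_sin_sq t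
    nlinarith [norm_nonneg (c t)]
  have h1 : ∀ t, HasDerivAt (fun t => A (fun _ => c t))
      ((((n + 1 : ℕ) : ℝ) + 1) * A (Fin.cons (c' t) fun _ => c t)) t := fun t =>
    Polar_deriv hs (hc t)
  have h2 := (Polar_deriv2 hs (hc 0) hc').const_mul (((n + 1 : ℕ) : ℝ) + 1)
  have h3 := Polar_max h1 h2 (fun t => by rw [hc0]; exact hm _ (hnorm t))
  rw [hc0, hc'0] at h3
  have hpos : (0 : ℝ) < (((n + 1 : ℕ) : ℝ) + 1) := by positivity
  refine ⟨(mul_eq_zero.1 h3.1).resolve_left hpos.ne', ?_⟩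
  have h4 : A (Fin.cons (-Y) fun _ => Y) + ((n : ℝ) + 1) * A (Fin.cons Z (Fin.cons Z fun _ => Y))
      ≤ 0 := by
    by_contra hh
    push Not at hh
    exact absurd h3.2 (not_le.2 (mul_pos hpos hh))
  have h5 : A (Fin.cons (-Y) fun _ => Y) = -A (fun _ => Y) := by
    have h6 := A.cons_smul (fun _ => Y) (-1 : ℝ) Y
    rw [neg_one_smul, neg_one_smul] at h6
    rw [h6]
    congr 2
    funext i
    refine Fin.cases ?_ (fun k => ?_) i <;> simp
  rw [h5] at h4
  linarith

theorem sphere_max {n : ℕ} (hn : 1 ≤ n) (A : K [×(n + 2)]→L[ℝ] ℝ)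
    (hs : ∀ (σ : Equiv.Perm (Fin (n + 2))) (v : Fin (n + 2) → K), A (fun i => v (σ i)) = A v)
    (h : ∃ Y : K, 0 < A (fun _ => Y)) :
    ∃ (Y : K) (m : ℝ), ‖Y‖ = 1 ∧ 0 < m ∧ A (fun _ => Y) = m ∧
      (∀ Z, A (Fin.cons Y (Fin.cons Z fun _ => Y)) = m * ⟪Y, Z⟫) ∧
      ∀ Z, ⟪Y, Z⟫ = 0 → A (Fin.cons Z (Fin.cons Z fun _ => Y)) ≤ m / 2 * ‖Z‖ ^ 2 := by
  have hsym : Polar_Sym A := hs
  obtain ⟨X, hX⟩ := h
  have hX0 : X ≠ 0 := by
    rintro rfl
    have := A.map_zero
    have h0 : (fun _ => (0 : K) : Fin (n + 2) → K) = 0 := rfl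
    rw [h0, this] at hX
    exact lt_irrefl _ hX
  have hXn : 0 < ‖X‖ := norm_pos_iff.2 hX0
  have hX1 : ‖(‖X‖⁻¹ • X)‖ = 1 := by
    rw [norm_smul, norm_inv, norm_norm, inv_mul_cancel₀ hXn.ne']
  have hX2 : 0 < A (fun _ => ‖X‖⁻¹ • X) := by
    have h1 := A.map_smul_univ (fun _ => ‖X‖⁻¹) (fun _ => X)
    rw [h1]
    simp only [Finset.prod_const, Finset.card_univ, Fintype.card_fin, smul_eq_mul]
    positivity
  have hcont : Continuous fun Y : K => A (fun _ => Y) :=
    A.cont.comp (continuous_pi fun _ => continuous_id)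
  obtain ⟨Y, hYs, hYm⟩ := (isCompact_sphere (0 : K) 1).exists_isMaxOn
    ⟨‖X‖⁻¹ • X, by simpa using hX1⟩ hcont.continuousOn
  have hY : ‖Y‖ = 1 := by simpa using hYs
  have hm : ∀ X : K, ‖X‖ = 1 → A (fun _ => X) ≤ A (fun _ => Y) := by
    intro W hW
    exact hYm (by simpa using hW : W ∈ Metric.sphere (0 : K) 1)
  have hmpos : 0 < A (fun _ => Y) := hX2.trans_le (hm _ hX1)
  have hcons : (Fin.cons Y fun _ => Y : Fin (n + 2) → K) = fun _ => Y := by
    funext i; refine Fin.cases ?_ (fun k => ?_) i <;> simp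
  have hcons' : (Fin.cons Y fun _ => Y : Fin (n + 1) → K) = fun _ => Y := by
    funext i; refine Fin.cases ?_ (fun k => ?_) i <;> simp
  -- scaling
  have hsc : ∀ Z : K, ⟪Y, Z⟫ = 0 → A (Fin.cons Z fun _ => Y) = 0 ∧
      A (Fin.cons Z (Fin.cons Z fun _ => Y)) ≤ A (fun _ => Y) / 2 * ‖Z‖ ^ 2 := by
    intro Z hZ
    by_cases hZ0 : Z = 0
    · subst hZ0
      have h1 : ∀ v : Fin (n + 1) → K, A (Fin.cons 0 v) = 0 := by
        intro v
        have := A.cons_smul v (0 : ℝ) 0
        simpa using this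
      exact ⟨h1 _, by rw [h1]; simp⟩
    · have hZn : 0 < ‖Z‖ := norm_pos_iff.2 hZ0
      set W : K := ‖Z‖⁻¹ • Z with hW
      have hW1 : ‖W‖ = 1 := by
        rw [hW, norm_smul, norm_inv, norm_norm, inv_mul_cancel₀ hZn.ne']
      have hWY : ⟪Y, W⟫ = 0 := by rw [hW, inner_smul_right, hZ, mul_zero]
      have hZW : Z = ‖Z‖ • W := by rw [hW, smul_smul, mul_inv_cancel₀ hZn.ne', one_smul]
      obtain ⟨h1, h2⟩ := Polar_dir hsym hY hW1 hWY hm
      have h3 : A (Fin.cons Z fun _ => Y) = ‖Z‖ * A (Fin.cons W fun _ => Y) := by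
        conv_lhs => rw [hZW]
        rw [A.cons_smul, smul_eq_mul]
      have h4 : A (Fin.cons Z (Fin.cons Z fun _ => Y))
          = ‖Z‖ ^ 2 * A (Fin.cons W (Fin.cons W fun _ => Y)) := by
        conv_lhs => rw [hZW]
        rw [A.cons_smul, smul_eq_mul]
        have h5 := (A.curryLeft W).cons_smul (fun _ => Y) ‖Z‖ W
        simp only [ContinuousMultilinearMap.curryLeft_apply, smul_eq_mul] at h5
        rw [h5]; ring
      rw [h3, h4, h1]
      refine ⟨by simp, ?_⟩
      have h6 : A (Fin.cons W (Fin.cons W fun _ => Y)) ≤ A (fun _ => Y) / 2 := by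
        by_cases hneg : A (Fin.cons W (Fin.cons W fun _ => Y)) ≤ 0
        · linarith
        · push Not at hneg
          have h7 : (1 : ℝ) ≤ n := by exact_mod_cast hn
          nlinarith
      nlinarith [sq_nonneg ‖Z‖]
  refine ⟨Y, A (fun _ => Y), hY, hmpos, rfl, ?_, fun Z hZ => (hsc Z hZ).2⟩
  intro Z
  -- swap the first two entries
  have hsw : ∀ V W : K, A (Fin.cons V (Fin.cons W fun _ => Y))
      = A (Fin.cons W (Fin.cons V fun _ => Y)) := by
    intro V W
    rw [← hs (Equiv.swap 0 1) (Fin.cons W (Fin.cons V fun _ => Y))]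
    congr 1
    funext i
    refine Fin.cases ?_ (fun k => ?_) i
    · simp
    · refine Fin.cases ?_ (fun l => ?_) k
      · simp
      · rw [Equiv.swap_apply_of_ne_of_ne]
        · simp
        · exact Fin.succ_ne_zero _
        · rw [← Fin.succ_zero_eq_one]
          intro h
          exact Fin.succ_ne_zero _ (Fin.succ_injective _ h)
  rw [hsw, hcons']
  set W : K := Z - ⟪Y, Z⟫ • Y with hW
  have hWY : ⟪Y, W⟫ = 0 := by
    rw [hW, inner_sub_right, inner_smul_right, real_inner_self_eq_norm_sq, hY]; ring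
  have hZW : Z = ⟪Y, Z⟫ • Y + W := by rw [hW]; abel
  have h1 : A (Fin.cons Z fun _ => Y) = ⟪Y, Z⟫ * A (fun _ => Y) := by
    conv_lhs => rw [hZW]
    rw [A.cons_add, A.cons_smul, hcons, (hsc W hWY).1, smul_eq_mul, add_zero]
  rw [h1]; ring

end TotFoc
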