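import Mathlib

/-!
# TAY: the leading Taylor coefficient as a limit

Proof by induction on `N` for all `G`-valued... or with Taylor's formula. Suggestions: induction on `N`: for `N = 0` continuity. For `N + 1`: let `v = deriv u`; it
is `C^∞` at `0`, `iteratedDeriv j v 0 = iteratedDeriv (j + 1) u 0`, `u 0 = 0`, so `u t = ∫_0^t v`, and `t^{-N} v t → w = iteratedDeriv (N+1) u 0 / N!`
implies `t^{-(N+1)} u t → w / (N + 1)`: for `ε > 0`, `‖v s - s^N w‖ ≤ ε |s|^N` for `0 < |s| < δ`; apply the mean value inequality to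
`s ↦ u s - s^(N+1) / (N+1) • w` on `[0, t]` (`Convex.norm_image_sub_le_of_norm_deriv_le` on the ball of radius `|t|`, where the derivative
`v s - s^N w` is bounded by `ε |t|^N`). (`ContDiffAt ℝ ∞`: take it as `ContDiffAt ℝ (n : ℕ)` for all `n`; it is convenient to prove the statement for `ContDiffAt ℝ (N + 1) u 0`
or `ContDiffAt ℝ ∞`; differentiability near `0` is needed: `ContDiffAt.eventually` for finite `n`.)
-/

set_option autoImplicit false

open scoped Topology ContDiff
open Filter Set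

namespace TotFoc

theorem TayLim_aux {G : Type*} [NormedAddCommGroup G] [NormedSpace ℝ G] (N : ℕ) :
    ∀ u : ℝ → G, ContDiffAt ℝ ∞ u 0 → (∀ j < N, iteratedDeriv j u 0 = 0) →
    Tendsto (fun t : ℝ => (t ^ N)⁻¹ • u t) (𝓝[≠] 0)
      (𝓝 ((N.factorial : ℝ)⁻¹ • iteratedDeriv N u 0)) := by
  induction N with
  | zero =>
    intro u hu _
    have h1 : Tendsto u (𝓝[≠] 0) (𝓝 (u 0)) := hu.continuousAt.tendsto.mono_left nhdsWithin_le_nhds
    simpa using h1
  | succ N ih =>
    intro u hu h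
    have hu0 : u 0 = 0 := by
      have := h 0 (Nat.succ_pos N)
      rwa [iteratedDeriv_zero] at this
    have hv : ContDiffAt ℝ ∞ (deriv u) 0 := by
      have h1 : ContDiffAt ℝ ∞ (fderiv ℝ u) 0 := hu.fderiv_right (by simp)
      have h2 := h1.clm_apply (contDiffAt_const (c := (1 : ℝ)))
      exact h2
    have hv2 := ih (deriv u) hv (fun j hj => by
      have := h (j + 1) (by omega)
      rwa [iteratedDeriv_succ'] at this)
    have hs : iteratedDeriv (N + 1) u 0 = iteratedDeriv N (deriv u) 0 := by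
      rw [iteratedDeriv_succ']
    set w0 := iteratedDeriv N (deriv u) 0 with hw0
    set w : G := (N.factorial : ℝ)⁻¹ • w0 with hw
    have hlim : (((N + 1).factorial : ℝ)⁻¹ • iteratedDeriv (N + 1) u 0) =
        ((N : ℝ) + 1)⁻¹ • w := by
      rw [hs, hw, smul_smul, Nat.factorial_succ]
      push_cast
      rw [mul_inv]
    rw [hlim]
    -- value of the derivative at zero
    have hv0 : deriv u 0 - (0 : ℝ) ^ N • w = 0 := by
      rcases Nat.eq_zero_or_pos N with h0 | h0
      · subst h0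
        rw [hw, hw0, iteratedDeriv_zero]
        simp
      · have := h 1 (by omega)
        rw [iteratedDeriv_one] at this
        rw [this, zero_pow h0.ne', zero_smul, sub_zero]
    clear_value w
    -- differentiability near zero
    have hdiff : ∀ᶠ s in 𝓝 (0 : ℝ), DifferentiableAt ℝ u s := by
      have h1 : ContDiffAt ℝ 1 u 0 := hu.of_le (by exact_mod_cast le_top)
      have h2 := h1.eventually (by simp)
      filter_upwards [h2] with s hs
      exact hs.differentiableAt (by simp)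
    obtain ⟨δ1, hδ1, hd⟩ := Metric.eventually_nhds_iff.1 hdiff
    rw [Metric.tendsto_nhds]
    intro ε hε
    have hv3 := (Metric.tendsto_nhds.1 hv2) (ε / 2) (by positivity)
    rw [eventually_nhdsWithin_iff, Metric.eventually_nhds_iff] at hv3
    obtain ⟨δ2, hδ2, hv4⟩ := hv3
    rw [eventually_nhdsWithin_iff, Metric.eventually_nhds_iff]
    refine ⟨min δ1 δ2, lt_min hδ1 hδ2, fun t ht ht0 => ?_⟩
    have ht0' : t ≠ 0 := ht0
    rw [dist_zero_right] at ht
    have htn : 0 < ‖t‖ := norm_pos_iff.2 ht0'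
    have hmem : ∀ s ∈ Metric.closedBall (0 : ℝ) ‖t‖, ‖s‖ < δ1 ∧ ‖s‖ < δ2 ∧ ‖s‖ ≤ ‖t‖ := by
      intro s hs
      rw [mem_closedBall_zero_iff] at hs
      exact ⟨lt_of_le_of_lt hs (lt_of_lt_of_le ht (min_le_left _ _)),
        lt_of_le_of_lt hs (lt_of_lt_of_le ht (min_le_right _ _)), hs⟩
    have hmv := Convex.norm_image_sub_le_of_norm_hasDerivWithin_le
      (f := fun s : ℝ => u s - (s ^ (N + 1) / ((N : ℝ) + 1)) • w)
      (f' := fun s : ℝ => deriv u s - s ^ N • w) (s := Metric.closedBall (0 : ℝ) ‖t‖)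
      (C := ε / 2 * ‖t‖ ^ N) (x := 0) (y := t) (fun s hs => by
        obtain ⟨h1, -, -⟩ := hmem s hs
        have h2 : DifferentiableAt ℝ u s := hd (by rwa [dist_zero_right])
        have h3 : HasDerivAt (fun s : ℝ => s ^ (N + 1) / ((N : ℝ) + 1)) (s ^ N) s := by
          have h4 := (hasDerivAt_pow (N + 1) s).div_const ((N : ℝ) + 1)
          have h5 : ((N : ℝ) + 1) ≠ 0 := by positivity
          refine h4.congr_deriv ?_
          rw [Nat.add_sub_cancel]
          push_cast
          field_simp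
        exact (h2.hasDerivAt.sub (h3.smul_const w)).hasDerivWithinAt)
      (fun s hs => by
        obtain ⟨-, h2, h3⟩ := hmem s hs
        by_cases hs0 : s = 0
        · rw [hs0, hv0, norm_zero]
          positivity
        · have h4 := hv4 (by rwa [dist_zero_right]) hs0
          rw [dist_eq_norm] at h4
          have h5 : deriv u s - s ^ N • w = s ^ N • ((s ^ N)⁻¹ • deriv u s - w) := by
            rw [smul_sub, smul_smul, mul_inv_cancel₀ (pow_ne_zero _ hs0), one_smul]
          rw [h5, norm_smul, norm_pow, mul_comm]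
          exact mul_le_mul h4.le (pow_le_pow_left₀ (norm_nonneg _) h3 _) (by positivity)
            (by positivity))
      (convex_closedBall _ _) (by simp) (by simp)
    simp only [hu0, zero_pow (Nat.succ_ne_zero N), zero_div, zero_smul, sub_zero] at hmv
    rw [dist_eq_norm]
    have e1 : (t ^ (N + 1))⁻¹ • u t - ((N : ℝ) + 1)⁻¹ • w =
        (t ^ (N + 1))⁻¹ • (u t - (t ^ (N + 1) / ((N : ℝ) + 1)) • w) := by
      have h8 : t ^ (N + 1) ≠ 0 := pow_ne_zero _ ht0'
      have h9 : (t ^ (N + 1))⁻¹ * (t ^ (N + 1) / ((N : ℝ) + 1)) = ((N : ℝ) + 1)⁻¹ := by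
        field_simp
      rw [smul_sub, smul_smul, h9]
    rw [e1, norm_smul, norm_inv, norm_pow]
    have h6 : (‖t‖ ^ (N + 1))⁻¹ * ‖u t - (t ^ (N + 1) / ((N : ℝ) + 1)) • w‖ ≤
        (‖t‖ ^ (N + 1))⁻¹ * (ε / 2 * ‖t‖ ^ N * ‖t‖) :=
      mul_le_mul_of_nonneg_left hmv (by positivity)
    have h7 : (‖t‖ ^ (N + 1))⁻¹ * (ε / 2 * ‖t‖ ^ N * ‖t‖) = ε / 2 := by
      rw [pow_succ]
      field_simp
    linarith

theorem taylor_lim {G : Type*} [NormedAddCommGroup G] [NormedSpace ℝ G] {u : ℝ → G} {N : ℕ}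
    (hu : ContDiffAt ℝ ∞ u 0) (h : ∀ j < N, iteratedDeriv j u 0 = 0) :
    Tendsto (fun t : ℝ => (t ^ N)⁻¹ • u t) (𝓝[≠] 0)
      (𝓝 ((N.factorial : ℝ)⁻¹ • iteratedDeriv N u 0)) :=
  TayLim_aux N u hu h

end TotFoc
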