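import Pool.Agent.H49.TF.Calc
import Pool.Agent.H49.TF.TayLim
import Pool.Agent.H49.TF.Polar

/-!
# LEA: the leading form of an analytic function

`ContDiffAt ℝ ω` is `AnalyticAt` (`contDiffAt_omega_iff_analyticAt` or similar). If all `iteratedFDeriv ℝ n F₀ 0` with `n ≥ 1` were `0`, `F₀` would be constant near `0`
(power series `p`, `n! • p n (y, ..., y) = iteratedFDeriv ℝ n F₀ 0 (y, ..., y)`, `HasFPowerSeriesOnBall.factorial_smul`). Let `l ≥ 1` be the least `n` with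
`A = iteratedFDeriv ℝ n F₀ 0 ≠ 0`. `l ≥ 3` because of `h1`, `h2` (`iteratedFDeriv_one_apply`, `iteratedFDeriv_two_apply`). `A` is symmetric
(`ContDiffAt.iteratedFDeriv_comp_perm`). By `polar_zero` some `A (Y, ..., Y) ≠ 0`; let `s = ± 1` be its sign; apply `sphere_max` to `s • A` (with `l = n + 2`):
`Y`, `m`. For all `z`: the derivative of `t ↦ iteratedFDeriv ℝ n F₀ (t • Y) z` is `iteratedFDeriv ℝ (n + 1) F₀ (t • Y) (Fin.cons Y z)` near `t = 0`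
(`iteratedFDeriv_succ_apply_left`). So the `j`-th derivative of `t ↦ D2 F₀ (t • Y) z z'` at `0` is `iteratedFDeriv ℝ (j + 2) F₀ 0 (Y, ..., Y, z, z')`, which is
`0` for `j < l - 2`. `taylor_lim` for `u t = D2 F₀ (t • Y)` (the evaluation at `z`, `z'` is a continuous linear map and commutes with `iteratedDeriv`; in finite
dimensions one may also prove the limits for all `z`, `z'` first) gives the limit `B z z' = s * A (Y, ..., Y, z, z') / (l - 2)!`, `α = m / (l - 2)!`. In the same way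
`C z z' z'' = A (Y, ..., Y, z, z', z'') / (l - 3)!`, `C Y Y Y = ± m / (l - 3)!`.
-/

set_option autoImplicit false
set_option maxSynthPendingDepth 3
set_option linter.unusedSectionVars false

open scoped Topology ContDiff RealInnerProductSpace
open Filter Set

namespace TotFoc

variable {K : Type*} [NormedAddCommGroup K] [InnerProductSpace ℝ K] [FiniteDimensional ℝ K]

theorem Lead_ana {F₀ : K → ℝ} (hF : ContDiffAt ℝ ω F₀ 0) : AnalyticAt ℝ F₀ 0 := by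
  have h := hF.contDiffWithinAt (s := univ)
  rw [contDiffWithinAt_omega_iff_analyticWithinAt] at h
  exact analyticWithinAt_univ.1 h

/-- derivatives along a ray -/
theorem Lead_ray {G : Type*} [NormedAddCommGroup G] [NormedSpace ℝ G] {f : K → G}
    (hf : ContDiffAt ℝ ω f 0) (Y : K) (j : ℕ) :
    ∀ᶠ t in 𝓝 (0 : ℝ), iteratedDeriv j (fun t : ℝ => f (t • Y)) t =
      iteratedFDeriv ℝ j f (t • Y) (fun _ => Y) := by
  induction j with
  | zero =>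
    refine Eventually.of_forall fun t => ?_
    rw [iteratedDeriv_zero, iteratedFDeriv_zero_apply]
  | succ j ih =>
    have hc : Tendsto (fun t : ℝ => t • Y) (𝓝 0) (𝓝 (0 : K)) := by
      have : ContinuousAt (fun t : ℝ => t • Y) 0 := by fun_prop
      have h := this.tendsto
      rwa [zero_smul] at h
    have h1 : ∀ᶠ t in 𝓝 (0 : ℝ), ContDiffAt ℝ ω f (t • Y) :=
      hc.eventually (hf.eventually (by decide))
    filter_upwards [ih.eventually_nhds, h1] with t ht h2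
    rw [iteratedDeriv_succ]
    have h3 : deriv (iteratedDeriv j fun t : ℝ => f (t • Y)) t =
        deriv (fun t : ℝ => iteratedFDeriv ℝ j f (t • Y) (fun _ => Y)) t :=
      Filter.EventuallyEq.deriv_eq ht
    rw [h3, iteratedFDeriv_succ_apply_left]
    have h4 : DifferentiableAt ℝ (iteratedFDeriv ℝ j f) (t • Y) :=
      (h2.iteratedFDeriv_right (m := 1) (i := j) le_top).differentiableAt (by norm_num)
    have h5 : HasDerivAt (fun t : ℝ => t • Y) Y t := by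
      simpa using (hasDerivAt_id t).smul_const Y
    have h6 : HasDerivAt (fun t : ℝ => iteratedFDeriv ℝ j f (t • Y))
        (fderiv ℝ (iteratedFDeriv ℝ j f) (t • Y) Y) t :=
      h4.hasFDerivAt.comp_hasDerivAt t h5
    have h7 : HasDerivAt (fun t : ℝ => iteratedFDeriv ℝ j f (t • Y) (fun _ => Y))
        (fderiv ℝ (iteratedFDeriv ℝ j f) (t • Y) Y (fun _ => Y)) t := by
      have := (ContinuousMultilinearMap.apply ℝ (fun _ : Fin j => K) G
        (fun _ => Y)).hasFDerivAt.comp_hasDerivAt t h6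
      exact this
    rw [h7.deriv]
    rfl

theorem Lead_D2 {F₀ : K → ℝ} (j : ℕ) (v : Fin j → K) (Z Z' : K) :
    iteratedFDeriv ℝ j (D2 F₀) 0 v Z Z' =
      iteratedFDeriv ℝ (j + 2) F₀ 0 (Fin.snoc (Fin.snoc v Z : Fin (j + 1) → K) Z' :
        Fin (j + 1 + 1) → K) := by
  rw [iteratedFDeriv_succ_apply_right, iteratedFDeriv_succ_apply_right]
  simp only [Fin.init_snoc, Fin.snoc_last]
  rfl

theorem Lead_D3 {F₀ : K → ℝ} (j : ℕ) (v : Fin j → K) (Z Z' Z'' : K) :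
    iteratedFDeriv ℝ j (D3 F₀) 0 v Z Z' Z'' =
      iteratedFDeriv ℝ (j + 3) F₀ 0
        (Fin.snoc (Fin.snoc (Fin.snoc v Z : Fin (j + 1) → K) Z' : Fin (j + 1 + 1) → K) Z'' :
          Fin (j + 1 + 1 + 1) → K) := by
  rw [iteratedFDeriv_succ_apply_right, iteratedFDeriv_succ_apply_right,
    iteratedFDeriv_succ_apply_right]
  simp only [Fin.init_snoc, Fin.snoc_last]
  rfl

theorem Lead_const {F₀ : K → ℝ} (hF : ContDiffAt ℝ ω F₀ 0)
    (h : ∀ n, 1 ≤ n → iteratedFDeriv ℝ n F₀ 0 = 0) : ∀ᶠ y in 𝓝 (0 : K), F₀ y = F₀ 0 := by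
  obtain ⟨p, r, hp⟩ := Lead_ana hF
  have hb : Metric.eball (0 : K) r ∈ 𝓝 (0 : K) := Metric.eball_mem_nhds _ hp.r_pos
  filter_upwards [hb] with y hy
  have hs := hp.hasSum hy
  rw [zero_add] at hs
  have hterm : ∀ n, n ≠ 0 → p n (fun _ => y) = 0 := by
    intro n hn
    have h1 := hp.factorial_smul y n
    rw [h n (by omega)] at h1
    have h2 : (n.factorial : ℝ) * p n (fun _ => y) = 0 := by
      rw [nsmul_eq_mul] at h1
      rw [h1]; rfl
    have h3 : (n.factorial : ℝ) ≠ 0 := by exact_mod_cast n.factorial_ne_zero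
    exact (mul_eq_zero.1 h2).resolve_left h3
  have hs2 : HasSum (fun n => p n (fun _ => y)) (p 0 (fun _ => y)) :=
    hasSum_single 0 (fun n hn => hterm n hn)
  have h4 := hs.unique hs2
  have h5 : p 0 (fun _ => y) = F₀ 0 := hp.coeff_zero _
  rw [h4, h5]

theorem Lead_snoc {n : ℕ} (A : K [×(n + 1)]→L[ℝ] ℝ)
    (hs : ∀ (σ : Equiv.Perm (Fin (n + 1))) (v : Fin (n + 1) → K), A (fun i => v (σ i)) = A v)
    (v : Fin n → K) (a : K) : A (Fin.snoc v a : Fin (n + 1) → K) = A (Fin.cons a v) := by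
  rw [Fin.snoc_eq_cons_rotate]
  exact hs (finRotate (n + 1)) _

theorem Lead_snoc2 {n : ℕ} (A : K [×(n + 2)]→L[ℝ] ℝ)
    (hs : ∀ (σ : Equiv.Perm (Fin (n + 2))) (v : Fin (n + 2) → K), A (fun i => v (σ i)) = A v)
    (v : Fin n → K) (a b : K) :
    A (Fin.snoc (Fin.snoc v a : Fin (n + 1) → K) b : Fin (n + 1 + 1) → K) =
      A (Fin.cons a (Fin.cons b v : Fin (n + 1) → K)) := by
  rw [Lead_snoc A hs]
  rw [Fin.cons_snoc_eq_snoc_cons, Lead_snoc A hs]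

theorem Lead_snoc_const {n : ℕ} (Y : K) :
    (Fin.snoc (fun _ : Fin n => Y) Y : Fin (n + 1) → K) = fun _ => Y := by
  funext i
  refine Fin.lastCases ?_ (fun j => ?_) i
  · rw [Fin.snoc_last]
  · rw [Fin.snoc_castSucc]

theorem lead {F₀ : K → ℝ} (hF : ContDiffAt ℝ ω F₀ 0) (h1 : fderiv ℝ F₀ 0 = 0)
    (h2 : D2 F₀ 0 = 0) (hne : ¬ ∀ᶠ y in 𝓝 (0 : K), F₀ y = F₀ 0) :
    ∃ (l : ℕ) (s : ℝ) (Y : K) (α : ℝ) (B : K →L[ℝ] K →L[ℝ] ℝ) (C : K →L[ℝ] K →L[ℝ] K →L[ℝ] ℝ),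
      3 ≤ l ∧ (s = 1 ∨ s = -1) ∧ ‖Y‖ = 1 ∧ 0 < α ∧ (∀ Z, B Y Z = α * ⟪Y, Z⟫) ∧
      (∀ Z, ⟪Y, Z⟫ = 0 → B Z Z ≤ α / 2 * ‖Z‖ ^ 2) ∧ C Y Y Y ≠ 0 ∧
      Tendsto (fun t : ℝ => (s * (t ^ (l - 2))⁻¹) • D2 F₀ (t • Y)) (𝓝[>] 0) (𝓝 B) ∧
      Tendsto (fun t : ℝ => (t ^ (l - 3))⁻¹ • D3 F₀ (t • Y)) (𝓝[>] 0) (𝓝 C) := by
  classical
  have hex : ∃ n, 1 ≤ n ∧ iteratedFDeriv ℝ n F₀ 0 ≠ 0 := by
    by_contra hcon
    push Not at hcon
    exact hne (Lead_const hF hcon)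
  obtain ⟨l, ⟨hl1, hl2⟩, hlmin⟩ : ∃ l, (1 ≤ l ∧ iteratedFDeriv ℝ l F₀ 0 ≠ 0) ∧
      ∀ j, j < l → 1 ≤ j → iteratedFDeriv ℝ j F₀ 0 = 0 := by
    refine ⟨Nat.find hex, Nat.find_spec hex, fun j hj hj1 => ?_⟩
    by_contra hcon
    exact Nat.find_min hex hj ⟨hj1, hcon⟩
  have hl3 : 3 ≤ l := by
    by_contra hcon
    have hl12 : l = 1 ∨ l = 2 := by omega
    rcases hl12 with rfl | rfl
    · apply hl2
      ext v
      rw [iteratedFDeriv_one_apply, h1]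
      rfl
    · apply hl2
      ext v
      rw [iteratedFDeriv_two_apply]
      have h3 : fderiv ℝ (fderiv ℝ F₀) 0 = 0 := h2
      rw [h3]
      rfl
  obtain ⟨n, rfl⟩ : ∃ n, l = n + 2 := ⟨l - 2, by omega⟩
  have hn1 : 1 ≤ n := by omega
  set A : K [×(n + 2)]→L[ℝ] ℝ := iteratedFDeriv ℝ (n + 2) F₀ 0 with hA
  have hAs : ∀ (σ : Equiv.Perm (Fin (n + 2))) (v : Fin (n + 2) → K),
      A (fun i => v (σ i)) = A v := by
    intro σ v
    exact hF.iteratedFDeriv_comp_perm v σ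
  obtain ⟨Y0, hY0⟩ : ∃ Y : K, A (fun _ => Y) ≠ 0 := by
    by_contra hcon
    push Not at hcon
    exact hl2 (polar_zero A hAs hcon)
  obtain ⟨s, hs1, hs2⟩ : ∃ s : ℝ, (s = 1 ∨ s = -1) ∧ 0 < s * A (fun _ => Y0) := by
    rcases lt_or_gt_of_ne hY0 with h | h
    · exact ⟨-1, Or.inr rfl, by linarith⟩
    · exact ⟨1, Or.inl rfl, by linarith⟩
  have hs0 : s ≠ 0 := by rcases hs1 with rfl | rfl <;> norm_num
  obtain ⟨Y, m, hY, hm, hAY, hA1, hA2⟩ := sphere_max hn1 (s • A) (fun σ v => by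
    show s * A (fun i => v (σ i)) = s * A v
    rw [hAs]) ⟨Y0, hs2⟩
  have hAY' : s * A (fun _ => Y) = m := hAY
  have hA1' : ∀ Z, s * A (Fin.cons Y (Fin.cons Z fun _ => Y)) = m * ⟪Y, Z⟫ := hA1
  have hA2' : ∀ Z, ⟪Y, Z⟫ = 0 → s * A (Fin.cons Z (Fin.cons Z fun _ => Y)) ≤ m / 2 * ‖Z‖ ^ 2 :=
    hA2
  -- the second derivative along the ray
  have hD2 : ContDiffAt ℝ ω (D2 F₀) 0 := contDiffAt_D2 hF le_top
  have hD3 : ContDiffAt ℝ ω (D3 F₀) 0 := contDiffAt_D1 hD2 le_top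
  have hline : ContDiffAt ℝ ∞ (fun t : ℝ => t • Y) 0 := by fun_prop
  have hu2 : ContDiffAt ℝ ∞ (fun t : ℝ => D2 F₀ (t • Y)) 0 := by
    have h3 : ContDiffAt ℝ ∞ (D2 F₀) ((0 : ℝ) • Y) := by
      rw [zero_smul]; exact hD2.of_le le_top
    exact h3.comp (0 : ℝ) hline
  have hu3 : ContDiffAt ℝ ∞ (fun t : ℝ => D3 F₀ (t • Y)) 0 := by
    have h3 : ContDiffAt ℝ ∞ (D3 F₀) ((0 : ℝ) • Y) := by
      rw [zero_smul]; exact hD3.of_le le_top
    exact h3.comp (0 : ℝ) hline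
  have hr2 : ∀ j, iteratedDeriv j (fun t : ℝ => D2 F₀ (t • Y)) 0 =
      iteratedFDeriv ℝ j (D2 F₀) 0 (fun _ => Y) := by
    intro j
    have h3 := (Lead_ray hD2 Y j).self_of_nhds
    rwa [zero_smul] at h3
  have hr3 : ∀ j, iteratedDeriv j (fun t : ℝ => D3 F₀ (t • Y)) 0 =
      iteratedFDeriv ℝ j (D3 F₀) 0 (fun _ => Y) := by
    intro j
    have h3 := (Lead_ray hD3 Y j).self_of_nhds
    rwa [zero_smul] at h3
  have hz2 : ∀ j < n, iteratedDeriv j (fun t : ℝ => D2 F₀ (t • Y)) 0 = 0 := by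
    intro j hj
    rw [hr2]
    ext Z Z'
    rw [Lead_D2, hlmin (j + 2) (by omega) (by omega)]
    rfl
  have hz3 : ∀ j < n - 1, iteratedDeriv j (fun t : ℝ => D3 F₀ (t • Y)) 0 = 0 := by
    intro j hj
    rw [hr3]
    ext Z Z' Z''
    rw [Lead_D3, hlmin (j + 3) (by omega) (by omega)]
    rfl
  have ht2 := taylor_lim hu2 hz2
  have ht3 := taylor_lim hu3 hz3
  have hf2 : (0 : ℝ) < (n.factorial : ℝ) := by exact_mod_cast n.factorial_pos
  have hf3 : (0 : ℝ) < ((n - 1).factorial : ℝ) := by exact_mod_cast (n - 1).factorial_pos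
  have hle : (𝓝[>] (0 : ℝ)) ≤ 𝓝[≠] (0 : ℝ) :=
    nhdsWithin_mono _ (fun x hx => ne_of_gt hx)
  have hB : ∀ Z Z', (s • ((n.factorial : ℝ)⁻¹ • iteratedDeriv n (fun t : ℝ => D2 F₀ (t • Y)) 0)) Z Z'
      = (n.factorial : ℝ)⁻¹ * (s * A (Fin.cons Z (Fin.cons Z' fun _ => Y))) := by
    intro Z Z'
    have h3 : iteratedDeriv n (fun t : ℝ => D2 F₀ (t • Y)) 0 Z Z' =
        A (Fin.cons Z (Fin.cons Z' fun _ => Y)) := by
      rw [hr2, Lead_D2, Lead_snoc2 _ hAs]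
    show s * ((n.factorial : ℝ)⁻¹ * iteratedDeriv n (fun t : ℝ => D2 F₀ (t • Y)) 0 Z Z') = _
    rw [h3]; ring
  refine ⟨n + 2, s, Y, m / n.factorial,
    s • ((n.factorial : ℝ)⁻¹ • iteratedDeriv n (fun t : ℝ => D2 F₀ (t • Y)) 0),
    ((n - 1).factorial : ℝ)⁻¹ • iteratedDeriv (n - 1) (fun t : ℝ => D3 F₀ (t • Y)) 0,
    hl3, hs1, hY, by positivity, ?_, ?_, ?_, ?_, ?_⟩
  · intro Z
    rw [hB, hA1']
    field_simp
  · intro Z hZ
    rw [hB]
    have h3 := hA2' Z hZ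
    calc (n.factorial : ℝ)⁻¹ * (s * A (Fin.cons Z (Fin.cons Z fun _ => Y)))
        ≤ (n.factorial : ℝ)⁻¹ * (m / 2 * ‖Z‖ ^ 2) :=
          mul_le_mul_of_nonneg_left h3 (by positivity)
      _ = m / n.factorial / 2 * ‖Z‖ ^ 2 := by field_simp
  · show ((n - 1).factorial : ℝ)⁻¹ *
      iteratedDeriv (n - 1) (fun t : ℝ => D3 F₀ (t • Y)) 0 Y Y Y ≠ 0
    rw [hr3, Lead_D3, Lead_snoc_const, Lead_snoc_const, Lead_snoc_const]
    obtain ⟨n', rfl⟩ : ∃ n', n = n' + 1 := ⟨n - 1, by omega⟩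
    have h4 : iteratedFDeriv ℝ (n' + 1 - 1 + 3) F₀ 0 (fun _ => Y) ≠ 0 := by
      intro h5
      have h6 : A (fun _ => Y) = 0 := h5
      rw [h6, mul_zero] at hAY'
      exact hm.ne hAY'
    exact mul_ne_zero (inv_ne_zero hf3.ne') h4
  · have h5 := (ht2.mono_left hle).const_smul s
    refine h5.congr (fun t => ?_)
    rw [smul_smul]
    rfl
  · exact ht3.mono_left hle

end TotFoc
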