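import Pool.Agent.H49.TF.ThKap

/-!
# LFD: leaves of distance functions

Let `a = p + l⁻¹ • (q - p)`. `Dn X p q`: `p, q ∈ X`, `q - p ∈ (tan X q)ᗮ` and `p - q ∈ (tan X p)ᗮ`. `p - a = -l⁻¹ • (q - p)`, `q - a = (1 - l⁻¹) • (q - p)`; so `p, q ∈ S = CrS X 1 a`.
`tan S x ≤ tan X x` (`tan_mono`, `S ⊆ X`). So `PP S p q` (`q - p ∈ (tan X q)ᗮ ≤ (tan S q)ᗮ`), and `tan S p = tan S q` by `TH S`. `Sph S a`: for `x ∈ S`, `x - a ∈ (tan X x)ᗮ ≤ (tan S x)ᗮ`.
`th_kappa` (with `o = a`): for `s ∈ S` near `p`: `‖s - a‖ = ‖p - a‖`, `‖κ s - a‖ = ‖q - a‖`, `‖s - κ s‖ = ‖p - q‖`. With `λ = 1 - l`: `q - a = λ • (p - a)`. So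
`⟪κ s - a, s - a⟫ = ⟪q - a, p - a⟫` and `‖(κ s - a) - λ • (s - a)‖² = ‖(q - a) - λ • (p - a)‖² = 0`: `κ s = a + λ • (s - a)`.
`Dn X s (κ s)` for `s ∈ S` near `p`: `κ s ∈ S ⊆ X`; `κ s - s = (λ - 1) • (s - a) ∈ (tan X s)ᗮ` because `s ∈ CrS X 1 a`; `λ ≠ 0` and `κ s - s = (1 - λ⁻¹) • (κ s - a) ∈ (tan X (κ s))ᗮ` because `κ s ∈ CrS X 1 a`.
Let `v` be the velocity of a curve `γ` in `S` with `γ 0 = p`. With `δ t = κ (γ t)` (or `a + λ • (γ t - a)`), `v ∈ LeafDir X p q`. So `tan S p ≤ span (LeafDir X p q)`.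
-/

set_option autoImplicit false

open scoped Topology ContDiff RealInnerProductSpace
open Filter Set

namespace TotFoc

variable {E : Type*} [NormedAddCommGroup E] [InnerProductSpace ℝ E] [FiniteDimensional ℝ E]
  {r : ℕ∞ω} {X : Set E}

omit [FiniteDimensional ℝ E] in
/-- velocities of curves are leaf directions -/
theorem LeafD_dir {S : Set E} {p q : E} {κ : E → E} (k1 : ContinuousAt κ p) (k2 : κ p = q)
    (k3 : ∀ᶠ s in 𝓝 p, s ∈ S → Dn X s (κ s)) :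
    tan S p ≤ Submodule.span ℝ (LeafDir X p q) := by
  unfold tan
  apply Submodule.span_mono
  rintro v ⟨γ, g0, g1, g2⟩
  have ht : Tendsto γ (𝓝 0) (𝓝 p) := by
    have := g1.continuousAt.tendsto
    rwa [g0] at this
  refine ⟨γ, fun t => κ (γ t), g0, g1, ?_, ?_, ?_⟩
  · show κ (γ 0) = q
    rw [g0, k2]
  · show Tendsto (fun t => κ (γ t)) (𝓝 0) (𝓝 (κ (γ 0)))
    rw [g0]
    exact k1.tendsto.comp ht
  · filter_upwards [g2, ht.eventually k3] with t h1 h2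
    exact h2 h1

omit [FiniteDimensional ℝ E] in
/-- rigidity of triangles -/
theorem LeafD_rig {x y x0 y0 : E} {c : ℝ} (hx : ‖x‖ = ‖x0‖) (hy : ‖y‖ = ‖y0‖)
    (hxy : ‖x - y‖ = ‖x0 - y0‖) (h : y0 = c • x0) : y = c • x := by
  have e1 := norm_sub_sq_real x y
  have e2 := norm_sub_sq_real x0 y0
  rw [hxy, hx, hy] at e1
  have e3 : ⟪x, y⟫ = ⟪x0, y0⟫ := by linarith
  have e4 := norm_sub_sq_real y (c • x)
  have e5 := norm_sub_sq_real y0 (c • x0)
  have e8 : ‖y0 - c • x0‖ = 0 := by rw [h, sub_self, norm_zero]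
  rw [inner_smul_right, real_inner_comm, e3, hy, norm_smul, hx] at e4
  rw [inner_smul_right, real_inner_comm, norm_smul, e8] at e5
  have e6 : ‖y - c • x‖ ^ 2 = 0 := by linarith
  have e7 : ‖y - c • x‖ = 0 := by
    rwa [sq_eq_zero_iff] at e6
  exact sub_eq_zero.mp (norm_eq_zero.mp e7)

theorem leaf_dist (hr : ∞ ≤ r) {p q : E} (hd : Dn X p q) {l : ℝ} (hl : l ≠ 0) (hl1 : l ≠ 1)
    {S : Set E} (hS : S = CrS X 1 (p + l⁻¹ • (q - p))) (h : IsSub r S) (h1 : TF1 r S)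
    (hth : TH S) : tan S p ≤ Submodule.span ℝ (LeafDir X p q) ∧ tan S p = tan S q := by
  set a : E := p + l⁻¹ • (q - p) with ha
  obtain ⟨⟨hpX, hqX, hq⟩, -, -, hp⟩ := id hd
  rw [one_smul] at hq hp
  have hpq : q - p ∈ (tan X p)ᗮ := by
    have := Submodule.neg_mem _ hp
    rwa [neg_sub] at this
  have hSX : ∀ x, x ∈ S → x ∈ X := fun x hx => by
    rw [hS] at hx
    exact hx.1
  have hSa : ∀ x, x ∈ S → x - a ∈ (tan X x)ᗮ := fun x hx => by
    rw [hS] at hx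
    have := hx.2
    rwa [one_smul] at this
  have hmono : ∀ x, tan S x ≤ tan X x := fun x => tan_mono (Eventually.of_forall (fun y hy => hSX y hy))
  have epa : p - a = (-l⁻¹) • (q - p) := by
    rw [ha, neg_smul]
    abel
  have eqa : q - a = (1 - l⁻¹) • (q - p) := by
    rw [ha, sub_smul, one_smul]
    abel
  have eqa' : q - a = (1 - l) • (p - a) := by
    rw [eqa, epa, smul_smul]
    congr 1
    field_simp
    ring
  have hpS : p ∈ S := by
    rw [hS]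
    refine ⟨hpX, ?_⟩
    rw [one_smul, epa]
    exact Submodule.smul_mem _ _ hpq
  have hqS : q ∈ S := by
    rw [hS]
    refine ⟨hqX, ?_⟩
    rw [one_smul, eqa]
    exact Submodule.smul_mem _ _ hq
  have hPP : PP S p q := by
    refine ⟨hpS, hqS, ?_⟩
    rw [one_smul]
    exact Submodule.orthogonal_le (hmono q) hq
  have hsph : Sph S a := fun x hx => Submodule.orthogonal_le (hmono x) (hSa x hx)
  refine ⟨?_, (hth _ _ hPP).2⟩
  obtain ⟨κ, k1, k2, k3⟩ := th_kappa hr h h1 hth hPP a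
  refine LeafD_dir k1 k2 ?_
  filter_upwards [k3] with s hs hsS
  obtain ⟨a1, a2, -, -, a5⟩ := hs hsS
  obtain ⟨a6, a7⟩ := a5 hsph
  have hκS : κ s ∈ S := a1.1.2.1
  have hl1' : (1 : ℝ) - l ≠ 0 := sub_ne_zero.mpr (Ne.symm hl1)
  have key : κ s - a = (1 - l) • (s - a) := by
    refine LeafD_rig (x0 := p - a) (y0 := q - a) a6 a7 ?_ eqa'
    have e1 : s - a - (κ s - a) = s - κ s := by abel
    have e2 : p - a - (q - a) = p - q := by abel
    rw [e1, e2, a2]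
  have e1 : κ s - s = (-l) • (s - a) := by
    have : κ s - s = (κ s - a) - (s - a) := by abel
    rw [this, key]
    module
  have e2 : κ s - s = (1 - (1 - l)⁻¹) • (κ s - a) := by
    have h3 : s - a = (1 - l)⁻¹ • (κ s - a) := by
      rw [key, smul_smul, inv_mul_cancel₀ hl1', one_smul]
    have : κ s - s = (κ s - a) - (s - a) := by abel
    rw [this, sub_smul, one_smul, ← h3]
  refine ⟨⟨hSX s hsS, hSX _ hκS, ?_⟩, hSX _ hκS, hSX s hsS, ?_⟩
  · rw [one_smul, e2]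
    exact Submodule.smul_mem _ _ (hSa _ hκS)
  · have : (1 : ℝ) • s - κ s = -(κ s - s) := by
      rw [one_smul]
      abel
    rw [this, e1]
    exact Submodule.neg_mem _ (Submodule.smul_mem _ _ (hSa s hsS))

end TotFoc
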