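import Pool.Agent.H49.TF.ThKap
import Pool.Agent.H49.TF.LeafD

/-!
# LFH: leaves of height functions

`S = CrS X 0 u` is the set of `x ∈ X` with `0 • x - u = -u ∈ (tan X x)ᗮ`. `Dn X p q` and `u - (q - p) ∈ Lx X ≤ (tan X x)ᗮ` for all `x ∈ X`: for `x ∈ X`: `u ∈ (tan X x)ᗮ ↔ q - p ∈ (tan X x)ᗮ`. So `p, q ∈ S`.
`tan S x ≤ tan X x` (`tan_mono`). `PP S p q`, `tan S p = tan S q` by `TH S`. `q - p ∈ Lx S`: for `x ∈ S`, `q - p ∈ (tan X x)ᗮ ≤ (tan S x)ᗮ`.
`th_kappa`: for `s ∈ S` near `p` write `x = κ s - s`: `‖x‖ = ‖q - p‖`, and the projection of `x` on `Lx S` is the projection of `q - p`, which is `q - p`. So (Pythagoras) `x = q - p`: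
`κ s = s + (q - p)`. `Dn X s (κ s)`: `q - p` is in `(tan X s)ᗮ` and in `(tan X (κ s))ᗮ` because `s, κ s ∈ S`. Velocities of curves `γ` in `S` are leaf directions (`δ t = κ (γ t)`, or `γ t + (q - p)`).
-/

set_option autoImplicit false

open scoped Topology ContDiff RealInnerProductSpace
open Filter Set

namespace TotFoc

variable {E : Type*} [NormedAddCommGroup E] [InnerProductSpace ℝ E] [FiniteDimensional ℝ E]
  {r : ℕ∞ω} {X : Set E}

theorem leaf_height (hr : ∞ ≤ r) {p q u : E} (hd : Dn X p q) (hu : u - (q - p) ∈ Lx X)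
    {S : Set E} (hS : S = CrS X 0 u) (h : IsSub r S) (h1 : TF1 r S)
    (hth : TH S) : tan S p ≤ Submodule.span ℝ (LeafDir X p q) ∧ tan S p = tan S q := by
  obtain ⟨⟨hpX, hqX, hq⟩, -, -, hp⟩ := id hd
  rw [one_smul] at hq hp
  have hpq : q - p ∈ (tan X p)ᗮ := by
    have := Submodule.neg_mem _ hp
    rwa [neg_sub] at this
  have hSX : ∀ x, x ∈ S → x ∈ X := fun x hx => by
    rw [hS] at hx
    exact hx.1
  have hSn : ∀ x, x ∈ S → q - p ∈ (tan X x)ᗮ := fun x hx => by
    have h2 := lx_le (hSX x hx) hu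
    rw [hS] at hx
    have h3 := hx.2
    rw [zero_smul, zero_sub] at h3
    have e : q - p = -(-u) - (u - (q - p)) := by abel
    rw [e]
    exact Submodule.sub_mem _ (Submodule.neg_mem _ h3) h2
  have hSc : ∀ x, x ∈ X → q - p ∈ (tan X x)ᗮ → x ∈ S := fun x hx hn => by
    rw [hS]
    refine ⟨hx, ?_⟩
    have e : (0 : ℝ) • x - u = -((q - p) + (u - (q - p))) := by
      rw [zero_smul]
      abel
    rw [e]
    exact Submodule.neg_mem _ (Submodule.add_mem _ hn (lx_le hx hu))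
  have hmono : ∀ x, tan S x ≤ tan X x := fun x => tan_mono (Eventually.of_forall (fun y hy => hSX y hy))
  have hpS : p ∈ S := hSc p hpX hpq
  have hqS : q ∈ S := hSc q hqX hq
  have hPP : PP S p q := by
    refine ⟨hpS, hqS, ?_⟩
    rw [one_smul]
    exact Submodule.orthogonal_le (hmono q) hq
  have hn : q - p ∈ Lx S := by
    unfold Lx
    rw [Submodule.mem_iInf]
    intro x
    rw [Submodule.mem_iInf]
    intro hx
    exact Submodule.orthogonal_le (hmono x) (hSn x hx)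
  refine ⟨?_, (hth _ _ hPP).2⟩
  obtain ⟨κ, k1, k2, k3⟩ := th_kappa hr h h1 hth hPP 0
  refine LeafD_dir k1 k2 ?_
  filter_upwards [k3] with s hs hsS
  obtain ⟨a1, a2, a3, a4, -⟩ := hs hsS
  have hκS : κ s ∈ S := a1.1.2.1
  have e1 : (Lx S).starProjection (κ s - s) = q - p := by
    rw [map_sub, a3, a4, ← map_sub]
    exact Submodule.starProjection_eq_self_iff.mpr hn
  have e2 : κ s - s ∈ Lx S := by
    rw [Submodule.mem_iff_norm_starProjection, e1, norm_sub_rev, ← a2, norm_sub_rev]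
  have key : κ s - s = q - p := by
    rw [← e1]
    exact (Submodule.starProjection_eq_self_iff.mpr e2).symm
  refine ⟨⟨hSX s hsS, hSX _ hκS, ?_⟩, hSX _ hκS, hSX s hsS, ?_⟩
  · rw [one_smul, key]
    exact hSn _ hκS
  · have : (1 : ℝ) • s - κ s = -(κ s - s) := by
      rw [one_smul]
      abel
    rw [this, key]
    exact Submodule.neg_mem _ (hSn s hsS)

end TotFoc
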