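import Pool.Agent.H49.TF.Crs.Psd
import Pool.Agent.H49.TF.Crs.Qsd

/-!
# TFS: critical sets in the degenerate case are totally focal submanifolds
-/

set_option autoImplicit false

open scoped Topology ContDiff RealInnerProductSpace
open Filter Set

namespace TotFoc

variable {E : Type*} [NormedAddCommGroup E] [InnerProductSpace ℝ E] [FiniteDimensional ℝ E]

theorem tfs {r : ℕ∞ω} (hr : ∞ ≤ r) {X : Set E} (h : IsSub r X) (h1 : TFx r X) (hb : Bott r X)
    {c : ℝ} {a p : E} (hp : Crit X c a p) (hnd : ¬ ND r X c a p) :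
    IsSub r (CrS X c a) ∧ TFx r (CrS X c a) := by
  have h1r : (1 : ℕ∞ω) ≤ r := le_trans (by exact_mod_cast le_top) hr
  have hall : ∀ q, Crit X c a q → ¬ ND r X c a q := fun q hq hn => hnd (h1 c a q p hq hp hn)
  refine ⟨⟨isCompact_CrS h h1r c a, ?_⟩, ?_⟩
  · intro q hq
    have hq' : Crit X c a q := hq
    obtain ⟨T, g, hT, hTn⟩ := h.2 q hq'.1
    obtain ⟨gS, hS⟩ := hb c a q T g hq' (hall q hq') hT
    refine ⟨_, gS, hS, ?_⟩
    intro hbot
    apply hall q hq'
    rw [hT.nd_iff h1r]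
    intro Z hZ
    have hmem : (Z : E) ∈ kerH T g c (c • q - a) := ⟨Z.2, hZ⟩
    rw [hbot, Submodule.mem_bot] at hmem
    exact Subtype.ext hmem
  · intro c' a' p' q' hp' hq' hn'
    by_contra hd
    have hp1 : Crit X c a p' := hp'.1
    have hq1 : Crit X c a q' := hq'.1
    have e1 := psd hr h hb (hall p' hp1) hp' hn'
    have e2 := qsd hr h hb (hall q' hq1) hq' hd
    obtain ⟨x, ⟨y, hy1, hy2⟩, z, hz1, hz2⟩ := (e1.and_frequently e2).exists
    exact hz2 (h1 _ _ y z hy1 hz1 hy2)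

end TotFoc
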