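import Mathlib

/-!
# TOU: the touching ball

Suppose `y₀ ∈ D ∩ O` is not an interior point of `D`. Let `ball y₀ (3 ρ) ⊆ O`, `z ∉ D` with `‖z - y₀‖ < ρ`. The set `C = closedBall y₀ (2 ρ) ∩ closure D ⊆ D` is compact and contains `y₀`; let `y₁ ∈ C` be
a point of `C` nearest to `z`, `R = ‖y₁ - z‖ ≤ ‖y₀ - z‖ < ρ`, `R > 0` because `z ∉ D`. A point of `D` at a distance `< R` from `z` would be in `C`: contradiction. So `‖y - z‖ ≥ R` for all
`y ∈ D`. For a curve `γ` in `D` with `γ 0 = y₁` and velocity `v` the function `‖γ t - z‖²` has a local minimum at `0`, so `2 ⟪y₁ - z, v⟫ = 0`. The span of these `v` is everything (`y₁ ∈ O`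
since `‖y₁ - y₀‖ < 2 ρ`), so `y₁ = z`: contradiction.
-/

set_option autoImplicit false

open scoped Topology RealInnerProductSpace
open Filter Set

namespace TotFoc

variable {V : Type*} [NormedAddCommGroup V] [InnerProductSpace ℝ V] [FiniteDimensional ℝ V]

theorem touch {D O : Set V} (hO : IsOpen O) (hD : ∀ y ∈ O, y ∈ closure D → y ∈ D)
    (hs : ∀ y ∈ D ∩ O, Submodule.span ℝ {v | ∃ γ : ℝ → V, γ 0 = y ∧ HasDerivAt γ v 0 ∧
      ∀ᶠ t in 𝓝 (0 : ℝ), γ t ∈ D} = ⊤) : IsOpen (D ∩ O) := by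
  rw [isOpen_iff_mem_nhds]
  rintro y₀ ⟨hy₀D, hy₀O⟩
  obtain ⟨r, hr, hrO⟩ := Metric.isOpen_iff.1 hO y₀ hy₀O
  set ρ : ℝ := r / 3 with hρ
  have hρ0 : 0 < ρ := by positivity
  by_contra hcon
  have hz : ∃ z ∈ Metric.ball y₀ ρ, z ∉ D := by
    by_contra hno
    push Not at hno
    apply hcon
    rw [Metric.mem_nhds_iff]
    refine ⟨ρ, hρ0, fun z hz => ⟨hno z hz, hrO ?_⟩⟩
    rw [Metric.mem_ball] at hz ⊢
    linarith
  obtain ⟨z, hzb, hzD⟩ := hz
  rw [Metric.mem_ball] at hzb
  set C : Set V := Metric.closedBall y₀ (2 * ρ) ∩ closure D with hC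
  have hCc : IsCompact C := (isCompact_closedBall y₀ (2 * ρ)).inter_right isClosed_closure
  have hy₀C : y₀ ∈ C := ⟨Metric.mem_closedBall_self (by positivity), subset_closure hy₀D⟩
  obtain ⟨y₁, hy₁C, hmin⟩ := hCc.exists_isMinOn ⟨y₀, hy₀C⟩
    (f := fun y => dist y z) (by fun_prop)
  have hmin' : ∀ y ∈ C, dist y₁ z ≤ dist y z := fun y hy => hmin hy
  have hCO : ∀ y ∈ C, y ∈ O := by
    intro y hy
    apply hrO
    have := Metric.mem_closedBall.1 hy.1
    rw [Metric.mem_ball]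
    linarith
  have hCD : ∀ y ∈ C, y ∈ D := fun y hy => hD y (hCO y hy) hy.2
  have hR : dist y₁ z < ρ := by
    refine lt_of_le_of_lt (hmin' y₀ hy₀C) ?_
    rw [dist_comm]; exact hzb
  have hall : ∀ y ∈ D, dist y₁ z ≤ dist y z := by
    intro y hy
    by_contra hlt
    push Not at hlt
    have hyC : y ∈ C := by
      refine ⟨?_, subset_closure hy⟩
      rw [Metric.mem_closedBall]
      have := dist_triangle y z y₀
      linarith
    exact absurd (hmin' y hyC) (not_le.2 hlt)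
  have hy₁D := hCD y₁ hy₁C
  have hy₁O := hCO y₁ hy₁C
  have hsp := hs y₁ ⟨hy₁D, hy₁O⟩
  have horth : ∀ v ∈ {v | ∃ γ : ℝ → V, γ 0 = y₁ ∧ HasDerivAt γ v 0 ∧
      ∀ᶠ t in 𝓝 (0 : ℝ), γ t ∈ D}, ⟪y₁ - z, v⟫ = 0 := by
    rintro v ⟨γ, h0, hγ, hev⟩
    have hd : HasDerivAt (fun t => ‖γ t - z‖ ^ 2) (2 * ⟪γ 0 - z, v⟫) 0 := by
      have h1 : HasDerivAt (fun t => γ t - z) v 0 := hγ.sub_const z
      exact h1.norm_sq
    have hloc : IsLocalMin (fun t => ‖γ t - z‖ ^ 2) 0 := by
      filter_upwards [hev] with t ht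
      have h2 := hall (γ t) ht
      rw [dist_eq_norm, dist_eq_norm] at h2
      rw [h0]
      exact pow_le_pow_left₀ (norm_nonneg _) h2 2
    have := hloc.hasDerivAt_eq_zero hd
    rw [h0] at this
    linarith
  have hzero : ∀ v : V, ⟪y₁ - z, v⟫ = 0 := by
    intro v
    have hv : v ∈ Submodule.span ℝ {v | ∃ γ : ℝ → V, γ 0 = y₁ ∧ HasDerivAt γ v 0 ∧
      ∀ᶠ t in 𝓝 (0 : ℝ), γ t ∈ D} := by rw [hsp]; trivial
    refine Submodule.span_induction (p := fun v _ => ⟪y₁ - z, v⟫ = 0) horth ?_ ?_ ?_ hv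
    · simp
    · intro x y _ _ hx hy
      rw [inner_add_right, hx, hy, add_zero]
    · intro a x _ hx
      rw [inner_smul_right, hx, mul_zero]
  have h3 : y₁ - z = 0 := inner_self_eq_zero.1 (hzero (y₁ - z))
  have h4 : y₁ = z := sub_eq_zero.1 h3
  exact hzD (h4 ▸ hy₁D)

/-- the eigenvectors of a symmetric bilinear form span the space -/
theorem eig_span (B : V → V → ℝ) (hadd : ∀ x y z, B (x + y) z = B x z + B y z)
    (hsmul : ∀ (k : ℝ) x z, B (k • x) z = k * B x z) (hsymm : ∀ x y, B x y = B y x) :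
    Submodule.span ℝ {Z : V | ∃ l : ℝ, ∀ Z', B Z Z' = l * ⟪Z, Z'⟫} = ⊤ := by
  have hadd' : ∀ x y z, B x (y + z) = B x y + B x z := by
    intro x y z; rw [hsymm, hadd, hsymm y, hsymm z]
  have hsmul' : ∀ (k : ℝ) x z, B x (k • z) = k * B x z := by
    intro k x z; rw [hsymm, hsmul, hsymm z]
  let L : V → (V →ₗ[ℝ] ℝ) := fun x =>
    { toFun := fun y => B x y
      map_add' := fun y z => hadd' x y z
      map_smul' := fun k z => by simp [hsmul'] }
  let T : V →ₗ[ℝ] V :=
    { toFun := fun x => (InnerProductSpace.toDual ℝ V).symm (LinearMap.toContinuousLinearMap (L x))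
      map_add' := fun x y => by
        have : L (x + y) = L x + L y := by
          ext z; exact hadd x y z
        rw [this, map_add, map_add]
      map_smul' := fun k x => by
        have : L (k • x) = k • L x := by
          ext z; simp only [LinearMap.smul_apply, smul_eq_mul]; exact hsmul k x z
        rw [this, map_smul, map_smulₛₗ]
        simp }
  have hT : ∀ x y, ⟪T x, y⟫ = B x y := by
    intro x y
    change ⟪(InnerProductSpace.toDual ℝ V).symm (LinearMap.toContinuousLinearMap (L x)), y⟫ = B x y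
    rw [InnerProductSpace.toDual_symm_apply]
    rfl
  have hsym : T.IsSymmetric := by
    intro x y
    rw [hT, hsymm, ← hT, real_inner_comm]
  have htop : (⨆ μ : ℝ, Module.End.eigenspace T μ) = ⊤ := by
    have h := hsym.orthogonalComplement_iSup_eigenspaces_eq_bot
    exact Submodule.orthogonal_eq_bot_iff.1 h
  rw [eq_top_iff, ← htop]
  refine iSup_le fun μ => ?_
  intro x hx
  apply Submodule.subset_span
  refine ⟨μ, fun Z' => ?_⟩
  rw [← hT, Module.End.mem_eigenspace_iff.1 hx, inner_smul_left]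
  simp

/-- a semidefinite form: null vectors are in the kernel -/
theorem semidef_ker (B : V → V → ℝ) (hadd : ∀ x y z, B (x + y) z = B x z + B y z)
    (hsmul : ∀ (k : ℝ) x z, B (k • x) z = k * B x z) (hsymm : ∀ x y, B x y = B y x)
    (hp : ∀ x, 0 ≤ B x x) {z : V} (hz : B z z = 0) (w : V) : B z w = 0 := by
  have hadd' : ∀ x y z, B x (y + z) = B x y + B x z := by
    intro x y z; rw [hsymm, hadd, hsymm y, hsymm z]
  have hsmul' : ∀ (k : ℝ) x z, B x (k • z) = k * B x z := by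
    intro k x z; rw [hsymm, hsmul, hsymm z]
  by_contra hne
  have key : ∀ t : ℝ, 0 ≤ B w w + 2 * t * B z w := by
    intro t
    have h := hp (w + t • z)
    rw [hadd, hadd', hadd', hsmul, hsmul, hsmul', hsmul', hz, hsymm w z] at h
    linarith
  have h1 := key (-(B w w + 1) / (2 * B z w))
  have h2 : 2 * (-(B w w + 1) / (2 * B z w)) * B z w = -(B w w + 1) := by
    field_simp
  rw [h2] at h1
  linarith

end TotFoc
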