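import Pool.Agent.H49.TF.LeafD
import Pool.Agent.H49.TF.LeafH
import Pool.Agent.H49.TF.Tfs
import Pool.Agent.H49.TF.Touch

/-!
# LFG: the leaf directions span the tangent space (general case)

Take a chart `(T, g)` at `p`; `tan X p = T`. Let `B Z Z' = ⟪q - p, D2 g 0 Z Z'⟫` (symmetric). By `eig_span` it is enough to treat `Z ∈ T`, `Z ≠ 0`, with `B Z Z' = l * ⟪Z, Z'⟫` for all `Z'`.
Case `l ≠ 0`: let `a = p + l⁻¹ • (q - p)`, `v = 1 • p - a = -l⁻¹ • (q - p)`. `hs T g 1 v Z Z' = ⟪Z, Z'⟫ - l⁻¹ * B Z Z' = 0`. So `Z ∈ kerH T g 1 (1 • p - a)`, `p` is a critical point of `fn 1 a` (`Dn`), degenerate (`Chart.nd_iff`, `Z ≠ 0`).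
`l ≠ 1`: otherwise `a = q` and `ND r X 1 q p` by `nd_of_PP` (`PP X q p`, `TFx.tf1`). `hb X` gives `Bott r X`; `Bott` gives a chart of `S = CrS X 1 a` at `p` with the tangent space `kerH`, so `Z ∈ tan S p` (`Chart.tan_eq`).
`tfs`: `IsSub r S`, `TFx r S`; `Sph S a`; `hsph`: `TH S`. `leaf_dist`: `Z ∈ span (LeafDir X p q)` and `Z ∈ tan S q ≤ tan X q`.
Case `l = 0`: let `u = (Lx X)ᗮ.starProjection (q - p)`; `u ≠ 0` by `hne`, `u - (q - p) ∈ Lx X`, `u ∉ Lx X`. `hs T g 0 (0 • p - u) Z Z' = -⟪u, D2 g 0 Z Z'⟫ = -B Z Z' + ⟪(q - p) - u, D2 g 0 Z Z'⟫`; the last term vanishes: the function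
`y ↦ ⟪n, gr p T g y⟫` is constant near `0` for `n ∈ Lx X` (`near_tan`, its derivative is `⟪n, Z + Dg(y) Z⟫ = 0`), so its second derivative `⟪n, D2 g 0 Z Z'⟫` is `0`. So `Z ∈ kerH T g 0 (0 • p - u)`, degenerate critical point of `fn 0 u`;
`S = CrS X 0 u`; `Lx X ≤ Lx S` (`tan S x ≤ tan X x`, `S ⊆ X`), `u ∈ Lx S`, so `Lx X < Lx S`, `ih` gives `TH S`; `leaf_height`.
(`u ∈ (tan X p)ᗮ` and `∈ (tan X q)ᗮ` because `q - p` and `Lx X` are.)
-/

set_option autoImplicit false

open scoped Topology ContDiff RealInnerProductSpace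
open Filter Set

namespace TotFoc

variable {E : Type*} [NormedAddCommGroup E] [InnerProductSpace ℝ E] [FiniteDimensional ℝ E]
  {r : ℕ∞ω} {X : Set E}

/-- the linear functions in `Lx X` do not see the second fundamental form -/
theorem lx_D2 {p : E} {T : Submodule ℝ E} {g : T → E} (h : Chart r X p T g) (h2 : 2 ≤ r) {n : E}
    (hn : n ∈ Lx X) (Z Z' : T) : ⟪n, D2 g 0 Z Z'⟫ = 0 := by
  have h1 : 1 ≤ r := le_trans (by norm_num) h2
  have hev : ∀ᶠ y in 𝓝 (0 : T), ⟪n, fderiv ℝ g y Z'⟫ = -⟪n, (Z' : E)⟫ := by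
    filter_upwards [h.near_mem, h.near_orth h1] with y hy1 hy2
    have h3 := (hy2 n).mp (lx_le hy1.1 hn) Z'
    rw [inner_add_right] at h3
    linarith
  have hg : ContDiffAt ℝ 2 g 0 := h.smooth.of_le h2
  have hd : DifferentiableAt ℝ (fun z => fderiv ℝ g z Z') 0 :=
    (Calc_diff hg).clm_apply (differentiableAt_const Z')
  have h3 : HasFDerivAt (fun y => (innerSL ℝ n) (fderiv ℝ g y Z'))
      ((innerSL ℝ n).comp (fderiv ℝ (fun z => fderiv ℝ g z Z') 0)) 0 :=
    (innerSL ℝ n).hasFDerivAt.comp (0 : T) hd.hasFDerivAt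
  have h4 : (fun y => (innerSL ℝ n) (fderiv ℝ g y Z')) =ᶠ[𝓝 0] fun _ => -⟪n, (Z' : E)⟫ := hev
  have h5 := h3.unique ((hasFDerivAt_const (-⟪n, (Z' : E)⟫) (0 : T)).congr_of_eventuallyEq h4)
  have h6 := congrArg (fun L : T →L[ℝ] ℝ => L Z) h5
  have h7 : ⟪n, fderiv ℝ (fun z => fderiv ℝ g z Z') 0 Z⟫ = 0 := by simpa using h6
  rwa [fderiv_D1_apply hg] at h7

theorem lx_mono {S : Set E} (h : S ⊆ X) : Lx X ≤ Lx S := by
  refine le_iInf₂ (fun x hx => ?_)
  exact (lx_le (h hx)).trans (Submodule.orthogonal_le (tan_mono (Eventually.of_forall h)))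

theorem leaf_gen (hr : ∞ ≤ r) (hb : BottAll r E) (hX : IsSub r X) (hf : TFx r X)
    (hsph : ∀ (S : Set E) (o : E), IsSub r S → TFx r S → Sph S o → TH S)
    (ih : ∀ S : Set E, IsSub r S → TFx r S → Lx X < Lx S → TH S) {p q : E} (hd : Dn X p q)
    (hne : Gd (Lx X) p q ≠ 0) :
    tan X p ≤ Submodule.span ℝ (LeafDir X p q) ∧ tan X p ≤ tan X q := by
  have h1 : 1 ≤ r := by
    refine le_trans ?_ hr
    have : ((1 : ℕ∞) : ℕ∞ω) ≤ ((⊤ : ℕ∞) : ℕ∞ω) := WithTop.coe_le_coe.mpr le_top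
    exact this
  have h2 : 2 ≤ r := by
    refine le_trans ?_ hr
    have : ((2 : ℕ∞) : ℕ∞ω) ≤ ((⊤ : ℕ∞) : ℕ∞ω) := WithTop.coe_le_coe.mpr le_top
    exact this
  obtain ⟨⟨hpX, hqX, hq⟩, -, -, hp⟩ := id hd
  have hpq : q - p ∈ (tan X p)ᗮ := by
    have := Submodule.neg_mem _ hp
    rwa [one_smul, neg_sub] at this
  obtain ⟨T, g, h, -⟩ := hX.2 p hpX
  have hT := h.tan_eq h1
  have hmono : ∀ (c : ℝ) (a x : E), tan (CrS X c a) x ≤ tan X x := fun c a x =>
    tan_mono (Eventually.of_forall (fun y hy => hy.1))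
  have hbX := hb X hX hf
  suffices hW : tan X p ≤ Submodule.span ℝ (LeafDir X p q) ⊓ tan X q from
    ⟨hW.trans inf_le_left, hW.trans inf_le_right⟩
  have hsp := eig_span (V := T) (fun Z Z' => ⟪q - p, D2 g 0 Z Z'⟫)
    (fun x y z => by simp only [map_add, add_apply, inner_add_right])
    (fun k x z => by simp only [map_smul, smul_apply, inner_smul_right])
    (fun x y => by rw [D2_symm (h.smooth.of_le h2)])
  suffices hS : Submodule.span ℝ {Z : T | ∃ l : ℝ, ∀ Z', ⟪q - p, D2 g 0 Z Z'⟫ = l * ⟪Z, Z'⟫} ≤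
      (Submodule.span ℝ (LeafDir X p q) ⊓ tan X q).comap T.subtype by
    rw [hT]
    intro v hv
    have : (⟨v, hv⟩ : T) ∈ Submodule.span ℝ {Z : T | ∃ l : ℝ, ∀ Z', ⟪q - p, D2 g 0 Z Z'⟫ = l * ⟪Z, Z'⟫} := by
      rw [hsp]
      exact Submodule.mem_top
    exact hS this
  rw [Submodule.span_le]
  rintro Z ⟨l, hl⟩
  change (Z : E) ∈ Submodule.span ℝ (LeafDir X p q) ⊓ tan X q
  by_cases hZ : Z = 0
  · rw [hZ]
    exact Submodule.zero_mem _
  by_cases hl0 : l = 0
  · -- height function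
    set u : E := (Lx X)ᗮ.starProjection (q - p) with hu
    have hu0 : u ≠ 0 := by
      intro h0
      apply hne
      unfold Gd
      have : p - q = -(q - p) := by abel
      rw [this, map_neg, ← hu, h0, neg_zero, norm_zero]
      norm_num
    have hsum := Submodule.starProjection_add_starProjection_orthogonal (K := Lx X) (q - p)
    have hu1 : u - (q - p) ∈ Lx X := by
      have e : u - (q - p) = -((Lx X).starProjection (q - p)) := by
        rw [hu]
        nth_rw 2 [← hsum]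
        abel
      rw [e]
      exact Submodule.neg_mem _ (Submodule.starProjection_apply_mem _ _)
    have hu2 : u ∈ (Lx X)ᗮ := Submodule.starProjection_apply_mem _ _
    have hu3 : u ∉ Lx X := by
      intro h3
      apply hu0
      have := Submodule.inner_right_of_mem_orthogonal h3 hu2
      exact inner_self_eq_zero.mp this
    have hker : ∀ Z', hs T g 0 ((0 : ℝ) • p - u) Z Z' = 0 := by
      intro Z'
      unfold hs
      have e : (0 : ℝ) • p - u = -(q - p) - (u - (q - p)) := by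
        rw [zero_smul]
        abel
      rw [e, inner_sub_left, inner_neg_left, hl, hl0, lx_D2 h h2 hu1]
      ring
    have hcrit : Crit X 0 u p := by
      refine ⟨hpX, ?_⟩
      have e : (0 : ℝ) • p - u = -((q - p) + (u - (q - p))) := by
        rw [zero_smul]
        abel
      rw [e]
      exact Submodule.neg_mem _ (Submodule.add_mem _ hpq (lx_le hpX hu1))
    have hnd : ¬ ND r X 0 u p := by
      intro hN
      exact hZ ((h.nd_iff h1).mp hN Z hker)
    obtain ⟨gS, hSc⟩ := hbX 0 u p T g hcrit hnd h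
    obtain ⟨hS1, hS2⟩ := tfs hr hX hf hbX hcrit hnd
    have hlt : Lx X < Lx (CrS X 0 u) := by
      refine lt_of_le_of_ne (lx_mono (fun x hx => hx.1)) ?_
      intro heq
      apply hu3
      rw [heq]
      unfold Lx
      rw [Submodule.mem_iInf]
      intro x
      rw [Submodule.mem_iInf]
      intro hx
      have h3 := hx.2
      rw [zero_smul, zero_sub] at h3
      have h4 := Submodule.neg_mem _ h3
      rw [neg_neg] at h4
      exact Submodule.orthogonal_le (hmono 0 u x) h4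
    have hth := ih _ hS1 hS2 hlt
    obtain ⟨k1, k2⟩ := leaf_height hr hd hu1 rfl hS1 hS2.tf1 hth
    have hZS : (Z : E) ∈ tan (CrS X 0 u) p := by
      rw [hSc.tan_eq h1]
      exact ⟨Z.2, hker⟩
    refine ⟨k1 hZS, ?_⟩
    rw [k2] at hZS
    exact hmono 0 u q hZS
  · -- distance function
    set a : E := p + l⁻¹ • (q - p) with ha
    have hker : ∀ Z', hs T g 1 ((1 : ℝ) • p - a) Z Z' = 0 := by
      intro Z'
      unfold hs
      have e : (1 : ℝ) • p - a = -(l⁻¹ • (q - p)) := by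
        rw [one_smul, ha]
        abel
      have hl' : ⟪q - p, D2 g 0 Z Z'⟫ = l * ⟪(Z : E), (Z' : E)⟫ := hl Z'
      rw [e, inner_neg_left, inner_smul_left, hl']
      simp only [RCLike.conj_to_real]
      rw [← mul_assoc, inv_mul_cancel₀ hl0]
      ring
    have hcrit : Crit X 1 a p := by
      refine ⟨hpX, ?_⟩
      have e : (1 : ℝ) • p - a = -(l⁻¹ • (q - p)) := by
        rw [one_smul, ha]
        abel
      rw [e]
      exact Submodule.neg_mem _ (Submodule.smul_mem _ _ hpq)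
    have hnd : ¬ ND r X 1 a p := by
      intro hN
      exact hZ ((h.nd_iff h1).mp hN Z hker)
    have hl1 : l ≠ 1 := by
      intro h3
      apply hnd
      have e : a = q := by
        rw [ha, h3, inv_one, one_smul]
        abel
      rw [e]
      exact nd_of_PP hf.tf1 hd.2
    obtain ⟨gS, hSc⟩ := hbX 1 a p T g hcrit hnd h
    obtain ⟨hS1, hS2⟩ := tfs hr hX hf hbX hcrit hnd
    have hsph' : Sph (CrS X 1 a) a := by
      intro x hx
      have h3 := hx.2
      rw [one_smul] at h3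
      exact Submodule.orthogonal_le (hmono 1 a x) h3
    have hth := hsph _ a hS1 hS2 hsph'
    obtain ⟨k1, k2⟩ := leaf_dist hr hd hl0 hl1 rfl hS1 hS2.tf1 hth
    have hZS : (Z : E) ∈ tan (CrS X 1 a) p := by
      rw [hSc.tan_eq h1]
      exact ⟨Z.2, hker⟩
    refine ⟨k1 hZS, ?_⟩
    have hZS' : (Z : E) ∈ tan (CrS X 1 a) q := by
      rw [← k2]
      exact hZS
    exact hmono 1 a q hZS'

end TotFoc
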