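import Pool.Agent.H49.TF.ThKap
import Pool.Agent.H49.TF.LeafD

/-!
# LFS: leaves in the spherical case

Let `u = (q - o) + l • (p - o)`. `Sph X o`: `x - o ∈ (tan X x)ᗮ` for `x ∈ X`. `Dn X p q`: `q - p ∈ (tan X q)ᗮ`, `p - q ∈ (tan X p)ᗮ`, so `q - o` and `p - o` are in both `(tan X p)ᗮ` and `(tan X q)ᗮ`, and `p, q ∈ S = CrS X 0 u`
(`x ∈ S ↔ x ∈ X ∧ u ∈ (tan X x)ᗮ`). `tan S x ≤ tan X x`, `Sph S o`, `PP S p q`, `tan S p = tan S q` (`TH S`), `u ∈ Lx S`.
Let `π'` be the projection on `Lx S` and `π = 1 - π'`. `th_kappa`: for `s ∈ S` near `p`: `π' s = π' p`, `π' (κ s) = π' q`, `‖s - o‖ = ‖p - o‖`, `‖κ s - o‖ = ‖q - o‖`, `‖s - κ s‖ = ‖p - q‖`. So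
`x = π (s - o)`, `y = π (κ s - o)` have the same norms and the same inner product as `x₀ = π (p - o)`, `y₀ = π (q - o)`; since `u ∈ Lx S`, `y₀ = -l • x₀`; so `‖y + l • x‖² = ‖y₀ + l • x₀‖² = 0`: `y = -l • x`. Therefore
`(κ s - o) + l • (s - o) = π' ((q - o) + l • (p - o)) + (y + l • x) = u`.
`Dn X s (κ s)`: `κ s - o = u - l • (s - o) ∈ (tan X s)ᗮ` (`s ∈ S`, `Sph X o`), and `s - o = l⁻¹ • (u - (κ s - o)) ∈ (tan X (κ s))ᗮ` (`κ s ∈ S`). So `κ s - s` is in both.
Velocities of curves `γ` in `S` with `γ 0 = p` are leaf directions with `δ t = κ (γ t)`.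
-/

set_option autoImplicit false

open scoped Topology ContDiff RealInnerProductSpace
open Filter Set

namespace TotFoc

variable {E : Type*} [NormedAddCommGroup E] [InnerProductSpace ℝ E] [FiniteDimensional ℝ E]
  {r : ℕ∞ω} {X : Set E}

/-- equality of the orthogonal components -/
theorem LeafS_norm (L : Submodule ℝ E) {x x0 : E} (h : L.starProjection x = L.starProjection x0)
    (hn : ‖x‖ = ‖x0‖) : ‖Lᗮ.starProjection x‖ = ‖Lᗮ.starProjection x0‖ := by
  have e1 := Submodule.norm_sq_eq_add_norm_sq_starProjection x L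
  have e2 := Submodule.norm_sq_eq_add_norm_sq_starProjection x0 L
  rw [h, hn] at e1
  have e3 : ‖Lᗮ.starProjection x‖ ^ 2 = ‖Lᗮ.starProjection x0‖ ^ 2 := by linarith
  have e4 := congrArg Real.sqrt e3
  rwa [Real.sqrt_sq (norm_nonneg _), Real.sqrt_sq (norm_nonneg _)] at e4

theorem leaf_sph (hr : ∞ ≤ r) {p q o : E} (hX : Sph X o) (hd : Dn X p q) {l : ℝ} (hl : l ≠ 0)
    {S : Set E} (hS : S = CrS X 0 ((q - o) + l • (p - o))) (h : IsSub r S) (h1 : TF1 r S)
    (hth : TH S) : tan S p ≤ Submodule.span ℝ (LeafDir X p q) ∧ tan S p = tan S q := by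
  set u : E := (q - o) + l • (p - o) with hu
  obtain ⟨⟨hpX, hqX, hq⟩, -, -, hp⟩ := id hd
  rw [one_smul] at hq hp
  have hpo := hX p hpX
  have hqo := hX q hqX
  have hqo' : q - o ∈ (tan X p)ᗮ := by
    have e : q - o = (p - o) - (p - q) := by abel
    rw [e]
    exact Submodule.sub_mem _ hpo hp
  have hpo' : p - o ∈ (tan X q)ᗮ := by
    have e : p - o = (q - o) - (q - p) := by abel
    rw [e]
    exact Submodule.sub_mem _ hqo hq
  have hSX : ∀ x, x ∈ S → x ∈ X := fun x hx => by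
    rw [hS] at hx
    exact hx.1
  have hSn : ∀ x, x ∈ S → u ∈ (tan X x)ᗮ := fun x hx => by
    rw [hS] at hx
    have h3 := hx.2
    rw [zero_smul, zero_sub] at h3
    have h4 := Submodule.neg_mem _ h3
    rwa [neg_neg] at h4
  have hSc : ∀ x, x ∈ X → u ∈ (tan X x)ᗮ → x ∈ S := fun x hx hn => by
    rw [hS]
    refine ⟨hx, ?_⟩
    rw [zero_smul, zero_sub]
    exact Submodule.neg_mem _ hn
  have hmono : ∀ x, tan S x ≤ tan X x := fun x => tan_mono (Eventually.of_forall (fun y hy => hSX y hy))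
  have hpS : p ∈ S := hSc p hpX (Submodule.add_mem _ hqo' (Submodule.smul_mem _ _ hpo))
  have hqS : q ∈ S := hSc q hqX (Submodule.add_mem _ hqo (Submodule.smul_mem _ _ hpo'))
  have hPP : PP S p q := by
    refine ⟨hpS, hqS, ?_⟩
    rw [one_smul]
    exact Submodule.orthogonal_le (hmono q) hq
  have hn : u ∈ Lx S := by
    unfold Lx
    rw [Submodule.mem_iInf]
    intro x
    rw [Submodule.mem_iInf]
    intro hx
    exact Submodule.orthogonal_le (hmono x) (hSn x hx)
  have hsph : Sph S o := fun x hx => Submodule.orthogonal_le (hmono x) (hX x (hSX x hx))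
  refine ⟨?_, (hth _ _ hPP).2⟩
  obtain ⟨κ, k1, k2, k3⟩ := th_kappa hr h h1 hth hPP o
  refine LeafD_dir k1 k2 ?_
  filter_upwards [k3] with s hs hsS
  obtain ⟨a1, a2, a3, a4, a5⟩ := hs hsS
  obtain ⟨a6, a7⟩ := a5 hsph
  have hκS : κ s ∈ S := a1.1.2.1
  have b1 : (Lx S).starProjection (s - o) = (Lx S).starProjection (p - o) := by
    rw [map_sub, map_sub, a3]
  have b2 : (Lx S).starProjection (κ s - o) = (Lx S).starProjection (q - o) := by
    rw [map_sub, map_sub, a4]
  have b3 : (Lx S).starProjection (s - κ s) = (Lx S).starProjection (p - q) := by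
    rw [map_sub, map_sub, a3, a4]
  have hu0 : (Lx S)ᗮ.starProjection u = 0 := by
    have e1 := Submodule.starProjection_add_starProjection_orthogonal (K := Lx S) u
    rw [Submodule.starProjection_eq_self_iff.mpr hn] at e1
    exact add_eq_left.mp e1
  have b4 : (Lx S)ᗮ.starProjection (q - o) = (-l) • (Lx S)ᗮ.starProjection (p - o) := by
    rw [hu, map_add, map_smul] at hu0
    rw [neg_smul]
    exact eq_neg_of_add_eq_zero_left hu0
  have b5 : (Lx S)ᗮ.starProjection (κ s - o) = (-l) • (Lx S)ᗮ.starProjection (s - o) := by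
    refine LeafD_rig (LeafS_norm _ b1 a6) (LeafS_norm _ b2 a7) ?_ b4
    rw [← map_sub, ← map_sub]
    have e1 : s - o - (κ s - o) = s - κ s := by abel
    have e2 : p - o - (q - o) = p - q := by abel
    rw [e1, e2]
    exact LeafS_norm _ b3 a2
  have key : (κ s - o) + l • (s - o) = u := by
    have e1 := Submodule.starProjection_add_starProjection_orthogonal (K := Lx S) (κ s - o)
    have e2 := Submodule.starProjection_add_starProjection_orthogonal (K := Lx S) (s - o)
    have e3 := Submodule.starProjection_eq_self_iff.mpr hn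
    rw [hu, map_add, map_smul, ← b1, ← b2, ← hu] at e3
    rw [← e1, ← e2, b5, ← e3, b1, b2]
    module
  have c1 : κ s - o ∈ (tan X s)ᗮ := by
    have e : κ s - o = u - l • (s - o) := by
      rw [← key]
      abel
    rw [e]
    exact Submodule.sub_mem _ (hSn s hsS) (Submodule.smul_mem _ _ (hX s (hSX s hsS)))
  have c2 : s - o ∈ (tan X (κ s))ᗮ := by
    have e : s - o = l⁻¹ • (u - (κ s - o)) := by
      rw [← key, add_sub_cancel_left, smul_smul, inv_mul_cancel₀ hl, one_smul]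
    rw [e]
    exact Submodule.smul_mem _ _ (Submodule.sub_mem _ (hSn _ hκS) (hX _ (hSX _ hκS)))
  refine ⟨⟨hSX s hsS, hSX _ hκS, ?_⟩, hSX _ hκS, hSX s hsS, ?_⟩
  · have e : (1 : ℝ) • κ s - s = (κ s - o) - (s - o) := by
      rw [one_smul]
      abel
    rw [e]
    exact Submodule.sub_mem _ (hX _ (hSX _ hκS)) c2
  · have e : (1 : ℝ) • s - κ s = (s - o) - (κ s - o) := by
      rw [one_smul]
      abel
    rw [e]
    exact Submodule.sub_mem _ (hX _ (hSX _ hsS)) c1

end TotFoc
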