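import Pool.Agent.H49.TF.LeafS
import Pool.Agent.H49.TF.Tfs
import Pool.Agent.H49.TF.Touch

/-!
# LFI: the leaf directions span the tangent space (spherical case)

Take a chart `(T, g)` at `p`; `tan X p = T`. `⟪p - o, D2 g 0 Z Z'⟫ = -⟪Z, Z'⟫` (`sph_hess`: by `sph_const` the function `y ↦ ‖gr p T g y - o‖²` is constant near `0`; its second derivative at `0` is
`2 ⟪Z, Z'⟫ + 2 ⟪p - o, D2 g 0 Z Z'⟫`; it is `2 • fn 1 o ∘ gr` up to a constant, so `Chart.hs_eq` may be used). Let `B Z Z' = ⟪q - o, D2 g 0 Z Z'⟫` (symmetric). By `eig_span` it is enough to treat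
`Z ∈ T`, `Z ≠ 0` with `B Z Z' = l * ⟪Z, Z'⟫` for all `Z'`. `l ≠ 0`: `PP X q p` and `nd_of_PP` say that `p` is a nondegenerate critical point of `fn 1 q`; `hs T g 1 (p - q) Z Z' = ⟪Z, Z'⟫ + ⟪(p - o) - (q - o), D2 g 0 Z Z'⟫ = - B Z Z' = -l ⟪Z, Z'⟫`,
so `l ≠ 0` because `Z ≠ 0`.
Let `u = (q - o) + l • (p - o)`; `hs T g 0 (0 • p - u) Z Z' = -(B Z Z' - l * ⟪Z, Z'⟫) = 0`. So `p` is a degenerate critical point of `fn 0 u` (`u ∈ (tan X p)ᗮ`: `Dn`, `Sph`), `Z ∈ kerH T g 0 (0 • p - u) = tan S p`, `S = CrS X 0 u` (`hb X`, `Bott`, `Chart.tan_eq`).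
`u ∉ Lx X` by `hi` with `α = l`, `β = 1`. `u ∈ Lx S`, `Lx X ≤ Lx S` (`tan S x ≤ tan X x`), so `Lx X < Lx S`. `Sph S o`. `tfs`, `ih`: `TH S`. `leaf_sph`: `Z ∈ span (LeafDir X p q)`, `Z ∈ tan S q ≤ tan X q`.
-/

set_option autoImplicit false

open scoped Topology ContDiff RealInnerProductSpace
open Filter Set

namespace TotFoc

variable {E : Type*} [NormedAddCommGroup E] [InnerProductSpace ℝ E] [FiniteDimensional ℝ E]
  {r : ℕ∞ω} {X : Set E}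

theorem sph_hess {p : E} {T : Submodule ℝ E} {g : T → E} (h : Chart r X p T g) (h2 : 2 ≤ r) {o : E}
    (hs : Sph X o) (Z Z' : T) : ⟪p - o, D2 g 0 Z Z'⟫ = -⟪(Z : E), (Z' : E)⟫ := by
  have h1 : 1 ≤ r := Hess_one_le h2
  have h3 := h.hs_eq h2 1 o Z Z'
  have h4 : ∀ᶠ y in 𝓝 (0 : T), ‖gr p T g y - o‖ = ‖p - o‖ :=
    (h.eventually_iff (fun x => ‖x - o‖ = ‖p - o‖)).1 (sph_const h h1 hs)
  have h5 : ∀ᶠ y in 𝓝 (0 : T), fn 1 o (gr p T g y) = (fun _ : T => fn 1 o p) y := by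
    filter_upwards [h4] with y hy
    show fn 1 o (gr p T g y) = fn 1 o p
    rw [CritNear_fn, CritNear_fn, hy]
  have h6 : D2 (fun y => fn 1 o (gr p T g y)) (0 : T) = D2 (fun _ : T => fn 1 o p) 0 :=
    D2_congr h5
  have h7 : D2 (fun _ : T => fn 1 o p) (0 : T) = 0 := by
    unfold D2
    rw [fderiv_fun_const]
    simp
  rw [h6, h7] at h3
  unfold TotFoc.hs at h3
  rw [one_smul, one_mul] at h3
  have h8 : (0 : ℝ) = ⟪(Z : E), (Z' : E)⟫ + ⟪p - o, D2 g 0 Z Z'⟫ := h3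
  linarith

/-- the critical set is contained in `X`: tangent spaces -/
theorem LeafSph_tan {S : Set E} (hSX : S ⊆ X) (x : E) : tan S x ≤ tan X x :=
  tan_mono (Eventually.of_forall fun _ hz => hSX hz)

theorem LeafSph_orth {S : Set E} (hSX : S ⊆ X) {x v : E} (h : v ∈ (tan X x)ᗮ) :
    v ∈ (tan S x)ᗮ :=
  Submodule.orthogonal_le (LeafSph_tan hSX x) h

omit [FiniteDimensional ℝ E] in
theorem LeafSph_mem_Lx {v : E} : v ∈ Lx X ↔ ∀ x ∈ X, v ∈ (tan X x)ᗮ := by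
  unfold Lx
  simp only [Submodule.mem_iInf]

/-- one eigenvector -/
theorem LeafSph_one (hr : ∞ ≤ r) (hb : BottAll r E) (hX : IsSub r X) (hf : TFx r X) {o : E}
    (hs : Sph X o) (ih : ∀ S : Set E, IsSub r S → TFx r S → Sph S o → Lx X < Lx S → TH S)
    {p q : E} (hd : Dn X p q)
    (hi : ∀ α β : ℝ, α • (p - o) + β • (q - o) ∈ Lx X → α = 0 ∧ β = 0)
    {T : Submodule ℝ E} {g : T → E} (h : Chart r X p T g) (h2 : 2 ≤ r) (Z : T) (l : ℝ)
    (hZ : ∀ Z' : T, ⟪q - o, D2 g 0 Z Z'⟫ = l * ⟪(Z : E), (Z' : E)⟫) (hZ0 : Z ≠ 0) :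
    (Z : E) ∈ Submodule.span ℝ (LeafDir X p q) ∧ (Z : E) ∈ tan X q := by
  have h1 : 1 ≤ r := Hess_one_le h2
  have hpX : p ∈ X := hd.1.1
  have hpo : p - o ∈ (tan X p)ᗮ := hs p hpX
  have hpq : (1 : ℝ) • p - q ∈ (tan X p)ᗮ := hd.2.2.2
  rw [one_smul] at hpq
  have hqo : q - o ∈ (tan X p)ᗮ := by
    have h3 : q - o = (p - o) - (p - q) := by abel
    rw [h3]
    exact Submodule.sub_mem _ hpo hpq
  -- `l ≠ 0`
  have hl : l ≠ 0 := by
    intro hl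
    have hnd : ND r X 1 q p := nd_of_PP hf.tf1 hd.2
    refine hZ0 ((h.nd_iff h1).1 hnd Z fun Z' => ?_)
    unfold TotFoc.hs
    have h3 : (1 : ℝ) • p - q = (p - o) - (q - o) := by rw [one_smul]; abel
    rw [h3, inner_sub_left, sph_hess h h2 hs Z Z', hZ Z', hl]
    ring
  set u : E := (q - o) + l • (p - o) with hu
  have hup : u ∈ (tan X p)ᗮ := Submodule.add_mem _ hqo (Submodule.smul_mem _ _ hpo)
  have hcr : Crit X 0 u p := by
    refine ⟨hpX, ?_⟩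
    rw [zero_smul, zero_sub]
    exact Submodule.neg_mem _ hup
  have hker : ∀ Z' : T, TotFoc.hs T g 0 ((0 : ℝ) • p - u) Z Z' = 0 := by
    intro Z'
    unfold TotFoc.hs
    rw [zero_smul, zero_sub, inner_neg_left, hu, inner_add_left, inner_smul_left,
      sph_hess h h2 hs Z Z', hZ Z']
    simp
  have hnd : ¬ ND r X 0 u p := fun hnd => hZ0 ((h.nd_iff h1).1 hnd Z hker)
  obtain ⟨gS, hgS⟩ := hb X hX hf 0 u p T g hcr hnd h
  obtain ⟨hS1, hS2⟩ := tfs hr hX hf (hb X hX hf) hcr hnd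
  set S : Set E := CrS X 0 u with hS
  have hSX : S ⊆ X := fun x hx => hx.1
  have hSph : Sph S o := fun x hx => LeafSph_orth hSX (hs x (hSX hx))
  have huS : u ∈ Lx S := by
    rw [LeafSph_mem_Lx]
    intro x hx
    have h3 : (0 : ℝ) • x - u ∈ (tan X x)ᗮ := hx.2
    rw [zero_smul, zero_sub] at h3
    exact LeafSph_orth hSX (by simpa using Submodule.neg_mem _ h3)
  have huX : u ∉ Lx X := by
    intro h3
    have h4 : l • (p - o) + (1 : ℝ) • (q - o) ∈ Lx X := by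
      rw [one_smul, add_comm]; exact h3
    exact hl (hi l 1 h4).1
  have hlt : Lx X < Lx S := by
    refine lt_of_le_of_ne ?_ ?_
    · intro v hv
      rw [LeafSph_mem_Lx] at hv ⊢
      exact fun x hx => LeafSph_orth hSX (hv x (hSX hx))
    · intro h3
      rw [h3] at huX
      exact huX huS
  have hth : TH S := ih S hS1 hS2 hSph hlt
  obtain ⟨h3, h4⟩ := leaf_sph hr hs hd hl (S := S) rfl hS1 hS2.tf1 hth
  have hZS : (Z : E) ∈ tan S p := by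
    rw [hgS.tan_eq h1]
    exact ⟨Z.2, hker⟩
  refine ⟨h3 hZS, ?_⟩
  rw [h4] at hZS
  exact LeafSph_tan hSX q hZS

theorem leaf_sph_all (hr : ∞ ≤ r) (hb : BottAll r E) (hX : IsSub r X) (hf : TFx r X) {o : E}
    (hs : Sph X o) (ih : ∀ S : Set E, IsSub r S → TFx r S → Sph S o → Lx X < Lx S → TH S)
    {p q : E} (hd : Dn X p q)
    (hi : ∀ α β : ℝ, α • (p - o) + β • (q - o) ∈ Lx X → α = 0 ∧ β = 0) :
    tan X p ≤ Submodule.span ℝ (LeafDir X p q) ∧ tan X p ≤ tan X q := by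
  have h2 : 2 ≤ r := le_trans (show ((2 : ℕ∞) : ℕ∞ω) ≤ ((⊤ : ℕ∞) : ℕ∞ω) from
    WithTop.coe_le_coe.2 le_top) hr
  have h1 : 1 ≤ r := Hess_one_le h2
  obtain ⟨T, g, h, -⟩ := hX.2 p hd.1.1
  rw [h.tan_eq h1]
  have hg : ContDiffAt ℝ 2 g 0 := h.smooth.of_le h2
  have hspan := eig_span (V := T) (fun Z Z' => ⟪q - o, D2 g 0 Z Z'⟫)
    (fun x y z => by
      show ⟪q - o, D2 g 0 (x + y) z⟫ = _
      rw [map_add, _root_.add_apply, inner_add_right])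
    (fun k x z => by
      show ⟪q - o, D2 g 0 (k • x) z⟫ = _
      rw [map_smul, _root_.smul_apply, inner_smul_right])
    (fun x y => by
      show ⟪q - o, D2 g 0 x y⟫ = ⟪q - o, D2 g 0 y x⟫
      rw [D2_symm hg])
  have hle : ∀ M : Submodule ℝ E, (∀ Z : T, (∃ l : ℝ, ∀ Z' : T,
      ⟪q - o, D2 g 0 Z Z'⟫ = l * ⟪(Z : E), (Z' : E)⟫) → (Z : E) ∈ M) → T ≤ M := by
    intro M hM
    have h3 : Submodule.span ℝ {Z : T | ∃ l : ℝ, ∀ Z', ⟪q - o, D2 g 0 Z Z'⟫ = l * ⟪Z, Z'⟫} ≤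
        M.comap T.subtype := by
      rw [Submodule.span_le]
      rintro Z ⟨l, hl⟩
      exact hM Z ⟨l, hl⟩
    rw [hspan] at h3
    intro x hx
    exact h3 (Submodule.mem_top (x := (⟨x, hx⟩ : T)))
  constructor
  · apply hle
    rintro Z ⟨l, hl⟩
    by_cases hZ0 : Z = 0
    · rw [hZ0]; exact Submodule.zero_mem _
    · exact (LeafSph_one hr hb hX hf hs ih hd hi h h2 Z l hl hZ0).1
  · apply hle
    rintro Z ⟨l, hl⟩
    by_cases hZ0 : Z = 0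
    · rw [hZ0]; exact Submodule.zero_mem _
    · exact (LeafSph_one hr hb hX hf hs ih hd hi h h2 Z l hl hZ0).2

end TotFoc
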