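import Pool.Agent.H49.TF.CompPX

/-!
# LIT: tangent spaces when the partner is an affine function of the point

Let `κ` be from `kappa_PP` for `(p, q)`. For `s ∈ X` near `p` the point `(s, κ s)` is in `PX X` and near `(p, q)` (`κ` is continuous at `p`), so it is in the component (`comp_nhds`) and `(κ s - o) - μ • (s - o) ∈ Lx X`. Let `v` be the velocity of a curve `γ` in
`X` with `γ 0 = p`. The curve `κ (γ t) - o - μ • (γ t - o)` is in `Lx X` for small `t`, so its velocity `Dκ(p) v - μ • v` is in `Lx X` (closed subspace). It is also in `(Lx X)ᗮ`, because `v ∈ tan X p ≤ (Lx X)ᗮ` and `Dκ(p) v ∈ tan X q ≤ (Lx X)ᗮ`. So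
`μ • v = Dκ(p) v ∈ tan X q`, `v ∈ tan X q`.
-/

set_option autoImplicit false

open scoped Topology ContDiff RealInnerProductSpace
open Filter Set

namespace TotFoc

variable {E : Type*} [NormedAddCommGroup E] [InnerProductSpace ℝ E] [FiniteDimensional ℝ E]
  {r : ℕ∞ω} {X : Set E}

theorem LinTan_deriv_mem {L : Submodule ℝ E} {c : ℝ → E} {w : E} (hd : HasDerivAt c w 0)
    (hc : ∀ᶠ t in 𝓝 (0 : ℝ), c t ∈ L) : w ∈ L := by
  rw [← Submodule.orthogonal_orthogonal L, Submodule.mem_orthogonal]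
  intro u hu
  have h1 : HasDerivAt (fun t => (innerSL ℝ u) (c t)) ((innerSL ℝ u) w) 0 :=
    (innerSL ℝ u).hasFDerivAt.comp_hasDerivAt (0 : ℝ) hd
  have h2 : (fun t => (innerSL ℝ u) (c t)) =ᶠ[𝓝 (0 : ℝ)] fun _ => (0 : ℝ) := by
    filter_upwards [hc] with t ht
    exact Submodule.inner_left_of_mem_orthogonal ht hu
  have h3 := h1.unique ((hasDerivAt_const (0 : ℝ) (0 : ℝ)).congr_of_eventuallyEq h2)
  exact h3

theorem lin_tan (hr : ∞ ≤ r) (h : IsSub r X) (h1 : TF1 r X) {p q : E} (hpq : PP X p q) {μ : ℝ}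
    (hμ : μ ≠ 0) {o : E} (hl : ∀ w ∈ connectedComponentIn (PX X) (p, q),
      (w.2 - o) - μ • (w.1 - o) ∈ Lx X) : tan X p ≤ tan X q := by
  obtain ⟨κ, k1, k2, k3, -⟩ := kappa_PP hr h h1 hpq
  have hL : ∀ x ∈ X, Lx X ≤ (tan X x)ᗮ := fun x hx => iInf₂_le x hx
  have hcomp : ∀ᶠ s in 𝓝 p, s ∈ X → (κ s - o) - μ • (s - o) ∈ Lx X := by
    have hc : Tendsto (fun s => (s, κ s)) (𝓝 p) (𝓝 (p, q)) := by
      have := (continuousAt_id.prodMk k1).tendsto
      simpa [k2] using this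
    filter_upwards [hc.eventually (comp_nhds hr h h1 (z := (p, q)) hpq), k3] with s hs h3 hsX
    exact hl (s, κ s) (hs (h3.2.1 hsX))
  have key : ∀ v ∈ {v | ∃ γ : ℝ → E, γ 0 = p ∧ HasDerivAt γ v 0 ∧
      ∀ᶠ t in 𝓝 (0 : ℝ), γ t ∈ X}, v ∈ tan X q := by
    rintro v ⟨γ, g0, gv, gX⟩
    have hγ : Tendsto γ (𝓝 0) (𝓝 p) := by
      have := gv.continuousAt.tendsto
      rwa [g0] at this
    have hκ : HasFDerivAt κ (fderiv ℝ κ p) (γ 0) := by
      rw [g0]
      exact k3.self_of_nhds.1.hasFDerivAt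
    have hd : HasDerivAt (fun t => (κ (γ t) - o) - μ • (γ t - o)) (fderiv ℝ κ p v - μ • v) 0 := by
      have d1 : HasDerivAt (fun t => κ (γ t)) (fderiv ℝ κ p v) 0 :=
        hκ.comp_hasDerivAt (0 : ℝ) gv
      exact (d1.sub_const o).sub ((gv.sub_const o).const_smul μ)
    have hmem : fderiv ℝ κ p v - μ • v ∈ Lx X := by
      refine LinTan_deriv_mem hd ?_
      filter_upwards [hγ.eventually hcomp, gX] with t ht1 ht2
      exact ht1 ht2
    have hv : v ∈ tan X p := Submodule.subset_span ⟨γ, g0, gv, gX⟩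
    have hq : fderiv ℝ κ p v ∈ tan X q := by
      have := k3.self_of_nhds.2.2 v
      rwa [k2] at this
    have h2 : ⟪fderiv ℝ κ p v - μ • v, fderiv ℝ κ p v - μ • v⟫ = 0 := by
      rw [inner_sub_right, inner_smul_right,
        Submodule.inner_left_of_mem_orthogonal hq (hL q hpq.2.1 hmem),
        Submodule.inner_left_of_mem_orthogonal hv (hL p hpq.1 hmem), mul_zero, sub_zero]
    have h3 : fderiv ℝ κ p v = μ • v := sub_eq_zero.1 (inner_self_eq_zero.1 h2)
    rw [h3] at hq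
    have h4 := (tan X q).smul_mem μ⁻¹ hq
    rwa [smul_smul, inv_mul_cancel₀ hμ, one_smul] at h4
  exact Submodule.span_le.2 key

end TotFoc
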