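import Pool.Agent.H49.TF.Tan

/-!
# NEA: points near the centre of a chart

Write `φ = gr p T g`, `Pr = T.orthogonalProjectionOnto`. For `y` near `0` (neighbourhood on which `g` is `C^1`, `mem` and `surj` hold: `Filter.Eventually.eventually_nhds`, continuity of `φ` at `0`,
`φ 0 = p`): `x = φ y` is a point of `X` near which `X = φ(neighbourhood of y)`.
`near_tan`: `⊇`: the curve `t ↦ φ (y + t • Z)` has velocity `Z + Dg(y) Z` and lies in `X`. `⊆`: for a curve `γ` in `X` with `γ 0 = x`: `γ t = φ (Pr (γ t - p))` for small `t` (`surj` near `x`;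
`x` is near `p`), `Pr (x - p) = y` (`proj_gr`), so the velocity is `v = Dφ(y) (Pr v)`.
`near_chart`: for `y` near `0` and a chart `(T', g')` at `x = φ y`, put `χ z = T'.orthogonalProjectionOnto (φ z - x)`; `χ y = 0`; for `z` near `y`, `φ z ∈ X` is near `x`, so
`φ z = gr x T' g' (χ z)` (`surj` of the chart at `x`). `Dχ(y) Z = T'.orthogonalProjectionOnto (Dφ(y) Z)`, and `Dφ(y) Z ∈ tan X x = T'`.
-/

set_option autoImplicit false

open scoped Topology ContDiff RealInnerProductSpace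
open Filter Set

namespace TotFoc

variable {E : Type*} [NormedAddCommGroup E] [InnerProductSpace ℝ E] [FiniteDimensional ℝ E]
  {r : ℕ∞ω} {X : Set E} {p : E} {T : Submodule ℝ E} {g : T → E}

theorem Chart.near_cont (h : Chart r X p T g) {n : ℕ} (hn : (n : ℕ∞ω) ≤ r) :
    ∀ᶠ y in 𝓝 (0 : T), ContDiffAt ℝ n g y ∧ ContDiffAt ℝ n (gr p T g) y := by
  have h1 : ContDiffAt ℝ n g 0 := h.smooth.of_le hn
  have h2 : ∀ᶠ y in 𝓝 (0 : T), ContDiffAt ℝ n g y := h1.eventually (by
    intro hcon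
    have h3 : ((n : ℕ∞) : ℕ∞ω) = ((⊤ : ℕ∞) : ℕ∞ω) := hcon
    have h4 : (n : ℕ∞) = ⊤ := by exact_mod_cast h3
    exact ENat.natCast_ne_top n h4)
  filter_upwards [h2] with y hy
  refine ⟨hy, ?_⟩
  have h3 : gr p T g = fun y : T => p + T.subtypeL y + g y := rfl
  rw [h3]
  exact (contDiffAt_const.add T.subtypeL.contDiff.contDiffAt).add hy

theorem Chart.near_mem (h : Chart r X p T g) : ∀ᶠ y in 𝓝 (0 : T), gr p T g y ∈ X ∧
    ∀ᶠ z in 𝓝 y, gr p T g z ∈ X := by
  filter_upwards [h.mem.eventually_nhds] with y hy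
  exact ⟨hy.self_of_nhds, hy⟩

theorem Chart.tendsto_gr (h : Chart r X p T g) : Tendsto (gr p T g) (𝓝 0) (𝓝 p) := by
  have h1 : ContinuousAt (gr p T g) 0 := h.contDiffAt_gr.continuousAt
  have h2 := h1.tendsto
  rwa [h.gr_zero] at h2

/-- transfer of a property of the points of `X` near `p` -/
theorem Chart.eventually_iff (h : Chart r X p T g) (P : E → Prop) :
    (∀ᶠ x in 𝓝 p, x ∈ X → P x) ↔ ∀ᶠ y in 𝓝 (0 : T), P (gr p T g y) := by
  constructor
  · intro hP
    filter_upwards [h.tendsto_gr.eventually hP, h.mem] with y h1 h2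
    exact h1 h2
  · intro hP
    have hc : Tendsto (fun x : E => T.orthogonalProjectionOnto (x - p)) (𝓝 p) (𝓝 0) := by
      have h1 : ContinuousAt (fun x : E => T.orthogonalProjectionOnto (x - p)) p := by fun_prop
      have h2 := h1.tendsto
      rwa [sub_self, map_zero] at h2
    filter_upwards [hc.eventually hP, h.surj] with x h1 h2 hx
    rw [h2 hx] at h1
    exact h1

/-- the chart is onto near the points of the chart -/
theorem Near_surj (h : Chart r X p T g) : ∀ᶠ y in 𝓝 (0 : T), ∀ᶠ x in 𝓝 (gr p T g y), x ∈ X →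
    gr p T g (T.orthogonalProjectionOnto (x - p)) = x :=
  h.tendsto_gr.eventually h.surj.eventually_nhds

theorem Near_inj (hp : ∀ y, g y ∈ Tᗮ) (y Z : T) (hZ : (Z : E) + fderiv ℝ g y Z = 0) : Z = 0 := by
  have h1 : fderiv ℝ g y Z ∈ Tᗮ := fderiv_mem_orth hp y Z
  have h2 : (Z : E) = -fderiv ℝ g y Z := eq_neg_of_add_eq_zero_left hZ
  have h3 : (Z : E) ∈ Tᗮ := by rw [h2]; exact Tᗮ.neg_mem h1
  have h4 : ⟪(Z : E), (Z : E)⟫ = 0 := (Submodule.mem_orthogonal T (Z : E)).1 h3 Z Z.2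
  have h5 : (Z : E) = 0 := inner_self_eq_zero.1 h4
  exact Subtype.ext h5

theorem Chart.near_tan (h : Chart r X p T g) (h1 : 1 ≤ r) : ∀ᶠ y in 𝓝 (0 : T), ∀ v : E,
    v ∈ tan X (gr p T g y) ↔ ∃ Z : T, v = Z + fderiv ℝ g y Z := by
  have hc := h.near_cont (n := 1) (by exact_mod_cast h1)
  filter_upwards [hc, h.near_mem, Near_surj h] with y ⟨hg, hgr⟩ ⟨hm1, hm2⟩ hs v
  have hd : DifferentiableAt ℝ g y := hg.differentiableAt (by norm_num)
  have hD : HasFDerivAt (gr p T g) (T.subtypeL + fderiv ℝ g y) y := hasFDerivAt_gr hd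
  constructor
  · intro hv
    have hle : tan X (gr p T g y) ≤ LinearMap.range (T.subtypeL + fderiv ℝ g y : T →L[ℝ] E).toLinearMap := by
      unfold tan
      rw [Submodule.span_le]
      rintro w ⟨γ, h0, hw, hγ⟩
      have hcont : Tendsto γ (𝓝 0) (𝓝 (gr p T g y)) := by
        rw [← h0]; exact hw.continuousAt.tendsto
      have hev : ∀ᶠ t in 𝓝 (0 : ℝ), γ t = gr p T g (T.orthogonalProjectionOnto (γ t - p)) := by
        filter_upwards [hcont.eventually hs, hγ] with t e1 e2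
        exact (e1 e2).symm
      have hPr : HasDerivAt (fun t : ℝ => T.orthogonalProjectionOnto (γ t - p))
          (T.orthogonalProjectionOnto w) 0 :=
        (T.orthogonalProjectionOnto).hasFDerivAt.comp_hasDerivAt (0 : ℝ) (hw.sub_const p)
      have hy0 : T.orthogonalProjectionOnto (γ 0 - p) = y := by
        rw [h0]; exact proj_gr h.perp y
      have hD' : HasFDerivAt (gr p T g) (T.subtypeL + fderiv ℝ g y)
          (T.orthogonalProjectionOnto (γ 0 - p)) := by rw [hy0]; exact hD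
      have hcomp : HasDerivAt (fun t : ℝ => gr p T g (T.orthogonalProjectionOnto (γ t - p)))
          ((T.subtypeL + fderiv ℝ g y) (T.orthogonalProjectionOnto w)) 0 :=
        HasFDerivAt.comp_hasDerivAt (l := gr p T g)
          (f := fun t : ℝ => T.orthogonalProjectionOnto (γ t - p)) (0 : ℝ) hD' hPr
      have hw2 : HasDerivAt γ ((T.subtypeL + fderiv ℝ g y) (T.orthogonalProjectionOnto w)) 0 :=
        hcomp.congr_of_eventuallyEq hev
      exact ⟨T.orthogonalProjectionOnto w, hw2.unique hw⟩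
    obtain ⟨Z, hZ⟩ := hle hv
    exact ⟨Z, hZ.symm⟩
  · rintro ⟨Z, rfl⟩
    apply Submodule.subset_span
    have hl : HasDerivAt (fun t : ℝ => y + t • Z) Z 0 := by
      simpa using ((hasDerivAt_id (0 : ℝ)).smul_const Z).const_add y
    have hD' : HasFDerivAt (gr p T g) (T.subtypeL + fderiv ℝ g y) (y + (0 : ℝ) • Z) := by
      rw [zero_smul, add_zero]; exact hD
    refine ⟨fun t => gr p T g (y + t • Z), by simp, ?_, ?_⟩
    · exact hD'.comp_hasDerivAt (0 : ℝ) hl
    · have hcont : Tendsto (fun t : ℝ => y + t • Z) (𝓝 0) (𝓝 y) := by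
        have := hl.continuousAt.tendsto
        rwa [zero_smul, add_zero] at this
      exact hcont.eventually hm2

theorem Chart.near_orth (h : Chart r X p T g) (h1 : 1 ≤ r) : ∀ᶠ y in 𝓝 (0 : T), ∀ v : E,
    v ∈ (tan X (gr p T g y))ᗮ ↔ ∀ Z : T, ⟪v, (Z : E) + fderiv ℝ g y Z⟫ = 0 := by
  filter_upwards [h.near_tan h1] with y hy v
  rw [Submodule.mem_orthogonal']
  constructor
  · intro hv Z
    exact hv _ ((hy _).2 ⟨Z, rfl⟩)
  · intro hv u hu
    obtain ⟨Z, rfl⟩ := (hy u).1 hu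
    exact hv Z

theorem Chart.near_finrank (h : Chart r X p T g) (h1 : 1 ≤ r) :
    ∀ᶠ x in 𝓝 p, x ∈ X → Module.finrank ℝ (tan X x) = Module.finrank ℝ T := by
  rw [h.eventually_iff]
  filter_upwards [h.near_tan h1] with y hy
  have heq : tan X (gr p T g y) =
      LinearMap.range (T.subtypeL + fderiv ℝ g y : T →L[ℝ] E).toLinearMap := by
    ext v
    rw [hy v]
    constructor
    · rintro ⟨Z, rfl⟩; exact ⟨Z, rfl⟩
    · rintro ⟨Z, hZ⟩; exact ⟨Z, hZ.symm⟩
  rw [heq]
  apply LinearMap.finrank_range_of_inj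
  rw [← LinearMap.ker_eq_bot, LinearMap.ker_eq_bot']
  intro Z hZ
  exact Near_inj h.perp y Z hZ

theorem Chart.near_chart (h : Chart r X p T g) (h1 : 1 ≤ r) : ∀ᶠ y in 𝓝 (0 : T),
    ∀ (T' : Submodule ℝ E) (g' : T' → E), Chart r X (gr p T g y) T' g' →
      (∀ Z : T, (Z : E) + fderiv ℝ g y Z ∈ T') ∧
      (∀ v ∈ T', ∃ Z : T, v = Z + fderiv ℝ g y Z) ∧
      (∀ Z : T, (Z : E) + fderiv ℝ g y Z = 0 → Z = 0) ∧
      (∀ᶠ z in 𝓝 y, gr p T g z = gr (gr p T g y) T' g'
        (T'.orthogonalProjectionOnto (gr p T g z - gr p T g y))) := by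
  have hc := h.near_cont (n := 1) (by exact_mod_cast h1)
  filter_upwards [h.near_tan h1, h.near_mem, hc] with y hy hm hcy T' g' h'
  have hT : tan X (gr p T g y) = T' := h'.tan_eq h1
  rw [hT] at hy
  refine ⟨fun Z => (hy _).2 ⟨Z, rfl⟩, fun v hv => (hy v).1 hv, Near_inj h.perp y, ?_⟩
  have hcont : Tendsto (gr p T g) (𝓝 y) (𝓝 (gr p T g y)) := hcy.2.continuousAt
  filter_upwards [hcont.eventually h'.surj, hm.2] with z e1 e2
  exact (e1 e2).symm

end TotFoc
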