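import Pool.Agent.H49.TF.NullB
import Pool.Agent.H49.TF.Hyps

/-!
# NUU: the image of the degenerate points without third derivative is null

`hyp_null` with `G = V × W` (dimension `dim V + dim W`), `b` from `exists_b`, `f x = L (grad u x, x.2)`. `f` is `C^1` near `x₁`
(`ContDiffAt.fderiv`). For `x ∈ B` near `x₁`: `b x = 0`, `ξ = (ê, 0)`: `fderiv b x ξ = D3 ê ê ê = 0`, and the derivative of
`(grad u x, x.2)` in the direction `(ê, 0)` is `(H^♯ x ê, 0) = 0` as `ê ∈ kr u x`.
-/

set_option autoImplicit false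

open scoped Topology ContDiff RealInnerProductSpace
open Filter Set MeasureTheory

namespace TotFoc

variable {V W : Type*} [NormedAddCommGroup V] [InnerProductSpace ℝ V] [FiniteDimensional ℝ V]
  [NormedAddCommGroup W] [InnerProductSpace ℝ W] [FiniteDimensional ℝ W]
  {F : Type*} [NormedAddCommGroup F] [NormedSpace ℝ F] [FiniteDimensional ℝ F] [MeasurableSpace F]
  [BorelSpace F]

/-- gradient in the first variable -/
noncomputable def gradV (u : V × W → ℝ) (x : V × W) : V :=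
  (InnerProductSpace.toDual ℝ V).symm (fderiv ℝ (fun y => u (y, x.2)) x.1)

/-- the inverse of the Riesz map as a linear map -/
noncomputable def NullU_A (V : Type*) [NormedAddCommGroup V] [InnerProductSpace ℝ V]
    [FiniteDimensional ℝ V] : (V →L[ℝ] ℝ) →L[ℝ] V :=
  LinearMap.toContinuousLinearMap
    { toFun := fun φ => (InnerProductSpace.toDual ℝ V).symm φ
      map_add' := fun x y => map_add _ x y
      map_smul' := fun c x => by simp }

theorem NullU_A_apply (φ : V →L[ℝ] ℝ) :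
    NullU_A V φ = (InnerProductSpace.toDual ℝ V).symm φ := rfl

/-- the gradient in the first variable as a function of the full derivative -/
noncomputable def NullU_T (V W : Type*) [NormedAddCommGroup V] [InnerProductSpace ℝ V]
    [FiniteDimensional ℝ V] [NormedAddCommGroup W] [InnerProductSpace ℝ W] :
    (V × W →L[ℝ] ℝ) →L[ℝ] V :=
  (NullU_A V).comp ((ContinuousLinearMap.compL ℝ V (V × W) ℝ).flip
    (ContinuousLinearMap.inl ℝ V W))

omit [FiniteDimensional ℝ W] in
theorem NullU_T_apply (φ : V × W →L[ℝ] ℝ) :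
    NullU_T V W φ = NullU_A V (φ.comp (ContinuousLinearMap.inl ℝ V W)) := rfl

omit [FiniteDimensional ℝ W] in
theorem NullU_T_contDiff : ContDiff ℝ 1 (fun φ : V × W →L[ℝ] ℝ => NullU_T V W φ) :=
  ContinuousLinearMap.contDiff (𝕜 := ℝ) (E := V × W →L[ℝ] ℝ) (F := V) (NullU_T V W)

omit [FiniteDimensional ℝ W] in
theorem NullU_T_has (φ : V × W →L[ℝ] ℝ) :
    HasFDerivAt (fun φ : V × W →L[ℝ] ℝ => NullU_T V W φ) (NullU_T V W) φ :=
  (NullU_T V W).hasFDerivAt

omit [FiniteDimensional ℝ W] in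
theorem NullU_T_D2 {u : V × W → ℝ} {x : V × W} (h2 : HasFDerivAt (fderiv ℝ u) (D2 u x) x) :
    HasFDerivAt (fun x => NullU_T V W (fderiv ℝ u x)) ((NullU_T V W).comp (D2 u x)) x := by
  have h := HasFDerivAt.comp (𝕜 := ℝ) (E := V × W) (F := V × W →L[ℝ] ℝ) (G := V)
    (g := fun φ : V × W →L[ℝ] ℝ => NullU_T V W φ) (f := fderiv ℝ u) x (NullU_T_has _) h2
  exact h

omit [FiniteDimensional ℝ W] in
theorem NullU_grad {u : V × W → ℝ} {x : V × W} (hu : DifferentiableAt ℝ u x) :
    gradV u x = NullU_T V W (fderiv ℝ u x) := by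
  have h : fderiv ℝ (fun y => u (y, x.2)) x.1 =
      (fderiv ℝ u x).comp (ContinuousLinearMap.inl ℝ V W) := by
    have hd : HasFDerivAt u (fderiv ℝ u x) (x.1, x.2) := hu.hasFDerivAt
    exact (HasFDerivAt.comp x.1 (f := fun z : V => ((z, x.2) : V × W)) hd
      (NullB_slice x.1 x.2)).fderiv
  rw [NullU_T_apply, ← h]
  rfl

theorem null_bad (μ : Measure F) [μ.IsAddHaarMeasure]
    (hdim : Module.finrank ℝ F + 1 = Module.finrank ℝ V + Module.finrank ℝ W) {u : V × W → ℝ}
    {x₁ : V × W} (hu : ContDiffAt ℝ 4 u x₁) {e₁ : V} (he : e₁ ∈ kr u x₁) {ρ : W}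
    (hρ : fderiv ℝ (fun w => D2 (fun y => u (y, w)) x₁.1 e₁ e₁) x₁.2 ρ ≠ 0)
    (L : V × W →L[ℝ] F) :
    ∃ O ∈ 𝓝 x₁, μ ((fun x : V × W => L (gradV u x, x.2)) ''
      ({x | Module.finrank ℝ (kr u x) = Module.finrank ℝ (kr u x₁) ∧
        ∀ e ∈ kr u x, D3 (fun y => u (y, x.2)) x.1 e e e = 0} ∩ O)) = 0 := by
  obtain ⟨b, hb, hb', hbev⟩ := exists_b hu he hρ
  have hue : ∀ᶠ x in 𝓝 x₁, ContDiffAt ℝ 4 u x := hu.eventually (by norm_num)
  -- the map in terms of the full derivative
  have hcong : ∀ x, (∀ᶠ z in 𝓝 x, ContDiffAt ℝ 4 u z) →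
      (fun x : V × W => L (gradV u x, x.2)) =ᶠ[𝓝 x]
        fun x => L (NullU_T V W (fderiv ℝ u x), x.2) := by
    intro x hx
    filter_upwards [hx] with z hz
    simp only [NullU_grad (hz.differentiableAt (by norm_num))]
  have hf : ContDiffAt ℝ 1 (fun x : V × W => L (gradV u x, x.2)) x₁ := by
    refine ContDiffAt.congr_of_eventuallyEq ?_ (hcong x₁ hue)
    have h1 : ContDiffAt ℝ 1 (fderiv ℝ u) x₁ :=
      contDiffAt_D1 (m := 1) (hu.of_le (m := 2) (by norm_num)) (by norm_num)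
    have h2 : ContDiffAt ℝ 1 (fun x => NullU_T V W (fderiv ℝ u x)) x₁ :=
      ContDiffAt.comp (g := fun φ : V × W →L[ℝ] ℝ => NullU_T V W φ) x₁
        NullU_T_contDiff.contDiffAt h1
    have h3 : ContDiffAt ℝ 1 (fun x : V × W => (NullU_T V W (fderiv ℝ u x), x.2)) x₁ :=
      h2.prodMk contDiffAt_snd
    exact L.contDiff.contDiffAt.comp x₁ h3
  refine hyp_null μ (G := V × W) (by rw [Module.finrank_prod]; exact hdim) hb hf hb' ?_
  filter_upwards [hbev, hue.eventually_nhds] with x hx1 hx2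
  rintro ⟨hd, h3⟩
  obtain ⟨hb0, e, hne, hek, hbd⟩ := hx1 hd
  refine ⟨hb0, (e, 0), ?_, ?_, ?_⟩
  · intro h0
    exact hne (congrArg Prod.fst h0)
  · rw [hbd, h3 e hek]
  · have hux : ContDiffAt ℝ 4 u x := hx2.self_of_nhds
    rw [(hcong x hx2).fderiv_eq]
    have h2 : HasFDerivAt (fderiv ℝ u) (D2 u x) x :=
      ((contDiffAt_D1 (m := 1) (hux.of_le (m := 2) (by norm_num))
        (by norm_num)).differentiableAt (by norm_num)).hasFDerivAt
    have h32 : HasFDerivAt (fun x : V × W => (NullU_T V W (fderiv ℝ u x), x.2))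
        (((NullU_T V W).comp (D2 u x)).prod (ContinuousLinearMap.snd ℝ V W)) x :=
      (NullU_T_D2 h2).prodMk hasFDerivAt_snd
    have h4 : HasFDerivAt (fun x : V × W => L (NullU_T V W (fderiv ℝ u x), x.2))
        (L.comp (((NullU_T V W).comp (D2 u x)).prod (ContinuousLinearMap.snd ℝ V W))) x :=
      HasFDerivAt.comp (g := fun z : V × W => L z)
        (f := fun x : V × W => (NullU_T V W (fderiv ℝ u x), x.2)) x L.hasFDerivAt h32
    rw [h4.fderiv]
    have h5 : (D2 u x (e, 0)).comp (ContinuousLinearMap.inl ℝ V W) = 0 := by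
      ext z
      have h6 := (mem_kr.1 hek) z
      rw [NullB_D2_at (hux.of_le (by norm_num))] at h6
      exact h6
    simp only [ContinuousLinearMap.comp_apply, ContinuousLinearMap.prod_apply, NullU_T_apply, h5,
      map_zero, ContinuousLinearMap.coe_snd']
    exact map_zero L

end TotFoc
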