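import Pool.Agent.H49.TF.KerNear
import Pool.Agent.H49.TF.CritNear
import Pool.Agent.H49.TF.Min3
import Pool.Agent.H49.TF.NullU

/-!
# NFA: locally the degenerate nearest points have a null set of centres in every hyperplane projection

Let `z = (x₁, a₁) ∈ NK r X k`, `(T, g)` the chart at `x₁`, `φ = gr x₁ T g`, `w₁ = a₁ - x₁ ∈ Tᗮ` (`nearest`). Put `U : T × Tᗮ → ℝ`, `U (y, w) = ‖y‖² / 2 + ‖g y‖² / 2 - ⟪w, g y⟫`. For `α ∈ T`, `w ∈ Tᗮ`: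
`fn 1 (x₁ + α + w) (φ y) = U (y, w) - ⟪α, y⟫ + const` (as `⟪α, g y⟫ = 0 = ⟪w, y⟫ = ⟪y, g y⟫`; `const` does not depend on `y`). (*)
`U` is `C^4` at `(0, w₁)`. `kr U (0, w₁)` is the kernel of `D2 (fn 1 a₁ ∘ φ) 0 = hs T g 1 (1 • x₁ - a₁)` (`D2_add_affine`, `Chart.hs_eq`), of dimension `k ≠ 0` (`mem_kerH`); take `e₁ ≠ 0` in it. `D2 (U (·, w)) 0 e₁ e₁ = ‖e₁‖² - ⟪w, D2 g 0 e₁ e₁⟫`
(`g 0 = 0`, `Dg(0) = 0`; this is `Chart.hs_eq` for `a = x₁ + w`). `e₁` is in the kernel at `w₁`, so `⟪w₁, D2 g 0 e₁ e₁⟫ = ‖e₁‖² ≠ 0`, and with `ρ = D2 g 0 e₁ e₁ ∈ Tᗮ` the derivative in the direction `ρ` is `-‖ρ‖² ≠ 0`.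
`null_bad` with `L' (α, w) = L (α + w)` (dimensions: `Submodule.finrank_add_finrank_orthogonal`) gives `O'`.
Let `(x, a) ∈ NK r X k` be near `z`: `y = Pr (x - x₁)` is small, `x = φ y`, `a = x₁ + α + w` with `α = Pr_T (a - x₁)`, `w = Pr_{Tᗮ} (a - x₁)` near `w₁`. `x` is nearest to `a`: `y` is a local minimum of `fn 1 a ∘ φ` (`fn 1 a x = ‖x - a‖² / 2 - ‖a‖² / 2`), so by (*)
and `min3`: `α = gradV U (y, w)`, and `D3 (U (·, w)) y e e e = 0` for `e ∈ kr U (y, w)` (`D2_add_affine`, `D3_add_affine`). `finrank (kr U (y, w)) = finrank (kerH …) = k` by `Chart.ker_near` at `y` (the chart at `x` from the definition of `NK`; `x` is critical, `nearest`).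
So `(y, w)` is in the set of `null_bad`, intersected with `O'`, and `L a = L x₁ + L' (gradV U (y, w), w)`. Translations preserve null sets.
-/

set_option autoImplicit false

open scoped Topology ContDiff RealInnerProductSpace Pointwise
open Filter Set MeasureTheory

namespace TotFoc

variable {E : Type*} [NormedAddCommGroup E] [InnerProductSpace ℝ E] [FiniteDimensional ℝ E]
  {r : ℕ∞ω} {X : Set E}
  {F : Type*} [NormedAddCommGroup F] [NormedSpace ℝ F] [FiniteDimensional ℝ F] [MeasurableSpace F]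
  [BorelSpace F]

/-- The pairs `(x, a)` such that `x` is a nearest point of `X` to `a`, of nullity `k`. -/
def NK (r : ℕ∞ω) (X : Set E) (k : ℕ) : Set (E × E) :=
  {z | z.1 ∈ X ∧ (∀ y ∈ X, ‖z.1 - z.2‖ ≤ ‖y - z.2‖) ∧ ∃ (T : Submodule ℝ E) (g : T → E),
    Chart r X z.1 T g ∧ Module.finrank ℝ (kerH T g 1 ((1 : ℝ) • z.1 - z.2)) = k}

/-- the function `U` -/
noncomputable def NfA_U (T : Submodule ℝ E) (g : T → E) (x : T × Tᗮ) : ℝ :=
  1 / 2 * ‖x.1‖ ^ 2 + 1 / 2 * ‖g x.1‖ ^ 2 - ⟪(x.2 : E), g x.1⟫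

theorem NfA_U_smooth {T : Submodule ℝ E} {g : T → E} {n : ℕ∞ω} {x : T × Tᗮ}
    (hg : ContDiffAt ℝ n g x.1) : ContDiffAt ℝ n (NfA_U T g) x := by
  have h1 : ContDiffAt ℝ n (fun x : T × Tᗮ => g x.1) x :=
    ContDiffAt.comp (g := g) (f := Prod.fst) x hg contDiffAt_fst
  have h2 : ContDiffAt ℝ n (fun x : T × Tᗮ => ‖x.1‖ ^ 2) x :=
    (contDiff_norm_sq ℝ).contDiffAt.comp x contDiffAt_fst
  have h3 : ContDiffAt ℝ n (fun x : T × Tᗮ => ‖g x.1‖ ^ 2) x :=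
    (contDiff_norm_sq ℝ).contDiffAt.comp x h1
  have h4 : ContDiffAt ℝ n (fun x : T × Tᗮ => ((x.2 : Tᗮ) : E)) x :=
    (Tᗮ.subtypeL.contDiff.contDiffAt).comp x contDiffAt_snd
  unfold NfA_U
  exact ((contDiffAt_const.mul h2).add (contDiffAt_const.mul h3)).sub (h4.inner ℝ h1)

theorem NfA_slice_smooth {T : Submodule ℝ E} {g : T → E} {n : ℕ∞ω} {y : T} {w : Tᗮ}
    (hg : ContDiffAt ℝ n g y) : ContDiffAt ℝ n (fun y => NfA_U T g (y, w)) y := by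
  have h := NfA_U_smooth (x := (y, w)) hg
  exact ContDiffAt.comp (g := NfA_U T g) (f := fun y : T => ((y, w) : T × Tᗮ)) y h
    (contDiff_id.prodMk contDiff_const).contDiffAt

/-- the key identity -/
theorem NfA_key (x₁ : E) (T : Submodule ℝ E) {g : T → E} (hp : ∀ y, g y ∈ Tᗮ) (α : T) (w : Tᗮ)
    (y : T) : fn 1 (x₁ + α + w) (gr x₁ T g y) = NfA_U T g (y, w) +
      ((-(innerSL ℝ α) : T →L[ℝ] ℝ) y + (‖(α : E)‖ ^ 2 + ‖(w : E)‖ ^ 2 - ‖x₁ + α + w‖ ^ 2) / 2) := by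
  rw [CritNear_fn]
  have e1 : gr x₁ T g y - (x₁ + α + w) = ((y - α : T) : E) + (g y - w) := by
    unfold gr
    rw [Submodule.coe_sub]
    abel
  have h1 : ⟪((y - α : T) : E), g y - w⟫ = 0 :=
    Submodule.inner_right_of_mem_orthogonal (y - α).2 (Tᗮ.sub_mem (hp y) w.2)
  have h2 : ‖gr x₁ T g y - (x₁ + α + w)‖ ^ 2 = ‖((y - α : T) : E)‖ ^ 2 + ‖g y - w‖ ^ 2 := by
    rw [e1, norm_add_sq_real, h1]
    ring
  have h3 : ‖((y - α : T) : E)‖ ^ 2 = ‖y‖ ^ 2 - 2 * ⟪α, y⟫ + ‖(α : E)‖ ^ 2 := by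
    have h4 : ‖((y - α : T) : E)‖ = ‖y - α‖ := rfl
    have h5 : ‖(α : E)‖ = ‖α‖ := rfl
    rw [h4, h5, norm_sub_sq_real, real_inner_comm]
  have h4 : ‖g y - w‖ ^ 2 = ‖g y‖ ^ 2 - 2 * ⟪(w : E), g y⟫ + ‖(w : E)‖ ^ 2 := by
    rw [norm_sub_sq_real, real_inner_comm]
  rw [h2, h3, h4]
  have h5 : (-(innerSL ℝ α) : T →L[ℝ] ℝ) y = -⟪α, y⟫ := rfl
  rw [h5]
  unfold NfA_U
  ring

theorem NfA_grad {T : Submodule ℝ E} {g : T → E} {x₁ : E} (hp : ∀ y, g y ∈ Tᗮ) (α : T) (w : Tᗮ)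
    {y : T} (hg : ContDiffAt ℝ 3 g y)
    (hd : fderiv ℝ (fun y => fn 1 (x₁ + α + w) (gr x₁ T g y)) y = 0) :
    gradV (NfA_U T g) (y, w) = α := by
  have hU := NfA_slice_smooth (w := w) hg
  have hUd : DifferentiableAt ℝ (fun y => NfA_U T g (y, w)) y := hU.differentiableAt (by norm_num)
  have h1 : HasFDerivAt (fun y => NfA_U T g (y, w) + ((-(innerSL ℝ α) : T →L[ℝ] ℝ) y +
      (‖(α : E)‖ ^ 2 + ‖(w : E)‖ ^ 2 - ‖x₁ + α + w‖ ^ 2) / 2))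
      (fderiv ℝ (fun y => NfA_U T g (y, w)) y + (-(innerSL ℝ α) : T →L[ℝ] ℝ)) y :=
    hUd.hasFDerivAt.add ((-(innerSL ℝ α) : T →L[ℝ] ℝ).hasFDerivAt.add_const _)
  have h2 : (fun y => fn 1 (x₁ + α + w) (gr x₁ T g y)) =
      fun y => NfA_U T g (y, w) + ((-(innerSL ℝ α) : T →L[ℝ] ℝ) y +
      (‖(α : E)‖ ^ 2 + ‖(w : E)‖ ^ 2 - ‖x₁ + α + w‖ ^ 2) / 2) := by
    funext y
    exact NfA_key x₁ T hp α w y
  rw [h2, h1.fderiv] at hd
  have h3 : fderiv ℝ (fun y => NfA_U T g (y, w)) y = innerSL ℝ α := by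
    have := eq_neg_of_add_eq_zero_left hd
    rwa [neg_neg] at this
  show (InnerProductSpace.toDual ℝ T).symm (fderiv ℝ (fun y => NfA_U T g (y, w)) y) = α
  rw [h3]
  have h4 : innerSL ℝ α = InnerProductSpace.toDual ℝ T α := rfl
  rw [h4, LinearIsometryEquiv.symm_apply_apply]

theorem NfA_D2 {T : Submodule ℝ E} {g : T → E} {x₁ : E} (hp : ∀ y, g y ∈ Tᗮ) (α : T) (w : Tᗮ)
    {y : T} (hg : ContDiffAt ℝ 2 g y) (a b : T) :
    D2 (fun y => fn 1 (x₁ + α + w) (gr x₁ T g y)) y a b = D2 (fun y => NfA_U T g (y, w)) y a b := by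
  have h2 : (fun y => fn 1 (x₁ + α + w) (gr x₁ T g y)) =
      fun y => NfA_U T g (y, w) + ((-(innerSL ℝ α) : T →L[ℝ] ℝ) y +
      (‖(α : E)‖ ^ 2 + ‖(w : E)‖ ^ 2 - ‖x₁ + α + w‖ ^ 2) / 2) := by
    funext y
    exact NfA_key x₁ T hp α w y
  rw [h2, D2_add_affine (NfA_slice_smooth hg)]

theorem NfA_D3 {T : Submodule ℝ E} {g : T → E} {x₁ : E} (hp : ∀ y, g y ∈ Tᗮ) (α : T) (w : Tᗮ)
    {y : T} (hg : ContDiffAt ℝ 3 g y) (a b c : T) :
    D3 (fun y => fn 1 (x₁ + α + w) (gr x₁ T g y)) y a b c =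
      D3 (fun y => NfA_U T g (y, w)) y a b c := by
  have h2 : (fun y => fn 1 (x₁ + α + w) (gr x₁ T g y)) =
      fun y => NfA_U T g (y, w) + ((-(innerSL ℝ α) : T →L[ℝ] ℝ) y +
      (‖(α : E)‖ ^ 2 + ‖(w : E)‖ ^ 2 - ‖x₁ + α + w‖ ^ 2) / 2) := by
    funext y
    exact NfA_key x₁ T hp α w y
  rw [h2, D3_add_affine (NfA_slice_smooth hg)]

theorem NfA_kr {T : Submodule ℝ E} {g : T → E} {x₁ : E} (hp : ∀ y, g y ∈ Tᗮ) (α : T) (w : Tᗮ)
    {y : T} (hg : ContDiffAt ℝ 2 g y) :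
    kr (NfA_U T g) (y, w) = LinearMap.ker
      (D2 (fun y => fn 1 (x₁ + α + w) (gr x₁ T g y)) y : T →ₗ[ℝ] T →L[ℝ] ℝ) := by
  have h : D2 (fun y => fn 1 (x₁ + α + w) (gr x₁ T g y)) y = D2 (fun y => NfA_U T g (y, w)) y := by
    ext a b
    exact NfA_D2 hp α w hg a b
  rw [h]
  rfl

theorem nf_local (hr : ∞ ≤ r) (μ : Measure F) [μ.IsAddHaarMeasure]
    (hdim : Module.finrank ℝ F + 1 = Module.finrank ℝ E) (L : E →L[ℝ] F) {k : ℕ} (hk : k ≠ 0)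
    {z : E × E} (hz : z ∈ NK r X k) :
    ∃ O ∈ 𝓝 z, μ (L '' (Prod.snd '' (NK r X k ∩ O))) = 0 := by
  have hr4 : (4 : ℕ∞ω) ≤ r := le_trans (WithTop.coe_le_coe.mpr (le_top : (4 : ℕ∞) ≤ ⊤)) hr
  have hr3 : (3 : ℕ∞ω) ≤ r := le_trans (by norm_num) hr4
  have hr2 : (2 : ℕ∞ω) ≤ r := le_trans (by norm_num) hr4
  have hr1 : (1 : ℕ∞ω) ≤ r := le_trans (by norm_num) hr4
  obtain ⟨x₁, a₁⟩ := z
  obtain ⟨hx₁, hnear, T, g, h, hfin⟩ := hz
  simp only at hx₁ hnear h hfin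
  obtain ⟨hcrit, -⟩ := nearest hx₁ h hr3 hnear
  have hp := h.perp
  -- the decomposition
  let P := T.orthogonalProjectionOnto
  let Q := Tᗮ.orthogonalProjectionOnto
  have hdec : ∀ v : E, v = (P v : E) + (Q v : E) := fun v =>
    (Submodule.starProjection_add_starProjection_orthogonal (K := T) v).symm
  have hdeca : ∀ a : E, a = x₁ + (P (a - x₁) : E) + (Q (a - x₁) : E) := by
    intro a
    have := hdec (a - x₁)
    rw [add_assoc, ← this]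
    abel
  set w₁ : Tᗮ := Q (a₁ - x₁) with hw₁
  have hmem : a₁ - x₁ ∈ Tᗮ := by
    have h1 := (h.crit_iff hr1).mp hcrit
    rw [one_smul] at h1
    have h2 := Tᗮ.neg_mem h1
    rwa [neg_sub] at h2
  have hPa₁ : P (a₁ - x₁) = 0 := Submodule.orthogonalProjectionOnto_apply_of_mem_orthogonal hmem
  have ha₁ : a₁ = x₁ + ((0 : T) : E) + w₁ := by
    have := hdeca a₁
    rwa [hPa₁] at this
  have hU4 : ContDiffAt ℝ 4 (NfA_U T g) (0, w₁) := NfA_U_smooth (x := (0, w₁)) (h.smooth.of_le hr4)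
  have hg2 : ContDiffAt ℝ 2 g 0 := h.smooth.of_le hr2
  -- the kernel at the base point
  have hker0 := (h.ker_near hr2).self_of_nhds T g (by rw [h.gr_zero]; exact h) 1 a₁
    (by rw [h.gr_zero]; exact hcrit)
  rw [h.gr_zero, hfin] at hker0
  have hkr0 : Module.finrank ℝ (kr (NfA_U T g) (0, w₁)) = k := by
    rw [NfA_kr (x₁ := x₁) hp 0 w₁ hg2, ← ha₁]
    exact hker0.symm
  have hne : kr (NfA_U T g) (0, w₁) ≠ ⊥ := by
    intro hbot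
    rw [hbot, finrank_bot] at hkr0
    exact hk hkr0.symm
  obtain ⟨e₁, he₁, he₁0⟩ := Submodule.exists_mem_ne_zero_of_ne_bot hne
  have hD2w : ∀ w : Tᗮ, D2 (fun y => NfA_U T g (y, w)) 0 e₁ e₁ =
      ⟪(e₁ : E), (e₁ : E)⟫ - ⟪(w : E), D2 g 0 e₁ e₁⟫ := by
    intro w
    rw [← NfA_D2 (x₁ := x₁) hp 0 w hg2, h.hs_eq hr2]
    unfold hs
    have : (1 : ℝ) • x₁ - (x₁ + ((0 : T) : E) + (w : E)) = -(w : E) := by
      rw [one_smul, Submodule.coe_zero, add_zero]; abel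
    rw [this, inner_neg_left, one_mul]
    ring
  have hDperp : D2 g 0 e₁ e₁ ∈ Tᗮ := D2_mem_orth hp 0 e₁ e₁
  set ρ : Tᗮ := ⟨D2 g 0 e₁ e₁, hDperp⟩ with hρdef
  have hρne : (ρ : E) ≠ 0 := by
    intro h0
    have h1 : D2 (fun y => NfA_U T g (y, w₁)) 0 e₁ e₁ = 0 := (mem_kr.mp he₁) e₁
    rw [hD2w] at h1
    have h2 : D2 g 0 e₁ e₁ = 0 := h0
    rw [h2, inner_zero_right, sub_zero] at h1
    exact he₁0 (Subtype.ext (inner_self_eq_zero.mp h1))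
  have hρ : fderiv ℝ (fun w => D2 (fun y => NfA_U T g (y, w)) (0 : T) e₁ e₁) w₁ ρ ≠ 0 := by
    have h1 : HasFDerivAt (fun w : Tᗮ => ⟪(e₁ : E), (e₁ : E)⟫ - ⟪(w : E), D2 g 0 e₁ e₁⟫)
        (-((innerSL ℝ (D2 g 0 e₁ e₁)).comp Tᗮ.subtypeL)) w₁ := by
      have h2 : HasFDerivAt (fun w : Tᗮ => ⟪(w : E), D2 g 0 e₁ e₁⟫)
          ((innerSL ℝ (D2 g 0 e₁ e₁)).comp Tᗮ.subtypeL) w₁ := by
        have h3 := ((innerSL ℝ (D2 g 0 e₁ e₁)).comp Tᗮ.subtypeL).hasFDerivAt (x := w₁)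
        refine h3.congr_of_eventuallyEq (Eventually.of_forall fun w => ?_)
        exact real_inner_comm _ _
      exact h2.const_sub _
    have h2 : (fun w => D2 (fun y => NfA_U T g (y, w)) (0 : T) e₁ e₁) =
        fun w : Tᗮ => ⟪(e₁ : E), (e₁ : E)⟫ - ⟪(w : E), D2 g 0 e₁ e₁⟫ := by
      funext w; exact hD2w w
    rw [h2, h1.fderiv]
    show -(⟪D2 g 0 e₁ e₁, (ρ : E)⟫) ≠ 0
    rw [neg_ne_zero]
    intro h3
    exact hρne (inner_self_eq_zero.mp h3)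
  have hdim' : Module.finrank ℝ F + 1 = Module.finrank ℝ T + Module.finrank ℝ Tᗮ := by
    rw [hdim, Submodule.finrank_add_finrank_orthogonal]
  let L' : T × Tᗮ →L[ℝ] F := L.comp (T.subtypeL.coprod Tᗮ.subtypeL)
  obtain ⟨O', hO', hnull⟩ := null_bad μ hdim' (u := NfA_U T g) (x₁ := (0, w₁)) hU4 he₁ hρ L'
  -- the neighbourhood
  have hΨ : ContinuousAt (fun v : E × E => ((P (v.1 - x₁), Q (v.2 - x₁)) : T × Tᗮ)) (x₁, a₁) := by
    apply Continuous.continuousAt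
    exact (P.continuous.comp (continuous_fst.sub continuous_const)).prodMk
      (Q.continuous.comp (continuous_snd.sub continuous_const))
  have hΨ0 : ((P (x₁ - x₁), Q (a₁ - x₁)) : T × Tᗮ) = (0, w₁) := by
    rw [sub_self, map_zero]
  have hpr1 : Tendsto (fun v : E × E => P (v.1 - x₁)) (𝓝 (x₁, a₁)) (𝓝 0) := by
    have h1 : Continuous (fun v : E × E => P (v.1 - x₁)) :=
      P.continuous.comp (continuous_fst.sub continuous_const)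
    have h2 := h1.tendsto (x₁, a₁)
    simpa using h2
  have hevO : ∀ᶠ v : E × E in 𝓝 (x₁, a₁), ((P (v.1 - x₁), Q (v.2 - x₁)) : T × Tᗮ) ∈ O' := by
    apply hΨ
    show O' ∈ 𝓝 ((P (x₁ - x₁), Q (a₁ - x₁)) : T × Tᗮ)
    rw [hΨ0]
    exact hO'
  have hev1 : ∀ᶠ v : E × E in 𝓝 (x₁, a₁), v.1 ∈ X → gr x₁ T g (P (v.1 - x₁)) = v.1 :=
    (continuous_fst.tendsto (x₁, a₁)).eventually h.surj
  have hev2 := hpr1.eventually (h.near_cont (n := 3) (by exact_mod_cast hr3))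
  have hev3 := hpr1.eventually h.near_mem
  have hev4 := hpr1.eventually (h.ker_near hr2)
  refine ⟨{v | ((P (v.1 - x₁), Q (v.2 - x₁)) : T × Tᗮ) ∈ O' ∧
    (v.1 ∈ X → gr x₁ T g (P (v.1 - x₁)) = v.1) ∧ ContDiffAt ℝ 3 g (P (v.1 - x₁)) ∧
    (∀ᶠ z in 𝓝 (P (v.1 - x₁)), gr x₁ T g z ∈ X) ∧
    ∀ (T' : Submodule ℝ E) (g' : T' → E), Chart r X (gr x₁ T g (P (v.1 - x₁))) T' g' →
      ∀ (c : ℝ) (a : E), Crit X c a (gr x₁ T g (P (v.1 - x₁))) →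
        Module.finrank ℝ (kerH T' g' c (c • gr x₁ T g (P (v.1 - x₁)) - a)) =
          Module.finrank ℝ (LinearMap.ker
            (D2 (fun y => fn c a (gr x₁ T g y)) (P (v.1 - x₁)) : T →ₗ[ℝ] T →L[ℝ] ℝ))}, ?_, ?_⟩
  · filter_upwards [hevO, hev1, hev2, hev3, hev4] with v h1 h2 h3 h4 h5
    exact ⟨h1, h2, h3.1, h4.2, h5⟩
  · set Bad : Set (T × Tᗮ) := {x | Module.finrank ℝ (kr (NfA_U T g) x) =
        Module.finrank ℝ (kr (NfA_U T g) (0, w₁)) ∧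
        ∀ e ∈ kr (NfA_U T g) x, D3 (fun y => NfA_U T g (y, x.2)) x.1 e e e = 0} with hBad
    have hsub : L '' (Prod.snd '' (NK r X k ∩ {v | ((P (v.1 - x₁), Q (v.2 - x₁)) : T × Tᗮ) ∈ O' ∧
        (v.1 ∈ X → gr x₁ T g (P (v.1 - x₁)) = v.1) ∧ ContDiffAt ℝ 3 g (P (v.1 - x₁)) ∧
        (∀ᶠ z in 𝓝 (P (v.1 - x₁)), gr x₁ T g z ∈ X) ∧
        ∀ (T' : Submodule ℝ E) (g' : T' → E), Chart r X (gr x₁ T g (P (v.1 - x₁))) T' g' →
          ∀ (c : ℝ) (a : E), Crit X c a (gr x₁ T g (P (v.1 - x₁))) →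
            Module.finrank ℝ (kerH T' g' c (c • gr x₁ T g (P (v.1 - x₁)) - a)) =
              Module.finrank ℝ (LinearMap.ker
                (D2 (fun y => fn c a (gr x₁ T g y)) (P (v.1 - x₁)) : T →ₗ[ℝ] T →L[ℝ] ℝ))})) ⊆
        L x₁ +ᵥ ((fun x : T × Tᗮ => L' (gradV (NfA_U T g) x, x.2)) '' (Bad ∩ O')) := by
      rintro _ ⟨a, ⟨⟨x, a'⟩, ⟨hNK, hO, hs, hg3, hm, hkn⟩, rfl⟩, rfl⟩
      obtain ⟨hxX, hxn, T', g', h', hfin'⟩ := hNK
      simp only at hO hs hg3 hm hkn hxX hxn h' hfin' ⊢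
      set y := P (x - x₁) with hy
      set α := P (a' - x₁) with hα
      set w := Q (a' - x₁) with hw
      have hgy : gr x₁ T g y = x := hs hxX
      have ha' : a' = x₁ + (α : E) + (w : E) := hdeca a'
      obtain ⟨hcr, -⟩ := nearest hxX h' hr3 hxn
      have hkn' := hkn T' g' (by rw [hgy]; exact h') 1 a' (by rw [hgy]; exact hcr)
      rw [hgy, hfin'] at hkn'
      have hfnsm : ContDiffAt ℝ 3 (fun y => fn 1 a' (gr x₁ T g y)) y := Hess_contDiffAt 1 a' hg3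
      have hmin : IsLocalMin (fun y => fn 1 a' (gr x₁ T g y)) y := by
        filter_upwards [hm] with z hz
        rw [CritNear_fn, CritNear_fn, hgy]
        have h4 := hxn _ hz
        have h5 := norm_nonneg (x - a')
        nlinarith
      obtain ⟨k1, -, k3⟩ := min3 hfnsm hmin
      rw [ha'] at k1 k3 hkn'
      have hgrad : gradV (NfA_U T g) (y, w) = α := NfA_grad hp α w hg3 k1
      have hg2y : ContDiffAt ℝ 2 g y := hg3.of_le (by norm_num)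
      refine Set.mem_vadd_set.mpr ⟨L' (gradV (NfA_U T g) (y, w), w), ⟨(y, w), ⟨⟨?_, ?_⟩, hO⟩, rfl⟩, ?_⟩
      · rw [hkr0, NfA_kr (x₁ := x₁) hp α w hg2y]
        exact hkn'.symm
      · intro e he
        rw [mem_kr] at he
        show D3 (fun y => NfA_U T g (y, w)) y e e e = 0
        rw [← NfA_D3 (x₁ := x₁) hp α w hg3]
        apply k3
        intro z'
        rw [NfA_D2 hp α w hg2y]
        exact he z'
      · rw [hgrad]
        show L x₁ + L ((α : E) + (w : E)) = L a'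
        rw [← map_add, ha', add_assoc]
    refine measure_mono_null hsub ?_
    rw [measure_vadd]
    exact hnull

end TotFoc
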