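import Pool.Agent.H49.TF.NfA

/-!
# NFB: the centres with a degenerate nearest point have a null image in every hyperplane projection

If `x ∈ X` is nearest to `a` and `¬ ND r X 1 a x`, take a chart at `x` (`h : IsSub`): `(x, a) ∈ NK r X k` with `k = finrank kerH ≠ 0` (`Chart.nd_iff_kerH`). So the set is contained in the union over `k ≥ 1` of `snd '' NK r X k`.
For fixed `k ≥ 1`: the outer measure `m s = μ (L '' (snd '' s))` on `E × E` (`OuterMeasure.comap (fun z => L z.2) μ.toOuterMeasure`, `OuterMeasure.comap_apply`) and `nf_local` say that `NK r X k` is locally null, so it is null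
(`measure_null_of_locally_null`; or a countable subcover: `TopologicalSpace.countable_cover_nhdsWithin`, `measure_iUnion_null`).
-/

set_option autoImplicit false

open scoped Topology ContDiff RealInnerProductSpace
open Filter Set MeasureTheory

namespace TotFoc

variable {E : Type*} [NormedAddCommGroup E] [InnerProductSpace ℝ E] [FiniteDimensional ℝ E]
  {r : ℕ∞ω} {X : Set E}
  {F : Type*} [NormedAddCommGroup F] [NormedSpace ℝ F] [FiniteDimensional ℝ F] [MeasurableSpace F]
  [BorelSpace F]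

theorem bad_null (hr : ∞ ≤ r) (h : IsSub r X) (μ : Measure F) [μ.IsAddHaarMeasure]
    (hdim : Module.finrank ℝ F + 1 = Module.finrank ℝ E) (L : E →L[ℝ] F) :
    μ (L '' {a | ∃ x ∈ X, (∀ y ∈ X, ‖x - a‖ ≤ ‖y - a‖) ∧ ¬ ND r X 1 a x}) = 0 := by
  have h1 : (1 : ℕ∞ω) ≤ r := le_trans (WithTop.coe_le_coe.mpr (le_top : (1 : ℕ∞) ≤ ⊤)) hr
  have hk : ∀ k : ℕ, k ≠ 0 → μ ((fun z : E × E => L z.2) '' NK r X k) = 0 := by
    intro k hk
    have h2 : OuterMeasure.comap (fun z : E × E => L z.2) μ.toOuterMeasure (NK r X k) = 0 := by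
      apply measure_null_of_locally_null
      intro z hz
      obtain ⟨O, hO, hO0⟩ := nf_local hr μ hdim L hk hz
      refine ⟨NK r X k ∩ O, Filter.inter_mem self_mem_nhdsWithin (mem_nhdsWithin_of_mem_nhds hO), ?_⟩
      rw [OuterMeasure.comap_apply, Measure.coe_toOuterMeasure]
      rw [image_image] at hO0
      exact hO0
    rw [OuterMeasure.comap_apply, Measure.coe_toOuterMeasure] at h2
    exact h2
  have hsub : L '' {a | ∃ x ∈ X, (∀ y ∈ X, ‖x - a‖ ≤ ‖y - a‖) ∧ ¬ ND r X 1 a x} ⊆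
      ⋃ k : ℕ, (fun z : E × E => L z.2) '' NK r X (k + 1) := by
    rintro _ ⟨a, ⟨x, hx, hm, hnd⟩, rfl⟩
    obtain ⟨T, g, hc, -⟩ := h.2 x hx
    have h3 : kerH T g 1 ((1 : ℝ) • x - a) ≠ ⊥ := fun hb => hnd ((hc.nd_iff_kerH h1).2 hb)
    have h4 : Module.finrank ℝ (kerH T g 1 ((1 : ℝ) • x - a)) ≠ 0 := by
      intro h5
      exact h3 (Submodule.finrank_eq_zero.1 h5)
    obtain ⟨k, hk'⟩ := Nat.exists_eq_succ_of_ne_zero h4
    exact mem_iUnion.2 ⟨k, (x, a), ⟨hx, hm, T, g, hc, hk'⟩, rfl⟩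
  apply measure_mono_null hsub
  rw [measure_iUnion_null_iff]
  intro k
  exact hk (k + 1) (Nat.succ_ne_zero k)

end TotFoc
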