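import Pool.Agent.H49.TF.Calc

/-!
# NUB: the function `b`

`u : V × W → ℝ`, `H x = D2 (u (·, x.2)) x.1`, `kr u x` its kernel. `x ↦ H x` is `C^2` at `x₁` (`ContDiffAt.fderiv` twice).
Let `K = kr u x₁`, `P : V → K ⊆ V` the orthogonal projection (`K.starProjection`), `H^♯ x : V →L[ℝ] V` the operator with
`⟪H^♯ x z, z'⟫ = H x z z'` (compose with `(InnerProductSpace.toDual ℝ V).symm`), `N x = H^♯ x + P`.
`N x₁` is injective: if `H^♯ z + P z = 0` take the product with `P z` (which is in the kernel of `H x₁`, `H` symmetric by `D2_symm`):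
`‖P z‖² = 0`, so `H^♯ z = 0`, `z ∈ K`, `z = P z = 0`. So `N x₁` is invertible and `N x` is invertible for `x` near `x₁`; `ê x = (N x)⁻¹ e₁` is `C^2` at
`x₁` (`ContinuousLinearMap.inverse`, `contDiffAt_map_inverse`, or `ContDiffAt.implicitFunction` for `N x v - e₁`), `ê x₁ = e₁`.
`b x = H x (ê x) (ê x)`.
If `x` is near `x₁` and `dim kr u x = dim K`: `P` is injective on `kr u x` (if `v ∈ kr u x`, `P v = 0` then `N x v = 0`), so by the dimensions there
is `v ∈ kr u x` with `P v = e₁`; `N x v = e₁`, so `ê x = v ∈ kr u x`, and `b x = 0`, `ê x ≠ 0` (`e₁ ≠ 0` because of `hρ`).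
Derivative at such an `x` in the direction `(ê, 0)`: `D b = (∂_y H)(ê) ê ê + 2 H x (D ê) ê = D3 (u (·, x.2)) x.1 ê ê ê`, the second term
vanishes because `ê ∈ kr u x` (`H x` is symmetric). At `x₁` in the direction `(0, ρ)` in the same way: `∂_w H(ρ) e₁ e₁ ≠ 0`.
-/

set_option autoImplicit false

open scoped Topology ContDiff RealInnerProductSpace
open Filter Set

namespace TotFoc

variable {V W : Type*} [NormedAddCommGroup V] [InnerProductSpace ℝ V] [FiniteDimensional ℝ V]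
  [NormedAddCommGroup W] [InnerProductSpace ℝ W] [FiniteDimensional ℝ W]

/-- kernel of the second derivative in the first variable -/
noncomputable def kr (u : V × W → ℝ) (x : V × W) : Submodule ℝ V :=
  LinearMap.ker (D2 (fun y => u (y, x.2)) x.1 : V →ₗ[ℝ] V →L[ℝ] ℝ)

theorem mem_kr {u : V × W → ℝ} {x : V × W} {z : V} :
    z ∈ kr u x ↔ ∀ z', D2 (fun y => u (y, x.2)) x.1 z z' = 0 := by
  unfold kr
  rw [LinearMap.mem_ker]
  constructor
  · intro h z'
    have h' : D2 (fun y => u (y, x.2)) x.1 z = 0 := h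
    rw [h']
    rfl
  · intro h
    ext z'
    exact h z'

/-- the embedding of the first factor -/
noncomputable abbrev NullB_i : V →L[ℝ] V × W := ContinuousLinearMap.inl ℝ V W

omit [FiniteDimensional ℝ V] [FiniteDimensional ℝ W] in
theorem NullB_slice (y : V) (w : W) :
    HasFDerivAt (fun y : V => ((y, w) : V × W)) (NullB_i : V →L[ℝ] V × W) y := by
  exact (hasFDerivAt_id (𝕜 := ℝ) y).prodMk (hasFDerivAt_const w y)

omit [FiniteDimensional ℝ V] [FiniteDimensional ℝ W] in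
theorem NullB_D2 {u : V × W → ℝ} {y : V} {w : W} (hu : ContDiffAt ℝ 2 u (y, w)) (a b : V) :
    D2 (fun y => u (y, w)) y a b = D2 u (y, w) (a, 0) (b, 0) := by
  have hcont : Tendsto (fun z : V => ((z, w) : V × W)) (𝓝 y) (𝓝 (y, w)) :=
    (NullB_slice y w).continuousAt
  have hev : ∀ᶠ z in 𝓝 y, fderiv ℝ (fun y => u (y, w)) z =
      (fderiv ℝ u (z, w)).comp (NullB_i : V →L[ℝ] V × W) := by
    have h1 : ∀ᶠ x in 𝓝 ((y, w) : V × W), ContDiffAt ℝ 2 u x := hu.eventually (by norm_num)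
    filter_upwards [hcont.eventually h1] with z hz
    have hd : HasFDerivAt u (fderiv ℝ u (z, w)) (z, w) :=
      (hz.differentiableAt (by norm_num)).hasFDerivAt
    exact (HasFDerivAt.comp z (f := fun z : V => ((z, w) : V × W)) hd (NullB_slice z w)).fderiv
  have h2 : HasFDerivAt (fderiv ℝ u) (D2 u (y, w)) (y, w) :=
    ((contDiffAt_D1 (m := 1) hu (by norm_num)).differentiableAt (by norm_num)).hasFDerivAt
  have h3 := HasFDerivAt.comp (𝕜 := ℝ) (E := V) (F := V × W) (G := V × W →L[ℝ] ℝ) y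
    (f := fun z : V => ((z, w) : V × W)) h2 (NullB_slice y w)
  have h4 : HasFDerivAt (fun z => (fderiv ℝ u (z, w)) (b, 0))
      (((D2 u (y, w)).comp (NullB_i : V →L[ℝ] V × W)).flip (b, 0)) y := by
    exact (h3.clm_apply (hasFDerivAt_const ((b, 0) : V × W) y)).congr_fderiv (by ext v; simp)
  have h5 : HasFDerivAt (fun z => fderiv ℝ (fun y => u (y, w)) z b)
      (((D2 u (y, w)).comp (NullB_i : V →L[ℝ] V × W)).flip (b, 0)) y := by
    apply h4.congr_of_eventuallyEq
    filter_upwards [hev] with z hz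
    rw [hz]
    simp
  have hslice : ContDiffAt ℝ 2 (fun y => u (y, w)) y := by
    apply ContDiffAt.comp y hu
    exact (contDiff_id.prodMk contDiff_const).contDiffAt
  rw [← fderiv_D1_apply hslice a b, h5.fderiv]
  simp

omit [FiniteDimensional ℝ V] [FiniteDimensional ℝ W] in
theorem NullB_D2_at {u : V × W → ℝ} {x : V × W} (hu : ContDiffAt ℝ 2 u x) (a b : V) :
    D2 (fun y => u (y, x.2)) x.1 a b = D2 u x (a, 0) (b, 0) := NullB_D2 (y := x.1) (w := x.2) hu a b

omit [FiniteDimensional ℝ V] [FiniteDimensional ℝ W] in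
theorem NullB_D2_has {u : V × W → ℝ} {x : V × W} (hu : ContDiffAt ℝ 3 u x) :
    HasFDerivAt (D2 u) (D3 u x) x :=
  ((contDiffAt_D2 (m := 1) hu (by norm_num)).differentiableAt (by norm_num)).hasFDerivAt

omit [FiniteDimensional ℝ V] [FiniteDimensional ℝ W] in
theorem NullB_D2_has' {u : V × W → ℝ} {x : V × W} (hu : ContDiffAt ℝ 3 u x) (p q : V × W) :
    HasFDerivAt (fun z => D2 u z p q) (((D3 u x).flip p).flip q) x := by
  have h1 := (NullB_D2_has hu).clm_apply (hasFDerivAt_const p x)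
  exact (h1.clm_apply (hasFDerivAt_const q x)).congr_fderiv (by ext v <;> simp)

omit [FiniteDimensional ℝ V] [FiniteDimensional ℝ W] in
theorem NullB_D3 {u : V × W → ℝ} {x : V × W} (hu : ContDiffAt ℝ 3 u x) (a b c : V) :
    D3 (fun y => u (y, x.2)) x.1 a b c = D3 u x (a, 0) (b, 0) (c, 0) := by
  have hslice : ContDiffAt ℝ 3 (fun y => u (y, x.2)) x.1 := by
    apply ContDiffAt.comp x.1 (g := u) (f := fun y => ((y, x.2) : V × W)) hu
    exact (contDiff_id.prodMk contDiff_const).contDiffAt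
  have hcont : Tendsto (fun z : V => ((z, x.2) : V × W)) (𝓝 x.1) (𝓝 x) :=
    (NullB_slice x.1 x.2).continuousAt
  have hev : ∀ᶠ z in 𝓝 x.1, D2 (fun y => u (y, x.2)) z b c = D2 u (z, x.2) (b, 0) (c, 0) := by
    have h1 : ∀ᶠ x in 𝓝 x, ContDiffAt ℝ 3 u x := hu.eventually (by norm_num)
    filter_upwards [hcont.eventually h1] with z hz
    exact NullB_D2 (hz.of_le (by norm_num)) b c
  have h3 : HasFDerivAt (fun z => D2 u (z, x.2) (b, 0) (c, 0))
      ((((D3 u x).flip (b, 0)).flip (c, 0)).comp (NullB_i : V →L[ℝ] V × W)) x.1 :=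
    HasFDerivAt.comp x.1 (f := fun z : V => ((z, x.2) : V × W)) (NullB_D2_has' hu (b, 0) (c, 0))
      (NullB_slice x.1 x.2)
  have h4 := h3.congr_of_eventuallyEq hev
  rw [← fderiv_D2_apply hslice a b c, h4.fderiv]
  simp

omit [FiniteDimensional ℝ V] [FiniteDimensional ℝ W] in
theorem NullB_W {u : V × W → ℝ} {x : V × W} (hu : ContDiffAt ℝ 3 u x) (b c : V) (ρ : W) :
    fderiv ℝ (fun w => D2 (fun y => u (y, w)) x.1 b c) x.2 ρ = D3 u x (0, ρ) (b, 0) (c, 0) := by
  have hsl : HasFDerivAt (fun w : W => ((x.1, w) : V × W)) (ContinuousLinearMap.inr ℝ V W) x.2 := by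
    exact (hasFDerivAt_const (𝕜 := ℝ) x.1 x.2).prodMk (hasFDerivAt_id x.2)
  have hcont : Tendsto (fun z : W => ((x.1, z) : V × W)) (𝓝 x.2) (𝓝 x) := hsl.continuousAt
  have hev : ∀ᶠ w in 𝓝 x.2, D2 (fun y => u (y, w)) x.1 b c = D2 u (x.1, w) (b, 0) (c, 0) := by
    have h1 : ∀ᶠ x in 𝓝 x, ContDiffAt ℝ 3 u x := hu.eventually (by norm_num)
    filter_upwards [hcont.eventually h1] with z hz
    exact NullB_D2 (hz.of_le (by norm_num)) b c
  have h3 : HasFDerivAt (fun w => D2 u (x.1, w) (b, 0) (c, 0))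
      ((((D3 u x).flip (b, 0)).flip (c, 0)).comp (ContinuousLinearMap.inr ℝ V W)) x.2 :=
    HasFDerivAt.comp x.2 (f := fun z : W => ((x.1, z) : V × W)) (NullB_D2_has' hu (b, 0) (c, 0)) hsl
  have h4 := h3.congr_of_eventuallyEq hev
  rw [h4.fderiv]
  simp

/-- the bilinear form of the projection -/
noncomputable def NullB_Q (K : Submodule ℝ V) : V →L[ℝ] V →L[ℝ] ℝ :=
  LinearMap.toContinuousLinearMap
    { toFun := fun z => innerSL ℝ (K.starProjection z)
      map_add' := fun a b => by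
        ext c
        simp
      map_smul' := fun k a => by
        ext c
        simp }

theorem NullB_Q_apply (K : Submodule ℝ V) (z z' : V) :
    NullB_Q K z z' = ⟪K.starProjection z, z'⟫ := rfl

/-- the second derivative in the first variable, as a restriction of the full one -/
noncomputable def NullB_H (u : V × W → ℝ) (x : V × W) : V →L[ℝ] V →L[ℝ] ℝ :=
  ((ContinuousLinearMap.compL ℝ V (V × W) ℝ).flip NullB_i).comp ((D2 u x).comp NullB_i)

omit [FiniteDimensional ℝ V] [FiniteDimensional ℝ W] in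
theorem NullB_H_apply (u : V × W → ℝ) (x : V × W) (a b : V) :
    NullB_H u x a b = D2 u x (a, 0) (b, 0) := rfl

theorem exists_b {u : V × W → ℝ} {x₁ : V × W} (hu : ContDiffAt ℝ 4 u x₁) {e₁ : V}
    (he : e₁ ∈ kr u x₁) {ρ : W}
    (hρ : fderiv ℝ (fun w => D2 (fun y => u (y, w)) x₁.1 e₁ e₁) x₁.2 ρ ≠ 0) :
    ∃ b : V × W → ℝ, ContDiffAt ℝ 1 b x₁ ∧ fderiv ℝ b x₁ ≠ 0 ∧
      ∀ᶠ x in 𝓝 x₁, Module.finrank ℝ (kr u x) = Module.finrank ℝ (kr u x₁) →
        b x = 0 ∧ ∃ ê, ê ≠ 0 ∧ ê ∈ kr u x ∧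
          fderiv ℝ b x (ê, 0) = D3 (fun y => u (y, x.2)) x.1 ê ê ê := by
  classical
  set K := kr u x₁ with hK
  have hu3 : ContDiffAt ℝ 3 u x₁ := hu.of_le (by norm_num)
  have hu2 : ContDiffAt ℝ 2 u x₁ := hu.of_le (by norm_num)
  have he0 : e₁ ≠ 0 := by
    intro h
    apply hρ
    have : (fun w => D2 (fun y => u (y, w)) x₁.1 e₁ e₁) = fun _ => (0 : ℝ) := by
      funext w
      rw [h, map_zero]
    rw [this]
    simp
  let N : V × W → (V →L[ℝ] V →L[ℝ] ℝ) := fun x => NullB_H u x + NullB_Q K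
  have hNc : ContDiffAt ℝ 2 N x₁ := by
    have h1 : ContDiffAt ℝ 2 (D2 u) x₁ := contDiffAt_D2 hu (by norm_num)
    have h2 : ContDiffAt ℝ 2 (NullB_H u) x₁ :=
      contDiffAt_const.clm_comp (h1.clm_comp contDiffAt_const)
    exact h2.add contDiffAt_const
  -- symmetry
  have hsymm : ∀ x, ContDiffAt ℝ 2 u x → ∀ a b : V, NullB_H u x a b = NullB_H u x b a := by
    intro x hx a b
    rw [NullB_H_apply, NullB_H_apply, D2_symm hx]
  have hkr : ∀ x, ContDiffAt ℝ 2 u x → ∀ z, z ∈ kr u x ↔ ∀ z', NullB_H u x z z' = 0 := by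
    intro x hx z
    rw [mem_kr]
    refine forall_congr' fun z' => ?_
    rw [NullB_H_apply, NullB_D2_at hx]
  -- injectivity at `x₁`
  have hinj1 : Function.Injective (N x₁) := by
    rw [injective_iff_map_eq_zero]
    intro z hz
    have hz' : ∀ z', NullB_H u x₁ z z' + ⟪K.starProjection z, z'⟫ = 0 := by
      intro z'
      have := congrArg (fun L : V →L[ℝ] ℝ => L z') hz
      simpa [N, NullB_Q_apply] using this
    have hPz : K.starProjection z = 0 := by
      have h1 := hz' (K.starProjection z)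
      have h2 : NullB_H u x₁ z (K.starProjection z) = 0 := by
        rw [hsymm x₁ hu2]
        exact (hkr x₁ hu2 _).mp (K.starProjection_apply_mem z) z
      rw [h2, zero_add] at h1
      exact inner_self_eq_zero.mp h1
    have hzK : z ∈ K := by
      rw [hK, hkr x₁ hu2]
      intro z'
      have := hz' z'
      rwa [hPz, inner_zero_left, add_zero] at this
    rw [← hPz]
    exact (Submodule.starProjection_eq_self_iff.mpr hzK).symm
  have hfin : Module.finrank ℝ V = Module.finrank ℝ (V →L[ℝ] ℝ) := by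
    rw [← (LinearMap.toContinuousLinearMap (𝕜 := ℝ) (E := V) (F' := ℝ)).finrank_eq]
    exact (Subspace.dual_finrank_eq).symm
  let e0 : V ≃L[ℝ] (V →L[ℝ] ℝ) :=
    (LinearMap.linearEquivOfInjective (N x₁ : V →ₗ[ℝ] V →L[ℝ] ℝ) hinj1 hfin).toContinuousLinearEquiv
  have he0N : (e0 : V →L[ℝ] V →L[ℝ] ℝ) = N x₁ := by
    ext z z'
    rfl
  let f₁ : V →L[ℝ] ℝ := innerSL ℝ e₁
  let ê : V × W → V := fun x => (N x).inverse f₁
  have hêc : ContDiffAt ℝ 2 ê x₁ := by
    have h1 : ContDiffAt ℝ 2 (ContinuousLinearMap.inverse : (V →L[ℝ] V →L[ℝ] ℝ) → _) (N x₁) := by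
      rw [← he0N]
      exact contDiffAt_map_inverse e0
    exact (h1.comp x₁ hNc).clm_apply contDiffAt_const
  -- invertibility nearby
  have hinvN : ∀ᶠ x in 𝓝 x₁, ∃ e : V ≃L[ℝ] (V →L[ℝ] ℝ), (e : V →L[ℝ] V →L[ℝ] ℝ) = N x := by
    have h1 : range ((↑) : (V ≃L[ℝ] (V →L[ℝ] ℝ)) → _) ∈ 𝓝 (N x₁) := by
      rw [← he0N]
      exact ContinuousLinearEquiv.nhds e0
    exact hNc.continuousAt h1
  have hNê : ∀ x, (∃ e : V ≃L[ℝ] (V →L[ℝ] ℝ), (e : V →L[ℝ] V →L[ℝ] ℝ) = N x) →
      N x (ê x) = f₁ := by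
    rintro x ⟨e, hex⟩
    show N x ((N x).inverse f₁) = f₁
    rw [← hex, ContinuousLinearMap.inverse_equiv]
    simp
  have hNinj : ∀ x, (∃ e : V ≃L[ℝ] (V →L[ℝ] ℝ), (e : V →L[ℝ] V →L[ℝ] ℝ) = N x) →
      Function.Injective (N x) := by
    rintro x ⟨e, hex⟩
    rw [← hex]
    exact e.injective
  have hê1 : ê x₁ = e₁ := by
    apply hinj1
    rw [hNê x₁ ⟨e0, he0N⟩]
    ext z'
    have h1 : NullB_H u x₁ e₁ z' = 0 := (hkr x₁ hu2 e₁).mp he z'
    have h2 : K.starProjection e₁ = e₁ := Submodule.starProjection_eq_self_iff.mpr he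
    show ⟪e₁, z'⟫ = NullB_H u x₁ e₁ z' + NullB_Q K e₁ z'
    rw [h1, NullB_Q_apply, h2, zero_add]
  let b : V × W → ℝ := fun x => D2 u x (ê x, 0) (ê x, 0)
  -- the derivative of `b`
  have hder : ∀ x, ContDiffAt ℝ 3 u x → DifferentiableAt ℝ ê x → ê x ∈ kr u x →
      ∀ v, fderiv ℝ b x v = D3 u x v (ê x, 0) (ê x, 0) := by
    intro x hx hdx hker v
    have hx2 : ContDiffAt ℝ 2 u x := hx.of_le (by norm_num)
    have hE : HasFDerivAt (fun x => ((ê x, 0) : V × W)) ((fderiv ℝ ê x).prod 0) x :=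
      hdx.hasFDerivAt.prodMk (hasFDerivAt_const (0 : W) x)
    have h1 := ((NullB_D2_has hx).clm_apply hE).clm_apply hE
    have h2 := h1.fderiv
    have h3 : fderiv ℝ b x v = D3 u x v (ê x, 0) (ê x, 0) +
        D2 u x (fderiv ℝ ê x v, 0) (ê x, 0) + D2 u x (ê x, 0) (fderiv ℝ ê x v, 0) := by
      show fderiv ℝ (fun x => D2 u x (ê x, 0) (ê x, 0)) x v = _
      rw [h2]
      simp
      ring
    have h4 : D2 u x (ê x, 0) (fderiv ℝ ê x v, 0) = 0 := (hkr x hx2 _).mp hker _
    have h5 : D2 u x (fderiv ℝ ê x v, 0) (ê x, 0) = 0 := by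
      rw [D2_symm hx2]; exact h4
    rw [h3, h4, h5, add_zero, add_zero]
  refine ⟨b, ?_, ?_, ?_⟩
  · have h1 : ContDiffAt ℝ 2 (D2 u) x₁ := contDiffAt_D2 hu (by norm_num)
    have h2 : ContDiffAt ℝ 2 (fun x => ((ê x, 0) : V × W)) x₁ := hêc.prodMk contDiffAt_const
    exact ((h1.clm_apply h2).clm_apply h2).of_le (by norm_num)
  · intro h
    apply hρ
    have h1 := hder x₁ hu3 (hêc.differentiableAt (by norm_num)) (by rw [hê1]; exact he) (0, ρ)
    rw [h, hê1] at h1
    rw [NullB_W hu3, ← h1]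
    simp
  · have hu4e : ∀ᶠ x in 𝓝 x₁, ContDiffAt ℝ 4 u x := hu.eventually (by norm_num)
    have hêe : ∀ᶠ x in 𝓝 x₁, ContDiffAt ℝ 2 ê x := hêc.eventually (by norm_num)
    filter_upwards [hu4e, hêe, hinvN] with x hx hêx hinv hdim
    have hx3 : ContDiffAt ℝ 3 u x := hx.of_le (by norm_num)
    have hx2 : ContDiffAt ℝ 2 u x := hx.of_le (by norm_num)
    have hN0 : ∀ v ∈ kr u x, ∀ z', N x v z' = ⟪K.starProjection v, z'⟫ := by
      intro v hv z'
      show NullB_H u x v z' + NullB_Q K v z' = _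
      rw [(hkr x hx2 v).mp hv z', zero_add, NullB_Q_apply]
    -- the projection from `kr u x` to `K`
    let π : kr u x →ₗ[ℝ] K := (K.orthogonalProjectionOnto : V →ₗ[ℝ] K).comp (kr u x).subtype
    have hπinj : Function.Injective π := by
      rw [injective_iff_map_eq_zero]
      intro v hv
      have h1 : K.starProjection v.1 = 0 := by
        have := congrArg (fun z : K => (z : V)) hv
        simpa [π] using this
      have h2 : N x v.1 = 0 := by
        ext z'
        rw [hN0 v.1 v.2, h1, inner_zero_left]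
        rfl
      apply Subtype.ext
      apply hNinj x hinv
      rw [h2]
      simp
    have hπsurj : Function.Surjective π :=
      (LinearMap.injective_iff_surjective_of_finrank_eq_finrank hdim).mp hπinj
    obtain ⟨v, hv⟩ := hπsurj ⟨e₁, he⟩
    have hPv : K.starProjection v.1 = e₁ := by
      have := congrArg (fun z : K => (z : V)) hv
      simpa [π] using this
    have hvê : v.1 = ê x := by
      apply hNinj x hinv
      rw [hNê x hinv]
      ext z'
      rw [hN0 v.1 v.2, hPv]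
      rfl
    have hêk : ê x ∈ kr u x := hvê ▸ v.2
    refine ⟨(hkr x hx2 _).mp hêk _, ê x, ?_, hêk, ?_⟩
    · intro h
      have h1 := hNê x hinv
      rw [h, map_zero] at h1
      have h2 := congrArg (fun L : V →L[ℝ] ℝ => L e₁) h1
      have h3 : (0 : ℝ) = ⟪e₁, e₁⟫ := h2
      exact he0 (inner_self_eq_zero.mp h3.symm)
    · rw [hder x hx3 (hêx.differentiableAt (by norm_num)) hêk, NullB_D3 hx3]

end TotFoc
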