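import Pool.Agent.H49.TF.CompPX
import Pool.Agent.H49.TF.Touch

/-!
# PDC: positive definiteness of the Hessian is constant on the components of the pairs

`comp_clopen` for `A = PX X` and `P w = PD r X w.1 w.2` (it is enough to prove `ho`, `hc` for all `w ∈ PX X`; `connectedComponentIn A z ⊆ A`). Let `w = (p, q) ∈ PX X`, `(T, g)` a chart at `q`. For `x = (s, t) ∈ PX X` near `w`: `t = gr q T g y` with `y` small, and by `hess_near` (with
a chart `(T', g')` at `t`) `hs T' g' 1 (1 • t - s) W W = D2 (fun y => fn 1 s (gr q T g y)) y Z Z` for `W = Z + Dg(y) Z`; this is a continuous function of `(s, y)` at `(p, 0)` (`D2_fn_gr`), uniformly for `‖Z‖ = 1`. By `near_chart` `Z ↦ W` is a bijection `T → T'`.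
Open: if `hs T g 1 (1 • q - p)` is positive definite it is `≥ ε ‖Z‖²` (compactness of the unit sphere of `T`), so the second derivative is positive definite for `x` near `w`. Not positive definite: some `Z ≠ 0` has `hs Z Z ≤ 0`. If `hs` were
`≥ 0` everywhere, then `hs Z Z = 0` and `semidef_ker` says that `Z` is in the kernel, contradiction to `nd_of_PP`. So there is `Z₁` with `hs Z₁ Z₁ < 0`, and for `x` near `w` the value at `Z₁` is still negative.
(`PD` does not depend on the chart: `Chart.hs_unique`.)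
-/

set_option autoImplicit false

open scoped Topology ContDiff RealInnerProductSpace
open Filter Set

namespace TotFoc

variable {E : Type*} [NormedAddCommGroup E] [InnerProductSpace ℝ E] [FiniteDimensional ℝ E]
  {r : ℕ∞ω} {X : Set E}

/-- the Hessian of the squared distance from `p` at `q` is positive definite -/
def PD (r : ℕ∞ω) (X : Set E) (p q : E) : Prop :=
  ∀ T g, Chart r X q T g → ∀ Z : T, Z ≠ 0 → 0 < hs T g 1 ((1 : ℝ) • q - p) Z Z

private theorem PosDef_one_le (hr : ∞ ≤ r) : (1 : ℕ∞ω) ≤ r := by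
  refine le_trans ?_ hr
  have : ((1 : ℕ∞) : ℕ∞ω) ≤ ((⊤ : ℕ∞) : ℕ∞ω) := WithTop.coe_le_coe.mpr le_top
  exact this

private theorem PosDef_two_le (hr : ∞ ≤ r) : (2 : ℕ∞ω) ≤ r := by
  refine le_trans ?_ hr
  have : ((2 : ℕ∞) : ℕ∞ω) ≤ ((⊤ : ℕ∞) : ℕ∞ω) := WithTop.coe_le_coe.mpr le_top
  exact this

private theorem PosDef_pull {q : E} {T : Submodule ℝ E} {g : T → E} (h : Chart r X q T g) (p : E)
    {Q : E × T → Prop} (hQ : ∀ᶠ w : E × T in 𝓝 (p, (0 : T)), Q w) :
    ∀ᶠ x : E × E in 𝓝 (p, q), x.2 ∈ X → ∃ y : T, gr q T g y = x.2 ∧ Q (x.1, y) := by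
  have hc : Tendsto (fun x : E × E => (x.1, T.orthogonalProjectionOnto (x.2 - q))) (𝓝 (p, q))
      (𝓝 (p, (0:T))) := by
    have h1 : ContinuousAt (fun x : E × E => (x.1, T.orthogonalProjectionOnto (x.2 - q)))
        (p, q) := by fun_prop
    have h2 := h1.tendsto
    simp only [sub_self, map_zero] at h2
    exact h2
  have hs : ∀ᶠ x : E × E in 𝓝 (p, q), x.2 ∈ X →
      gr q T g (T.orthogonalProjectionOnto (x.2 - q)) = x.2 :=
    (continuous_snd.tendsto (p, q)).eventually h.surj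
  filter_upwards [hc.eventually hQ, hs] with x h1 h2 hx
  exact ⟨_, h2 hx, h1⟩

/-- the second derivative of the squared distance in the chart -/
private noncomputable def PosDef_Psi (q : E) (T : Submodule ℝ E) (g : T → E) (w : E × T) (Z : T) :
    ℝ :=
  1 * ⟪(Z : E) + fderiv ℝ g w.2 Z, (Z : E) + fderiv ℝ g w.2 Z⟫ +
    ⟪(1:ℝ) • gr q T g w.2 - w.1, D2 g w.2 Z Z⟫

private theorem PosDef_cont (hr : ∞ ≤ r) {q : E} {T : Submodule ℝ E} {g : T → E}
    (h : Chart r X q T g) (p : E) (Z : T) :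
    ContinuousAt (fun v : (E × T) × T => PosDef_Psi q T g v.1 v.2) ((p, 0), Z) := by
  have h2 : ContDiffAt ℝ 2 g 0 := h.smooth.of_le (PosDef_two_le hr)
  have c1 : ContinuousAt (fderiv ℝ g) 0 :=
    (contDiffAt_D1 (m := 1) h2 (by norm_num)).continuousAt
  have c2 : ContinuousAt (D2 g) 0 := (contDiffAt_D2 (m := 0) h2 (by norm_num)).continuousAt
  have c3 : ContinuousAt (gr q T g) 0 := h.contDiffAt_gr.continuousAt
  have hp : ContinuousAt (fun v : (E × T) × T => v.1.2) ((p, 0), Z) := by fun_prop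
  have d1 : ContinuousAt (fun v : (E × T) × T => fderiv ℝ g v.1.2) ((p, 0), Z) :=
    ContinuousAt.comp (g := fderiv ℝ g) (f := fun v : (E × T) × T => v.1.2) c1 hp
  have d2 : ContinuousAt (fun v : (E × T) × T => D2 g v.1.2) ((p, 0), Z) :=
    ContinuousAt.comp (g := D2 g) (f := fun v : (E × T) × T => v.1.2) c2 hp
  have d3 : ContinuousAt (fun v : (E × T) × T => gr q T g v.1.2) ((p, 0), Z) :=
    ContinuousAt.comp (g := gr q T g) (f := fun v : (E × T) × T => v.1.2) c3 hp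
  have hZ : ContinuousAt (fun v : (E × T) × T => v.2) ((p, 0), Z) := by fun_prop
  have hZ' : ContinuousAt (fun v : (E × T) × T => (v.2 : E)) ((p, 0), Z) := by fun_prop
  have hs : ContinuousAt (fun v : (E × T) × T => v.1.1) ((p, 0), Z) := by fun_prop
  have e1 : ContinuousAt (fun v : (E × T) × T => (v.2 : E) + fderiv ℝ g v.1.2 v.2)
      ((p, 0), Z) := hZ'.add (d1.clm_apply hZ)
  have e2 : ContinuousAt (fun v : (E × T) × T => (1:ℝ) • gr q T g v.1.2 - v.1.1)
      ((p, 0), Z) := (d3.const_smul (1:ℝ)).sub hs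
  have e3 : ContinuousAt (fun v : (E × T) × T => D2 g v.1.2 v.2 v.2) ((p, 0), Z) :=
    (d2.clm_apply hZ).clm_apply hZ
  exact (continuousAt_const.mul (ContinuousAt.inner (𝕜 := ℝ) e1 e1)).add
    (ContinuousAt.inner (𝕜 := ℝ) e2 e3)

private theorem PosDef_trans (hr : ∞ ≤ r) {q : E} {T : Submodule ℝ E} {g : T → E}
    (h : Chart r X q T g) (p : E) : ∀ᶠ w : E × T in 𝓝 (p, (0:T)),
    ∀ (T' : Submodule ℝ E) (g' : T' → E), Chart r X (gr q T g w.2) T' g' →
      Crit X 1 w.1 (gr q T g w.2) →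
      (∀ W : T', W ≠ 0 → ∃ Z : T, Z ≠ 0 ∧
        PosDef_Psi q T g w Z = hs T' g' 1 ((1:ℝ) • gr q T g w.2 - w.1) W W) ∧
      (∀ Z : T, Z ≠ 0 → ∃ W : T', W ≠ 0 ∧
        PosDef_Psi q T g w Z = hs T' g' 1 ((1:ℝ) • gr q T g w.2 - w.1) W W) := by
  have h2 := PosDef_two_le hr
  have h1 := PosDef_one_le hr
  have hc := h.near_cont (n := 2) (by exact_mod_cast h2)
  have hev : ∀ᶠ y in 𝓝 (0:T), ∀ (T' : Submodule ℝ E) (g' : T' → E),
      Chart r X (gr q T g y) T' g' → ∀ s : E, Crit X 1 s (gr q T g y) →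
      (∀ W : T', W ≠ 0 → ∃ Z : T, Z ≠ 0 ∧
        PosDef_Psi q T g (s, y) Z = hs T' g' 1 ((1:ℝ) • gr q T g y - s) W W) ∧
      (∀ Z : T, Z ≠ 0 → ∃ W : T', W ≠ 0 ∧
        PosDef_Psi q T g (s, y) Z = hs T' g' 1 ((1:ℝ) • gr q T g y - s) W W) := by
    filter_upwards [hc, h.near_chart h1, h.hess_near h2] with y e1 e2 e3 T' g' hT' s hs'
    obtain ⟨f1, f2, f3, _⟩ := e2 T' g' hT'
    have key : ∀ (Z : T) (W : T'), (W : E) = Z + fderiv ℝ g y Z →
        PosDef_Psi q T g (s, y) Z = hs T' g' 1 ((1:ℝ) • gr q T g y - s) W W := by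
      intro Z W hW
      rw [← e3 T' g' hT' 1 s hs' Z Z W W hW hW, D2_fn_gr 1 s (by exact_mod_cast e1.1) Z Z]
      rfl
    constructor
    · intro W hW
      obtain ⟨Z, hZ⟩ := f2 W W.2
      refine ⟨Z, ?_, key Z W hZ⟩
      rintro rfl
      apply hW
      apply Subtype.ext
      rw [hZ]
      simp
    · intro Z hZ
      refine ⟨⟨(Z : E) + fderiv ℝ g y Z, f1 Z⟩, ?_, key Z _ rfl⟩
      intro h0
      exact hZ (f3 Z (congrArg Subtype.val h0))
  have hsnd : Tendsto (fun w : E × T => w.2) (𝓝 (p, (0:T))) (𝓝 0) :=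
    continuous_snd.tendsto (p, (0:T))
  filter_upwards [hsnd.eventually hev] with w hw T' g' hT' hcr
  exact hw T' g' hT' w.1 hcr

private theorem PosDef_smul {q : E} {T : Submodule ℝ E} {g : T → E} (w : E × T) (k : ℝ) (Z : T) :
    PosDef_Psi q T g w (k • Z) = k ^ 2 * PosDef_Psi q T g w Z := by
  unfold PosDef_Psi
  have h1 : ((k • Z : T) : E) + fderiv ℝ g w.2 (k • Z) = k • ((Z : E) + fderiv ℝ g w.2 Z) := by
    rw [map_smul, smul_add]
    rfl
  have h2 : D2 g w.2 (k • Z) (k • Z) = k • (k • D2 g w.2 Z Z) := by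
    rw [map_smul, map_smul]
    rfl
  rw [h1, h2]
  simp only [inner_smul_left, inner_smul_right, RCLike.conj_to_real]
  ring

private theorem PosDef_base (hr : ∞ ≤ r) {q : E} {T : Submodule ℝ E} {g : T → E}
    (h : Chart r X q T g) (p : E) (Z : T) :
    PosDef_Psi q T g (p, 0) Z = hs T g 1 ((1:ℝ) • q - p) Z Z := by
  rw [← h.hs_eq (PosDef_two_le hr) 1 p Z Z,
    D2_fn_gr 1 p (h.smooth.of_le (PosDef_two_le hr)) Z Z]
  rfl

private theorem PosDef_open (hr : ∞ ≤ r) (h : IsSub r X) {p q : E} (hq : q ∈ X)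
    (hP : PD r X p q) : ∀ᶠ x : E × E in 𝓝 (p, q), x ∈ PX X → PD r X x.1 x.2 := by
  obtain ⟨T, g, hc, _⟩ := h.2 q hq
  have hpos : ∀ᶠ w : E × T in 𝓝 (p, (0:T)), ∀ Z ∈ Metric.sphere (0:T) 1,
      0 < PosDef_Psi q T g w Z := by
    have hK : IsCompact (Metric.sphere (0:T) 1) := isCompact_sphere _ _
    refine hK.eventually_forall_of_forall_eventually fun Z hZ => ?_
    have h1 := PosDef_cont hr hc p Z
    have hZ0 : Z ≠ 0 := by
      rintro rfl
      simp at hZ
    have h2 : 0 < PosDef_Psi q T g (p, 0) Z := by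
      rw [PosDef_base hr hc]
      exact hP T g hc Z hZ0
    exact h1.eventually (lt_mem_nhds h2)
  have hall := PosDef_pull hc p (hpos.and (PosDef_trans hr hc p))
  filter_upwards [hall] with x hx hxP T' g' hT' W hW
  obtain ⟨y, hy, h1, h2⟩ := hx hxP.2.1
  rw [← hy] at hT'
  have hcr : Crit X 1 x.1 (gr q T g y) := by rw [hy]; exact hxP.2
  obtain ⟨Z, hZ, hZW⟩ := (h2 T' g' hT' hcr).1 W hW
  rw [← hy]
  rw [← hZW]
  have hn : 0 < ‖Z‖ := norm_pos_iff.2 hZ
  have h3 := h1 (‖Z‖⁻¹ • Z) (by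
    rw [mem_sphere_zero_iff_norm, norm_smul, norm_inv, norm_norm, inv_mul_cancel₀ hn.ne'])
  rw [PosDef_smul] at h3
  have h4 : 0 < (‖Z‖⁻¹) ^ 2 := by positivity
  exact (mul_pos_iff_of_pos_left h4).1 h3

private theorem PosDef_notopen (hr : ∞ ≤ r) (h : IsSub r X) (h1 : TF1 r X) {p q : E}
    (hpq : PP X p q) (hP : ¬ PD r X p q) :
    ∀ᶠ x : E × E in 𝓝 (p, q), x ∈ PX X → ¬ PD r X x.1 x.2 := by
  have hP' : ∃ T g, ∃ _ : Chart r X q T g, ∃ Z : T, Z ≠ 0 ∧
      hs T g 1 ((1:ℝ) • q - p) Z Z ≤ 0 := by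
    unfold PD at hP
    push Not at hP
    obtain ⟨T, g, hc, Z, hZ, hle⟩ := hP
    exact ⟨T, g, hc, Z, hZ, hle⟩
  obtain ⟨T, g, hc, Z, hZ, hle⟩ := hP'
  have hneg : ∃ Z₁ : T, hs T g 1 ((1:ℝ) • q - p) Z₁ Z₁ < 0 := by
    by_contra hcon
    push Not at hcon
    have h0 : hs T g 1 ((1:ℝ) • q - p) Z Z = 0 := le_antisymm hle (hcon Z)
    have hk := semidef_ker (fun Z W : T => hs T g 1 ((1:ℝ) • q - p) Z W)
      (by
        intro x y z
        simp only [hs]
        rw [map_add, _root_.add_apply, inner_add_right, Submodule.coe_add, inner_add_left]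
        ring)
      (by
        intro k x z
        simp only [hs]
        rw [map_smul, _root_.smul_apply, inner_smul_right, Submodule.coe_smul, inner_smul_left,
          RCLike.conj_to_real]
        ring)
      (fun x y => hc.hs_symm (PosDef_two_le hr) 1 _ x y) hcon h0
    have hnd := nd_of_PP h1 hpq
    exact hZ (hnd T g hc Z hk)
  obtain ⟨Z₁, hZ₁⟩ := hneg
  have hZ₁0 : Z₁ ≠ 0 := by
    rintro rfl
    simp [hs] at hZ₁
  have hev : ∀ᶠ w : E × T in 𝓝 (p, (0:T)), PosDef_Psi q T g w Z₁ < 0 := by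
    have h2 := PosDef_cont hr hc p Z₁
    have h3 : ContinuousAt (fun w : E × T => PosDef_Psi q T g w Z₁) (p, 0) :=
      ContinuousAt.comp (g := fun v : (E × T) × T => PosDef_Psi q T g v.1 v.2)
        (f := fun w : E × T => (w, Z₁)) h2 (by fun_prop)
    have h4 : PosDef_Psi q T g (p, 0) Z₁ < 0 := by
      rw [PosDef_base hr hc]
      exact hZ₁
    exact h3.eventually (gt_mem_nhds h4)
  have hall := PosDef_pull hc p (hev.and (PosDef_trans hr hc p))
  filter_upwards [hall] with x hx hxP hPD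
  obtain ⟨y, hy, h2, h3⟩ := hx hxP.2.1
  obtain ⟨T', g', hT', _⟩ := h.2 x.2 hxP.2.1
  have hT'' := hT'
  rw [← hy] at hT'
  have hcr : Crit X 1 x.1 (gr q T g y) := by rw [hy]; exact hxP.2
  obtain ⟨W, hW, hWZ⟩ := (h3 T' g' hT' hcr).2 Z₁ hZ₁0
  have h4 := hPD T' g' hT'' W hW
  rw [hy] at hWZ
  rw [← hWZ] at h4
  exact lt_asymm h2 h4

theorem pd_const (hr : ∞ ≤ r) (h : IsSub r X) (h1 : TF1 r X) {z w : E × E} (hz : z ∈ PX X)
    (hw : w ∈ connectedComponentIn (PX X) z) (hp : PD r X z.1 z.2) : PD r X w.1 w.2 := by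
  refine comp_clopen (P := fun w => PD r X w.1 w.2) hz hp ?_ ?_ w hw
  · intro w hw hP
    have hwP : w ∈ PX X := connectedComponentIn_subset _ _ hw
    exact PosDef_open hr h hwP.2.1 hP
  · intro w hw hP
    have hwP : w ∈ PX X := connectedComponentIn_subset _ _ hw
    exact PosDef_notopen hr h h1 hwP hP

end TotFoc
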