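import Pool.Agent.H49.TF.Alt
import Pool.Agent.H49.TF.LeafSph
import Pool.Agent.H49.TF.PosDef
import Pool.Agent.H49.TF.LeafGen

/-!
# SPA: the alternative in the spherical case

Write `L = Lx X`, `π = Lᗮ.starProjection`, `R x = ‖π (x - o)‖`. `R` is locally constant on `X` (`lx_const`, `sph_const`: `‖x - o‖² = R x² + ‖L.starProjection (x - o)‖²`). `R x > 0` for `x ∈ X`: otherwise `π (x' - o) = 0` for `x' ∈ X` near `x`, so `x' - x ∈ L`
for the points `x'` near `x` and (curves) `tan X x ≤ L`; but `tan X x ≤ Lᗮ`, so `tan X x = ⊥`: contradiction to `T ≠ ⊥` in `Loc`.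
Let `C` be the component of `z` in `PX X`. `R w.1` and `R w.2` are constant on `C` (`comp_locconst`; a point of `PX X` near `w ∈ C` has coordinates in `X` near `w.1`, `w.2`): call them `R₁, R₂ > 0`. For `w ∈ C`: `Gd L w.1 w.2 = R₁² + R₂² - 2 Γ w`,
`Γ w = ⟪π (w.1 - o), π (w.2 - o)⟫`, `|Γ w| ≤ R₁ R₂` (Cauchy-Schwarz). `O = Ioo ((R₁ - R₂)²) ((R₁ + R₂)²)`; `Gd L w.1 w.2 ∈ O ↔ |Γ w| < R₁ R₂ ↔` `π (w.1 - o)`, `π (w.2 - o)` are linearly independent `↔ Ind w`: `∀ α β, α • (w.1 - o) + β • (w.2 - o) ∈ L → α = 0 ∧ β = 0`.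
`leaf_sph_all` is the hypothesis `hleaf` of `alt`. Let `w₁`, `w₂` be a maximum and a minimum of `Gd L` on `C` (`comp_max`, `isCompact_PX`). If the value at `w₁` or at `w₂` is in `O`, `alt` gives `Gd L` constant `∈ O` and `Dn` on `C`: first alternative.
Otherwise both values are in `{(R₁ - R₂)², (R₁ + R₂)²}`. If they are equal: `Γ` is constant `= ε R₁ R₂`, `ε = ± 1`, on `C`, so `‖π (w.2 - o) - μ • π (w.1 - o)‖² = 0` with `μ = ε R₂ / R₁`: second alternative.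
If the maximum value is `(R₁ + R₂)²` (`Γ = -R₁ R₂`, `π (q - o) = -μ • π (p - o)`, `μ = R₂ / R₁ > 0`) and the minimum value is `(R₁ - R₂)²` (`Γ = R₁ R₂`): contradiction by `pd_const`: at `(p, q) ∈ PX X` with `π (q - o) = μ • π (p - o)`, `μ ≠ 0`, for a chart `(T, g)` at `q`:
`hs T g 1 (1 • q - p) Z Z = ‖Z‖² + ⟪(q - o) - (p - o), D2 g 0 Z Z⟫ = -⟪p - o, D2 g 0 Z Z⟫ = -μ⁻¹ ⟪q - o, D2 g 0 Z Z⟫ = μ⁻¹ ‖Z‖²` (`sph_hess` at `q`; `lx_D2`-type fact: `⟪n, D2 g 0 Z Z⟫ = 0` for `n ∈ L`, prove it here again or import it). So `PD` holds at the minimum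
point and fails at the maximum point (`T ≠ ⊥`). Both are in `C`, so in the component of each other (`connectedComponentIn_eq`).
(The file `LeafGen` has `lx_D2`; it may be imported.)
-/

set_option autoImplicit false

open scoped Topology ContDiff RealInnerProductSpace
open Filter Set

namespace TotFoc

variable {E : Type*} [NormedAddCommGroup E] [InnerProductSpace ℝ E] [FiniteDimensional ℝ E]
  {r : ℕ∞ω} {X : Set E}

/-- the component of `v` orthogonal to `Lx X` -/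
noncomputable def SPA_pr (X : Set E) (v : E) : E := (Lx X)ᗮ.starProjection v

theorem SPA_pr_sub (u v : E) : SPA_pr X (u - v) = SPA_pr X u - SPA_pr X v := by
  unfold SPA_pr; rw [map_sub]

theorem SPA_pr_lin (a b : ℝ) (u v : E) :
    SPA_pr X (a • u + b • v) = a • SPA_pr X u + b • SPA_pr X v := by
  unfold SPA_pr; rw [map_add, map_smul, map_smul]

theorem SPA_mem_iff (v : E) : v ∈ Lx X ↔ SPA_pr X v = 0 := by
  unfold SPA_pr
  rw [Submodule.starProjection_apply_eq_zero_iff, Submodule.orthogonal_orthogonal]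

theorem SPA_Gd (o p q : E) :
    Gd (Lx X) p q = ‖SPA_pr X (p - o) - SPA_pr X (q - o)‖ ^ 2 := by
  rw [← SPA_pr_sub]
  unfold Gd SPA_pr
  congr 3
  abel

/-- the norm of the component orthogonal to `Lx X` is locally constant -/
theorem SPA_norm {p : E} {T : Submodule ℝ E} {g : T → E} (h : Chart r X p T g) (h1 : 1 ≤ r)
    {o : E} (hs : Sph X o) :
    ∀ᶠ s in 𝓝 p, s ∈ X → ‖SPA_pr X (s - o)‖ = ‖SPA_pr X (p - o)‖ := by
  filter_upwards [lx_const h h1, sph_const h h1 hs] with s hs1 hs2 hsX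
  have h3 := Submodule.norm_sq_eq_add_norm_sq_starProjection (s - o) (Lx X)
  have h4 := Submodule.norm_sq_eq_add_norm_sq_starProjection (p - o) (Lx X)
  have h5 : (Lx X).starProjection (s - o) = (Lx X).starProjection (p - o) := by
    rw [map_sub, map_sub, hs1 hsX]
  rw [h5, hs2 hsX] at h3
  have h6 : ‖SPA_pr X (s - o)‖ ^ 2 = ‖SPA_pr X (p - o)‖ ^ 2 := by
    unfold SPA_pr
    linarith
  exact (sq_eq_sq₀ (norm_nonneg _) (norm_nonneg _)).1 h6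

theorem SPA_pos (hX : IsSub r X) (h1 : 1 ≤ r) {o : E} (hs : Sph X o) {x : E} (hx : x ∈ X) :
    0 < ‖SPA_pr X (x - o)‖ := by
  rw [norm_pos_iff]
  intro h0
  obtain ⟨T, g, hc, hT⟩ := hX.2 x hx
  have hev : ∀ᶠ s in 𝓝 x, s ∈ X → s = x := by
    filter_upwards [lx_const hc h1, SPA_norm hc h1 hs] with s hs1 hs2 hsX
    have h3 : SPA_pr X (s - o) = 0 := by
      rw [← norm_eq_zero, hs2 hsX, h0, norm_zero]
    have h4 : SPA_pr X (s - x) = 0 := by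
      have : s - x = (s - o) - (x - o) := by abel
      rw [this, SPA_pr_sub, h3, h0, sub_zero]
    have h5 : (Lx X).starProjection (s - x) = s - x :=
      Submodule.starProjection_eq_self_iff.2 ((SPA_mem_iff _).2 h4)
    rw [map_sub, hs1 hsX, sub_self] at h5
    exact (sub_eq_zero.1 h5.symm)
  rw [hc.eventually_iff (fun s => s = x)] at hev
  have hev2 : ∀ᶠ y in 𝓝 (0 : T), y = 0 := by
    filter_upwards [hev] with y hy
    have h6 := proj_gr (p := x) hc.perp y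
    rw [hy, sub_self, map_zero] at h6
    exact h6.symm
  obtain ⟨Z, hZ, hZ0⟩ := (Submodule.ne_bot_iff T).1 hT
  have ht : Tendsto (fun t : ℝ => t • (⟨Z, hZ⟩ : T)) (𝓝[≠] 0) (𝓝 0) := by
    have : Tendsto (fun t : ℝ => t • (⟨Z, hZ⟩ : T)) (𝓝 0) (𝓝 ((0 : ℝ) • (⟨Z, hZ⟩ : T))) :=
      (continuous_id.smul continuous_const).continuousAt.tendsto
    rw [zero_smul] at this
    exact this.mono_left nhdsWithin_le_nhds
  have h7 := (ht.eventually hev2).and (self_mem_nhdsWithin : {(0:ℝ)}ᶜ ∈ 𝓝[≠] (0:ℝ))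
  obtain ⟨t, ht1, ht2⟩ := h7.exists
  rw [smul_eq_zero] at ht1
  rcases ht1 with ht1 | ht1
  · exact ht2 ht1
  · exact hZ0 (congrArg Subtype.val ht1)

/-- Cauchy-Schwarz, strict case -/
theorem SPA_indep {A₁ A₂ : E} {R₁ R₂ : ℝ} (h₁ : ‖A₁‖ = R₁) (h₂ : ‖A₂‖ = R₂)
    (h : ⟪A₁, A₂⟫ ^ 2 < R₁ ^ 2 * R₂ ^ 2) {α β : ℝ} (h0 : α • A₁ + β • A₂ = 0) : α = 0 ∧ β = 0 := by
  have e1 : α * R₁ ^ 2 + β * ⟪A₁, A₂⟫ = 0 := by
    have := congrArg (fun v => ⟪A₁, v⟫) h0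
    simp only [inner_add_right, real_inner_smul_right, inner_zero_right,
      real_inner_self_eq_norm_sq, h₁] at this
    exact this
  have e2 : α * ⟪A₁, A₂⟫ + β * R₂ ^ 2 = 0 := by
    have := congrArg (fun v => ⟪A₂, v⟫) h0
    simp only [inner_add_right, real_inner_smul_right, inner_zero_right,
      real_inner_self_eq_norm_sq, h₂] at this
    rw [real_inner_comm] at this
    exact this
  have hd : R₁ ^ 2 * R₂ ^ 2 - ⟪A₁, A₂⟫ ^ 2 ≠ 0 := by linarith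
  constructor
  · have : α * (R₁ ^ 2 * R₂ ^ 2 - ⟪A₁, A₂⟫ ^ 2) = 0 := by
      linear_combination R₂ ^ 2 * e1 - ⟪A₁, A₂⟫ * e2
    exact (mul_eq_zero.1 this).resolve_right hd
  · have : β * (R₁ ^ 2 * R₂ ^ 2 - ⟪A₁, A₂⟫ ^ 2) = 0 := by
      linear_combination R₁ ^ 2 * e2 - ⟪A₁, A₂⟫ * e1
    exact (mul_eq_zero.1 this).resolve_right hd

/-- Cauchy-Schwarz, equality case -/
theorem SPA_eq {A₁ A₂ : E} {R₁ R₂ ε : ℝ} (h₁ : ‖A₁‖ = R₁) (h₂ : ‖A₂‖ = R₂) (hR : 0 < R₁)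
    (hε : ε ^ 2 = 1) (h : ⟪A₁, A₂⟫ = ε * R₁ * R₂) : A₂ - (ε * R₂ / R₁) • A₁ = 0 := by
  rw [← norm_eq_zero, ← sq_eq_zero_iff, norm_sub_sq_real, norm_smul, Real.norm_eq_abs, mul_pow,
    sq_abs, h₁, h₂, real_inner_smul_right, real_inner_comm, h]
  have : R₁ ≠ 0 := hR.ne'
  field_simp
  linear_combination (-(R₂ ^ 2)) * hε

theorem SPA_hs (h2 : 2 ≤ r) {o p q : E} (hs' : Sph X o) {μ : ℝ} (hμ : μ ≠ 0)
    (hl : (q - o) - μ • (p - o) ∈ Lx X) {T : Submodule ℝ E} {g : T → E} (h : Chart r X q T g)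
    (Z : T) : hs T g 1 ((1 : ℝ) • q - p) Z Z = μ⁻¹ * ‖Z‖ ^ 2 := by
  have e1 := sph_hess h h2 hs' Z Z
  have e2 := lx_D2 h h2 hl Z Z
  have e3 : ⟪(Z : E), (Z : E)⟫ = ‖Z‖ ^ 2 := by
    rw [real_inner_self_eq_norm_sq, Submodule.coe_norm]
  rw [inner_sub_left, real_inner_smul_left, e1, e3] at e2
  have e4 : ⟪p - o, D2 g 0 Z Z⟫ = -(μ⁻¹ * ‖Z‖ ^ 2) := by
    have e5 : μ * ⟪p - o, D2 g 0 Z Z⟫ = -‖Z‖ ^ 2 := by linarith
    rw [← e3] at *
    field_simp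
    linarith
  unfold hs
  have e6 : (1 : ℝ) • q - p = (q - o) - (p - o) := by rw [one_smul]; abel
  rw [e6, inner_sub_left, e1, e4, e3]
  ring

theorem sph_alt (hr : ∞ ≤ r) (hb : BottAll r E) (hX : IsSub r X) (hf : TFx r X) {o : E}
    (hs : Sph X o) (ih : ∀ S : Set E, IsSub r S → TFx r S → Sph S o → Lx X < Lx S → TH S)
    {z : E × E} (hz : z ∈ PX X) :
    (∀ w ∈ connectedComponentIn (PX X) z, Dn X w.1 w.2 ∧
      ∀ α β : ℝ, α • (w.1 - o) + β • (w.2 - o) ∈ Lx X → α = 0 ∧ β = 0) ∨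
    ∃ μ : ℝ, μ ≠ 0 ∧ ∀ w ∈ connectedComponentIn (PX X) z, (w.2 - o) - μ • (w.1 - o) ∈ Lx X := by
  have hr1 : 1 ≤ r := le_trans (by exact_mod_cast le_top) hr
  have hr2 : 2 ≤ r := le_trans ENat.LEInfty.out hr
  have hf1 : TF1 r X := TFx.tf1 hf
  have hCA : ∀ w ∈ connectedComponentIn (PX X) z, w ∈ PX X :=
    fun w hw => connectedComponentIn_subset _ _ hw
  have hX1 : ∀ w ∈ PX X, w.1 ∈ X := fun w hw => hw.1
  have hX2 : ∀ w ∈ PX X, w.2 ∈ X := fun w hw => hw.2.1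
  -- constancy of the norms
  have hR1 : ∀ w ∈ connectedComponentIn (PX X) z,
      ‖SPA_pr X (w.1 - o)‖ = ‖SPA_pr X (z.1 - o)‖ := by
    apply comp_locconst (Γ := fun w : E × E => ‖SPA_pr X (w.1 - o)‖)
    intro w hw
    obtain ⟨T, g, hc, -⟩ := hX.2 w.1 (hX1 w (hCA w hw))
    have h3 : Tendsto (fun x : E × E => x.1) (𝓝 w) (𝓝 w.1) := continuous_fst.continuousAt
    filter_upwards [h3.eventually (SPA_norm hc hr1 hs)] with x hx hxA
    exact hx (hX1 x hxA)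
  have hR2 : ∀ w ∈ connectedComponentIn (PX X) z,
      ‖SPA_pr X (w.2 - o)‖ = ‖SPA_pr X (z.2 - o)‖ := by
    apply comp_locconst (Γ := fun w : E × E => ‖SPA_pr X (w.2 - o)‖)
    intro w hw
    obtain ⟨T, g, hc, -⟩ := hX.2 w.2 (hX2 w (hCA w hw))
    have h3 : Tendsto (fun x : E × E => x.2) (𝓝 w) (𝓝 w.2) := continuous_snd.continuousAt
    filter_upwards [h3.eventually (SPA_norm hc hr1 hs)] with x hx hxA
    exact hx (hX2 x hxA)
  have hR1pos := SPA_pos hX hr1 hs (hX1 z hz)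
  have hR2pos := SPA_pos hX hr1 hs (hX2 z hz)
  set R₁ : ℝ := ‖SPA_pr X (z.1 - o)‖ with hR₁
  set R₂ : ℝ := ‖SPA_pr X (z.2 - o)‖ with hR₂
  set Γ : E × E → ℝ := fun w => ⟪SPA_pr X (w.1 - o), SPA_pr X (w.2 - o)⟫ with hΓ
  have hGd : ∀ w ∈ connectedComponentIn (PX X) z,
      Gd (Lx X) w.1 w.2 = R₁ ^ 2 + R₂ ^ 2 - 2 * Γ w := by
    intro w hw
    rw [SPA_Gd o, norm_sub_sq_real, hR1 w hw, hR2 w hw]
    ring
  have hCS : ∀ w ∈ connectedComponentIn (PX X) z, |Γ w| ≤ R₁ * R₂ := by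
    intro w hw
    have := abs_real_inner_le_norm (SPA_pr X (w.1 - o)) (SPA_pr X (w.2 - o))
    rw [hR1 w hw, hR2 w hw] at this
    exact this
  have hRR : 0 < R₁ * R₂ := mul_pos hR1pos hR2pos
  have hInd : ∀ w ∈ connectedComponentIn (PX X) z,
      Gd (Lx X) w.1 w.2 ∈ Ioo ((R₁ - R₂) ^ 2) ((R₁ + R₂) ^ 2) →
      ∀ α β : ℝ, α • (w.1 - o) + β • (w.2 - o) ∈ Lx X → α = 0 ∧ β = 0 := by
    intro w hw hO α β hαβ
    rw [hGd w hw] at hO
    rw [SPA_mem_iff, SPA_pr_lin] at hαβ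
    refine SPA_indep (hR1 w hw) (hR2 w hw) ?_ hαβ
    change Γ w ^ 2 < R₁ ^ 2 * R₂ ^ 2
    have h3 : |Γ w| < R₁ * R₂ := by
      rw [abs_lt]
      constructor
      · nlinarith [hO.2]
      · nlinarith [hO.1]
    have h4 : Γ w ^ 2 < (R₁ * R₂) ^ 2 := by
      rw [← sq_abs (Γ w)]
      exact pow_lt_pow_left₀ h3 (abs_nonneg _) (by norm_num)
    nlinarith
  have hleaf : ∀ w ∈ connectedComponentIn (PX X) z, Dn X w.1 w.2 →
      Gd (Lx X) w.1 w.2 ∈ Ioo ((R₁ - R₂) ^ 2) ((R₁ + R₂) ^ 2) →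
      tan X w.1 ≤ Submodule.span ℝ (LeafDir X w.1 w.2) := fun w hw hd hO =>
    (leaf_sph_all hr hb hX hf hs ih hd (hInd w hw hO)).1
  have hcomp := isCompact_PX hX hr1
  obtain ⟨w₁, hw₁, hmax⟩ := comp_max hcomp hz (continuous_Gd (Lx X))
  obtain ⟨w₂, hw₂, hmin⟩ := comp_max (Γ := fun x : E × E => -Gd (Lx X) x.1 x.2) hcomp hz
    (continuous_Gd (Lx X)).neg
  have hmin' : ∀ x ∈ connectedComponentIn (PX X) z,
      Gd (Lx X) w₂.1 w₂.2 ≤ Gd (Lx X) x.1 x.2 := fun x hx => by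
    have := hmin x hx
    linarith
  by_cases c₁ : Gd (Lx X) w₁.1 w₁.2 ∈ Ioo ((R₁ - R₂) ^ 2) ((R₁ + R₂) ^ 2)
  · left
    intro w hw
    obtain ⟨h3, h4⟩ := alt hr hX hf1 le_rfl isOpen_Ioo hleaf hw₁ c₁ (Or.inl hmax) w hw
    exact ⟨h4, hInd w hw (by rw [h3]; exact c₁)⟩
  by_cases c₂ : Gd (Lx X) w₂.1 w₂.2 ∈ Ioo ((R₁ - R₂) ^ 2) ((R₁ + R₂) ^ 2)
  · left
    intro w hw
    obtain ⟨h3, h4⟩ := alt hr hX hf1 le_rfl isOpen_Ioo hleaf hw₂ c₂ (Or.inr hmin') w hw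
    exact ⟨h4, hInd w hw (by rw [h3]; exact c₂)⟩
  right
  -- the extreme values of `Γ`
  have hext : ∀ w ∈ connectedComponentIn (PX X) z,
      Gd (Lx X) w.1 w.2 ∉ Ioo ((R₁ - R₂) ^ 2) ((R₁ + R₂) ^ 2) →
      Γ w = R₁ * R₂ ∨ Γ w = -(R₁ * R₂) := by
    intro w hw hn
    rw [hGd w hw, mem_Ioo, not_and_or] at hn
    have h3 := abs_le.1 (hCS w hw)
    rcases hn with hn | hn
    · left; nlinarith
    · right; nlinarith
  have hmem : ∀ (ε : ℝ), ε ^ 2 = 1 → ∀ w ∈ connectedComponentIn (PX X) z, Γ w = ε * R₁ * R₂ →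
      (w.2 - o) - (ε * R₂ / R₁) • (w.1 - o) ∈ Lx X := by
    intro ε hε w hw h3
    rw [SPA_mem_iff, SPA_pr_sub]
    have h4 : SPA_pr X ((ε * R₂ / R₁) • (w.1 - o)) = (ε * R₂ / R₁) • SPA_pr X (w.1 - o) := by
      unfold SPA_pr; rw [map_smul]
    rw [h4]
    exact SPA_eq (hR1 w hw) (hR2 w hw) hR1pos hε h3
  have hle1 : ∀ w ∈ connectedComponentIn (PX X) z, Γ w₁ ≤ Γ w := by
    intro w hw
    have := hmax w hw
    rw [hGd w hw, hGd w₁ hw₁] at this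
    linarith
  have hle2 : ∀ w ∈ connectedComponentIn (PX X) z, Γ w ≤ Γ w₂ := by
    intro w hw
    have := hmin' w hw
    rw [hGd w hw, hGd w₂ hw₂] at this
    linarith
  have hquot : R₂ / R₁ ≠ 0 := (div_pos hR2pos hR1pos).ne'
  rcases hext w₁ hw₁ c₁ with e₁ | e₁
  · refine ⟨1 * R₂ / R₁, by rwa [one_mul], fun w hw => hmem 1 (by norm_num) w hw ?_⟩
    have h3 := hle1 w hw
    have h4 := (abs_le.1 (hCS w hw)).2
    rw [one_mul]
    linarith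
  rcases hext w₂ hw₂ c₂ with e₂ | e₂
  · exfalso
    have hl1 := hmem (-1) (by norm_num) w₁ hw₁ (by rw [e₁]; ring)
    have hl2 := hmem 1 (by norm_num) w₂ hw₂ (by rw [e₂]; ring)
    have hpd : PD r X w₂.1 w₂.2 := by
      intro T g hc Z hZ
      rw [SPA_hs hr2 hs (by rwa [one_mul]) hl2 hc Z]
      have h5 : 0 < ‖Z‖ := norm_pos_iff.2 hZ
      have h6 : 0 < 1 * R₂ / R₁ := by rw [one_mul]; exact div_pos hR2pos hR1pos
      positivity
    have hcc : connectedComponentIn (PX X) z = connectedComponentIn (PX X) w₂ :=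
      connectedComponentIn_eq hw₂
    have hw₁' : w₁ ∈ connectedComponentIn (PX X) w₂ := by rw [← hcc]; exact hw₁
    have hpd1 := pd_const hr hX hf1 (hCA w₂ hw₂) hw₁' hpd
    obtain ⟨T, g, hc, hT⟩ := hX.2 w₁.2 (hX2 w₁ (hCA w₁ hw₁))
    obtain ⟨Z, hZ, hZ0⟩ := (Submodule.ne_bot_iff T).1 hT
    have h7 : (⟨Z, hZ⟩ : T) ≠ 0 := fun h => hZ0 (congrArg Subtype.val h)
    have hneg : -1 * R₂ / R₁ < 0 := by
      rw [neg_one_mul, neg_div]
      exact neg_neg_of_pos (div_pos hR2pos hR1pos)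
    have h8 := hpd1 T g hc ⟨Z, hZ⟩ h7
    rw [SPA_hs hr2 hs hneg.ne hl1 hc ⟨Z, hZ⟩] at h8
    have h9 : 0 < ‖(⟨Z, hZ⟩ : T)‖ := norm_pos_iff.2 h7
    have h10 : (-1 * R₂ / R₁)⁻¹ < 0 := inv_lt_zero.2 hneg
    nlinarith [mul_neg_of_neg_of_pos h10 (pow_pos h9 2)]
  · refine ⟨-1 * R₂ / R₁, ?_, fun w hw => hmem (-1) (by norm_num) w hw ?_⟩
    · rw [neg_one_mul, neg_div]
      exact neg_ne_zero.2 hquot
    · have h3 := hle2 w hw
      have h4 := (abs_le.1 (hCS w hw)).1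
      have h5 : Γ w = -(R₁ * R₂) := by linarith
      rw [h5]; ring

end TotFoc
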