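import Pool.Agent.H49.TF.Calc

/-!
# TAN: charts and tangent spaces

`proj_gr`: `gr p T g y - p = y + g y` with `g y ∈ Tᗮ` (`Submodule.orthogonalProjectionOnto_mem_subspace_eq_self`, `..._orthogonal`; look for the current names of the lemmas about
`T.orthogonalProjectionOnto`).
`gr_zero`: `g 0 = 0`. `mem_self`: `mem` at `0` (`Filter.Eventually.self_of_nhds`).
`hasFDerivAt_gr`, `contDiffAt_gr`, `fderiv_gr`: clear.
`velocity`: let `γ` be a curve in `X` with `γ 0 = p`, velocity `v`. By `surj`, `γ t = gr p T g (Pr (γ t - p)) = p + Pr (γ t - p) + g (Pr (γ t - p))` for small `t`; the derivative at `0` is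
`v = Pr v + Dg(0) (Pr v) = Pr v`, so `v ∈ T`.
`tan_eq`: `⊆`: `velocity`; `⊇`: the curve `t ↦ gr p T g (t • Z)` lies in `X` for small `t` (`mem`), passes through `p` and has the velocity `Z`.
`unique`: for `y` near `0`, `x = gr p T g y` is in `X` (`mem`) and near `p`, so by `surj` for `g'`: `x = gr p T g' (Pr (x - p)) = gr p T g' y` (`proj_gr`): `g y = g' y`.
`D2_unique`: `D2_congr`. `nd_iff`: `→` clear; `←`: another chart `(T', g')` has `T' = tan X p = T` (`subst`), and then `D2 g' 0 = D2 g 0`. `kerH_unique`: the same.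
-/

set_option autoImplicit false

open scoped Topology ContDiff RealInnerProductSpace
open Filter Set

namespace TotFoc

variable {E : Type*} [NormedAddCommGroup E] [InnerProductSpace ℝ E] [FiniteDimensional ℝ E]
  {r : ℕ∞ω} {X : Set E} {p : E} {T T' : Submodule ℝ E} {g : T → E}

theorem proj_gr (hp : ∀ y, g y ∈ Tᗮ) (y : T) : T.orthogonalProjectionOnto (gr p T g y - p) = y := by
  have e : gr p T g y - p = (y : E) + g y := by
    unfold gr
    abel
  rw [e, map_add, Submodule.orthogonalProjectionOnto_mem_subspace_eq_self,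
    Submodule.orthogonalProjectionOnto_apply_of_mem_orthogonal (hp y), add_zero]

theorem Chart.gr_zero (h : Chart r X p T g) : gr p T g 0 = p := by
  simp [gr, h.zero]

theorem Chart.mem_self (h : Chart r X p T g) : p ∈ X := by
  have h1 := h.mem.self_of_nhds
  rwa [h.gr_zero] at h1

theorem Chart.contDiffAt_gr (h : Chart r X p T g) : ContDiffAt ℝ r (gr p T g) 0 :=
  (contDiffAt_const.add T.subtypeL.contDiff.contDiffAt).add h.smooth

theorem hasFDerivAt_gr {y : T} (h : DifferentiableAt ℝ g y) :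
    HasFDerivAt (gr p T g) (T.subtypeL + fderiv ℝ g y) y :=
  ((T.subtypeL.hasFDerivAt).const_add p).add h.hasFDerivAt

theorem Tan_diff (h : Chart r X p T g) (h1 : 1 ≤ r) : DifferentiableAt ℝ g 0 :=
  h.smooth.differentiableAt (by
    intro h0
    rw [h0] at h1
    simp at h1)

theorem Chart.hasFDerivAt_gr_zero (h : Chart r X p T g) (h1 : 1 ≤ r) :
    HasFDerivAt (gr p T g) T.subtypeL 0 := by
  have h2 := hasFDerivAt_gr (p := p) (Tan_diff h h1)
  rwa [h.der, add_zero] at h2

/-- derivatives of functions with values in `Tᗮ` -/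
theorem fderiv_mem_orth (hp : ∀ y, g y ∈ Tᗮ) (y Z : T) : fderiv ℝ g y Z ∈ Tᗮ := by
  by_cases hd : DifferentiableAt ℝ g y
  · rw [Submodule.mem_orthogonal]
    intro w hw
    have h1 : HasFDerivAt (fun y => (innerSL ℝ w) (g y)) ((innerSL ℝ w).comp (fderiv ℝ g y)) y :=
      (innerSL ℝ w).hasFDerivAt.comp y hd.hasFDerivAt
    have h2 : (fun y => (innerSL ℝ w) (g y)) = fun _ => (0 : ℝ) := by
      funext y
      exact Submodule.inner_right_of_mem_orthogonal hw (hp y)
    rw [h2] at h1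
    have h3 := h1.unique (hasFDerivAt_const (0 : ℝ) y)
    have h4 := congrArg (fun L : T →L[ℝ] ℝ => L Z) h3
    simpa using h4
  · rw [fderiv_zero_of_not_differentiableAt hd]
    exact Submodule.zero_mem _

theorem D2_mem_orth (hp : ∀ y, g y ∈ Tᗮ) (y Z Z' : T) : D2 g y Z Z' ∈ Tᗮ := by
  by_cases hd : DifferentiableAt ℝ (fderiv ℝ g) y
  · have h1 : HasFDerivAt (fun y => fderiv ℝ g y Z') ((fderiv ℝ (fderiv ℝ g) y).flip Z') y := by
      have := hd.hasFDerivAt.clm_apply (hasFDerivAt_const Z' y)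
      simpa using this
    have h2 := fderiv_mem_orth (g := fun y => fderiv ℝ g y Z')
      (fun y => fderiv_mem_orth hp y Z') y Z
    rw [h1.fderiv] at h2
    exact h2
  · unfold D2
    rw [fderiv_zero_of_not_differentiableAt hd]
    exact Submodule.zero_mem _

theorem Chart.velocity (h : Chart r X p T g) (h1 : 1 ≤ r) {γ : ℝ → E} {v : E} (h0 : γ 0 = p)
    (hv : HasDerivAt γ v 0) (hm : ∀ᶠ t in 𝓝 (0 : ℝ), γ t ∈ X) : v ∈ T := by
  have hc : Tendsto γ (𝓝 0) (𝓝 p) := by
    have := hv.continuousAt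
    rw [ContinuousAt, h0] at this
    exact this
  have hy : HasDerivAt (fun t => T.orthogonalProjectionOnto (γ t - p))
      (T.orthogonalProjectionOnto v) 0 :=
    HasFDerivAt.comp_hasDerivAt (0 : ℝ) (T.orthogonalProjectionOnto).hasFDerivAt (hv.sub_const p)
  have hy0 : T.orthogonalProjectionOnto (γ 0 - p) = 0 := by
    rw [h0, sub_self, map_zero]
  have h2 : HasFDerivAt (gr p T g) T.subtypeL (T.orthogonalProjectionOnto (γ 0 - p)) := by
    rw [hy0]
    exact h.hasFDerivAt_gr_zero h1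
  have h3 : HasDerivAt (fun t => gr p T g (T.orthogonalProjectionOnto (γ t - p)))
      (T.subtypeL (T.orthogonalProjectionOnto v)) 0 := by
    have := HasFDerivAt.comp_hasDerivAt (l := gr p T g)
      (f := fun t => T.orthogonalProjectionOnto (γ t - p)) (0 : ℝ) h2 hy
    exact this
  have h4 : γ =ᶠ[𝓝 0] fun t => gr p T g (T.orthogonalProjectionOnto (γ t - p)) := by
    filter_upwards [hc.eventually h.surj, hm] with t h5 h6
    exact (h5 h6).symm
  have h5 := hv.unique (h3.congr_of_eventuallyEq h4)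
  rw [h5]
  exact (T.orthogonalProjectionOnto v).2

theorem Chart.tan_eq (h : Chart r X p T g) (h1 : 1 ≤ r) : tan X p = T := by
  apply le_antisymm
  · unfold tan
    rw [Submodule.span_le]
    rintro v ⟨γ, h0, hv, hm⟩
    exact h.velocity h1 h0 hv hm
  · intro Z hZ
    apply Submodule.subset_span
    have hl : HasDerivAt (fun t : ℝ => t • (⟨Z, hZ⟩ : T)) (⟨Z, hZ⟩ : T) 0 := by
      have := (hasDerivAt_id (0 : ℝ)).smul_const (⟨Z, hZ⟩ : T)
      simpa using this
    refine ⟨fun t => gr p T g (t • (⟨Z, hZ⟩ : T)), ?_, ?_, ?_⟩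
    · simp only [zero_smul]
      exact h.gr_zero
    · have h2 : HasFDerivAt (gr p T g) T.subtypeL ((0 : ℝ) • (⟨Z, hZ⟩ : T)) := by
        rw [zero_smul]
        exact h.hasFDerivAt_gr_zero h1
      exact HasFDerivAt.comp_hasDerivAt (0 : ℝ) h2 hl
    · have h3 : Tendsto (fun t : ℝ => t • (⟨Z, hZ⟩ : T)) (𝓝 0) (𝓝 0) := by
        have := hl.continuousAt
        rw [ContinuousAt, zero_smul] at this
        exact this
      exact h3.eventually h.mem

theorem Chart.unique {g' : T → E} (h : Chart r X p T g) (h' : Chart r X p T g') :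
    ∀ᶠ y in 𝓝 (0 : T), g y = g' y := by
  have hc : Tendsto (gr p T g) (𝓝 0) (𝓝 p) := by
    have := h.contDiffAt_gr.continuousAt
    rw [ContinuousAt, h.gr_zero] at this
    exact this
  filter_upwards [h.mem, hc.eventually h'.surj] with y h1 h2
  have h3 := h2 h1
  rw [proj_gr h.perp] at h3
  unfold gr at h3
  exact (add_left_cancel h3).symm

theorem Chart.D2_unique {g' : T → E} (h : Chart r X p T g) (h' : Chart r X p T g') :
    D2 g 0 = D2 g' 0 := D2_congr (h.unique h')

theorem Chart.nd_iff (h : Chart r X p T g) (h1 : 1 ≤ r) {c : ℝ} {a : E} :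
    ND r X c a p ↔ ∀ Z : T, (∀ Z' : T, hs T g c (c • p - a) Z Z' = 0) → Z = 0 := by
  constructor
  · intro hN
    exact hN T g h
  · intro hN T' g' h'
    have hT : T' = T := (h'.tan_eq h1).symm.trans (h.tan_eq h1)
    subst hT
    intro Z hZ
    apply hN Z
    intro Z'
    have := hZ Z'
    unfold hs at this ⊢
    rw [h.D2_unique h']
    exact this

theorem Chart.crit_iff (h : Chart r X p T g) (h1 : 1 ≤ r) {c : ℝ} {a : E} :
    Crit X c a p ↔ c • p - a ∈ Tᗮ := by
  unfold Crit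
  rw [h.tan_eq h1]
  exact ⟨fun k => k.2, fun k => ⟨h.mem_self, k⟩⟩

/-- two charts: the same tangent space, and the same Hessian -/
theorem Chart.hs_unique {g' : T' → E} (h : Chart r X p T g) (h' : Chart r X p T' g') (h1 : 1 ≤ r) :
    T = T' ∧ ∀ (c : ℝ) (v Z Z' : E) (hZ : Z ∈ T) (hZ' : Z' ∈ T) (kZ : Z ∈ T') (kZ' : Z' ∈ T'),
      hs T g c v ⟨Z, hZ⟩ ⟨Z', hZ'⟩ = hs T' g' c v ⟨Z, kZ⟩ ⟨Z', kZ'⟩ := by
  have hT : T = T' := (h.tan_eq h1).symm.trans (h'.tan_eq h1)
  refine ⟨hT, ?_⟩
  subst hT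
  intro c v Z Z' hZ hZ' kZ kZ'
  unfold hs
  rw [h.D2_unique h']

/-- the Hessian is symmetric -/
theorem Chart.hs_symm (h : Chart r X p T g) (h2 : 2 ≤ r) (c : ℝ) (v : E) (Z Z' : T) :
    hs T g c v Z Z' = hs T g c v Z' Z := by
  unfold hs
  rw [real_inner_comm, D2_symm (h.smooth.of_le h2)]

/-- monotonicity -/
theorem tan_mono {Y : Set E} (h : ∀ᶠ x in 𝓝 p, x ∈ X → x ∈ Y) : tan X p ≤ tan Y p := by
  unfold tan
  apply Submodule.span_mono
  rintro v ⟨γ, h0, hv, hm⟩
  refine ⟨γ, h0, hv, ?_⟩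
  have hc : Tendsto γ (𝓝 0) (𝓝 p) := by
    have := hv.continuousAt
    rw [ContinuousAt, h0] at this
    exact this
  filter_upwards [hm, hc.eventually h] with t h1 h2 using h2 h1

theorem tan_congr {Y : Set E} (h : ∀ᶠ x in 𝓝 p, x ∈ X ↔ x ∈ Y) : tan X p = tan Y p :=
  le_antisymm (tan_mono (h.mono fun _ hx => hx.1)) (tan_mono (h.mono fun _ hx => hx.2))

end TotFoc
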