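import Pool.Agent.H49.TF.Kappa
import Pool.Agent.H49.TF.Touch

/-!
# TBP: the set of double normals is open where the leaf directions span the tangent space

Take a chart `(T, g)` at `p` (`φ = gr p T g`, `Pr = T.orthogonalProjectionOnto`) and `κ` from `kappa_PP` for `(p, q)`. For `y` near `0` everything near `p` holds at `φ y`. Let
`D = {y | Dn X (φ y) (κ (φ y))}` and let `O` be a small open ball around `0`: for `y ∈ O`: `mem`, `surj`, `near_tan`, `near_cont` hold near `y`, `κ` is differentiable at `φ y`, `(φ y, κ (φ y))`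
is in the neighbourhood of `(p, q)` in which uniqueness (last statement of `kappa_PP`) and `hs` hold.
`D` is closed in `O`: `κ ∘ φ` is continuous on `O`, and `Dn` is a closed condition (`isClosed_crit`: `Dn X s t` means `s ∈ X`, `Crit X 1 s t`, `Crit X 1 t s`, `t ∈ X`).
Spanning condition at `y ∈ D ∩ O`, `x = φ y`: a leaf direction `Z` is given by `γ`, `δ` with `γ 0 = x`, `δ 0 = κ x`, `Dn X (γ t) (δ t)` for small `t`. By uniqueness `δ t = κ (γ t)` for small `t`
(`γ` and `δ` are continuous at `0`). So `t ↦ Pr (γ t - p)` is a curve in `D` (`γ t = φ (Pr (γ t - p))` by `surj`) with velocity `Pr Z`. By `hs` the span of the velocities contains `Pr (tan X x)`,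
and `Pr (Z + Dg(y) Z) = Z` for `Z ∈ T` (`near_tan`, `fderiv_mem_orth`), so it is everything. `touch`: `D ∩ O` is open, `0 ∈ D ∩ O`. If `x = (x.1, x.2)` is near `(p, q)` and `PP X x.1 x.2`, then
`x.1 = φ y` with `y = Pr (x.1 - p) ∈ D`, `x.2 = κ x.1`: `Dn X x.1 x.2`.
-/

set_option autoImplicit false

open scoped Topology ContDiff RealInnerProductSpace
open Filter Set

namespace TotFoc

variable {E : Type*} [NormedAddCommGroup E] [InnerProductSpace ℝ E] [FiniteDimensional ℝ E]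
  {r : ℕ∞ω} {X : Set E}

theorem Tbp_closed (h : IsSub r X) (h1 : 1 ≤ r) : IsClosed {w : E × E | Dn X w.1 w.2} := by
  have hc : IsClosed (PX X) := (isCompact_PX h h1).isClosed
  have h2 : {w : E × E | Dn X w.1 w.2} = PX X ∩ Prod.swap ⁻¹' PX X := by
    ext w
    rfl
  rw [h2]
  exact hc.inter (hc.preimage continuous_swap)

theorem tbp (hr : ∞ ≤ r) (h : IsSub r X) (h1 : TF1 r X) {p q : E} (hd : Dn X p q)
    (hs : ∀ᶠ w : E × E in 𝓝 (p, q), Dn X w.1 w.2 →
      tan X w.1 ≤ Submodule.span ℝ (LeafDir X w.1 w.2)) :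
    ∀ᶠ w : E × E in 𝓝 (p, q), PP X w.1 w.2 → Dn X w.1 w.2 := by
  have hr1 : (1 : ℕ∞ω) ≤ r := by
    refine le_trans ?_ hr
    have : ((1 : ℕ∞) : ℕ∞ω) ≤ ((⊤ : ℕ∞) : ℕ∞ω) := WithTop.coe_le_coe.mpr le_top
    exact this
  obtain ⟨T, g, hch, -⟩ := h.2 p hd.1.1
  obtain ⟨κ, hκc, hκp, hκ3, hκ4⟩ := kappa_PP hr h h1 hd.1
  have hgr : Tendsto (gr p T g) (𝓝 0) (𝓝 p) := hch.tendsto_gr
  have hκt : Tendsto κ (𝓝 p) (𝓝 q) := by
    have := hκc.tendsto
    rwa [hκp] at this
  have hpair : Tendsto (fun y : T => (gr p T g y, κ (gr p T g y))) (𝓝 0) (𝓝 (p, q)) :=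
    hgr.prodMk_nhds (hκt.comp hgr)
  have hall : ∀ᶠ y in 𝓝 (0 : T),
      ((gr p T g y ∈ X ∧ ∀ᶠ z in 𝓝 y, gr p T g z ∈ X) ∧
      (∀ v : E, v ∈ tan X (gr p T g y) ↔ ∃ Z : T, v = Z + fderiv ℝ g y Z)) ∧
      (ContinuousAt (gr p T g) y ∧ DifferentiableAt ℝ κ (gr p T g y)) ∧
      (∀ᶠ x : E × E in 𝓝 (gr p T g y, κ (gr p T g y)), PP X x.1 x.2 → x.2 = κ x.1) ∧
      (Dn X (gr p T g y) (κ (gr p T g y)) →
        tan X (gr p T g y) ≤ Submodule.span ℝ (LeafDir X (gr p T g y) (κ (gr p T g y)))) ∧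
      (∀ᶠ x in 𝓝 (gr p T g y), x ∈ X →
        gr p T g (T.orthogonalProjectionOnto (x - p)) = x) := by
    filter_upwards [hch.near_mem, hch.near_tan hr1,
      hch.near_cont (n := 1) (by exact_mod_cast hr1), hgr.eventually hκ3,
      hpair.eventually hκ4.eventually_nhds, hpair.eventually hs,
      hgr.eventually hch.surj.eventually_nhds] with y e1 e2 e3 e4 e5 e6 e7
    exact ⟨⟨e1, e2⟩, ⟨e3.2.continuousAt, e4.1⟩, e5, e6, e7⟩
  obtain ⟨O, hO1, hO2, hO3⟩ := mem_nhds_iff.1 hall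
  set D : Set T := {y | Dn X (gr p T g y) (κ (gr p T g y))} with hDdef
  have hDcl : ∀ y ∈ O, y ∈ closure D → y ∈ D := by
    intro y hy hyc
    obtain ⟨-, ⟨hc1, hc2⟩, -⟩ := hO1 hy
    have hf : ContinuousAt (fun z : T => (gr p T g z, κ (gr p T g z))) y :=
      hc1.prodMk (ContinuousAt.comp (g := κ) (f := gr p T g) hc2.continuousAt hc1)
    have h3 : (gr p T g y, κ (gr p T g y)) ∈ closure {w : E × E | Dn X w.1 w.2} :=
      hf.continuousWithinAt.mem_closure hyc (fun z hz => hz)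
    rw [(Tbp_closed h hr1).closure_eq] at h3
    exact h3
  have hspan : ∀ y ∈ D ∩ O, Submodule.span ℝ {v | ∃ γ : ℝ → T, γ 0 = y ∧ HasDerivAt γ v 0 ∧
      ∀ᶠ t in 𝓝 (0 : ℝ), γ t ∈ D} = ⊤ := by
    rintro y ⟨hyD, hyO⟩
    obtain ⟨⟨-, htan⟩, ⟨hc1, hc2⟩, huniq, hleaf, hsurj⟩ := hO1 hyO
    have hsub : T.orthogonalProjectionOnto '' (LeafDir X (gr p T g y) (κ (gr p T g y))) ⊆
        {v | ∃ γ : ℝ → T, γ 0 = y ∧ HasDerivAt γ v 0 ∧ ∀ᶠ t in 𝓝 (0 : ℝ), γ t ∈ D} := by
      rintro - ⟨Z, ⟨γ, δ, hγ0, hγ, hδ0, hδ, hdn⟩, rfl⟩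
      refine ⟨fun t => T.orthogonalProjectionOnto (γ t - p), ?_, ?_, ?_⟩
      · show T.orthogonalProjectionOnto (γ 0 - p) = y
        rw [hγ0, proj_gr hch.perp]
      · exact (T.orthogonalProjectionOnto.hasFDerivAt (x := γ 0 - p)).comp_hasDerivAt (0 : ℝ)
          (hγ.sub_const p)
      · have ht1 : Tendsto γ (𝓝 0) (𝓝 (gr p T g y)) := by
          have := hγ.continuousAt.tendsto
          rwa [hγ0] at this
        have ht2 : Tendsto δ (𝓝 0) (𝓝 (κ (gr p T g y))) := by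
          have := hδ.tendsto
          rwa [hδ0] at this
        filter_upwards [hdn, ht1.eventually hsurj, (ht1.prodMk_nhds ht2).eventually huniq]
          with t k1 k2 k3
        have k4 := k2 k1.1.1
        have k5 : δ t = κ (γ t) := k3 k1.1
        show Dn X (gr p T g (T.orthogonalProjectionOnto (γ t - p)))
          (κ (gr p T g (T.orthogonalProjectionOnto (γ t - p))))
        rw [k4, ← k5]
        exact k1
    rw [eq_top_iff]
    rintro W -
    have hZ : (W : E) + fderiv ℝ g y W ∈ tan X (gr p T g y) := (htan _).2 ⟨W, rfl⟩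
    have hZ2 := hleaf hyD hZ
    have hZ3 : (T.orthogonalProjectionOnto : E →ₗ[ℝ] T) ((W : E) + fderiv ℝ g y W) ∈
        (Submodule.span ℝ (LeafDir X (gr p T g y) (κ (gr p T g y)))).map
          (T.orthogonalProjectionOnto : E →ₗ[ℝ] T) := Submodule.mem_map_of_mem hZ2
    rw [Submodule.map_span] at hZ3
    have hZ4 := Submodule.span_mono (R := ℝ) hsub hZ3
    have hW : (T.orthogonalProjectionOnto : E →ₗ[ℝ] T) ((W : E) + fderiv ℝ g y W) = W := by
      show T.orthogonalProjectionOnto ((W : E) + fderiv ℝ g y W) = W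
      rw [map_add, Submodule.orthogonalProjectionOnto_mem_subspace_eq_self,
        Submodule.orthogonalProjectionOnto_apply_of_mem_orthogonal
          (fderiv_mem_orth hch.perp y W), add_zero]
    rw [hW] at hZ4
    exact hZ4
  have hopen := touch hO2 hDcl hspan
  have h0D : (0 : T) ∈ D := by
    show Dn X (gr p T g 0) (κ (gr p T g 0))
    rw [hch.gr_zero, hκp]
    exact hd
  have hproj : Tendsto (fun w : E × E => T.orthogonalProjectionOnto (w.1 - p)) (𝓝 (p, q))
      (𝓝 (0 : T)) := by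
    have h2 : Continuous (fun w : E × E => T.orthogonalProjectionOnto (w.1 - p)) := by fun_prop
    have h3 := h2.tendsto (p, q)
    simpa using h3
  have hfst : Tendsto (fun w : E × E => w.1) (𝓝 (p, q)) (𝓝 p) := continuous_fst.tendsto _
  filter_upwards [hproj.eventually (hopen.mem_nhds ⟨h0D, hO3⟩), hfst.eventually hch.surj, hκ4]
    with w k1 k2 k3 k4
  have k5 := k2 k4.1
  have k6 : Dn X (gr p T g (T.orthogonalProjectionOnto (w.1 - p)))
      (κ (gr p T g (T.orthogonalProjectionOnto (w.1 - p)))) := k1.1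
  rw [k5, ← k3 k4] at k6
  exact k6

end TotFoc
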