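import Pool.Agent.H49.TF.SphAlt
import Pool.Agent.H49.TF.LinTan
import Pool.Agent.H49.TF.LeafGen

/-!
# THM: the theorem `TH`
-/

set_option autoImplicit false

open scoped Topology ContDiff RealInnerProductSpace
open Filter Set

namespace TotFoc

variable {E : Type*} [NormedAddCommGroup E] [InnerProductSpace ℝ E] [FiniteDimensional ℝ E]
  {r : ℕ∞ω} {X : Set E}

theorem Dn.symm {p q : E} (h : Dn X p q) : Dn X q p := ⟨h.2, h.1⟩

theorem th_sph (hr : ∞ ≤ r) (hb : BottAll r E) (o : E) : ∀ X : Set E, IsSub r X → TFx r X →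
    Sph X o → TH X := by
  have key : ∀ L : Submodule ℝ E, ∀ X : Set E, Lx X = L → IsSub r X → TFx r X → Sph X o → TH X := by
    intro L
    induction L using (IsWellFounded.wf : WellFounded
      (fun x y : Submodule ℝ E => x > y)).induction with
    | h L ih =>
      intro X hL hX hf hs
      have ih' : ∀ S : Set E, IsSub r S → TFx r S → Sph S o → Lx X < Lx S → TH S := by
        intro S h1 h2 h3 h4
        exact ih (Lx S) (hL ▸ h4) S rfl h1 h2 h3
      have key2 : ∀ p q, PP X p q → PP X q p ∧ tan X p ≤ tan X q := by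
        intro p q hpq
        rcases sph_alt hr hb hX hf hs ih' (z := (p, q)) hpq with h | ⟨μ, hμ, h⟩
        · have h1 := h (p, q) (mem_connectedComponentIn hpq)
          exact ⟨h1.1.2, (leaf_sph_all hr hb hX hf hs ih' h1.1 h1.2).2⟩
        · have h1 := h (p, q) (mem_connectedComponentIn hpq)
          refine ⟨?_, lin_tan hr hX hf.tf1 hpq hμ h⟩
          refine ⟨hpq.2.1, hpq.1, ?_⟩
          have h2 : q - o - μ • (p - o) ∈ (tan X p)ᗮ := lx_le hpq.1 h1
          have h3 := hs p hpq.1
          have h4 : (1 : ℝ) • p - q = (1 - μ) • (p - o) - (q - o - μ • (p - o)) := by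
            module
          rw [h4]
          exact Submodule.sub_mem _ (Submodule.smul_mem _ _ h3) h2
      intro p q hpq
      have h1 := key2 p q hpq
      have h2 := key2 q p h1.1
      exact ⟨h1.1, le_antisymm h1.2 h2.2⟩
  intro X
  exact key (Lx X) X rfl

theorem gen_alt (hr : ∞ ≤ r) (hb : BottAll r E) (hX : IsSub r X) (hf : TFx r X)
    (ih : ∀ S : Set E, IsSub r S → TFx r S → Lx X < Lx S → TH S) {z : E × E} (hz : z ∈ PX X) :
    (∀ w ∈ connectedComponentIn (PX X) z, Dn X w.1 w.2 ∧ Gd (Lx X) w.1 w.2 ≠ 0) ∨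
    ∀ w ∈ connectedComponentIn (PX X) z, w.1 - w.2 ∈ Lx X := by
  obtain ⟨w₀, hw₀, hmax⟩ := comp_max (isCompact_PX hX (le_trans (by norm_num) hr)) hz
    (continuous_Gd (Lx X))
  by_cases h0 : Gd (Lx X) w₀.1 w₀.2 = 0
  · right
    intro w hw
    have h1 := hmax w hw
    have h2 : 0 ≤ Gd (Lx X) w.1 w.2 := sq_nonneg _
    exact Gd_eq_zero_iff.1 (le_antisymm (h0 ▸ h1) h2)
  · left
    have h2 : 0 ≤ Gd (Lx X) w₀.1 w₀.2 := sq_nonneg _
    have h3 := alt hr hX hf.tf1 le_rfl (z := z) (O := Ioi 0) isOpen_Ioi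
      (fun w _ hd hO => (leaf_gen hr hb hX hf (fun S o => th_sph hr hb o S) ih hd
        (ne_of_gt hO)).1) hw₀ (lt_of_le_of_ne h2 (Ne.symm h0)) (Or.inl hmax)
    intro w hw
    have h4 := h3 w hw
    exact ⟨h4.2, h4.1 ▸ h0⟩

theorem th (hr : ∞ ≤ r) (hb : BottAll r E) : ∀ X : Set E, IsSub r X → TFx r X → TH X := by
  have key : ∀ L : Submodule ℝ E, ∀ X : Set E, Lx X = L → IsSub r X → TFx r X → TH X := by
    intro L
    induction L using (IsWellFounded.wf : WellFounded
      (fun x y : Submodule ℝ E => x > y)).induction with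
    | h L ih =>
      intro X hL hX hf
      have ih' : ∀ S : Set E, IsSub r S → TFx r S → Lx X < Lx S → TH S := by
        intro S h1 h2 h4
        exact ih (Lx S) (hL ▸ h4) S rfl h1 h2
      have key2 : ∀ p q, PP X p q → PP X q p ∧ tan X p ≤ tan X q := by
        intro p q hpq
        rcases gen_alt hr hb hX hf ih' (z := (p, q)) hpq with h | h
        · have h1 := h (p, q) (mem_connectedComponentIn hpq)
          exact ⟨h1.1.2, (leaf_gen hr hb hX hf (fun S o => th_sph hr hb o S) ih' h1.1 h1.2).2⟩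
        · have h1 := h (p, q) (mem_connectedComponentIn hpq)
          refine ⟨?_, lin_tan hr hX hf.tf1 hpq (μ := 1) one_ne_zero (o := 0) ?_⟩
          · refine ⟨hpq.2.1, hpq.1, ?_⟩
            have h2 : p - q ∈ (tan X p)ᗮ := lx_le hpq.1 h1
            rw [one_smul]
            exact h2
          · intro w hw
            have h2 := Submodule.neg_mem _ (h w hw)
            have h3 : w.2 - 0 - (1 : ℝ) • (w.1 - 0) = -(w.1 - w.2) := by
              module
            rw [h3]
            exact h2
      intro p q hpq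
      have h1 := key2 p q hpq
      have h2 := key2 q p h1.1
      exact ⟨h1.1, le_antisymm h1.2 h2.2⟩
  intro X
  exact key (Lx X) X rfl

end TotFoc
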