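import Pool.Agent.H49.TF.DerG

/-!
# THK: consequences of `TH`

`κ` from `deriv_G` (with `L = ⊥`; `⊥ ≤ Lx S`). `TH S` says `PP S s t → Dn S s t` for all `s`, `t`. So `Dn S s (κ s)` for `s ∈ S` near `p`, and `dist_const` with `L = ⊥` (`Gd_bot`) gives
`‖s - κ s‖ = ‖p - q‖` (the point `(s, κ s)` is near `(p, q)`). `lx_const` and `sph_const` at `p` and at `q` (`κ s ∈ S` is near `q`). Charts at `p ∈ S` and `q ∈ S` exist by `IsSub`.
-/

set_option autoImplicit false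

open scoped Topology ContDiff RealInnerProductSpace
open Filter Set

namespace TotFoc

variable {E : Type*} [NormedAddCommGroup E] [InnerProductSpace ℝ E] [FiniteDimensional ℝ E]
  {r : ℕ∞ω} {S : Set E}

theorem th_kappa (hr : ∞ ≤ r) (h : IsSub r S) (h1 : TF1 r S) (hth : TH S) {p q : E}
    (hpq : PP S p q) (o : E) :
    ∃ κ : E → E, ContinuousAt κ p ∧ κ p = q ∧ ∀ᶠ s in 𝓝 p, s ∈ S → Dn S s (κ s) ∧
      ‖s - κ s‖ = ‖p - q‖ ∧ (Lx S).starProjection s = (Lx S).starProjection p ∧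
      (Lx S).starProjection (κ s) = (Lx S).starProjection q ∧
      (Sph S o → ‖s - o‖ = ‖p - o‖ ∧ ‖κ s - o‖ = ‖q - o‖) := by
  have hr1 : 1 ≤ r := by
    refine le_trans ?_ hr
    have : ((1 : ℕ∞) : ℕ∞ω) ≤ ((⊤ : ℕ∞) : ℕ∞ω) := WithTop.coe_le_coe.mpr le_top
    exact this
  obtain ⟨κ, k1, k2, k3, -, -⟩ := deriv_G hr h h1 (L := ⊥) bot_le hpq
  have hdc := dist_const hr h h1 (L := ⊥) bot_le hpq
    (Eventually.of_forall (fun x hx => ⟨hx, (hth _ _ hx).1⟩))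
  have ht : Tendsto κ (𝓝 p) (𝓝 q) := by
    have := k1.tendsto
    rwa [k2] at this
  have htp : Tendsto (fun s => (s, κ s)) (𝓝 p) (𝓝 (p, q)) := tendsto_id.prodMk_nhds ht
  obtain ⟨T, g, hc, -⟩ := h.2 p hpq.1
  obtain ⟨T', g', hc', -⟩ := h.2 q hpq.2.1
  have hsp : ∀ᶠ s in 𝓝 p, s ∈ S → Sph S o → ‖s - o‖ = ‖p - o‖ := by
    by_cases hs : Sph S o
    · filter_upwards [sph_const hc hr1 hs] with s hs1 hs2 _
      exact hs1 hs2
    · exact Eventually.of_forall (fun s _ h3 => absurd h3 hs)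
  have hsq : ∀ᶠ s in 𝓝 q, s ∈ S → Sph S o → ‖s - o‖ = ‖q - o‖ := by
    by_cases hs : Sph S o
    · filter_upwards [sph_const hc' hr1 hs] with s hs1 hs2 _
      exact hs1 hs2
    · exact Eventually.of_forall (fun s _ h3 => absurd h3 hs)
  refine ⟨κ, k1, k2, ?_⟩
  filter_upwards [k3, htp.eventually hdc, lx_const hc hr1, ht.eventually (lx_const hc' hr1), hsp,
    ht.eventually hsq] with s a1 a2 a3 a4 a5 a6 hs
  have hPP := a1 hs
  have hDn : Dn S s (κ s) := ⟨hPP, (hth _ _ hPP).1⟩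
  have hκ : κ s ∈ S := hPP.2.1
  have hG := a2 hPP
  rw [Gd_bot, Gd_bot] at hG
  have hn : ‖s - κ s‖ = ‖p - q‖ := by
    have := congrArg Real.sqrt hG
    rwa [Real.sqrt_sq (norm_nonneg _), Real.sqrt_sq (norm_nonneg _)] at this
  exact ⟨hDn, hn, a3 hs, a4 hκ, fun h3 => ⟨a5 hs h3, a6 hκ h3⟩⟩

end TotFoc
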